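import Pool.Agent.Lib.MP_8519b0_al.Spec

/-!
# Module ACT: the self-similar action defined by a virtual endomorphism
-/

set_option autoImplicit false

namespace Pool.Agent.Lib.MP8519b0

namespace ACTM

/-- the action on words with the sections `σ` -/
def act {m : ℕ} (α : G →* Equiv.Perm (Fin m)) (σ : G → Fin m → G) :
    List (Fin m) → G → List (Fin m)
  | [], _ => []
  | x :: w, g => α g x :: act α σ w (σ g x)

theorem act_one {m : ℕ} {α : G →* Equiv.Perm (Fin m)} {σ : G → Fin m → G}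
    (h1 : ∀ x, σ 1 x = 1) (w : List (Fin m)) : act α σ w 1 = w := by
  induction w with
  | nil => rfl
  | cons x w ih =>
    show α 1 x :: act α σ w (σ 1 x) = x :: w
    rw [h1, ih, map_one]
    rfl

theorem act_mul {m : ℕ} {α : G →* Equiv.Perm (Fin m)} {σ : G → Fin m → G}
    (h2 : ∀ g g' x, σ (g * g') x = σ g (α g' x) * σ g' x) (w : List (Fin m)) :
    ∀ g g' : G, act α σ w (g * g') = act α σ (act α σ w g') g := by
  induction w with
  | nil => intro g g'; rfl
  | cons x w ih =>
    intro g g'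
    show α (g * g') x :: act α σ w (σ (g * g') x) =
      α g (α g' x) :: act α σ (act α σ w (σ g' x)) (σ g (α g' x))
    rw [h2, ih, map_mul]
    rfl

/-- the homomorphism -/
def hom {m : ℕ} (α : G →* Equiv.Perm (Fin m)) (σ : G → Fin m → G)
    (h1 : ∀ x, σ 1 x = 1) (h2 : ∀ g g' x, σ (g * g') x = σ g (α g' x) * σ g' x) :
    G →* Equiv.Perm (List (Fin m)) :=
  MonoidHom.mk' (fun g =>
    { toFun := fun w => act α σ w g
      invFun := fun w => act α σ w g⁻¹
      left_inv := fun w => by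
        show act α σ (act α σ w g) g⁻¹ = w
        rw [← act_mul h2, inv_mul_cancel, act_one h1]
      right_inv := fun w => by
        show act α σ (act α σ w g⁻¹) g = w
        rw [← act_mul h2, mul_inv_cancel, act_one h1] })
    (fun g g' => Equiv.ext fun w => act_mul h2 w g g')

end ACTM

open ACTM in
/-- the module ACT -/
theorem specACT : SpecACT := by
  classical
  intro m α htr x₀ H hH φ
  choose t' ht' using fun x => htr x₀ x
  let t : Fin m → G := fun x => if x = x₀ then 1 else t' x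
  have ht0 : t x₀ = 1 := if_pos rfl
  have ht : ∀ x, α (t x) x₀ = x := by
    intro x
    by_cases hx : x = x₀
    · rw [hx, ht0, map_one]
      rfl
    · have h1 : t x = t' x := if_neg hx
      rw [h1, ht']
  have hmem : ∀ (g : G) (x : Fin m), (t (α g x))⁻¹ * g * t x ∈ H := by
    intro g x
    rw [hH, map_mul, map_mul, map_inv, Equiv.Perm.mul_apply, Equiv.Perm.mul_apply, ht x,
      Equiv.Perm.inv_eq_iff_eq]
    exact (ht _).symm
  let σ : G → Fin m → G := fun g x => φ ⟨(t (α g x))⁻¹ * g * t x, hmem g x⟩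
  have h1 : ∀ x, σ 1 x = 1 := by
    intro x
    have h3 : (⟨(t (α 1 x))⁻¹ * 1 * t x, hmem 1 x⟩ : H) = 1 := by
      apply Subtype.ext
      show (t (α 1 x))⁻¹ * 1 * t x = 1
      rw [map_one, Equiv.Perm.one_apply, mul_one, inv_mul_cancel]
    show φ ⟨(t (α 1 x))⁻¹ * 1 * t x, hmem 1 x⟩ = 1
    rw [h3, map_one]
  have h2 : ∀ g g' x, σ (g * g') x = σ g (α g' x) * σ g' x := by
    intro g g' x
    have h3 : (⟨(t (α (g * g') x))⁻¹ * (g * g') * t x, hmem (g * g') x⟩ : H) =
        ⟨(t (α g (α g' x)))⁻¹ * g * t (α g' x), hmem g (α g' x)⟩ *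
          ⟨(t (α g' x))⁻¹ * g' * t x, hmem g' x⟩ := by
      apply Subtype.ext
      show (t (α (g * g') x))⁻¹ * (g * g') * t x =
        ((t (α g (α g' x)))⁻¹ * g * t (α g' x)) * ((t (α g' x))⁻¹ * g' * t x)
      rw [map_mul, Equiv.Perm.mul_apply]
      group
    show φ ⟨(t (α (g * g') x))⁻¹ * (g * g') * t x, hmem (g * g') x⟩ = _
    rw [h3, map_mul]
  refine ⟨hom α σ h1 h2, ?_, ?_, ?_⟩
  · intro g x
    exact ⟨σ g x, α g x, fun w => rfl⟩
  · intro g x
    rfl
  · intro h w
    have hx : α (h : G) x₀ = x₀ := (hH h).1 h.2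
    have h3 : σ (h : G) x₀ = φ h := by
      have h4 : (⟨(t (α (h : G) x₀))⁻¹ * (h : G) * t x₀, hmem (h : G) x₀⟩ : H) = h := by
        apply Subtype.ext
        show (t (α (h : G) x₀))⁻¹ * (h : G) * t x₀ = (h : G)
        rw [hx, ht0, inv_one, one_mul, mul_one]
      show φ ⟨(t (α (h : G) x₀))⁻¹ * (h : G) * t x₀, hmem (h : G) x₀⟩ = φ h
      rw [h4]
    show α (h : G) x₀ :: act α σ w (σ (h : G) x₀) = x₀ :: act α σ w (φ h)
    rw [hx, h3]

end Pool.Agent.Lib.MP8519b0
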