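import Pool.Agent.Lib.MP_8519b0_al.Spec2

/-!
# MP_8519b0_al, module AUT: a finite generating set closed under sections makes the action
self-similar and finite-state
-/

set_option autoImplicit false

namespace Pool.Agent.Lib.MP8519b0

open Pointwise

namespace AUTM

variable {m : ℕ}

/-- a set of elements closed under sections -/
def Cl (ρ : G →* Equiv.Perm (List (Fin m))) (F : Set G) : Prop :=
  ∀ s ∈ F, ∀ x : Fin m, ∃ s' ∈ F, ∃ y : Fin m, ∀ w : List (Fin m), ρ s (x :: w) = y :: ρ s' w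

variable {ρ : G →* Equiv.Perm (List (Fin m))}

theorem app_inv (a : G) (w : List (Fin m)) : ρ a (ρ a⁻¹ w) = w := by
  rw [← Equiv.Perm.mul_apply, ← map_mul, mul_inv_cancel, map_one]
  rfl

theorem inv_app (a : G) (w : List (Fin m)) : ρ a⁻¹ (ρ a w) = w := by
  rw [← Equiv.Perm.mul_apply, ← map_mul, inv_mul_cancel, map_one]
  rfl

theorem cl_one : Cl ρ {1} := by
  intro s hs x
  rw [Set.mem_singleton_iff] at hs
  subst hs
  exact ⟨1, rfl, x, fun w => by simp⟩

theorem cl_mul {F F' : Set G} (h : Cl ρ F) (h' : Cl ρ F') : Cl ρ (F * F') := by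
  intro s hs x
  obtain ⟨a, ha, b, hb, rfl⟩ := Set.mem_mul.1 hs
  obtain ⟨b', hb', y, hy⟩ := h' b hb x
  obtain ⟨a', ha', z, hz⟩ := h a ha y
  refine ⟨a' * b', Set.mul_mem_mul ha' hb', z, fun w => ?_⟩
  rw [map_mul, map_mul, Equiv.Perm.mul_apply, hy, hz, Equiv.Perm.mul_apply]

theorem cl_inv {F : Set G} (h : Cl ρ F) : Cl ρ F⁻¹ := by
  intro s hs y0
  have ht : s⁻¹ ∈ F := Set.mem_inv.1 hs
  choose t' ht' y hy using h s⁻¹ ht
  have hinj : Function.Injective y := by
    intro x x' hxx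
    have h1 := hy x ((ρ (t' x)).symm (ρ (t' x') []))
    have h2 := hy x' []
    rw [Equiv.apply_symm_apply, hxx, ← h2] at h1
    have h3 := (ρ s⁻¹).injective h1
    exact (List.cons.inj h3).1
  obtain ⟨x, hx⟩ := (Finite.injective_iff_surjective.1 hinj) y0
  refine ⟨(t' x)⁻¹, Set.inv_mem_inv.2 (ht' x), x, fun w => ?_⟩
  have h1 := hy x (ρ (t' x)⁻¹ w)
  rw [app_inv, hx] at h1
  apply (ρ s⁻¹).injective
  rw [h1, inv_app]

/-- the subgroup of the elements which lie in a finite closed set -/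
def B (ρ : G →* Equiv.Perm (List (Fin m))) : Subgroup G where
  carrier := {g | ∃ F : Set G, F.Finite ∧ Cl ρ F ∧ g ∈ F}
  one_mem' := ⟨{1}, Set.finite_singleton 1, cl_one, rfl⟩
  mul_mem' := by
    rintro a b ⟨F, hF, hc, ha⟩ ⟨F', hF', hc', hb⟩
    exact ⟨F * F', hF.mul hF', cl_mul hc hc', Set.mul_mem_mul ha hb⟩
  inv_mem' := by
    rintro a ⟨F, hF, hc, ha⟩
    exact ⟨F⁻¹, hF.inv, cl_inv hc, Set.inv_mem_inv.2 ha⟩

theorem sec_mem (hρ : Function.Injective ρ) {F : Set G} (hc : Cl ρ F) :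
    ∀ (w : List (Fin m)) (g : G), g ∈ F → ∀ (h : G) (v : List (Fin m)), w.length = v.length →
      (∀ u : List (Fin m), ρ g (w ++ u) = v ++ ρ h u) → h ∈ F := by
  intro w
  induction w with
  | nil =>
    intro g hg h v hl hu
    have hv : v = [] := List.length_eq_zero_iff.1 hl.symm
    subst hv
    have : ρ g = ρ h := Equiv.ext fun u => by simpa using hu u
    rw [← hρ this]
    exact hg
  | cons x w ih =>
    intro g hg h v hl hu
    obtain ⟨s', hs', y, hy⟩ := hc g hg x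
    cases v with
    | nil => simp at hl
    | cons z v =>
      refine ih s' hs' h v (by simpa using hl) fun u => ?_
      have h1 := hu u
      rw [List.cons_append, hy, List.cons_append] at h1
      exact (List.cons.inj h1).2

end AUTM

theorem specAUT : SpecAUT := by
  intro m ρ hρ S hS hgen hcl
  have hB : AUTM.B ρ = ⊤ := by
    rw [eq_top_iff, ← hgen, Subgroup.closure_le]
    intro s hs
    exact ⟨S, hS, hcl, hs⟩
  have hall : ∀ g : G, ∃ F : Set G, F.Finite ∧ AUTM.Cl ρ F ∧ g ∈ F := fun g => by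
    have : g ∈ AUTM.B ρ := by rw [hB]; trivial
    exact this
  refine ⟨fun g x => ?_, fun g => ?_⟩
  · obtain ⟨F, -, hc, hg⟩ := hall g
    obtain ⟨s', -, y, hy⟩ := hc g hg x
    exact ⟨s', y, hy⟩
  · obtain ⟨F, hF, hc, hg⟩ := hall g
    refine hF.subset ?_
    rintro h ⟨w, v, hl, hu⟩
    exact AUTM.sec_mem hρ hc w g hg h v hl hu

end Pool.Agent.Lib.MP8519b0
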