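import Pool.Agent.Lib.MP_8519b0_al.Spec3

/-!
# MP_8519b0_al, module CJU: unimodular factors are inner automorphisms
-/

set_option autoImplicit false

namespace Pool.Agent.Lib.MP8519b0

namespace CJUM

theorem cm (g h : G) : ((g * h : G) : MZ) = (g : MZ) * (h : MZ) :=
  Matrix.SpecialLinearGroup.coe_mul g h

/-- cancel `A` on the right -/
theorem cancel {A B C : MZ} (hA : A.det ≠ 0) (h : B * A = C * A) : B = C := by
  have h1 : B * A * A.adjugate = C * A * A.adjugate := by rw [h]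
  rw [Matrix.mul_assoc, Matrix.mul_assoc, Matrix.mul_adjugate, Matrix.mul_smul, Matrix.mul_smul,
    Matrix.mul_one, Matrix.mul_one] at h1
  ext i j
  have h2 := congrFun (congrFun h1 i) j
  simp only [Matrix.smul_apply, smul_eq_mul] at h2
  exact mul_left_cancel₀ hA h2

theorem comm {A U B B' X : MZ} (hA : A.det ≠ 0) (h : B * A = A * X)
    (h' : B' * (U * A) = U * A * X) : B' * U = U * B := by
  apply cancel hA
  rw [Matrix.mul_assoc, h', Matrix.mul_assoc, Matrix.mul_assoc, h]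

/-- `U` or `-U` is in `SL_3(Z)` -/
theorem exists_r {U : MZ} (hU : IsUnit U.det) : ∃ r : G, (r : MZ) = U ∨ (r : MZ) = -U := by
  rcases Int.isUnit_iff.1 hU with h | h
  · exact ⟨⟨U, h⟩, Or.inl rfl⟩
  · refine ⟨⟨-U, ?_⟩, Or.inr rfl⟩
    rw [Matrix.det_neg, h, Fintype.card_fin]
    norm_num

theorem concl {H : Subgroup G} {φ φ' : H →* G} {U : MZ} (hU : IsUnit U.det)
    (h : ∀ h : H, (φ' h : MZ) * U = U * (φ h : MZ)) : ∃ r : G, ∀ h : H, φ' h = r * φ h * r⁻¹ := by
  obtain ⟨r, hr⟩ := exists_r hU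
  refine ⟨r, fun k => ?_⟩
  rw [eq_mul_inv_iff_mul_eq]
  apply Subtype.ext
  show ((φ' k * r : G) : MZ) = ((r * φ k : G) : MZ)
  rw [cm, cm]
  rcases hr with hr | hr
  · rw [hr]
    exact h k
  · rw [hr, Matrix.mul_neg, Matrix.neg_mul, h k]

end CJUM

open CJUM in
theorem specCJU : SpecCJU := by
  intro H φ φ' A U hA hU h
  apply concl hU
  rcases h with ⟨h1, h2⟩ | ⟨h1, h2⟩
  · exact fun k => comm hA (h1 k) (h2 k)
  · exact fun k => comm hA (h1 k) (h2 k)

end Pool.Agent.Lib.MP8519b0
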