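import Pool.Agent.Lib.MP_8519b0_al.Spec

/-!
# MP_8519b0_al, module CLS: core-free virtual endomorphisms are conjugations by good matrices
-/

set_option autoImplicit false

namespace Pool.Agent.Lib.MP8519b0

namespace CLSM

/-- rational matrices have integral multiples -/
theorem exists_int (g : MQ) : ∃ (b : ℤ) (A : MZ), b ≠ 0 ∧
    A.map (Int.cast : ℤ → ℚ) = (b : ℚ) • g := by
  obtain ⟨b, hb⟩ := IsLocalization.exist_integer_multiples_of_finite (nonZeroDivisors ℤ)
    (fun p : Fin 3 × Fin 3 => g p.1 p.2)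
  have hb' : ∀ p : Fin 3 × Fin 3, ∃ z : ℤ, (z : ℚ) = ((b : ℤ) : ℚ) * g p.1 p.2 := by
    intro p
    obtain ⟨z, hz⟩ := hb p
    refine ⟨z, ?_⟩
    rw [zsmul_eq_mul] at hz
    simpa using hz
  choose z hz using hb'
  refine ⟨b, fun i j => z (i, j), nonZeroDivisors.coe_ne_zero b, ?_⟩
  ext i j
  rw [Matrix.map_apply, Matrix.smul_apply, smul_eq_mul]
  exact hz (i, j)

theorem map_inj {A B : MZ} (h : A.map (Int.cast : ℤ → ℚ) = B.map (Int.cast : ℤ → ℚ)) : A = B :=
  Matrix.map_injective Int.cast_injective h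

theorem map_mul' (A B : MZ) : (A * B).map (Int.cast : ℤ → ℚ) =
    A.map (Int.cast : ℤ → ℚ) * B.map (Int.cast : ℤ → ℚ) :=
  Matrix.map_mul (f := Int.castRingHom ℚ)

theorem smul_cancel {c : ℤ} (hc : c ≠ 0) {A B : MZ} (h : c • A = c • B) : A = B := by
  ext i j
  have h1 := congrFun (congrFun h i) j
  rw [Matrix.smul_apply, Matrix.smul_apply, smul_eq_mul, smul_eq_mul] at h1
  exact mul_left_cancel₀ hc h1

theorem det_ne {A : MZ} {g : MQ} {b : ℤ} (hb : b ≠ 0) (hg : g.det ≠ 0)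
    (h : A.map (Int.cast : ℤ → ℚ) = (b : ℚ) • g) : A.det ≠ 0 := by
  intro h0
  have h1 : ((A.det : ℤ) : ℚ) = (A.map (Int.cast : ℤ → ℚ)).det := by
    have := (Int.castRingHom ℚ).map_det A
    simpa using this
  rw [h0, h, Matrix.det_smul] at h1
  have hb' : (b : ℚ) ≠ 0 := by exact_mod_cast hb
  have h2 : (b : ℚ) ^ Fintype.card (Fin 3) * g.det ≠ 0 := mul_ne_zero (pow_ne_zero _ hb') hg
  exact h2 (by rw [← h1]; simp)

end CLSM

open CLSM

theorem specCLS (hRIG : SpecRIG) (hNCT : SpecNCT) (hNCU : SpecNCU) : SpecCLS := by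
  intro H hH φ hcf
  rcases hRIG H hH φ with h | ⟨g, hg, hconj⟩
  · exact absurd hcf (hNCT H hH φ h)
  obtain ⟨b, A, hb, hA⟩ := exists_int g
  have hdet := det_ne hb hg hA
  have hIC : IsConj3 H φ A := by
    rcases hconj with h | h
    · refine Or.inl fun x => map_inj ?_
      rw [map_mul', map_mul', hA, Matrix.mul_smul, Matrix.smul_mul]
      exact congrArg _ (h x)
    · refine Or.inr fun x => map_inj ?_
      rw [map_mul', map_mul', hA, Matrix.mul_smul, Matrix.smul_mul]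
      exact congrArg _ (h x)
  refine ⟨A, ⟨hdet, ?_⟩, hIC⟩
  rintro ⟨c, B, hB, rfl⟩
  have hc : c ≠ 0 := by
    rintro rfl
    apply hdet
    rw [zero_smul, Matrix.det_zero]
  refine hNCU H hH φ B hB ?_ hcf
  rcases hIC with h | h
  · refine Or.inl fun x => smul_cancel hc ?_
    have h1 := h x
    rwa [Matrix.mul_smul, Matrix.smul_mul] at h1
  · refine Or.inr fun x => smul_cancel hc ?_
    have h1 := h x
    rwa [Matrix.mul_smul, Matrix.smul_mul] at h1

end Pool.Agent.Lib.MP8519b0
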