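import Pool.Agent.Lib.MP_8519b0_al.Spec

/-!
# Module CNJ: conjugates of `E(M)`
-/

set_option autoImplicit false

namespace Pool.Agent.Lib.MP8519b0

namespace CNJM

theorem el_coe {i j : Fin 3} (h : i ≠ j) (c : ℤ) :
    ((el i j c : G) : MZ) = 1 + Matrix.single i j c := by
  unfold el
  rw [dif_pos h]
  rfl

theorem el_zero (i j : Fin 3) : el i j 0 = 1 := by
  unfold el
  split_ifs with h
  · exact Matrix.SpecialLinearGroup.transvection_coeff_zero h
  · rfl

theorem el_add (i j : Fin 3) (a b : ℤ) : el i j (a + b) = el i j a * el i j b := by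
  unfold el
  split_ifs with h
  · exact Matrix.SpecialLinearGroup.transvection_add h a b
  · rw [one_mul]

theorem el_inv (i j : Fin 3) (a : ℤ) : (el i j a)⁻¹ = el i j (-a) := by
  rw [inv_eq_iff_mul_eq_one, ← el_add, add_neg_cancel, el_zero]

theorem el_mem (i j : Fin 3) (h : i ≠ j) (N c : ℤ) : el i j (N * c) ∈ EN N := by
  have h1 : el i j N ∈ EN N := Subgroup.subset_closure ⟨i, j, h, rfl⟩
  induction c using Int.induction_on with
  | zero => rw [mul_zero, el_zero]; exact (EN N).one_mem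
  | succ c ih =>
    rw [mul_add, mul_one, el_add]
    exact (EN N).mul_mem ih h1
  | pred c ih =>
    rw [mul_sub, mul_one, sub_eq_add_neg, el_add, ← el_inv]
    exact (EN N).mul_mem ih ((EN N).inv_mem h1)

/-- `x_ki(s) x_ij(a) = x_kj(s a) x_ij(a) x_ki(s)` -/
theorem rel1 {i j k : Fin 3} (hij : i ≠ j) (hki : k ≠ i) (hkj : k ≠ j) (s a : ℤ) :
    el k i s * el i j a = el k j (s * a) * el i j a * el k i s := by
  apply Subtype.ext
  simp only [Matrix.SpecialLinearGroup.coe_mul, el_coe hij, el_coe hki, el_coe hkj, mul_add,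
    add_mul, mul_one, one_mul, Matrix.single_mul_single_same,
    Matrix.single_mul_single_of_ne _ _ _ _ hij.symm,
    Matrix.single_mul_single_of_ne _ _ _ _ hkj.symm, add_zero]
  abel

/-- `x_jl(s) x_ij(a) = x_ij(a) x_il(-(a s)) x_jl(s)` -/
theorem rel2 {i j l : Fin 3} (hij : i ≠ j) (hjl : j ≠ l) (hil : i ≠ l) (s a : ℤ) :
    el j l s * el i j a = el i j a * el i l (a * -s) * el j l s := by
  apply Subtype.ext
  simp only [Matrix.SpecialLinearGroup.coe_mul, el_coe hij, el_coe hjl, el_coe hil, mul_add,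
    add_mul, mul_one, one_mul, Matrix.single_mul_single_same,
    Matrix.single_mul_single_of_ne _ _ _ _ hij.symm,
    Matrix.single_mul_single_of_ne _ _ _ _ hil.symm,
    Matrix.single_mul_single_of_ne _ _ _ _ hjl.symm, add_zero]
  have : Matrix.single i l (a * -s) = - Matrix.single i l (a * s) := by
    rw [mul_neg, Matrix.single_neg]
  rw [this]
  abel

/-- commuting elementary matrices -/
theorem rel3 {i j k l : Fin 3} (hij : i ≠ j) (hkl : k ≠ l) (hil : l ≠ i) (hkj : j ≠ k) (s a : ℤ) :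
    el k l s * el i j a = el i j a * el k l s := by
  apply Subtype.ext
  simp only [Matrix.SpecialLinearGroup.coe_mul, el_coe hij, el_coe hkl, mul_add,
    add_mul, mul_one, one_mul, Matrix.single_mul_single_of_ne _ _ _ _ hil,
    Matrix.single_mul_single_of_ne _ _ _ _ hkj, add_zero]
  abel

/-- `x_lk(a b)` is the commutator of `x_lr(a)` and `x_rk(b)` -/
theorem rel4 {l r k : Fin 3} (hlr : l ≠ r) (hrk : r ≠ k) (hlk : l ≠ k) (a b : ℤ) :
    el l k (a * b) = el l r a * el r k b * (el l r a)⁻¹ * (el r k b)⁻¹ := by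
  have h := rel1 hrk hlr hlk a b
  rw [h]
  group

theorem gen1 {k l : Fin 3} (hkl : k ≠ l) (s N : ℤ) {i j : Fin 3} (hij : i ≠ j)
    (h : ¬ (i = l ∧ j = k)) (c : ℤ) :
    el k l s * el i j (N * c) * (el k l s)⁻¹ ∈ EN N := by
  by_cases h1 : l = i
  · subst h1
    have hkj : k ≠ j := fun h2 => h ⟨rfl, h2.symm⟩
    rw [rel1 hij hkl hkj s (N * c), mul_inv_cancel_right]
    have : s * (N * c) = N * (s * c) := by ring
    rw [this]
    exact (EN N).mul_mem (el_mem _ _ hkj _ _) (el_mem _ _ hij _ _)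
  · by_cases h2 : j = k
    · subst h2
      have hil : i ≠ l := fun h3 => h1 h3.symm
      rw [rel2 hij hkl hil s (N * c), mul_inv_cancel_right]
      have : N * c * -s = N * (c * -s) := by ring
      rw [this]
      exact (EN N).mul_mem (el_mem _ _ hij _ _) (el_mem _ _ hil _ _)
    · rw [rel3 hij hkl h1 h2, mul_inv_cancel_right]
      exact el_mem _ _ hij _ _

theorem gen2 {k l : Fin 3} (hkl : k ≠ l) (s N : ℤ) :
    el k l s * el l k (N * N) * (el k l s)⁻¹ ∈ EN N := by
  obtain ⟨r, hr1, hr2⟩ : ∃ r : Fin 3, l ≠ r ∧ r ≠ k := by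
    revert k l
    decide
  have a1 := gen1 hkl s N hr1 (fun h => hr2 h.2) 1
  have a2 := gen1 hkl s N hr2 (fun h => hr1 h.1.symm) 1
  rw [mul_one] at a1 a2
  have h := (EN N).mul_mem ((EN N).mul_mem ((EN N).mul_mem a1 a2) ((EN N).inv_mem a1))
    ((EN N).inv_mem a2)
  rw [rel4 hr1 hr2 hkl.symm N N]
  refine (iff_of_eq (congrArg (· ∈ EN N) ?_)).1 h
  group

theorem claim {k l : Fin 3} (hkl : k ≠ l) (s N : ℤ) {x : G} (hx : x ∈ EN (N * N)) :
    el k l s * x * (el k l s)⁻¹ ∈ EN N := by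
  have h : EN (N * N) ≤ (EN N).comap (MulAut.conj (el k l s)).toMonoidHom := by
    unfold EN
    rw [Subgroup.closure_le]
    rintro y ⟨i, j, hij, rfl⟩
    change el k l s * el i j (N * N) * (el k l s)⁻¹ ∈ EN N
    by_cases h1 : i = l ∧ j = k
    · obtain ⟨rfl, rfl⟩ := h1
      exact gen2 hkl s N
    · exact gen1 hkl s N hij h1 N
  exact h hx

end CNJM

open CNJM

theorem specCNJ (hGEN : SpecGEN) : SpecCNJ := by
  let P : G → Prop := fun h => ∀ N : ℕ, 1 ≤ N →
    ∃ M : ℕ, 1 ≤ M ∧ ∀ k ∈ EN (M : ℤ), h * k * h⁻¹ ∈ EN (N : ℤ)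
  have hmul : ∀ h h', P h → P h' → P (h * h') := by
    intro h h' a a' N hN
    obtain ⟨M, hM, b⟩ := a N hN
    obtain ⟨M', hM', b'⟩ := a' M hM
    refine ⟨M', hM', fun k hk => ?_⟩
    have h1 := b _ (b' k hk)
    refine (iff_of_eq (congrArg (· ∈ EN (N : ℤ)) ?_)).1 h1
    group
  have hgen : ∀ (i j : Fin 3) (s : ℤ), i ≠ j → P (el i j s) := by
    intro i j s hij N hN
    refine ⟨N * N, Nat.mul_pos hN hN, fun k hk => ?_⟩
    rw [Nat.cast_mul] at hk
    exact claim hij s N hk
  have hall : ∀ h : G, P h ∧ P h⁻¹ := by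
    intro h
    have hh : h ∈ Subgroup.closure {g : G | ∃ i j : Fin 3, i ≠ j ∧ g = el i j 1} := by
      rw [hGEN]
      exact Subgroup.mem_top h
    induction hh using Subgroup.closure_induction with
    | mem x hx =>
      obtain ⟨i, j, hij, rfl⟩ := hx
      refine ⟨hgen i j 1 hij, ?_⟩
      rw [el_inv]
      exact hgen i j (-1) hij
    | one =>
      have h1 : P 1 := by
        intro N hN
        refine ⟨N, hN, fun k hk => ?_⟩
        rwa [one_mul, inv_one, mul_one]
      refine ⟨h1, ?_⟩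
      rw [inv_one]
      exact h1
    | mul x y _ _ hx hy =>
      refine ⟨hmul _ _ hx.1 hy.1, ?_⟩
      rw [mul_inv_rev]
      exact hmul _ _ hy.2 hx.2
    | inv x _ hx =>
      refine ⟨hx.2, ?_⟩
      rw [inv_inv]
      exact hx.1
  intro h N hN
  exact (hall h).1 N hN

end Pool.Agent.Lib.MP8519b0
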