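import Pool.Agent.Lib.MP_8519b0_al.Spec2

/-!
# Module COR: a uniform form of CNJ
-/

set_option autoImplicit false

namespace Pool.Agent.Lib.MP8519b0

namespace CORM

theorem el_zero (i j : Fin 3) : el i j 0 = 1 := by
  unfold el
  split_ifs with h
  · exact Matrix.SpecialLinearGroup.transvection_coeff_zero h
  · rfl

theorem el_add (i j : Fin 3) (a b : ℤ) : el i j (a + b) = el i j a * el i j b := by
  unfold el
  split_ifs with h
  · exact Matrix.SpecialLinearGroup.transvection_add h a b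
  · rw [one_mul]

theorem el_mul (i j : Fin 3) (N : ℤ) (c : ℕ) : el i j (N * c) = el i j N ^ c := by
  induction c with
  | zero => rw [Nat.cast_zero, mul_zero, el_zero, pow_zero]
  | succ c ih => rw [Nat.cast_succ, mul_add, mul_one, el_add, ih, pow_succ]

theorem en_le {a b : ℕ} (h : a ∣ b) : EN (b : ℤ) ≤ EN (a : ℤ) := by
  obtain ⟨c, rfl⟩ := h
  unfold EN
  rw [Subgroup.closure_le]
  rintro g ⟨i, j, hij, rfl⟩
  rw [Nat.cast_mul, el_mul]
  have h1 : el i j (a : ℤ) ∈ Subgroup.closure {g : G | ∃ i j : Fin 3, i ≠ j ∧ g = el i j a} :=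
    Subgroup.subset_closure ⟨i, j, hij, rfl⟩
  exact Subgroup.pow_mem _ h1 c

end CORM

open CORM in
theorem specCOR (hCNJ : SpecCNJ) : SpecCOR := by
  intro H L hH hL M hM hML
  have : Finite (G ⧸ H) := Subgroup.finite_quotient_of_finiteIndex
  have : Fintype (G ⧸ H) := Fintype.ofFinite _
  choose N hN1 hN using fun q : G ⧸ H => hCNJ (q.out)⁻¹ M hM
  refine ⟨∏ q, N q, Finset.one_le_prod' fun q _ => hN1 q, fun k hk g => ?_⟩
  obtain ⟨s, hs⟩ : ∃ s : G, s = (((g⁻¹ : G) : G ⧸ H)).out := ⟨_, rfl⟩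
  have hsH : s⁻¹ * g⁻¹ ∈ H := by
    rw [← QuotientGroup.eq, hs]
    exact QuotientGroup.out_eq' _
  have hgH : g * s ∈ H := by
    have h1 := H.inv_mem hsH
    rwa [mul_inv_rev, inv_inv, inv_inv] at h1
  have h1 : s⁻¹ * k * s⁻¹⁻¹ ∈ L := by
    refine hML ?_
    rw [hs]
    exact hN _ k (en_le (Finset.dvd_prod_of_mem N (Finset.mem_univ _)) hk)
  have h2 := hL (g * s) hgH _ h1
  have h3 : g * s * (s⁻¹ * k * s⁻¹⁻¹) * (g * s)⁻¹ = g * k * g⁻¹ := by group
  rwa [h3] at h2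

end Pool.Agent.Lib.MP8519b0
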