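import Pool.Agent.Lib.MP_8519b0_al.Spec3

/-!
# MP_8519b0_al: module CPR (primitive representatives of good matrices)
-/

set_option autoImplicit false

namespace Pool.Agent.Lib.MP8519b0

theorem specCPR (hPRZ : SpecPRZ) : SpecCPR := by
  intro A hA
  obtain ⟨hdet, hgood⟩ := hA
  have hA0 : A ≠ 0 := by
    rintro rfl
    exact hdet Matrix.det_zero
  obtain ⟨c, A', hc, hAA, hprim⟩ := hPRZ A hA0
  have hd : A'.det ≠ 0 := by
    intro h
    apply hdet
    rw [hAA, Matrix.det_smul, h, mul_zero]
  have hu : ¬ IsUnit A'.det := fun h => hgood ⟨c, A', h, hAA⟩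
  refine ⟨A', hprim, hd, hu, ?_⟩
  intro H φ hφ
  have cancel : ∀ X Y : MZ, X * A = A * Y → X * A' = A' * Y := by
    intro X Y h
    rw [hAA, Matrix.mul_smul, Matrix.smul_mul] at h
    exact smul_right_injective MZ hc h
  rcases hφ with h | h
  · exact Or.inl fun g => cancel _ _ (h g)
  · exact Or.inr fun g => cancel _ _ (h g)

end Pool.Agent.Lib.MP8519b0
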