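import Pool.Agent.Lib.MP_8519b0_al.Spec2

/-!
# MP_8519b0_al, module CRI: which self-similar actions of `SL_3(Z)` are faithful
-/

set_option autoImplicit false

namespace Pool.Agent.Lib.MP8519b0

/-- A self-similar action is faithful if and only if for some letter `x` and some good `A` the
element `A g A⁻¹` is a section at `x` of every `g` fixing `x`, or `A (g⁻¹)ᵀ A⁻¹` is. -/
def SpecCRI : Prop :=
  ∀ (m : ℕ) (ρ : G →* Equiv.Perm (List (Fin m))), SelfSimilar ρ →
    (Function.Injective ρ ↔ ∃ (x : Fin m) (A : MZ), Good A ∧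
      ((∀ g : G, ρ g [x] = [x] → ∃ h : G, (h : MZ) * A = A * (g : MZ) ∧ Section ρ x g h) ∨
        (∀ g : G, ρ g [x] = [x] →
          ∃ h : G, (h : MZ) * A = A * ((g⁻¹ : G) : MZ).transpose ∧ Section ρ x g h)))

namespace CRIM

/-- Cancel a matrix with nonzero determinant. -/
theorem cancel {A : MZ} (hA : A.det ≠ 0) {h h' : G} (e : (h : MZ) * A = (h' : MZ) * A) :
    h = h' := by
  have h1 : (h : MZ) * A * A.adjugate = (h' : MZ) * A * A.adjugate := by rw [e]
  rw [Matrix.mul_assoc, Matrix.mul_assoc, Matrix.mul_adjugate, Matrix.mul_smul, Matrix.mul_smul,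
    Matrix.mul_one, Matrix.mul_one] at h1
  apply Subtype.ext
  ext i j
  have h2 := congrFun (congrFun h1 i) j
  simp only [Matrix.smul_apply, smul_eq_mul] at h2
  exact mul_left_cancel₀ hA h2

/-- The stabiliser of a letter. -/
def stab {m : ℕ} (ρ : G →* Equiv.Perm (List (Fin m))) (x : Fin m) : Subgroup G where
  carrier := {g | ρ g [x] = [x]}
  mul_mem' := by
    intro a b ha hb
    show ρ (a * b) [x] = [x]
    rw [map_mul, Equiv.Perm.mul_apply]
    rw [show ρ b [x] = [x] from hb, show ρ a [x] = [x] from ha]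
  one_mem' := by simp
  inv_mem' := by
    intro a ha
    show ρ a⁻¹ [x] = [x]
    rw [map_inv, Equiv.Perm.inv_eq_iff_eq]
    exact (show ρ a [x] = [x] from ha).symm

/-- The general form of the converse: `t` is a multiplicative map on integral matrices of elements
of the group. -/
theorem inj_of (hCVR : SpecCVR) {m : ℕ} (ρ : G →* Equiv.Perm (List (Fin m))) (x : Fin m) (A : MZ)
    (hA : Good A) (t : G →* G)
    (hc : ∀ (H : Subgroup G) (φ : H →* G), (∀ h : H, (φ h : MZ) * A = A * ((t h : G) : MZ)) →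
      IsConj3 H φ A)
    (hx : ∀ g : G, ρ g [x] = [x] → ∃ h : G, (h : MZ) * A = A * ((t g : G) : MZ) ∧
      Section ρ x g h) :
    Function.Injective ρ := by
  classical
  choose! f hf hf' using hx
  let H : Subgroup G := stab ρ x
  let φ : H →* G :=
    { toFun := fun h => f h
      map_one' := by
        apply cancel hA.1
        show ((f ((1 : H) : G) : G) : MZ) * A = ((1 : G) : MZ) * A
        rw [hf _ (1 : H).2]
        simp
      map_mul' := by
        intro a b
        apply cancel hA.1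
        show ((f ((a * b : H) : G) : G) : MZ) * A = ((f a * f b : G) : MZ) * A
        rw [hf _ (a * b).2, Matrix.SpecialLinearGroup.coe_mul, Matrix.mul_assoc, hf _ b.2,
          ← Matrix.mul_assoc, hf _ a.2, Matrix.mul_assoc, ← Matrix.SpecialLinearGroup.coe_mul,
          ← map_mul]
        rfl }
  have hφ : IsConj3 H φ A := hc H φ (fun h => hf _ h.2)
  have hcf := hCVR H φ A hA hφ
  rw [injective_iff_map_eq_one]
  intro k hk
  have hK : ρ.ker ≤ H := by
    intro k hk
    show ρ k [x] = [x]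
    rw [MonoidHom.mem_ker.mp hk]
    rfl
  have hb := hcf ρ.ker inferInstance hK (by
    intro k hk
    rw [MonoidHom.mem_ker] at hk ⊢
    ext1 w
    have h1 : ρ k (x :: w) = x :: ρ (f k) w := hf' k (hK (MonoidHom.mem_ker.mpr hk)) w
    rw [hk] at h1
    have h2 : x :: w = x :: ρ (f k) w := h1
    have h3 : w = ρ (f k) w := (List.cons.inj h2).2
    exact h3.symm)
  have hmem : k ∈ ρ.ker := hk
  rw [hb] at hmem
  exact Subgroup.mem_bot.mp hmem

/-- The automorphism `g ↦ (g⁻¹)ᵀ`. -/
def tau : G →* G where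
  toFun g := (g⁻¹).transpose
  map_one' := by
    apply Subtype.ext
    simp
  map_mul' a b := by
    apply Subtype.ext
    rw [mul_inv_rev]
    simp [Matrix.transpose_mul]

end CRIM

open CRIM

theorem specCRI (hCVR : SpecCVR) (hMIX : SpecMIX) : SpecCRI := by
  intro m ρ hss
  constructor
  · intro hinj
    obtain ⟨x, H, φ, A, _, hH, hsec, hA, hφ⟩ := hMIX m ρ hinj hss
    refine ⟨x, A, hA, ?_⟩
    rcases hφ with hφ | hφ
    · left
      intro g hg
      exact ⟨φ ⟨g, (hH g).mpr hg⟩, hφ ⟨g, (hH g).mpr hg⟩, hsec ⟨g, (hH g).mpr hg⟩⟩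
    · right
      intro g hg
      exact ⟨φ ⟨g, (hH g).mpr hg⟩, hφ ⟨g, (hH g).mpr hg⟩, hsec ⟨g, (hH g).mpr hg⟩⟩
  · rintro ⟨x, A, hA, h | h⟩
    · exact inj_of hCVR ρ x A hA (MonoidHom.id G) (fun H φ hh => Or.inl hh) h
    · exact inj_of hCVR ρ x A hA tau (fun H φ hh => Or.inr hh) h

end Pool.Agent.Lib.MP8519b0
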