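import Pool.Agent.Lib.MP_8519b0_al.Spec

/-!
# CVK: a normal subgroup intertwined by a singular matrix with trace prime to `p` is trivial
-/

set_option autoImplicit false

open Matrix

namespace Pool.Agent.Lib.MP8519b0

namespace CVKM

/-- the additive group generated by `K` in the integral matrices -/
def R (K : Subgroup G) : AddSubgroup MZ :=
  AddSubgroup.closure ((fun g : G => (g : MZ)) '' (K : Set G))

lemma mem {K : Subgroup G} {k : G} (hk : k ∈ K) : (k : MZ) ∈ R K :=
  AddSubgroup.subset_closure ⟨k, hk, rfl⟩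

/-- elementary matrices -/
def tv (i j : Fin 3) (h : i ≠ j) (c : ℤ) : G :=
  ⟨Matrix.transvection i j c, Matrix.det_transvection_of_ne i j h c⟩

lemma conj {K : Subgroup G} (hK : K.Normal) (i j : Fin 3) (h : i ≠ j) (c : ℤ) {Y : MZ}
    (hY : Y ∈ R K) : (1 + single i j c) * Y * (1 - single i j c) ∈ R K := by
  unfold R at hY
  induction hY using AddSubgroup.closure_induction with
  | mem x hx =>
    obtain ⟨k, hk, rfl⟩ := hx
    have h1 := mem (hK.conj_mem k hk (tv i j h c))
    have h2 : (tv i j h c)⁻¹ = tv i j h (-c) := by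
      apply inv_eq_of_mul_eq_one_right
      apply Subtype.ext
      change Matrix.transvection i j c * Matrix.transvection i j (-c) = 1
      rw [Matrix.transvection_mul_transvection_same i j h, add_neg_cancel,
        Matrix.transvection_zero]
    rw [h2, Matrix.SpecialLinearGroup.coe_mul, Matrix.SpecialLinearGroup.coe_mul] at h1
    have h3 : ((tv i j h (-c) : G) : MZ) = 1 - single i j c := by
      change Matrix.transvection i j (-c) = _
      rw [Matrix.transvection, sub_eq_add_neg]
      congr 1
      ext a b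
      by_cases hab : i = a ∧ j = b
      · obtain ⟨rfl, rfl⟩ := hab
        simp
      · simp [Matrix.single_apply_of_ne _ _ _ _ _ hab]
    rw [h3] at h1
    exact h1
  | zero => simp
  | add x y _ _ h1 h2 =>
    rw [mul_add, add_mul]
    exact add_mem h1 h2
  | neg x _ h1 =>
    rw [mul_neg, neg_mul]
    exact neg_mem h1

/-- some multiple of an elementary matrix -/
lemma exists_one {K : Subgroup G} (hK : K.Normal) (hne : K ≠ ⊥) :
    ∃ (m : ℤ) (i j : Fin 3), m ≠ 0 ∧ i ≠ j ∧ single i j m ∈ R K := by
  obtain ⟨k0, hk0⟩ := Subgroup.ne_bot_iff_exists_ne_one.1 hne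
  obtain ⟨k, hk, hk1⟩ : ∃ k, k ∈ K ∧ k ≠ 1 := ⟨k0.1, k0.2, fun h => hk0 (Subtype.ext h)⟩
  by_cases hoff : ∃ i j : Fin 3, i ≠ j ∧ (k : MZ) j i ≠ 0
  · obtain ⟨i, j, hij, hkji⟩ := hoff
    refine ⟨-(2 * (k : MZ) j i), i, j, by simpa using hkji, hij, ?_⟩
    have h1 := conj hK i j hij 1 (mem hk)
    have h2 := conj hK i j hij (-1) (mem hk)
    have h3 := sub_mem (add_mem h1 h2) (AddSubgroup.nsmul_mem _ (mem hk) 2)
    have e1 : single i j (-1 : ℤ) = -single i j (1 : ℤ) := by
      ext a b
      by_cases hab : i = a ∧ j = b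
      · obtain ⟨rfl, rfl⟩ := hab
        simp
      · simp [Matrix.single_apply_of_ne _ _ _ _ _ hab]
    have e2 : (1 + single i j 1) * (k : MZ) * (1 - single i j 1) +
        (1 + single i j (-1)) * (k : MZ) * (1 - single i j (-1)) - 2 • (k : MZ) =
        single i j (-(2 * (k : MZ) j i)) := by
      have e3 : single i j (1 : ℤ) * (k : MZ) * single i j (1 : ℤ) = single i j ((k : MZ) j i) := by
        rw [Matrix.single_mul_mul_single]
        simp
      have e4 : single i j (-(2 * (k : MZ) j i)) =
          -(2 • (single i j (1 : ℤ) * (k : MZ) * single i j (1 : ℤ))) := by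
        rw [e3]
        ext a b
        by_cases hab : i = a ∧ j = b
        · obtain ⟨rfl, rfl⟩ := hab
          simp
        · simp [Matrix.single_apply_of_ne _ _ _ _ _ hab]
      rw [e1, e4]
      noncomm_ring
    rwa [e2] at h3
  · push Not at hoff
    have hdiag : ∀ i j : Fin 3, i ≠ j → (k : MZ) i j = 0 := fun i j h => hoff j i h.symm
    have hdet : (k : MZ) 0 0 * (k : MZ) 1 1 * (k : MZ) 2 2 = 1 := by
      have h1 := k.2
      rw [Matrix.det_fin_three] at h1
      rw [hdiag 0 1 (by decide), hdiag 1 0 (by decide), hdiag 0 2 (by decide),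
        hdiag 2 0 (by decide), hdiag 1 2 (by decide), hdiag 2 1 (by decide)] at h1
      linarith
    have hex : ∃ a b : Fin 3, a ≠ b ∧ (k : MZ) b b - (k : MZ) a a ≠ 0 := by
      by_contra hcon
      push Not at hcon
      have h1 := hcon 0 1 (by decide)
      have h2 := hcon 0 2 (by decide)
      have h3 : (k : MZ) 1 1 = (k : MZ) 0 0 := by linarith
      have h4 : (k : MZ) 2 2 = (k : MZ) 0 0 := by linarith
      rw [h3, h4] at hdet
      have h5 : (k : MZ) 0 0 = 1 := by
        set x := (k : MZ) 0 0
        have h6 : x ∣ 1 := ⟨x * x, by rw [← hdet]; ring⟩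
        rcases Int.isUnit_iff.1 (isUnit_of_dvd_one h6) with h7 | h7
        · exact h7
        · rw [h7] at hdet; norm_num at hdet
      apply hk1
      ext a b
      rw [Matrix.SpecialLinearGroup.coe_one]
      by_cases hab : a = b
      · subst hab
        rw [Matrix.one_apply_eq]
        fin_cases a
        · exact h5
        · exact h3.trans h5
        · exact h4.trans h5
      · rw [Matrix.one_apply_ne hab]
        exact hdiag a b hab
    obtain ⟨a, b, hab, hd⟩ := hex
    refine ⟨(k : MZ) b b - (k : MZ) a a, a, b, hd, hab, ?_⟩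
    have h1 := sub_mem (conj hK a b hab 1 (mem hk)) (mem hk)
    have e1 : single a b (1 : ℤ) * (k : MZ) = single a b ((k : MZ) b b) := by
      ext x y
      by_cases hx : x = a
      · subst hx
        rw [Matrix.single_mul_apply_same, one_mul]
        by_cases hy : b = y
        · subst hy; simp
        · rw [hdiag b y hy, Matrix.single_apply_of_ne]
          exact fun h => hy h.2
      · rw [Matrix.single_mul_apply_of_ne _ _ _ _ _ hx, Matrix.single_apply_of_ne]
        exact fun h => hx h.1.symm
    have e2 : (k : MZ) * single a b (1 : ℤ) = single a b ((k : MZ) a a) := by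
      ext x y
      by_cases hy : y = b
      · subst hy
        rw [Matrix.mul_single_apply_same, mul_one]
        by_cases hx : a = x
        · subst hx; simp
        · rw [hdiag x a (Ne.symm hx), Matrix.single_apply_of_ne]
          exact fun h => hx h.1
      · rw [Matrix.mul_single_apply_of_ne _ _ _ _ _ hy, Matrix.single_apply_of_ne]
        exact fun h => hy h.2.symm
    have e3 : single a b (1 : ℤ) * (k : MZ) * single a b (1 : ℤ) = 0 := by
      rw [Matrix.single_mul_mul_single, hdiag b a (Ne.symm hab)]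
      simp
    have e4 : (1 + single a b 1) * (k : MZ) * (1 - single a b 1) - (k : MZ) =
        single a b ((k : MZ) b b - (k : MZ) a a) := by
      have e5 : single a b ((k : MZ) b b - (k : MZ) a a) =
          single a b ((k : MZ) b b) - single a b ((k : MZ) a a) := by
        ext x y
        by_cases hxy : a = x ∧ b = y
        · obtain ⟨rfl, rfl⟩ := hxy
          simp
        · simp [Matrix.single_apply_of_ne _ _ _ _ _ hxy]
      rw [e5, ← e1, ← e2]
      have e6 : (1 + single a b 1) * (k : MZ) * (1 - single a b 1) - (k : MZ) =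
          single a b (1 : ℤ) * (k : MZ) - (k : MZ) * single a b (1 : ℤ) -
            single a b (1 : ℤ) * (k : MZ) * single a b (1 : ℤ) := by noncomm_ring
      rw [e6, e3, sub_zero]
    rwa [e4] at h1

/-- moving the place of the entry -/
lemma move {K : Subgroup G} (hK : K.Normal) (m : ℤ) (i j k : Fin 3) (_hij : i ≠ j) (hjk : j ≠ k)
    (hik : i ≠ k) (h : single i j m ∈ R K) : single i k m ∈ R K ∧ single k j m ∈ R K := by
  constructor
  · have h1 := sub_mem h (conj hK j k hjk 1 h)
    have e1 : single i j m - (1 + single j k 1) * single i j m * (1 - single j k 1) =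
        single i k m := by
      have e2 : single j k (1 : ℤ) * single i j m = 0 :=
        Matrix.single_mul_single_of_ne _ _ _ _ hik.symm _
      have e3 : single i j m * single j k (1 : ℤ) = single i k m := by
        rw [Matrix.single_mul_single_same, mul_one]
      calc single i j m - (1 + single j k 1) * single i j m * (1 - single j k 1)
          = single i j m * single j k (1 : ℤ) - single j k (1 : ℤ) * single i j m +
            single j k (1 : ℤ) * single i j m * single j k (1 : ℤ) := by noncomm_ring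
        _ = single i k m := by rw [e2, e3]; simp
    rwa [e1] at h1
  · have h1 := sub_mem (conj hK k i hik.symm 1 h) h
    have e1 : (1 + single k i 1) * single i j m * (1 - single k i 1) - single i j m =
        single k j m := by
      have e2 : single i j m * single k i (1 : ℤ) = 0 :=
        Matrix.single_mul_single_of_ne _ _ _ _ hjk _
      have e3 : single k i (1 : ℤ) * single i j m = single k j m := by
        rw [Matrix.single_mul_single_same, one_mul]
      calc (1 + single k i 1) * single i j m * (1 - single k i 1) - single i j m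
          = single k i (1 : ℤ) * single i j m - single i j m * single k i (1 : ℤ) -
            single k i (1 : ℤ) * (single i j m * single k i (1 : ℤ)) := by noncomm_ring
        _ = single k j m := by rw [e2, e3]; simp
    rwa [e1] at h1

lemma all {K : Subgroup G} (hK : K.Normal) (m : ℤ) (i j : Fin 3) (hij : i ≠ j)
    (h : single i j m ∈ R K) : ∀ a b : Fin 3, a ≠ b → single a b m ∈ R K := by
  obtain ⟨k, hik, hjk⟩ : ∃ k : Fin 3, i ≠ k ∧ j ≠ k := by
    clear h
    revert i j
    decide
  obtain ⟨h1, h2⟩ := move hK m i j k hij hjk hik h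
  obtain ⟨-, h3⟩ := move hK m i k j hik hjk.symm hij h1
  obtain ⟨h4, -⟩ := move hK m j k i hjk hik.symm hij.symm h3
  obtain ⟨-, h5⟩ := move hK m j i k hij.symm hik hjk h4
  have hcase : ∀ a b : Fin 3, a ≠ b → (a = i ∧ b = j) ∨ (a = i ∧ b = k) ∨ (a = k ∧ b = j) ∨
      (a = j ∧ b = k) ∨ (a = j ∧ b = i) ∨ (a = k ∧ b = i) := by
    clear h h1 h2 h3 h4 h5
    revert i j k
    decide
  intro a b hab
  rcases hcase a b hab with ⟨rfl, rfl⟩ | ⟨rfl, rfl⟩ | ⟨rfl, rfl⟩ | ⟨rfl, rfl⟩ | ⟨rfl, rfl⟩ |
    ⟨rfl, rfl⟩ <;> assumption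

/-- trace zero diagonal elements -/
lemma diag {K : Subgroup G} (hK : K.Normal) (m : ℤ)
    (h : ∀ a b : Fin 3, a ≠ b → single a b m ∈ R K) (i j : Fin 3) (hij : i ≠ j) :
    single j j m - single i i m ∈ R K := by
  have h1 := sub_mem (conj hK j i hij.symm 1 (h i j hij)) (h i j hij)
  have h2 := add_mem h1 (h j i hij.symm)
  have e2 : single i j m * single j i (1 : ℤ) = single i i m := by
    rw [Matrix.single_mul_single_same, mul_one]
  have e3 : single j i (1 : ℤ) * single i j m = single j j m := by
    rw [Matrix.single_mul_single_same, one_mul]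
  have e4 : single j j m * single j i (1 : ℤ) = single j i m := by
    rw [Matrix.single_mul_single_same, mul_one]
  have e1 : (1 + single j i 1) * single i j m * (1 - single j i 1) - single i j m +
      single j i m = single j j m - single i i m := by
    calc (1 + single j i 1) * single i j m * (1 - single j i 1) - single i j m + single j i m
        = single j i (1 : ℤ) * single i j m - single i j m * single j i (1 : ℤ) -
            (single j i (1 : ℤ) * single i j m) * single j i (1 : ℤ) + single j i m := by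
          noncomm_ring
      _ = single j j m - single i i m := by rw [e2, e3, e4]; abel
  rwa [e1] at h2

/-- divisibility -/
lemma dvd {K : Subgroup G} {B : MZ} (hB : ∀ k ∈ K, ∃ k' ∈ K, B * (k : MZ) = (k' : MZ) * B)
    {Y : MZ} (hY : Y ∈ R K) : ∀ a b, B.det ∣ (B * Y * B.adjugate) a b := by
  unfold R at hY
  induction hY using AddSubgroup.closure_induction with
  | mem x hx =>
    obtain ⟨k, hk, rfl⟩ := hx
    obtain ⟨k', -, h1⟩ := hB k hk
    intro a b
    change B.det ∣ (B * (k : MZ) * B.adjugate) a b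
    rw [h1, mul_assoc, Matrix.mul_adjugate, Matrix.mul_smul, mul_one, Matrix.smul_apply,
      smul_eq_mul]
    exact dvd_mul_right _ _
  | zero => intro a b; simp
  | add x y _ _ h1 h2 =>
    intro a b
    rw [mul_add, add_mul, Matrix.add_apply]
    exact dvd_add (h1 a b) (h2 a b)
  | neg x _ h1 =>
    intro a b
    rw [mul_neg, neg_mul, Matrix.neg_apply]
    exact (dvd_neg).2 (h1 a b)

lemma entry (B C : MZ) (i j a b : Fin 3) (m : ℤ) :
    (B * single i j m * C) a b = m * (B a i * C j b) := by
  rw [Matrix.mul_apply, Finset.sum_eq_single j]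
  · rw [Matrix.mul_single_apply_same]
    ring
  · intro c _ hc
    rw [Matrix.mul_single_apply_of_ne _ _ _ _ _ hc, zero_mul]
  · intro h
    exact absurd (Finset.mem_univ _) h

lemma key {K : Subgroup G} (hK : K.Normal) (hne : K ≠ ⊥) : ∃ M : ℤ, M ≠ 0 ∧
    ∀ B : MZ, (∀ k ∈ K, ∃ k' ∈ K, B * (k : MZ) = (k' : MZ) * B) →
      ∀ a b i j, B.det ∣ M * (B a i * B.adjugate j b) := by
  obtain ⟨m, i0, j0, hm, hij, h0⟩ := exists_one hK hne
  have hall := all hK m i0 j0 hij h0
  refine ⟨3 * m, mul_ne_zero (by norm_num) hm, fun B hB a b i j => ?_⟩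
  by_cases hij' : i = j
  · subst hij'
    have h1 : ∀ j : Fin 3, B.det ∣ m * (B a j * B.adjugate j b) - m * (B a i * B.adjugate i b) := by
      intro j
      by_cases hj : i = j
      · subst hj; simp
      · have h2 := dvd hB (diag hK m hall i j hj) a b
        rw [mul_sub, sub_mul, Matrix.sub_apply, entry, entry] at h2
        exact h2
    have h2 : B a 0 * B.adjugate 0 b + B a 1 * B.adjugate 1 b + B a 2 * B.adjugate 2 b =
        B.det * (1 : MZ) a b := by
      have h3 := congrFun (congrFun (Matrix.mul_adjugate B) a) b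
      rw [Matrix.mul_apply, Fin.sum_univ_three, Matrix.smul_apply, smul_eq_mul] at h3
      exact h3
    have h3 := dvd_add (dvd_add (h1 0) (h1 1)) (h1 2)
    have h4 : B.det ∣ m * (B.det * (1 : MZ) a b) := ⟨m * (1 : MZ) a b, by ring⟩
    rw [← h2] at h4
    have h5 := dvd_sub h4 h3
    refine h5.trans (dvd_of_eq ?_)
    ring
  · have h1 := dvd hB (hall i j hij') a b
    rw [entry] at h1
    rw [mul_assoc]
    exact h1.mul_left 3

lemma pow_intertwine {K : Subgroup G} {D : MZ}
    (hD : ∀ k ∈ K, ∃ k' ∈ K, D * (k : MZ) = (k' : MZ) * D) (n : ℕ) :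
    ∀ k ∈ K, ∃ k' ∈ K, D ^ n * (k : MZ) = (k' : MZ) * D ^ n := by
  induction n with
  | zero => intro k hk; exact ⟨k, hk, by simp⟩
  | succ n ih =>
    intro k hk
    obtain ⟨k1, hk1, h1⟩ := hD k hk
    obtain ⟨k2, hk2, h2⟩ := ih k1 hk1
    refine ⟨k2, hk2, ?_⟩
    rw [pow_succ, mul_assoc, h1, ← mul_assoc, h2, mul_assoc]

lemma exists_entry {p : ℕ} (hp : p.Prime) {D : MZ} (htr : ¬ ((p : ℤ) ∣ D.trace)) (n : ℕ) :
    ∃ a i, ¬ ((p : ℤ) ∣ (D ^ n) a i) := by
  by_contra hcon
  push Not at hcon
  have : Fact p.Prime := ⟨hp⟩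
  apply htr
  set f := Int.castRingHom (ZMod p)
  have h1 : (f.mapMatrix D) ^ n = 0 := by
    rw [← map_pow]
    ext a i
    rw [RingHom.mapMatrix_apply, Matrix.map_apply, Matrix.zero_apply]
    exact (ZMod.intCast_zmod_eq_zero_iff_dvd _ p).2 (hcon a i)
  have h2 : IsNilpotent (Matrix.trace (f.mapMatrix D)) :=
    Matrix.isNilpotent_trace_of_isNilpotent ⟨n, h1⟩
  have h3 := h2.eq_zero
  have h4 : Matrix.trace (f.mapMatrix D) = f D.trace := by
    rw [Matrix.trace_fin_three, Matrix.trace_fin_three]
    simp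
  rw [h4] at h3
  exact (ZMod.intCast_zmod_eq_zero_iff_dvd _ p).1 h3

end CVKM

open CVKM in
theorem specCVK : SpecCVK := by
  intro p D K hp hdet hpd htr hK hD
  by_contra hne
  obtain ⟨M, hM, hkey⟩ := key hK hne
  -- `det D = p ^ w * e`
  have hp' : Prime (p : ℤ) := Nat.prime_iff_prime_int.1 hp
  have hfin : FiniteMultiplicity (p : ℤ) D.det :=
    FiniteMultiplicity.of_prime_left hp' hdet
  obtain ⟨e, he, hpe⟩ := hfin.exists_eq_pow_mul_and_not_dvd
  set w := multiplicity (p : ℤ) D.det
  have hw : 1 ≤ w := by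
    by_contra hw0
    have hw1 : w = 0 := by omega
    rw [hw1, pow_zero, one_mul] at he
    exact hpe (he ▸ hpd)
  -- choose n
  obtain ⟨n, hn⟩ : ∃ n : ℕ, (M ^ 3).natAbs < 2 ^ n := ⟨_, Nat.lt_two_pow_self⟩
  set q : ℤ := ((p : ℤ) ^ w) ^ n with hq
  have hdetn : (D ^ n).det = q * e ^ n := by
    rw [Matrix.det_pow, he, mul_pow]
  have hq0 : q ≠ 0 := pow_ne_zero _ (pow_ne_zero _ hp'.ne_zero)
  obtain ⟨a, i, hai⟩ := exists_entry hp htr n
  have hcop : IsCoprime q ((D ^ n) a i) := by
    apply IsCoprime.pow_left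
    apply IsCoprime.pow_left
    exact (Prime.coprime_iff_not_dvd hp').2 hai
  have hcope : IsCoprime q (e ^ n) := by
    apply IsCoprime.pow
    apply IsCoprime.pow_left
    exact (Prime.coprime_iff_not_dvd hp').2 hpe
  have hadj : ∀ j b, q ∣ M * (D ^ n).adjugate j b := by
    intro j b
    have h1 := hkey (D ^ n) (pow_intertwine hD n) a b i j
    rw [hdetn] at h1
    have h2 : q ∣ (D ^ n) a i * (M * (D ^ n).adjugate j b) := by
      refine (dvd_mul_right q (e ^ n)).trans (h1.trans (dvd_of_eq (by ring)))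
    exact hcop.dvd_of_dvd_mul_left h2
  choose C hC using hadj
  have h3 : M • (D ^ n).adjugate = q • (Matrix.of C) := by
    ext j b
    rw [Matrix.smul_apply, Matrix.smul_apply, smul_eq_mul, smul_eq_mul, hC]
    rfl
  have h4 := congrArg Matrix.det h3
  rw [Matrix.det_smul, Matrix.det_smul, Matrix.det_adjugate, hdetn, Fintype.card_fin] at h4
  have h5 : q ^ 2 * (M ^ 3 * (e ^ n) ^ 2) = q ^ 2 * (q * (Matrix.of C).det) := by
    have h6 : (3 : ℕ) - 1 = 2 := rfl
    rw [h6] at h4
    linear_combination h4
  have h6 := mul_left_cancel₀ (pow_ne_zero 2 hq0) h5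
  have h7 : q ∣ M ^ 3 := by
    have h8 : q ∣ M ^ 3 * (e ^ n) ^ 2 := ⟨_, h6⟩
    exact (hcope.pow_right).dvd_of_dvd_mul_right h8
  have h8 := Int.natAbs_dvd_natAbs.2 h7
  have h9 := Nat.le_of_dvd (Int.natAbs_pos.2 (pow_ne_zero 3 hM)) h8
  have h10 : 2 ^ n ≤ q.natAbs := by
    rw [hq, Int.natAbs_pow, Int.natAbs_pow, Int.natAbs_natCast]
    apply Nat.pow_le_pow_left
    calc 2 ≤ p := hp.two_le
      _ = p ^ 1 := (pow_one p).symm
      _ ≤ p ^ w := Nat.pow_le_pow_right hp.pos hw
  omega

end Pool.Agent.Lib.MP8519b0
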