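import Pool.Agent.Lib.MP_8519b0_al.Spec

/-!
# CVR (MP_8519b0_al): good matrices give faithful actions
-/

set_option autoImplicit false

namespace Pool.Agent.Lib.MP8519b0

namespace CVRM

lemma inv_mul' (x : G) : ((x⁻¹ : G) : MZ) * (x : MZ) = 1 := by
  rw [← Matrix.SpecialLinearGroup.coe_mul, inv_mul_cancel, Matrix.SpecialLinearGroup.coe_one]

lemma mul_inv' (x : G) : (x : MZ) * ((x⁻¹ : G) : MZ) = 1 := by
  rw [← Matrix.SpecialLinearGroup.coe_mul, mul_inv_cancel, Matrix.SpecialLinearGroup.coe_one]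

lemma det_coe (x : G) : (x : MZ).det = 1 := x.2

lemma smul_cancel {a : ℤ} (ha : a ≠ 0) {X Y : MZ} (h : a • X = a • Y) : X = Y := by
  ext i j
  have h1 : (a • X) i j = (a • Y) i j := by rw [h]
  simp only [Matrix.smul_apply, smul_eq_mul] at h1
  exact mul_left_cancel₀ ha h1

lemma conj_mul_right (t k : G) : ((t * k * t⁻¹ : G) : MZ) * (t : MZ) = (t : MZ) * (k : MZ) := by
  rw [← Matrix.SpecialLinearGroup.coe_mul, inv_mul_cancel_right, Matrix.SpecialLinearGroup.coe_mul]

/-- every element of `G` is an inverse transpose -/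
lemma exists_dual (s : G) : ∃ q : G, ((q⁻¹ : G) : MZ).transpose = (s : MZ) ∧
    (q : MZ).transpose = ((s⁻¹ : G) : MZ) := by
  refine ⟨Matrix.SpecialLinearGroup.transpose (s⁻¹), ?_, ?_⟩
  · have h1 : (Matrix.SpecialLinearGroup.transpose (s⁻¹))⁻¹ =
        Matrix.SpecialLinearGroup.transpose s := by
      rw [inv_eq_iff_mul_eq_one]
      apply Subtype.ext
      show ((s⁻¹ : G) : MZ).transpose * ((s : G) : MZ).transpose = 1
      rw [← Matrix.transpose_mul, mul_inv', Matrix.transpose_one]
    rw [h1]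
    show ((s : MZ).transpose).transpose = (s : MZ)
    exact Matrix.transpose_transpose _
  · show (((s⁻¹ : G) : MZ).transpose).transpose = _
    exact Matrix.transpose_transpose _

end CVRM

open CVRM in
theorem specCVR (hPAR : SpecPAR) (hTRC : SpecTRC) (hNZM : SpecNZM) (hCVK : SpecCVK) : SpecCVR := by
  intro H φ A hA hconj K hKn hK hφK
  obtain ⟨a, c, γ, A', C', p, ha, hc, hγ, hp, hAa, hadj, hCA, hAC, hpA, hpC, hA1, hC1⟩ := hPAR A hA
  have hdetA : A'.det ≠ 0 := by
    intro h0
    apply hA.1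
    rw [hAa, Matrix.det_smul, h0, mul_zero]
  have hdetC : C'.det ≠ 0 := by
    intro h0
    have h1 : (C' * A').det = (γ • (1 : MZ)).det := by rw [hCA]
    rw [Matrix.det_mul, h0, zero_mul, Matrix.det_smul, Matrix.det_one, mul_one] at h1
    exact pow_ne_zero _ hγ h1.symm
  rcases hconj with h | h
  · have h' : ∀ x : H, (φ x : MZ) * A' = A' * ((x : G) : MZ) := by
      intro x
      apply smul_cancel ha
      have := h x
      rw [hAa, Matrix.mul_smul, Matrix.smul_mul] at this
      exact this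
    obtain ⟨t, ht⟩ := hTRC p A' hp hA1
    refine hCVK p (A' * (t : MZ)) K hp ?_ ?_ ht hKn ?_
    · rw [Matrix.det_mul, det_coe, mul_one]
      exact hdetA
    · rw [Matrix.det_mul, det_coe, mul_one]
      exact hpA
    · intro k hk
      have hz : t * k * t⁻¹ ∈ K := hKn.conj_mem k hk t
      refine ⟨φ ⟨t * k * t⁻¹, hK hz⟩, hφK _ hz, ?_⟩
      have h1 := h' ⟨t * k * t⁻¹, hK hz⟩
      rw [← mul_assoc, h1, mul_assoc, mul_assoc]
      congr 1
      exact (conj_mul_right t k).symm
  · have h' : ∀ x : H, (φ x : MZ) * A' = A' * (((x : G)⁻¹ : G) : MZ).transpose := by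
      intro x
      apply smul_cancel ha
      have := h x
      rw [hAa, Matrix.mul_smul, Matrix.smul_mul] at this
      exact this
    have hC2 : ∃ i j, ¬ ((p : ℤ) ∣ C'.transpose i j) := by
      obtain ⟨i, j, hij⟩ := hC1
      exact ⟨j, i, hij⟩
    obtain ⟨s, hs⟩ := hNZM p A' C'.transpose hp hA1 hC2
    obtain ⟨t, ht⟩ := hTRC p (A' * (s : MZ) * C'.transpose) hp hs
    obtain ⟨q, hq1, hq2⟩ := exists_dual s
    have hdet : (A' * (s : MZ) * C'.transpose * (t : MZ)).det = A'.det * C'.det := by
      rw [Matrix.det_mul, Matrix.det_mul, Matrix.det_mul, det_coe, det_coe, mul_one, mul_one,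
        Matrix.det_transpose]
    refine hCVK p (A' * (s : MZ) * C'.transpose * (t : MZ)) K hp ?_ ?_ ht hKn ?_
    · rw [hdet]
      exact mul_ne_zero hdetA hdetC
    · rw [hdet]
      exact Dvd.dvd.mul_right hpA _
    · intro k hk
      have hz : t * k * t⁻¹ ∈ K := hKn.conj_mem k hk t
      set z : G := t * k * t⁻¹ with hzdef
      set k₁ : G := φ ⟨z, hK hz⟩ with hk₁
      have hk₁K : k₁ ∈ K := hφK _ hz
      have hw : q * k₁ * q⁻¹ ∈ K := hKn.conj_mem k₁ hk₁K q
      set k₂ : G := φ ⟨q * k₁ * q⁻¹, hK hw⟩ with hk₂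
      have hk₂K : k₂ ∈ K := hφK _ hw
      refine ⟨k₂, hk₂K, ?_⟩
      have e1 : (k₁ : MZ) * A' = A' * ((z⁻¹ : G) : MZ).transpose := h' ⟨z, hK hz⟩
      have e2 : C' * (k₁ : MZ) = ((z⁻¹ : G) : MZ).transpose * C' := by
        apply smul_cancel hγ
        calc γ • (C' * (k₁ : MZ)) = C' * (k₁ : MZ) * (γ • (1 : MZ)) := by
              rw [Matrix.mul_smul, mul_one]
          _ = C' * ((k₁ : MZ) * A') * C' := by
              rw [← hAC]
              simp only [mul_assoc]
          _ = (C' * A') * ((z⁻¹ : G) : MZ).transpose * C' := by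
              rw [e1]
              simp only [mul_assoc]
          _ = γ • (((z⁻¹ : G) : MZ).transpose * C') := by
              rw [hCA, Matrix.smul_mul, one_mul, Matrix.smul_mul]
      have e3 : (k₁ : MZ).transpose * C'.transpose = C'.transpose * ((z⁻¹ : G) : MZ) := by
        have := congrArg Matrix.transpose e2
        rw [Matrix.transpose_mul, Matrix.transpose_mul, Matrix.transpose_transpose] at this
        exact this
      have e4 : C'.transpose * (z : MZ) = ((k₁⁻¹ : G) : MZ).transpose * C'.transpose := by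
        calc C'.transpose * (z : MZ)
            = ((k₁ : MZ) * ((k₁⁻¹ : G) : MZ)).transpose * (C'.transpose * (z : MZ)) := by
              rw [mul_inv', Matrix.transpose_one, one_mul]
          _ = ((k₁⁻¹ : G) : MZ).transpose * ((k₁ : MZ).transpose * C'.transpose) * (z : MZ) := by
              rw [Matrix.transpose_mul]
              simp only [mul_assoc]
          _ = ((k₁⁻¹ : G) : MZ).transpose * C'.transpose * (((z⁻¹ : G) : MZ) * (z : MZ)) := by
              rw [e3]
              simp only [mul_assoc]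
          _ = ((k₁⁻¹ : G) : MZ).transpose * C'.transpose := by
              rw [inv_mul', mul_one]
      have e5 : (z : MZ) * (t : MZ) = (t : MZ) * (k : MZ) := conj_mul_right t k
      have e6 : (k₂ : MZ) * A' = A' * (((q * k₁ * q⁻¹)⁻¹ : G) : MZ).transpose :=
        h' ⟨q * k₁ * q⁻¹, hK hw⟩
      have e7 : (((q * k₁ * q⁻¹)⁻¹ : G) : MZ).transpose =
          (s : MZ) * ((k₁⁻¹ : G) : MZ).transpose * ((s⁻¹ : G) : MZ) := by
        have h1 : (q * k₁ * q⁻¹)⁻¹ = q * k₁⁻¹ * q⁻¹ := by group
        rw [h1, Matrix.SpecialLinearGroup.coe_mul, Matrix.SpecialLinearGroup.coe_mul,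
          Matrix.transpose_mul, Matrix.transpose_mul, hq1, hq2, mul_assoc]
      have e8 : (k₂ : MZ) * A' * (s : MZ) = A' * (s : MZ) * ((k₁⁻¹ : G) : MZ).transpose := by
        rw [e6, e7]
        simp only [mul_assoc]
        rw [inv_mul', mul_one]
      calc A' * (s : MZ) * C'.transpose * (t : MZ) * (k : MZ)
          = A' * (s : MZ) * C'.transpose * ((t : MZ) * (k : MZ)) := by simp only [mul_assoc]
        _ = A' * (s : MZ) * (C'.transpose * (z : MZ)) * (t : MZ) := by
            rw [← e5]
            simp only [mul_assoc]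
        _ = (A' * (s : MZ) * ((k₁⁻¹ : G) : MZ).transpose) * C'.transpose * (t : MZ) := by
            rw [e4]
            simp only [mul_assoc]
        _ = (k₂ : MZ) * A' * (s : MZ) * C'.transpose * (t : MZ) := by rw [← e8]
        _ = (k₂ : MZ) * (A' * (s : MZ) * C'.transpose * (t : MZ)) := by simp only [mul_assoc]

end Pool.Agent.Lib.MP8519b0
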