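import Pool.Agent.Lib.MP_8519b0_al.Spec3

/-! # MP_8519b0_al, module DET: the determinant is bounded -/

set_option autoImplicit false

namespace Pool.Agent.Lib.MP8519b0

namespace DETM

/-- the entries of `A E_ij C` -/
theorem entry (A C : MZ) (i j a b : Fin 3) :
    (A * Matrix.single i j (1 : ℤ) * C) a b = A a i * C j b := by
  rw [Matrix.mul_apply, Finset.sum_eq_single j]
  · rw [Matrix.mul_apply, Finset.sum_eq_single i]
    · simp
    · intro k _ hk
      rw [Matrix.single_apply_of_row_ne (Ne.symm hk), mul_zero]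
    · intro h
      exact absurd (Finset.mem_univ _) h
  · intro k _ hk
    rw [Matrix.mul_apply, Finset.sum_eq_zero, zero_mul]
    intro l _
    rw [Matrix.single_apply_of_col_ne _ _ (Ne.symm hk), mul_zero]
  · intro h
    exact absurd (Finset.mem_univ _) h

theorem step1 (A B : MZ) (N : ℤ) (i j : Fin 3)
    (h : B * A = A * (1 + N • Matrix.single i j 1)) (a b : Fin 3) :
    A.det ∣ N * (A a i * A.adjugate j b) := by
  have h1 : B * A * A.adjugate = A * (1 + N • Matrix.single i j 1) * A.adjugate := by rw [h]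
  have h2 : A.det • B = A.det • (1 : MZ) + N • (A * Matrix.single i j (1 : ℤ) * A.adjugate) := by
    have e1 : B * A * A.adjugate = A.det • B := by
      rw [Matrix.mul_assoc, Matrix.mul_adjugate, Matrix.mul_smul, Matrix.mul_one]
    have e2 : A * (1 + N • Matrix.single i j (1 : ℤ)) * A.adjugate =
        A.det • (1 : MZ) + N • (A * Matrix.single i j (1 : ℤ) * A.adjugate) := by
      rw [Matrix.mul_add, Matrix.add_mul, Matrix.mul_one, Matrix.mul_adjugate, Matrix.mul_smul,
        Matrix.smul_mul]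
    rw [← e1, ← e2]
    exact h1
  have h3 : (A.det • B) a b = (A.det • (1 : MZ) +
      N • (A * Matrix.single i j (1 : ℤ) * A.adjugate)) a b := by rw [h2]
  rw [Matrix.smul_apply, Matrix.add_apply, Matrix.smul_apply, Matrix.smul_apply, entry,
    smul_eq_mul, smul_eq_mul, smul_eq_mul] at h3
  refine ⟨B a b - (1 : MZ) a b, ?_⟩
  linarith

theorem unit_gcd (A : MZ) (hA : PrimM A) :
    IsUnit (Finset.univ.gcd fun x : Fin 3 × Fin 3 => A x.1 x.2) := by
  by_contra hcon
  rw [Int.isUnit_iff_natAbs_eq] at hcon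
  obtain ⟨p, hp, hpd⟩ := Nat.exists_prime_and_dvd hcon
  obtain ⟨i, j, hij⟩ := hA p hp
  refine hij ?_
  have h1 : (p : ℤ) ∣ Finset.univ.gcd fun x : Fin 3 × Fin 3 => A x.1 x.2 :=
    Int.natCast_dvd.mpr hpd
  exact h1.trans (Finset.gcd_dvd (Finset.mem_univ (i, j)))

theorem prim_dvd (A : MZ) (hA : PrimM A) (c d : ℤ) (h : ∀ i j, d ∣ c * A i j) : d ∣ c := by
  have h1 : d ∣ Finset.univ.gcd fun x : Fin 3 × Fin 3 => c * A x.1 x.2 :=
    Finset.dvd_gcd fun x _ => h x.1 x.2
  rw [Finset.gcd_mul_left] at h1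
  rw [(unit_gcd A hA).dvd_mul_right] at h1
  exact dvd_normalize_iff.mp h1

end DETM

open DETM in
theorem specDET : SpecDET := by
  intro A N hA hd H
  have s1 : ∀ i j : Fin 3, i ≠ j → ∀ a b, A.det ∣ N * (A a i * A.adjugate j b) := by
    intro i j hij a b
    obtain ⟨B, hB⟩ := H i j hij
    exact step1 A B N i j hB a b
  have s2 : ∀ i j a b : Fin 3, A.det ∣ N ^ 2 * (A a i * A.adjugate j b) := by
    intro i j a b
    by_cases hij : i = j
    · subst hij
      obtain ⟨k, hk⟩ : ∃ k : Fin 3, k ≠ i := exists_ne i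
      choose X hX using fun c : Fin 3 => s1 i k (Ne.symm hk) a c
      choose Y hY using fun c : Fin 3 => s1 k i hk c b
      have h1 : ∑ c : Fin 3, A.adjugate k c * A c k = A.det := by
        have h2 : (A.adjugate * A) k k = A.det := by
          rw [Matrix.adjugate_mul, Matrix.smul_apply, Matrix.one_apply_eq, smul_eq_mul, mul_one]
        rw [← h2, Matrix.mul_apply]
      refine ⟨∑ c : Fin 3, X c * Y c, ?_⟩
      refine mul_left_cancel₀ hd ?_
      calc A.det * (N ^ 2 * (A a i * A.adjugate i b))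
          = N ^ 2 * (A a i * A.adjugate i b) * ∑ c : Fin 3, A.adjugate k c * A c k := by
            rw [h1]; ring
        _ = ∑ c : Fin 3, (N * (A a i * A.adjugate k c)) * (N * (A c k * A.adjugate i b)) := by
            rw [Finset.mul_sum]
            exact Finset.sum_congr rfl fun c _ => by ring
        _ = ∑ c : Fin 3, (A.det * X c) * (A.det * Y c) :=
            Finset.sum_congr rfl fun c _ => by rw [hX c, hY c]
        _ = A.det * (A.det * ∑ c : Fin 3, X c * Y c) := by
            rw [Finset.mul_sum, Finset.mul_sum]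
            exact Finset.sum_congr rfl fun c _ => by ring
    · have h3 : N ^ 2 * (A a i * A.adjugate j b) = N * (N * (A a i * A.adjugate j b)) := by ring
      rw [h3]
      exact Dvd.dvd.mul_left (s1 i j hij a b) N
  have s3 : ∀ j b : Fin 3, A.det ∣ N ^ 2 * A.adjugate j b := by
    intro j b
    refine prim_dvd A hA _ _ fun a i => ?_
    have h3 : N ^ 2 * A.adjugate j b * A a i = N ^ 2 * (A a i * A.adjugate j b) := by ring
    rw [h3]
    exact s2 i j a b
  choose B hB using s3
  have h4 : (N ^ 2) • A.adjugate = A.det • (Matrix.of B : MZ) := by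
    ext j b
    rw [Matrix.smul_apply, Matrix.smul_apply, Matrix.of_apply, smul_eq_mul, smul_eq_mul]
    exact hB j b
  have h5 : ((N ^ 2) • A.adjugate).det = (A.det • (Matrix.of B : MZ)).det := by rw [h4]
  rw [Matrix.det_smul, Matrix.det_smul, Matrix.det_adjugate, Fintype.card_fin] at h5
  refine ⟨(Matrix.of B : MZ).det, ?_⟩
  have h6 : A.det ^ 2 * N ^ 6 = A.det ^ 2 * (A.det * (Matrix.of B : MZ).det) := by
    have h7 : (N ^ 2) ^ 3 * A.det ^ (3 - 1) = A.det ^ 3 * (Matrix.of B : MZ).det := h5
    have h8 : A.det ^ (3 - 1) = A.det ^ 2 := rfl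
    rw [h8] at h7
    linear_combination h7
  exact mul_left_cancel₀ (pow_ne_zero 2 hd) h6

end Pool.Agent.Lib.MP8519b0
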