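import Pool.Agent.Lib.MP_8519b0_al.Spec3

/-!
# Module DIV: the number of letters is divisible by `p² + p + 1` for some prime `p`.
-/

set_option autoImplicit false

namespace Pool.Agent.Lib.MP8519b0

theorem specDIV (hSEC : SpecSEC) (hCLS : SpecCLS) (hCPR : SpecCPR) (hSUL : SpecSUL)
    (hLIX : SpecLIX) : SpecDIV := by
  intro m ρ hinj hss hlt
  rcases Nat.eq_zero_or_pos m with hm | hm
  · subst hm
    exact ⟨2, Nat.prime_two, dvd_zero _⟩
  · obtain ⟨H, φ, hfi, hH, -, -, hcf⟩ := hSEC m ρ hinj hss hlt ⟨0, hm⟩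
    obtain ⟨A, hA, hc⟩ := hCLS H hfi φ hcf
    obtain ⟨A', hp, hd, hu, hcc⟩ := hCPR A hA
    obtain ⟨p, hfp, v, S, -, -, hS, hle⟩ := hSUL H φ A' hp hd hu (hcc H φ hc)
    refine ⟨p, hfp.out, ?_⟩
    have h1 := (hLIX m ρ hss ⟨0, hm⟩ H hH).2.2.2 hlt
    have h2 : S.index ∣ H.index := Subgroup.index_dvd_of_le hle
    rwa [hS, h1] at h2

end Pool.Agent.Lib.MP8519b0
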