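import Pool.Agent.Lib.MP_8519b0_al.Spec3

/-!
# MP_8519b0_al, module DOM: the domains of the four standard virtual endomorphisms
-/

set_option autoImplicit false

namespace Pool.Agent.Lib.MP8519b0

namespace DOMM

/-- an element of `SL_3(Z)` from its entries -/
def mk9 (a b c d e f g h i : ℤ)
    (hd : a * e * i - a * f * h - b * d * i + b * f * g + c * d * h - c * e * g = 1) : G :=
  ⟨!![a, b, c; d, e, f; g, h, i], by
    rw [Matrix.det_fin_three]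
    exact hd⟩

lemma hdet (g : G) : g 0 0 * g 1 1 * g 2 2 - g 0 0 * g 1 2 * g 2 1 - g 0 1 * g 1 0 * g 2 2 +
    g 0 1 * g 1 2 * g 2 0 + g 0 2 * g 1 0 * g 2 1 - g 0 2 * g 1 1 * g 2 0 = 1 := by
  have h := g.2
  rw [Matrix.det_fin_three] at h
  exact h

lemma eqD1 (A B : MZ) : A * D1 = D1 * B ↔ A 0 0 = B 0 0 ∧ A 0 1 = 2 * B 0 1 ∧
    A 0 2 = 2 * B 0 2 ∧ A 1 0 * 2 = B 1 0 ∧ A 1 1 = B 1 1 ∧ A 1 2 = B 1 2 ∧
    A 2 0 * 2 = B 2 0 ∧ A 2 1 = B 2 1 ∧ A 2 2 = B 2 2 := by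
  constructor
  · intro h
    have e : ∀ i j, A i j * (![2, 1, 1] : Fin 3 → ℤ) j = (![2, 1, 1] : Fin 3 → ℤ) i * B i j := by
      intro i j
      have h1 := congrFun (congrFun h i) j
      rw [D1, Matrix.mul_diagonal, Matrix.diagonal_mul] at h1
      exact h1
    have e00 : A 0 0 * 2 = 2 * B 0 0 := e 0 0
    have e01 : A 0 1 * 1 = 2 * B 0 1 := e 0 1
    have e02 : A 0 2 * 1 = 2 * B 0 2 := e 0 2
    have e10 : A 1 0 * 2 = 1 * B 1 0 := e 1 0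
    have e11 : A 1 1 * 1 = 1 * B 1 1 := e 1 1
    have e12 : A 1 2 * 1 = 1 * B 1 2 := e 1 2
    have e20 : A 2 0 * 2 = 1 * B 2 0 := e 2 0
    have e21 : A 2 1 * 1 = 1 * B 2 1 := e 2 1
    have e22 : A 2 2 * 1 = 1 * B 2 2 := e 2 2
    refine ⟨?_, ?_, ?_, ?_, ?_, ?_, ?_, ?_, ?_⟩ <;> linarith
  · rintro ⟨h1, h2, h3, h4, h5, h6, h7, h8, h9⟩
    ext i j
    rw [D1, Matrix.mul_diagonal, Matrix.diagonal_mul]
    fin_cases i <;> fin_cases j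
    · show A 0 0 * 2 = 2 * B 0 0
      linarith
    · show A 0 1 * 1 = 2 * B 0 1
      linarith
    · show A 0 2 * 1 = 2 * B 0 2
      linarith
    · show A 1 0 * 2 = 1 * B 1 0
      linarith
    · show A 1 1 * 1 = 1 * B 1 1
      linarith
    · show A 1 2 * 1 = 1 * B 1 2
      linarith
    · show A 2 0 * 2 = 1 * B 2 0
      linarith
    · show A 2 1 * 1 = 1 * B 2 1
      linarith
    · show A 2 2 * 1 = 1 * B 2 2
      linarith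

lemma eqD2 (A B : MZ) : A * D2 = D2 * B ↔ A 0 0 = B 0 0 ∧ A 0 1 * 2 = B 0 1 ∧
    A 0 2 * 2 = B 0 2 ∧ A 1 0 = 2 * B 1 0 ∧ A 1 1 = B 1 1 ∧ A 1 2 = B 1 2 ∧
    A 2 0 = 2 * B 2 0 ∧ A 2 1 = B 2 1 ∧ A 2 2 = B 2 2 := by
  constructor
  · intro h
    have e : ∀ i j, A i j * (![1, 2, 2] : Fin 3 → ℤ) j = (![1, 2, 2] : Fin 3 → ℤ) i * B i j := by
      intro i j
      have h1 := congrFun (congrFun h i) j
      rw [D2, Matrix.mul_diagonal, Matrix.diagonal_mul] at h1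
      exact h1
    have e00 : A 0 0 * 1 = 1 * B 0 0 := e 0 0
    have e01 : A 0 1 * 2 = 1 * B 0 1 := e 0 1
    have e02 : A 0 2 * 2 = 1 * B 0 2 := e 0 2
    have e10 : A 1 0 * 1 = 2 * B 1 0 := e 1 0
    have e11 : A 1 1 * 2 = 2 * B 1 1 := e 1 1
    have e12 : A 1 2 * 2 = 2 * B 1 2 := e 1 2
    have e20 : A 2 0 * 1 = 2 * B 2 0 := e 2 0
    have e21 : A 2 1 * 2 = 2 * B 2 1 := e 2 1
    have e22 : A 2 2 * 2 = 2 * B 2 2 := e 2 2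
    refine ⟨?_, ?_, ?_, ?_, ?_, ?_, ?_, ?_, ?_⟩ <;> linarith
  · rintro ⟨h1, h2, h3, h4, h5, h6, h7, h8, h9⟩
    ext i j
    rw [D2, Matrix.mul_diagonal, Matrix.diagonal_mul]
    fin_cases i <;> fin_cases j
    · show A 0 0 * 1 = 1 * B 0 0
      linarith
    · show A 0 1 * 2 = 1 * B 0 1
      linarith
    · show A 0 2 * 2 = 1 * B 0 2
      linarith
    · show A 1 0 * 1 = 2 * B 1 0
      linarith
    · show A 1 1 * 2 = 2 * B 1 1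
      linarith
    · show A 1 2 * 2 = 2 * B 1 2
      linarith
    · show A 2 0 * 1 = 2 * B 2 0
      linarith
    · show A 2 1 * 2 = 2 * B 2 1
      linarith
    · show A 2 2 * 2 = 2 * B 2 2
      linarith

lemma invQ (g : G) (h : InQ g) : InQ g⁻¹ := by
  obtain ⟨⟨a, ha⟩, ⟨b, hb⟩⟩ := h
  have h1 : ((g⁻¹ : G) : MZ) = Matrix.adjugate (g : MZ) := Matrix.SpecialLinearGroup.coe_inv g
  have h2 := Matrix.adjugate_fin_three (g : MZ)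
  rw [← h1] at h2
  have e1 : (g⁻¹ : G) 0 1 = -(g 0 1 * g 2 2) + g 0 2 * g 2 1 := congrFun (congrFun h2 0) 1
  have e2 : (g⁻¹ : G) 0 2 = g 0 1 * g 1 2 - g 0 2 * g 1 1 := congrFun (congrFun h2 0) 2
  refine ⟨?_, ?_⟩
  · rw [e1, ha, hb]
    exact ⟨-(a * g 2 2) + b * g 2 1, by ring⟩
  · rw [e2, ha, hb]
    exact ⟨a * g 1 2 - b * g 1 1, by ring⟩

lemma invP (g : G) (h : InP g) : InP g⁻¹ := by
  obtain ⟨⟨a, ha⟩, ⟨b, hb⟩⟩ := h
  have h1 : ((g⁻¹ : G) : MZ) = Matrix.adjugate (g : MZ) := Matrix.SpecialLinearGroup.coe_inv g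
  have h2 := Matrix.adjugate_fin_three (g : MZ)
  rw [← h1] at h2
  have e1 : (g⁻¹ : G) 1 0 = -(g 1 0 * g 2 2) + g 1 2 * g 2 0 := congrFun (congrFun h2 1) 0
  have e2 : (g⁻¹ : G) 2 0 = g 1 0 * g 2 1 - g 1 1 * g 2 0 := congrFun (congrFun h2 2) 0
  refine ⟨?_, ?_⟩
  · rw [e1, ha, hb]
    exact ⟨-(a * g 2 2) + g 1 2 * b, by ring⟩
  · rw [e2, ha, hb]
    exact ⟨a * g 2 1 - g 1 1 * b, by ring⟩

end DOMM

open DOMM

theorem specDOM : SpecDOM := by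
  refine ⟨?_, ?_, ?_, ?_, ?_, ?_, ?_, ?_⟩
  · intro g
    constructor
    · rintro ⟨h, hh⟩
      obtain ⟨_, _, _, h4, _, _, h7, _, _⟩ := (eqD1 _ _).mp hh
      exact ⟨⟨h 1 0, by rw [← h4]; exact mul_comm _ _⟩, ⟨h 2 0, by rw [← h7]; exact mul_comm _ _⟩⟩
    · rintro ⟨⟨a, ha⟩, ⟨b, hb⟩⟩
      have hd := hdet g
      refine ⟨mk9 (g 0 0) (2 * g 0 1) (2 * g 0 2) a (g 1 1) (g 1 2) b (g 2 1) (g 2 2) ?_, ?_⟩
      · rw [ha, hb] at hd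
        linarith
      · exact (eqD1 _ _).mpr ⟨rfl, rfl, rfl, (mul_comm a 2).trans ha.symm, rfl, rfl,
          (mul_comm b 2).trans hb.symm, rfl, rfl⟩
  · intro g
    constructor
    · rintro ⟨h, hh⟩
      obtain ⟨_, h2, h3, _, _, _, _, _, _⟩ := (eqD2 _ _).mp hh
      exact ⟨⟨h 0 1, by rw [← h2]; exact mul_comm _ _⟩, ⟨h 0 2, by rw [← h3]; exact mul_comm _ _⟩⟩
    · rintro ⟨⟨a, ha⟩, ⟨b, hb⟩⟩
      have hd := hdet g
      refine ⟨mk9 (g 0 0) a b (2 * g 1 0) (g 1 1) (g 1 2) (2 * g 2 0) (g 2 1) (g 2 2) ?_, ?_⟩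
      · rw [ha, hb] at hd
        linarith
      · exact (eqD2 _ _).mpr ⟨rfl, (mul_comm a 2).trans ha.symm, (mul_comm b 2).trans hb.symm,
          rfl, rfl, rfl, rfl, rfl, rfl⟩
  · intro g
    have e : InP (th g) ↔ InQ g⁻¹ := Iff.rfl
    rw [e]
    constructor
    · intro h
      have h1 := invQ _ h
      rw [inv_inv] at h1
      exact h1
    · exact invQ g
  · intro g
    have e : InQ (th g) ↔ InP g⁻¹ := Iff.rfl
    rw [e]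
    constructor
    · intro h
      have h1 := invP _ h
      rw [inv_inv] at h1
      exact h1
    · exact invP g
  · intro g h hh
    obtain ⟨_, h2, h3, _, _, _, _, _, _⟩ := (eqD1 _ _).mp hh
    exact ⟨⟨g 0 1, h2⟩, ⟨g 0 2, h3⟩⟩
  · intro g h hh
    obtain ⟨_, _, _, h4, _, _, h7, _, _⟩ := (eqD2 _ _).mp hh
    exact ⟨⟨g 1 0, h4⟩, ⟨g 2 0, h7⟩⟩
  · rintro h ⟨⟨a, ha⟩, ⟨b, hb⟩⟩
    have hd := hdet h
    refine ⟨mk9 (h 0 0) a b (h 1 0 * 2) (h 1 1) (h 1 2) (h 2 0 * 2) (h 2 1) (h 2 2) ?_, ?_⟩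
    · rw [ha, hb] at hd
      linarith
    · exact (eqD1 _ _).mpr ⟨rfl, ha, hb, rfl, rfl, rfl, rfl, rfl, rfl⟩
  · rintro h ⟨⟨a, ha⟩, ⟨b, hb⟩⟩
    have hd := hdet h
    refine ⟨mk9 (h 0 0) (h 0 1 * 2) (h 0 2 * 2) a (h 1 1) (h 1 2) b (h 2 1) (h 2 2) ?_, ?_⟩
    · rw [ha, hb] at hd
      linarith
    · exact (eqD2 _ _).mpr ⟨rfl, rfl, rfl, ha, rfl, rfl, hb, rfl, rfl⟩

end Pool.Agent.Lib.MP8519b0
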