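import Mathlib

/-!
# MP_8519b0_al: self-similar actions of `SL_3(Z)` (definitions)
-/

set_option autoImplicit false

namespace Pool.Agent.Lib.MP8519b0

/-- The group `SL_3(Z)`. -/
abbrev G : Type := Matrix.SpecialLinearGroup (Fin 3) ℤ

/-- Integral `3 x 3` matrices. -/
abbrev MZ : Type := Matrix (Fin 3) (Fin 3) ℤ

/-- Rational `3 x 3` matrices. -/
abbrev MQ : Type := Matrix (Fin 3) (Fin 3) ℚ

/-- An action `ρ` of `SL_3(Z)` on the set of all words over the alphabet `Fin m` is self-similar if
for all `g` and all letters `x` there are a group element `h` and a letter `y` such that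
`ρ g (x w) = y (ρ h w)` for all words `w`. -/
def SelfSimilar {m : ℕ} (ρ : G →* Equiv.Perm (List (Fin m))) : Prop :=
  ∀ (g : G) (x : Fin m), ∃ (h : G) (y : Fin m), ∀ w : List (Fin m), ρ g (x :: w) = y :: ρ h w

/-- `g` fixes the letter `x`, and its section at `x` is `h`: `ρ g (x w) = x (ρ h w)` for all
words `w`. -/
def Section {m : ℕ} (ρ : G →* Equiv.Perm (List (Fin m))) (x : Fin m) (g h : G) : Prop :=
  ∀ w : List (Fin m), ρ g (x :: w) = x :: ρ h w

/-- `ρ` is transitive on the letters. -/
def LetterTransitive {m : ℕ} (ρ : G →* Equiv.Perm (List (Fin m))) : Prop :=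
  ∀ x y : Fin m, ∃ g : G, ρ g [x] = [y]

/-- An integral matrix with determinant different from `0` which is not an integral multiple of a
matrix of determinant `1` or `-1`. -/
def Good (A : MZ) : Prop :=
  A.det ≠ 0 ∧ ¬ ∃ (c : ℤ) (B : MZ), IsUnit B.det ∧ A = c • B

end Pool.Agent.Lib.MP8519b0
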