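import Pool.Agent.Lib.MP_8519b0_al.Spec3

/-!
# Module EQV: equal virtual endomorphisms, up to an inner automorphism, give equivalent actions
-/

set_option autoImplicit false

namespace Pool.Agent.Lib.MP8519b0

namespace EQVM

variable {m : ℕ}

/-- the conjugating map -/
def TT (ρ' : G →* Equiv.Perm (List (Fin m))) (π : Fin m → Fin m) (rr : Fin m → G) :
    List (Fin m) → List (Fin m)
  | [] => []
  | y :: w => π y :: ρ' (rr y) (TT ρ' π rr w)

lemma nil_fix {ρ : G →* Equiv.Perm (List (Fin m))}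
    (hlen : ∀ (g : G) (w : List (Fin m)), (ρ g w).length = w.length) (g : G) : ρ g [] = [] :=
  List.length_eq_zero_iff.1 (hlen g [])

lemma inv_cancel {ρ : G →* Equiv.Perm (List (Fin m))} (g : G) (w : List (Fin m)) :
    ρ g (ρ g⁻¹ w) = w := by
  rw [← Equiv.Perm.mul_apply, ← map_mul, mul_inv_cancel, map_one, Equiv.Perm.one_apply]

/-- sections of `g` at `y` in terms of a section at `x` -/
lemma sec_formula {ρ : G →* Equiv.Perm (List (Fin m))} {x y z : Fin m} {ty tz sy sz g k f : G}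
    (hy : ∀ w, ρ ty (x :: w) = y :: ρ sy w) (hz : ∀ w, ρ tz (x :: w) = z :: ρ sz w)
    (hk : tz * k = g * ty) (hf : ∀ w, ρ k (x :: w) = x :: ρ f w) (v : List (Fin m)) :
    ρ g (y :: v) = z :: ρ (sz * f * sy⁻¹) v := by
  have h1 : y :: v = ρ ty (x :: ρ sy⁻¹ v) := by rw [hy, inv_cancel]
  rw [h1, ← Equiv.Perm.mul_apply, ← map_mul, ← hk, map_mul, Equiv.Perm.mul_apply, hf, hz,
    map_mul, map_mul, Equiv.Perm.mul_apply, Equiv.Perm.mul_apply]

lemma TT_len {ρ' : G →* Equiv.Perm (List (Fin m))}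
    (hlen : ∀ (g : G) (w : List (Fin m)), (ρ' g w).length = w.length) (π : Fin m → Fin m)
    (rr : Fin m → G) : ∀ w, (TT ρ' π rr w).length = w.length
  | [] => rfl
  | y :: w => by
    rw [TT, List.length_cons, List.length_cons, hlen, TT_len hlen π rr w]

lemma TT_inj {ρ' : G →* Equiv.Perm (List (Fin m))} {π : Fin m → Fin m}
    (hπ : Function.Injective π) (rr : Fin m → G) :
    ∀ w w', TT ρ' π rr w = TT ρ' π rr w' → w = w'
  | [], [], _ => rfl
  | [], y :: w, h => by
    rw [TT, TT] at h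
    exact absurd h.symm (List.cons_ne_nil _ _)
  | y :: w, [], h => by
    rw [TT, TT] at h
    exact absurd h (List.cons_ne_nil _ _)
  | y :: w, y' :: w', h => by
    rw [TT, TT] at h
    obtain ⟨h1, h2⟩ := List.cons.inj h
    have h3 := hπ h1
    subst h3
    rw [TT_inj hπ rr w w' ((ρ' (rr y)).injective h2)]

lemma TT_surj {ρ' : G →* Equiv.Perm (List (Fin m))}
    (hlen : ∀ (g : G) (w : List (Fin m)), (ρ' g w).length = w.length) {π : Fin m → Fin m}
    (hπ : Function.Surjective π) (rr : Fin m → G) :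
    ∀ (n : ℕ) (u : List (Fin m)), u.length = n → ∃ w, TT ρ' π rr w = u
  | 0, u, h => ⟨[], by rw [TT, List.length_eq_zero_iff.1 h]⟩
  | n + 1, [], h => by simp at h
  | n + 1, z :: u, h => by
    obtain ⟨y, hy⟩ := hπ z
    obtain ⟨w, hw⟩ := TT_surj hlen hπ rr n (ρ' (rr y)⁻¹ u) (by
      rw [hlen]
      simpa using h)
    exact ⟨y :: w, by rw [TT, hy, hw, inv_cancel]⟩

lemma pre {ρ' : G →* Equiv.Perm (List (Fin m))}
    (hlen : ∀ (g : G) (w : List (Fin m)), (ρ' g w).length = w.length)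
    (hs : SelfSimilar ρ') : ∀ (u v : List (Fin m)) (g : G), ρ' g u <+: ρ' g (u ++ v)
  | [], v, g => by
    rw [nil_fix hlen]
    exact List.nil_prefix
  | a :: u, v, g => by
    obtain ⟨h, y, hy⟩ := hs g a
    rw [List.cons_append, hy, hy, List.prefix_cons_inj]
    exact pre hlen hs u v h

lemma TT_pre {ρ' : G →* Equiv.Perm (List (Fin m))}
    (hlen : ∀ (g : G) (w : List (Fin m)), (ρ' g w).length = w.length)
    (hs : SelfSimilar ρ') (π : Fin m → Fin m) (rr : Fin m → G) :
    ∀ u v, TT ρ' π rr u <+: TT ρ' π rr (u ++ v)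
  | [], v => by
    rw [TT]
    exact List.nil_prefix
  | y :: u, v => by
    rw [List.cons_append, TT, TT, List.prefix_cons_inj]
    obtain ⟨t, ht⟩ := TT_pre hlen hs π rr u v
    rw [← ht]
    exact pre hlen hs _ _ _

end EQVM

open EQVM

theorem specEQV (hLET : SpecLET) : SpecEQV := by
  intro m ρ ρ' hρ hρ' htr _ x x' H φ φ' r hH hH' hφ hφ' hr
  obtain ⟨hlen, α, hα, hsec⟩ := hLET m ρ hρ
  obtain ⟨hlen', α', hα', hsec'⟩ := hLET m ρ' hρ'
  choose t ht using fun y => htr x y
  have htα : ∀ y, α (t y) x = y := by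
    intro y
    have := ht y
    rw [hα] at this
    exact (List.cons.inj this).1
  choose s hs using fun y => hsec (t y) x
  choose s' hs' using fun y => hsec' (t y) x'
  have hs1 : ∀ y w, ρ (t y) (x :: w) = y :: ρ (s y) w := by
    intro y w
    rw [hs y w, htα]
  have memH : ∀ k, k ∈ H ↔ α k x = x := by
    intro k
    rw [hH, hα]
    simp
  have memH' : ∀ k, k ∈ H ↔ α' k x' = x' := by
    intro k
    rw [hH', hα']
    simp
  -- the element `k`
  have hk : ∀ (g : G) (y : Fin m), (t (α g y))⁻¹ * g * t y ∈ H := by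
    intro g y
    rw [memH, map_mul, map_mul, map_inv, Equiv.Perm.mul_apply, Equiv.Perm.mul_apply, htα,
      Equiv.Perm.inv_eq_iff_eq, htα]
  have hπ1 : ∀ (g : G) (y : Fin m), α' (t (α g y)) x' = α' g (α' (t y) x') := by
    intro g y
    have h1 := (memH' _).1 (hk g y)
    rw [map_mul, map_mul, map_inv, Equiv.Perm.mul_apply, Equiv.Perm.mul_apply,
      Equiv.Perm.inv_eq_iff_eq] at h1
    exact h1.symm
  have hπinj : Function.Injective (fun y => α' (t y) x') := by
    intro y z hyz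
    have h1 : (t z)⁻¹ * t y ∈ H := by
      rw [memH', map_mul, map_inv, Equiv.Perm.mul_apply, Equiv.Perm.inv_eq_iff_eq]
      exact hyz
    rw [memH, map_mul, map_inv, Equiv.Perm.mul_apply, Equiv.Perm.inv_eq_iff_eq, htα, htα] at h1
    exact h1
  have hπsurj : Function.Surjective (fun y => α' (t y) x') :=
    Finite.injective_iff_surjective.1 hπinj
  set π : Fin m → Fin m := fun y => α' (t y) x' with hπdef
  set rr : Fin m → G := fun y => s' y * r * (s y)⁻¹ with hrr
  have hs2 : ∀ y w, ρ' (t y) (x' :: w) = π y :: ρ' (s' y) w := fun y w => hs' y w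
  have key : ∀ (w : List (Fin m)) (g : G), TT ρ' π rr (ρ g w) = ρ' g (TT ρ' π rr w) := by
    intro w
    induction w with
    | nil =>
      intro g
      rw [nil_fix hlen, TT, nil_fix hlen']
    | cons y v ih =>
      intro g
      have hkm := hk g y
      set k : G := (t (α g y))⁻¹ * g * t y with hkdef
      have hkt : t (α g y) * k = g * t y := by
        rw [hkdef]
        group
      have e1 := sec_formula (hs1 y) (hs1 (α g y)) hkt (hφ ⟨k, hkm⟩) v
      have e2 := sec_formula (hs2 y) (hs2 (α g y)) hkt (hφ' ⟨k, hkm⟩) (ρ' (rr y) (TT ρ' π rr v))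
      rw [e1, TT, TT, e2, ih]
      congr 1
      rw [← Equiv.Perm.mul_apply, ← Equiv.Perm.mul_apply, ← map_mul, ← map_mul]
      congr 2
      rw [hr ⟨k, hkm⟩, hrr]
      group
  have hbij : Function.Bijective (TT ρ' π rr) :=
    ⟨fun w w' h => TT_inj hπinj rr w w' h, fun u => TT_surj hlen' hπsurj rr _ u rfl⟩
  refine ⟨Equiv.ofBijective _ hbij, fun u v => ⟨TT_len hlen' π rr u, TT_pre hlen' hρ' π rr u v⟩,
    fun g w => key w g⟩

end Pool.Agent.Lib.MP8519b0
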