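import Pool.Agent.Lib.MP_8519b0_al.Spec

/-!
# MP_8519b0_al, module EXL: the logarithm of a unipotent matrix
-/

set_option autoImplicit false

namespace Pool.Agent.Lib.MP8519b0

theorem specEXL : SpecEXL := by
  intro U hU
  set V : MQ := U - 1 with hV
  have hUV : U = 1 + V := by rw [hV]; abel
  set W : MQ := V * V with hW
  have h1 : V * W = 0 := by
    rw [← hU, hW, pow_three]
  have h2 : W * V = 0 := by
    rw [← hU, hW, pow_succ, pow_two]
  have h3 : W * W = 0 := by
    calc W * W = V * (V * W) := by rw [hW]; noncomm_ring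
      _ = 0 := by rw [h1, mul_zero]
  have hLL : (V - (1 / 2 : ℚ) • W) * (V - (1 / 2 : ℚ) • W) = W := by
    simp only [sub_mul, mul_sub, smul_mul_assoc, mul_smul_comm, h1, h2, h3, smul_zero, sub_zero]
    rfl
  refine ⟨V - (1 / 2 : ℚ) • W, ?_, ?_⟩
  · rw [pow_three, hLL, sub_mul, smul_mul_assoc, h1, h3, smul_zero, sub_zero]
  · intro a
    have hp : U ^ a = 1 + (a : ℚ) • V + ((a : ℚ) * (a - 1) / 2) • W := by
      induction a with
      | zero => simp
      | succ a ih =>
        rw [pow_succ, ih, hUV]
        simp only [add_mul, mul_add, smul_mul_assoc, h2, smul_zero, add_zero, one_mul, mul_one]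
        rw [← hW]
        push_cast
        module
    rw [hp, EX]
    simp only [smul_mul_assoc, mul_smul_comm, hLL]
    module

end Pool.Agent.Lib.MP8519b0
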