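import Pool.Agent.Lib.MP_8519b0_al.Spec

/-!
# EXT: one more letter (MP_8519b0_al)
-/

set_option autoImplicit false

namespace Pool.Agent.Lib.MP8519b0

namespace EXTM

variable {m : ℕ}

/-- the action on words over one more letter -/
def act (α : G → Fin m → Fin m) (s : G → Fin m → G) :
    List (Fin (m + 1)) → G → List (Fin (m + 1))
  | [], _ => []
  | x :: w, g =>
    if h : x = Fin.last m then Fin.last m :: w
    else (α g (x.castPred h)).castSucc :: act α s w (s g (x.castPred h))

theorem act_last (α : G → Fin m → Fin m) (s : G → Fin m → G) (w : List (Fin (m + 1))) (g : G) :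
    act α s (Fin.last m :: w) g = Fin.last m :: w := by
  simp [act]

theorem act_cast (α : G → Fin m → Fin m) (s : G → Fin m → G) (y : Fin m)
    (w : List (Fin (m + 1))) (g : G) :
    act α s (y.castSucc :: w) g = (α g y).castSucc :: act α s w (s g y) := by
  have h : y.castSucc ≠ Fin.last m := Fin.castSucc_ne_last y
  simp [act, h]

theorem act_one {α : G → Fin m → Fin m} {s : G → Fin m → G} (h1 : ∀ x, α 1 x = x)
    (h2 : ∀ x, s 1 x = 1) (w : List (Fin (m + 1))) : act α s w 1 = w := by
  induction w with
  | nil => rfl
  | cons x w ih =>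
    induction x using Fin.lastCases with
    | last => exact act_last _ _ _ _
    | cast y => rw [act_cast, h1, h2, ih]

theorem act_mul {α : G → Fin m → Fin m} {s : G → Fin m → G}
    (h1 : ∀ g g' x, α (g * g') x = α g (α g' x))
    (h2 : ∀ g g' x, s (g * g') x = s g (α g' x) * s g' x) (w : List (Fin (m + 1))) :
    ∀ g g' : G, act α s w (g * g') = act α s (act α s w g') g := by
  induction w with
  | nil => intro g g'; rfl
  | cons x w ih =>
    intro g g'
    induction x using Fin.lastCases with
    | last => rw [act_last, act_last, act_last]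
    | cast y => rw [act_cast, act_cast, act_cast, h1, h2, ih]

end EXTM

open EXTM in
theorem specEXT (hLET : SpecLET) : SpecEXT := by
  intro m hm
  obtain ⟨ρ, hinj, hss⟩ := hm
  obtain ⟨hlen, α, hα, hsec⟩ := hLET m ρ hss
  choose s hs using hsec
  have huniq : ∀ h h' : G, (∀ w, ρ h w = ρ h' w) → h = h' := fun h h' hw =>
    hinj (Equiv.ext hw)
  have hcoc : ∀ g g' x, s (g * g') x = s g (α g' x) * s g' x := by
    intro g g' x
    apply huniq
    intro w
    have e1 := hs (g * g') x w
    rw [map_mul, Equiv.Perm.mul_apply, hs g' x w, hs g (α g' x)] at e1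
    rw [map_mul, Equiv.Perm.mul_apply]
    exact (List.cons.inj e1).2.symm
  have hone : ∀ x, s 1 x = 1 := by
    intro x
    apply huniq
    intro w
    have e1 := hs 1 x w
    rw [map_one, Equiv.Perm.one_apply] at e1
    rw [map_one, Equiv.Perm.one_apply]
    exact (List.cons.inj e1).2.symm
  have hα1 : ∀ x, α 1 x = x := by
    intro x; rw [map_one, Equiv.Perm.one_apply]
  have hαm : ∀ g g' x, α (g * g') x = α g (α g' x) := by
    intro g g' x; rw [map_mul, Equiv.Perm.mul_apply]
  let A : MulAction G (List (Fin (m + 1))) :=
    { smul := fun g w => act (fun g x => α g x) s w g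
      one_smul := fun w => act_one hα1 hone w
      mul_smul := fun g g' w => act_mul hαm hcoc w g g' }
  let ρ' : G →* Equiv.Perm (List (Fin (m + 1))) := @MulAction.toPermHom G _ _ A
  have hρ' : ∀ g w, ρ' g w = act (fun g x => α g x) s w g := fun g w => rfl
  have hnil : ∀ g, ρ g [] = [] := by
    intro g
    have := hlen g []
    exact List.length_eq_zero_iff.1 this
  have hmap : ∀ w : List (Fin m), ∀ g,
      act (fun g x => α g x) s (w.map Fin.castSucc) g = (ρ g w).map Fin.castSucc := by
    intro w
    induction w with
    | nil => intro g; rw [hnil]; rfl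
    | cons x w ih =>
      intro g
      rw [List.map_cons, act_cast, ih, hs, List.map_cons]
  refine ⟨ρ', ?_, ?_⟩
  · intro g g' hgg
    apply huniq
    intro w
    have e1 : ρ' g (w.map Fin.castSucc) = ρ' g' (w.map Fin.castSucc) := by rw [hgg]
    rw [hρ', hρ', hmap, hmap] at e1
    exact List.map_injective_iff.2 (Fin.castSucc_injective m) e1
  · intro g x
    induction x using Fin.lastCases with
    | last =>
      refine ⟨1, Fin.last m, fun w => ?_⟩
      rw [hρ', act_last, map_one, Equiv.Perm.one_apply]
    | cast y =>
      refine ⟨s g y, (α g y).castSucc, fun w => ?_⟩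
      rw [hρ', hρ', act_cast]

end Pool.Agent.Lib.MP8519b0
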