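import Pool.Agent.Lib.MP_8519b0_al.Spec

/-!
# Module FIA: the full domains
-/

set_option autoImplicit false

namespace Pool.Agent.Lib.MP8519b0

namespace FIAM

open Matrix

theorem cm (g h : G) : ((g * h : G) : MZ) = (g : MZ) * (h : MZ) :=
  Matrix.SpecialLinearGroup.coe_mul g h

theorem c1 : ((1 : G) : MZ) = 1 := Matrix.SpecialLinearGroup.coe_one

theorem cdet (g : G) : (g : MZ).det = 1 := Matrix.SpecialLinearGroup.det_coe g

theorem ci (g : G) : ((g⁻¹ : G) : MZ) * (g : MZ) = 1 := by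
  rw [← cm, inv_mul_cancel, c1]

theorem ci' (g : G) : (g : MZ) * ((g⁻¹ : G) : MZ) = 1 := by
  rw [← cm, mul_inv_cancel, c1]

/-- cancel `A` on the right -/
theorem cancel {A B C : MZ} (hA : A.det ≠ 0) (h : B * A = C * A) : B = C := by
  have h1 : B * A * A.adjugate = C * A * A.adjugate := by rw [h]
  rw [Matrix.mul_assoc, Matrix.mul_assoc, Matrix.mul_adjugate, Matrix.mul_smul, Matrix.mul_smul,
    Matrix.mul_one, Matrix.mul_one] at h1
  ext i j
  have h2 := congrFun (congrFun h1 i) j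
  simp only [Matrix.smul_apply, smul_eq_mul] at h2
  exact mul_left_cancel₀ hA h2

/-- the domain -/
def dom (A : MZ) : Subgroup G where
  carrier := {g | ∃ h : G, (h : MZ) * A = A * (g : MZ)}
  one_mem' := ⟨1, by rw [c1, Matrix.one_mul, Matrix.mul_one]⟩
  mul_mem' := by
    rintro g g' ⟨h, hh⟩ ⟨h', hh'⟩
    refine ⟨h * h', ?_⟩
    rw [cm, cm, Matrix.mul_assoc, hh', ← Matrix.mul_assoc, hh, Matrix.mul_assoc]
  inv_mem' := by
    rintro g ⟨h, hh⟩
    refine ⟨h⁻¹, ?_⟩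
    have e1 := ci h
    have e2 := ci' g
    calc ((h⁻¹ : G) : MZ) * A = ((h⁻¹ : G) : MZ) * (A * ((g : MZ) * ((g⁻¹ : G) : MZ))) := by
          rw [e2, Matrix.mul_one]
      _ = ((h⁻¹ : G) : MZ) * ((h : MZ) * A * ((g⁻¹ : G) : MZ)) := by
          rw [hh, Matrix.mul_assoc]
      _ = A * ((g⁻¹ : G) : MZ) := by
          rw [← Matrix.mul_assoc, ← Matrix.mul_assoc, e1, Matrix.one_mul]

theorem mem_dom {A : MZ} {g : G} : g ∈ dom A ↔ ∃ h : G, (h : MZ) * A = A * (g : MZ) := Iff.rfl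

/-- the homomorphism on the domain -/
theorem hom_dom {A : MZ} (hA : A.det ≠ 0) :
    ∃ φ : dom A →* G, ∀ h : dom A, (φ h : MZ) * A = A * ((h : G) : MZ) := by
  have h1 : ∀ g : dom A, ∃ h : G, (h : MZ) * A = A * ((g : G) : MZ) := fun g => g.2
  choose f hf using h1
  refine ⟨MonoidHom.mk' f ?_, hf⟩
  intro g g'
  apply Subtype.ext
  apply cancel hA
  have e : ((f g * f g' : G) : MZ) = (f g : MZ) * (f g' : MZ) := cm _ _
  have e' : (((g * g' : dom A) : G) : MZ) = ((g : G) : MZ) * ((g' : G) : MZ) := cm _ _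
  change (f (g * g') : MZ) * A = ((f g * f g' : G) : MZ) * A
  calc (f (g * g') : MZ) * A = A * (((g * g' : dom A) : G) : MZ) := hf _
    _ = A * ((g : G) : MZ) * ((g' : G) : MZ) := by rw [e', Matrix.mul_assoc]
    _ = (f g : MZ) * (A * ((g' : G) : MZ)) := by rw [← hf g, Matrix.mul_assoc]
    _ = ((f g * f g' : G) : MZ) * A := by rw [← hf g', e, Matrix.mul_assoc]

/-- the matrices congruent to `1` modulo `det A` are in the domain -/
theorem mem_of_congr {A : MZ} (hA : A.det ≠ 0) (g : G) (M : MZ) (h : (g : MZ) = 1 + A.det • M) :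
    g ∈ dom A := by
  have h1 : (1 + A * M * A.adjugate) * A = A * (g : MZ) := by
    rw [h, Matrix.add_mul, Matrix.one_mul, Matrix.mul_assoc, Matrix.adjugate_mul, Matrix.mul_add,
      Matrix.mul_one, Matrix.mul_smul, Matrix.mul_smul, Matrix.mul_one]
  have h2 : (1 + A * M * A.adjugate).det = 1 := by
    have h3 := congrArg Matrix.det h1
    rw [Matrix.det_mul, Matrix.det_mul, cdet, mul_one] at h3
    exact mul_right_cancel₀ hA (by rw [h3, one_mul])
  exact ⟨⟨_, h2⟩, h1⟩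

theorem finiteIndex_dom {A : MZ} (hA : A.det ≠ 0) : (dom A).FiniteIndex := by
  have : NeZero A.det.natAbs := ⟨Int.natAbs_ne_zero.2 hA⟩
  set r : G →* Matrix.SpecialLinearGroup (Fin 3) (ZMod A.det.natAbs) :=
    Matrix.SpecialLinearGroup.map (Int.castRingHom (ZMod A.det.natAbs)) with hr
  have : Finite (Matrix.SpecialLinearGroup (Fin 3) (ZMod A.det.natAbs)) := inferInstance
  have : r.ker.FiniteIndex := inferInstance
  refine Subgroup.finiteIndex_of_le (H := r.ker) ?_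
  intro g hg
  rw [MonoidHom.mem_ker] at hg
  have h1 : ∀ i j, (A.det : ℤ) ∣ (g : MZ) i j - (1 : MZ) i j := by
    intro i j
    rw [← Int.natAbs_dvd, ← ZMod.intCast_zmod_eq_zero_iff_dvd]
    have h2 : ((r g : Matrix.SpecialLinearGroup (Fin 3) (ZMod A.det.natAbs)) :
        Matrix (Fin 3) (Fin 3) (ZMod A.det.natAbs)) i j =
        (1 : Matrix (Fin 3) (Fin 3) (ZMod A.det.natAbs)) i j := by
      rw [hg]
      rfl
    rw [hr, Matrix.SpecialLinearGroup.map_apply_coe] at h2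
    simp only [RingHom.mapMatrix_apply, Matrix.map_apply, Int.coe_castRingHom] at h2
    push_cast
    rw [h2, Matrix.one_apply, Matrix.one_apply]
    split_ifs <;> simp
  choose M hM using h1
  refine mem_of_congr hA g (Matrix.of M) ?_
  ext i j
  rw [Matrix.add_apply, Matrix.smul_apply, Matrix.of_apply, smul_eq_mul, ← hM i j]
  ring

/-- the action on the cosets -/
theorem cosets (H : Subgroup G) [H.FiniteIndex] :
    ∃ (m : ℕ) (α : G →* Equiv.Perm (Fin m)) (x₀ : Fin m),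
      (∀ x y : Fin m, ∃ g : G, α g x = y) ∧ ∀ g : G, g ∈ H ↔ α g x₀ = x₀ := by
  have : Finite (G ⧸ H) := Subgroup.finite_quotient_of_finiteIndex
  obtain ⟨m, ⟨e⟩⟩ := Finite.exists_equiv_fin (G ⧸ H)
  refine ⟨m, (e.permCongrHom.toMonoidHom).comp (MulAction.toPermHom G (G ⧸ H)),
    e ((1 : G) : G ⧸ H), ?_, ?_⟩
  · intro x y
    obtain ⟨g, hg⟩ := MulAction.exists_smul_eq G (e.symm x) (e.symm y)
    refine ⟨g, ?_⟩
    change e (g • e.symm x) = y
    rw [hg, Equiv.apply_symm_apply]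
  · intro g
    change g ∈ H ↔ e (g • e.symm (e ((1 : G) : G ⧸ H))) = e ((1 : G) : G ⧸ H)
    rw [Equiv.symm_apply_apply, EmbeddingLike.apply_eq_iff_eq, MulAction.Quotient.smul_coe,
      smul_eq_mul, mul_one, eq_comm, QuotientGroup.eq, inv_one, one_mul]

theorem gen {A : MZ} (hA : A.det ≠ 0) (σ : G →* G) :
    ∃ (m : ℕ) (α : G →* Equiv.Perm (Fin m)) (x₀ : Fin m) (H : Subgroup G) (φ : H →* G),
      (∀ x y : Fin m, ∃ g : G, α g x = y) ∧ (∀ g : G, g ∈ H ↔ α g x₀ = x₀) ∧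
      (∀ g : G, g ∈ H ↔ ∃ h : G, (h : MZ) * A = A * (σ g : MZ)) ∧
      ∀ h : H, (φ h : MZ) * A = A * (σ (h : G) : MZ) := by
  obtain ⟨φ, hφ⟩ := hom_dom hA
  have := finiteIndex_dom hA
  have : ((dom A).comap σ).FiniteIndex := by
    constructor
    rw [Subgroup.index_comap]
    intro h
    exact Subgroup.FiniteIndex.index_ne_zero (H := dom A)
      (Subgroup.index_eq_zero_of_relIndex_eq_zero h)
  obtain ⟨m, α, x₀, h1, h2⟩ := cosets ((dom A).comap σ)
  refine ⟨m, α, x₀, (dom A).comap σ, φ.comp (σ.subgroupComap (dom A)), h1, h2, ?_, ?_⟩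
  · intro g
    rw [Subgroup.mem_comap, mem_dom]
  · intro h
    exact hφ ⟨σ (h : G), h.2⟩

/-- `g ↦ (g⁻¹)ᵀ` -/
def tau : G →* G :=
  MonoidHom.mk' (fun g => ⟨((g⁻¹ : G) : MZ).transpose, by
    rw [Matrix.det_transpose, cdet]⟩) (by
    intro g h
    apply Subtype.ext
    change (((g * h)⁻¹ : G) : MZ).transpose =
      ((g⁻¹ : G) : MZ).transpose * ((h⁻¹ : G) : MZ).transpose
    rw [_root_.mul_inv_rev, cm, Matrix.transpose_mul])

end FIAM

theorem specFIA : SpecFIA := by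
  intro A hA
  exact ⟨FIAM.gen hA (MonoidHom.id G), FIAM.gen hA FIAM.tau⟩

end Pool.Agent.Lib.MP8519b0
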