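import Pool.Agent.Lib.MP_8519b0_al.Spec

set_option autoImplicit false

namespace Pool.Agent.Lib.MP8519b0

namespace FIXM

/-- Powers of elementary matrices. -/
lemma transvection_pow {i j : Fin 3} (h : i ≠ j) (n : ℕ) :
    (Matrix.SpecialLinearGroup.transvection h (1 : ℤ) : G) ^ n =
      Matrix.SpecialLinearGroup.transvection h (n : ℤ) := by
  induction n with
  | zero =>
    rw [pow_zero, Nat.cast_zero, Matrix.SpecialLinearGroup.transvection_coeff_zero]
  | succ n ih =>
    rw [pow_succ, ih]
    apply Subtype.ext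
    change Matrix.transvection i j (n : ℤ) * Matrix.transvection i j (1 : ℤ) =
      Matrix.transvection i j ((n + 1 : ℕ) : ℤ)
    rw [Matrix.transvection_mul_transvection_same i j h]
    push_cast
    rfl

lemma el_pow {i j : Fin 3} (h : i ≠ j) (n : ℕ) : el i j 1 ^ n = el i j (n : ℤ) := by
  unfold el
  rw [dif_pos h, dif_pos h]
  exact transvection_pow h n

end FIXM

theorem specFIX : SpecFIX := by
  intro H hH
  refine ⟨H.index.factorial, Nat.factorial_pos _, ?_⟩
  unfold EN
  rw [Subgroup.closure_le]
  rintro g ⟨i, j, hij, rfl⟩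
  rw [← FIXM.el_pow hij]
  exact Subgroup.pow_mem_of_index_ne_zero_of_dvd hH.index_ne_zero _
    (fun m hm1 hm2 => Nat.dvd_factorial hm1 hm2)

end Pool.Agent.Lib.MP8519b0
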