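import Pool.Agent.Lib.MP_8519b0_al.Spec

/-!
# MP_8519b0_al, module FNA: theorem A
-/

set_option autoImplicit false

namespace Pool.Agent.Lib.MP8519b0

theorem specFNA (hNEG : SpecNEG) (hSEV : SpecSEV) (hEXT : SpecEXT) : SpecFNA := by
  intro m
  constructor
  · rintro ⟨ρ, h1, h2⟩
    exact hNEG m ρ h1 h2
  · intro hm
    induction m, hm using Nat.le_induction with
    | base => exact hSEV
    | succ m _ ih => exact hEXT m ih

end Pool.Agent.Lib.MP8519b0
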