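import Pool.Agent.Lib.MP_8519b0_al.Spec

/-!
# MP_8519b0_al: Theorem B (module FNB)
-/

set_option autoImplicit false

namespace Pool.Agent.Lib.MP8519b0

namespace FNBM

theorem cancel {A X Y : MZ} (hA : A.det ≠ 0) (h : X * A = Y * A) : X = Y := by
  have h1 : X * A * A.adjugate = Y * A * A.adjugate := by rw [h]
  rw [Matrix.mul_assoc, Matrix.mul_assoc, Matrix.mul_adjugate, Matrix.mul_smul, Matrix.mul_smul,
    Matrix.mul_one, Matrix.mul_one] at h1
  ext i j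
  have h2 := congrFun (congrFun h1 i) j
  simp only [Matrix.smul_apply, smul_eq_mul] at h2
  exact mul_left_cancel₀ hA h2

theorem build (hACT : SpecACT) (hCVR : SpecCVR) (A : MZ) (hA : Good A) (m : ℕ)
    (α : G →* Equiv.Perm (Fin m)) (x₀ : Fin m) (H : Subgroup G) (φ : H →* G)
    (htr : ∀ x y : Fin m, ∃ g : G, α g x = y) (hst : ∀ g : G, g ∈ H ↔ α g x₀ = x₀)
    (hc : IsConj3 H φ A) :
    ∃ ρ : G →* Equiv.Perm (List (Fin m)), Function.Injective ρ ∧ SelfSimilar ρ ∧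
      LetterTransitive ρ ∧ (∀ g : G, ρ g [x₀] = [x₀] ↔ g ∈ H) ∧
      ∀ h : H, Section ρ x₀ (h : G) (φ h) := by
  obtain ⟨ρ, hss, hρ, hsec⟩ := hACT m α htr x₀ H hst φ
  refine ⟨ρ, ?_, hss, ?_, ?_, hsec⟩
  · have hK : ρ.ker ≤ H := by
      intro k hk
      rw [hst]
      have h1 := hρ k x₀
      rw [MonoidHom.mem_ker.mp hk] at h1
      have h2 : [x₀] = [α k x₀] := h1
      exact (List.cons.inj h2).1.symm
    have hbot : ρ.ker = ⊥ := by
      refine hCVR H φ A hA hc ρ.ker inferInstance hK ?_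
      intro k hk
      rw [MonoidHom.mem_ker]
      refine Equiv.ext fun w => ?_
      have h1 := hsec ⟨k, hK hk⟩ w
      have h2 : ρ k = 1 := MonoidHom.mem_ker.mp hk
      have h3 : x₀ :: w = x₀ :: ρ (φ ⟨k, hK hk⟩) w := by
        rw [← h1]
        show x₀ :: w = ρ k (x₀ :: w)
        rw [h2]
        rfl
      exact (List.cons.inj h3).2.symm
    exact (MonoidHom.ker_eq_bot_iff ρ).mp hbot
  · intro x y
    obtain ⟨g, hg⟩ := htr x y
    exact ⟨g, by rw [hρ, hg]⟩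
  · intro g
    rw [hρ, hst]
    constructor
    · intro h
      exact (List.cons.inj h).1
    · intro h
      rw [h]

/-- an element of `SL_3(Z)` different from `1` -/
theorem nontriv : ∃ g : G, g ≠ 1 := by
  refine ⟨⟨!![1, 1, 0; 0, 1, 0; 0, 0, 1], by simp [Matrix.det_fin_three]⟩, ?_⟩
  intro h
  have h1 := congrArg (fun g : G => (g : MZ) 0 1) h
  simp at h1

theorem no_two (hLET : SpecLET) (hCLS : SpecCLS) (hNTR : SpecNTR) (hSEC : SpecSEC) (m : ℕ)
    (ρ : G →* Equiv.Perm (List (Fin m))) (hinj : Function.Injective ρ) (hss : SelfSimilar ρ)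
    (hall : ∀ u v : List (Fin m), u.length = 2 → v.length = 2 → ∃ g : G, ρ g u = v) : False := by
  rcases Nat.eq_zero_or_pos m with hm | hm
  · subst hm
    obtain ⟨g, hg⟩ := nontriv
    refine hg (hinj ?_)
    refine Equiv.ext fun w => ?_
    have h0 : ∀ w : List (Fin 0), w = [] := by
      intro w
      cases w with
      | nil => rfl
      | cons a w => exact a.elim0
    rw [h0 (ρ g w), h0 (ρ 1 w)]
  obtain ⟨-, α, hα, hαs⟩ := hLET m ρ hss
  let x : Fin m := ⟨0, hm⟩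
  have hfirst : ∀ (g : G) (a b : Fin m) (w w' : List (Fin m)), ρ g (a :: w) = b :: w' →
      α g a = b := by
    intro g a b w w' h
    obtain ⟨s, hs⟩ := hαs g a
    rw [hs] at h
    exact (List.cons.inj h).1
  have hlt : LetterTransitive ρ := by
    intro a b
    obtain ⟨g, hg⟩ := hall [a, a] [b, b] rfl rfl
    exact ⟨g, by rw [hα, hfirst g a b _ _ hg]⟩
  obtain ⟨H, φ, hfin, hmem, hsec, -, hcf⟩ := hSEC m ρ hinj hss hlt x
  obtain ⟨A, hA, hconj⟩ := hCLS H hfin φ hcf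
  obtain ⟨k, hk⟩ := hNTR H φ A hA hconj
  obtain ⟨q, hq⟩ := hall [x, x] [x, α k x] rfl rfl
  have hqx : α q x = x := hfirst q x x _ _ hq
  have hqH : q ∈ H := by rw [hmem, hα, hqx]
  have h1 := hsec ⟨q, hqH⟩ [x]
  have h2 : ρ q [x, x] = x :: ρ (φ ⟨q, hqH⟩) [x] := h1
  rw [hq, hα] at h2
  have h3 : α k x = α (φ ⟨q, hqH⟩) x := (List.cons.inj (List.cons.inj h2).2).1
  have hrH : (φ ⟨q, hqH⟩)⁻¹ * k ∈ H := by
    rw [hmem, hα, map_mul, Equiv.Perm.mul_apply, h3, ← Equiv.Perm.mul_apply, ← map_mul,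
      inv_mul_cancel, map_one]
    rfl
  exact hk ⟨q, hqH⟩ ⟨_, hrH⟩ (mul_inv_cancel_left _ _).symm

end FNBM

theorem specFNB (hLET : SpecLET) (hACT : SpecACT) (hCVR : SpecCVR) (hCLS : SpecCLS)
    (hNTR : SpecNTR) (hSEC : SpecSEC) (hFIA : SpecFIA) : SpecFNB := by
  refine ⟨?_, ?_, ?_⟩
  · intro m ρ hinj hss hlt x
    obtain ⟨H, φ, hfin, -, -, huniq, hcf⟩ := hSEC m ρ hinj hss hlt x
    obtain ⟨A, hA, hconj⟩ := hCLS H hfin φ hcf
    refine ⟨A, hA, ?_⟩
    rcases hconj with h | h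
    · left
      intro g s hs
      obtain ⟨hg, he⟩ := huniq g s hs
      have h1 := h ⟨g, hg⟩
      rw [he] at h1
      exact h1
    · right
      intro g s hs
      obtain ⟨hg, he⟩ := huniq g s hs
      have h1 := h ⟨g, hg⟩
      rw [he] at h1
      exact h1
  · intro A hA
    obtain ⟨h1, h2⟩ := hFIA A hA.1
    refine ⟨?_, ?_⟩
    · obtain ⟨m, α, x₀, H, φ, htr, hst, hH, hφ⟩ := h1
      obtain ⟨ρ, hi, hss, hlt, hmem, hsec⟩ :=
        FNBM.build hACT hCVR A hA m α x₀ H φ htr hst (Or.inl hφ)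
      refine ⟨m, ρ, x₀, hi, hss, hlt, fun g => (hmem g).trans (hH g), ?_⟩
      intro g s hs
      have hg : g ∈ H := (hH g).mpr ⟨s, hs⟩
      have h3 : (φ ⟨g, hg⟩ : MZ) * A = (s : MZ) * A := (hφ ⟨g, hg⟩).trans hs.symm
      have h4 : φ ⟨g, hg⟩ = s := Subtype.ext (FNBM.cancel hA.1 h3)
      have h5 := hsec ⟨g, hg⟩
      rw [h4] at h5
      exact h5
    · obtain ⟨m, α, x₀, H, φ, htr, hst, hH, hφ⟩ := h2
      obtain ⟨ρ, hi, hss, hlt, hmem, hsec⟩ :=
        FNBM.build hACT hCVR A hA m α x₀ H φ htr hst (Or.inr hφ)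
      refine ⟨m, ρ, x₀, hi, hss, hlt, fun g => (hmem g).trans (hH g), ?_⟩
      intro g s hs
      have hg : g ∈ H := (hH g).mpr ⟨s, hs⟩
      have h3 : (φ ⟨g, hg⟩ : MZ) * A = (s : MZ) * A := (hφ ⟨g, hg⟩).trans hs.symm
      have h4 : φ ⟨g, hg⟩ = s := Subtype.ext (FNBM.cancel hA.1 h3)
      have h5 := hsec ⟨g, hg⟩
      rw [h4] at h5
      exact h5
  · intro m ρ hinj hss
    by_contra hcon
    refine FNBM.no_two hLET hCLS hNTR hSEC m ρ hinj hss ?_
    intro u v hu hv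
    by_contra hg
    exact hcon ⟨u, v, hu, hv, fun g h => hg ⟨g, h⟩⟩

end Pool.Agent.Lib.MP8519b0
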