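import Pool.Agent.Lib.MP_8519b0_al.Spec2

/-!
# MP_8519b0_al: Theorem C (module FNC)
-/

set_option autoImplicit false

namespace Pool.Agent.Lib.MP8519b0

theorem specFNC (hMIX : SpecMIX) (hRAY : SpecRAY) (hAUT : SpecAUT) : SpecFNC := by
  have h1 : ∀ (m : ℕ) (ρ : G →* Equiv.Perm (List (Fin m))), Function.Injective ρ →
      SelfSimilar ρ →
      ∃ (g : G) (w : ℕ → List (Fin m)) (s : ℕ → G),
        (∀ n, (w n).length = n ∧ w n <+: w (n + 1)) ∧
        (∀ (n : ℕ) (u : List (Fin m)), ρ g (w n ++ u) = w n ++ ρ (s n) u) ∧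
        ∀ n n' : ℕ, n ≠ n' → ¬ IsConj (s n) (s n') := by
    intro m ρ hinj hss
    obtain ⟨x, H, φ, A, hfi, -, hsec, hgood, hconj⟩ := hMIX m ρ hinj hss
    exact hRAY m ρ hss x H φ A hfi hsec hgood hconj
  refine ⟨h1, ?_⟩
  intro m ρ hinj S hS hcl
  by_contra hcon
  push Not at hcon
  obtain ⟨hss, hfin⟩ := hAUT m ρ hinj S hS hcl hcon
  obtain ⟨g, w, s, -, hs, hnc⟩ := h1 m ρ hinj hss
  have hsi : Function.Injective s := by
    intro n n' h
    by_contra hne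
    exact hnc n n' hne (h ▸ IsConj.refl _)
  refine Set.infinite_range_of_injective hsi ((hfin g).subset ?_)
  rintro _ ⟨n, rfl⟩
  exact ⟨w n, w n, rfl, hs n⟩

end Pool.Agent.Lib.MP8519b0
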