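import Pool.Agent.Lib.MP_8519b0_al.Spec2

/-!
# MP_8519b0_al, module FND: Theorem D
-/

set_option autoImplicit false

namespace Pool.Agent.Lib.MP8519b0

theorem specFND (hMIX : SpecMIX) (hORB : SpecORB) : SpecFND := by
  intro m ρ hinj hss n
  obtain ⟨x, H, φ, A, _, hH, hsec, hA, hφ⟩ := hMIX m ρ hinj hss
  exact hORB m ρ hss x H φ A hH hsec hA hφ n

end Pool.Agent.Lib.MP8519b0
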