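import Pool.Agent.Lib.MP_8519b0_al.Spec3

/-!
# MP_8519b0_al, module FNE: exactly four actions over seven letters
-/

set_option autoImplicit false

namespace Pool.Agent.Lib.MP8519b0

namespace FNEM

/-- the invariant of IV2, IV3 -/
def Inv {m : ℕ} (ρ : G →* Equiv.Perm (List (Fin m))) : Prop :=
  ∃ a b : Fin m, ∀ g : G, ρ g [a] = [a] → ρ g [a, b] = [a, b]

theorem not_inv {m : ℕ} {σ : G →* Equiv.Perm (List (Fin m))}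
    (h : ∀ a b : Fin m, ∃ g : G, σ g [a] = [a] ∧ σ g [a, b] ≠ [a, b]) : ¬ Inv σ := by
  rintro ⟨a, b, hab⟩
  obtain ⟨g, h1, h2⟩ := h a b
  exact h2 (hab g h1)

end FNEM

open FNEM in
/-- **FNE.** Up to equivalence there are exactly four faithful self-similar actions over seven
letters. -/
theorem specFNE (hSVA : SpecSVA) (hSTD : SpecSTD) (hUNQ : SpecUNQ) (hIV1 : SpecIV1)
    (hIV2 : SpecIV2) (hIV3 : SpecIV3) : SpecFNE := by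
  obtain ⟨⟨ρ₁, x₁, h1⟩, ⟨ρ₂, x₂, h2⟩, ⟨ρ₃, x₃, h3⟩, ⟨ρ₄, x₄, h4⟩⟩ := hSTD
  have i1 : ¬ Inv ρ₁ := not_inv (hIV2.2 ρ₁ x₁ h1.2.1 h1.2.2.1 (Or.inl h1.2.2.2))
  have i2 : Inv ρ₂ := hIV2.1 ρ₂ x₂ (Or.inl h2.2.2.2)
  have i3 : ¬ Inv ρ₃ := not_inv (hIV2.2 ρ₃ x₃ h3.2.1 h3.2.2.1 (Or.inr h3.2.2.2))
  have i4 : Inv ρ₄ := hIV2.1 ρ₄ x₄ (Or.inr h4.2.2.2)
  have e13 := hIV1 7 ρ₁ ρ₃ x₁ x₃ h3.2.2.1 h1.2.2.2.1 h3.2.2.2.1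
  have e14 := hIV1 7 ρ₁ ρ₄ x₁ x₄ h4.2.2.1 h1.2.2.2.1 h4.2.2.2.1
  have e23 := hIV1 7 ρ₂ ρ₃ x₂ x₃ h3.2.2.1 h2.2.2.2.1 h3.2.2.2.1
  have e24 := hIV1 7 ρ₂ ρ₄ x₂ x₄ h4.2.2.1 h2.2.2.2.1 h4.2.2.2.1
  have e12 : ¬ Equi ρ₁ ρ₂ := fun h => i1 ((hIV3 7 ρ₁ ρ₂ h).2 i2)
  have e21 : ¬ Equi ρ₂ ρ₁ := fun h => i1 ((hIV3 7 ρ₂ ρ₁ h).1 i2)
  have e34 : ¬ Equi ρ₃ ρ₄ := fun h => i3 ((hIV3 7 ρ₃ ρ₄ h).2 i4)
  have e43 : ¬ Equi ρ₄ ρ₃ := fun h => i3 ((hIV3 7 ρ₄ ρ₃ h).1 i4)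
  refine ⟨![ρ₁, ρ₂, ρ₃, ρ₄], ?_, ?_, ?_⟩
  · intro i
    fin_cases i
    · exact ⟨h1.1, h1.2.1⟩
    · exact ⟨h2.1, h2.2.1⟩
    · exact ⟨h3.1, h3.2.1⟩
    · exact ⟨h4.1, h4.2.1⟩
  · intro i j hij
    fin_cases i <;> fin_cases j
    · exact absurd rfl hij
    · exact e12
    · exact e13.1
    · exact e14.1
    · exact e21
    · exact absurd rfl hij
    · exact e23.1
    · exact e24.1
    · exact e13.2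
    · exact e23.2
    · exact absurd rfl hij
    · exact e34
    · exact e14.2
    · exact e24.2
    · exact e43
    · exact absurd rfl hij
  · intro σ hinj hss
    obtain ⟨htr, y, hy⟩ := hSVA σ hinj hss
    have hu := hUNQ ρ₁ ρ₂ ρ₃ ρ₄ σ x₁ x₂ x₃ x₄ y h1 h2 h3 h4 hinj hss htr
    rcases hy with hy | hy
    · rcases hu.1 hy with h | h
      · exact ⟨0, h⟩
      · exact ⟨1, h⟩
    · rcases hu.2 hy with h | h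
      · exact ⟨2, h⟩
      · exact ⟨3, h⟩

end Pool.Agent.Lib.MP8519b0
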