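import Pool.Agent.Lib.MP_8519b0_al.Spec3

/-!
# MP_8519b0_al: module FNT (helper77)
-/

set_option autoImplicit false

namespace Pool.Agent.Lib.MP8519b0

theorem specFNT (hREL : SpecREL) : SpecFNT := by
  classical
  intro m
  rcases Nat.eq_zero_or_pos m with rfl | hm
  · have hs0 : Subsingleton (List (Fin 0)) := by
      refine ⟨fun a b => ?_⟩
      rcases a with _ | ⟨x, _⟩
      · rcases b with _ | ⟨y, _⟩
        · rfl
        · exact y.elim0
      · exact x.elim0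
    have hs : Subsingleton (G →* Equiv.Perm (List (Fin 0))) :=
      ⟨fun a b => MonoidHom.ext fun g => Equiv.ext fun w => Subsingleton.elim _ _⟩
    exact ⟨{ρ | Function.Injective ρ ∧ SelfSimilar ρ ∧ LetterTransitive ρ}, Set.toFinite _,
      fun ρ h => h, fun ρ h1 h2 h3 => ⟨ρ, ⟨h1, h2, h3⟩, Equiv.refl _,
        fun u v => ⟨rfl, List.prefix_append _ _⟩, fun g w => rfl⟩⟩
  · obtain ⟨ι, hι, R, hR1, hR2⟩ := hREL m hm
    let J := {i : ι // ∃ ρ : G →* Equiv.Perm (List (Fin m)),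
      (Function.Injective ρ ∧ SelfSimilar ρ ∧ LetterTransitive ρ) ∧ R ρ i}
    let f : J → (G →* Equiv.Perm (List (Fin m))) := fun j => j.2.choose
    refine ⟨Set.range f, Set.finite_range f, ?_, ?_⟩
    · rintro _ ⟨j, rfl⟩
      exact j.2.choose_spec.1
    · intro ρ h1 h2 h3
      obtain ⟨i, hi⟩ := hR1 ρ h1 h2 h3
      let j : J := ⟨i, ρ, ⟨h1, h2, h3⟩, hi⟩
      have hj := j.2.choose_spec
      exact ⟨f j, ⟨j, rfl⟩, hR2 (f j) ρ i hj.1.2.1 h2 hj.1.2.2 h3 hj.2 hi⟩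

end Pool.Agent.Lib.MP8519b0
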