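import Pool.Agent.Lib.MP_8519b0_al.Spec

/-!
# GEN: `SL_3(Z)` is generated by the elementary matrices
-/

set_option autoImplicit false

namespace Pool.Agent.Lib.MP8519b0

namespace GENM

/-- the subgroup generated by the elementary matrices -/
def S : Subgroup G := Subgroup.closure {g : G | ∃ i j : Fin 3, i ≠ j ∧ g = el i j 1}

lemma el_eq {i j : Fin 3} (h : i ≠ j) (c : ℤ) :
    el i j c = Matrix.SpecialLinearGroup.transvection h c := by
  simp only [el, dif_pos h]

lemma el_mem {i j : Fin 3} (h : i ≠ j) (c : ℤ) : el i j c ∈ S := by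
  have h1 : el i j 1 ∈ S := Subgroup.subset_closure ⟨i, j, h, rfl⟩
  induction c using Int.induction_on with
  | zero =>
    rw [el_eq h, Matrix.SpecialLinearGroup.transvection_coeff_zero]
    exact S.one_mem
  | succ n ih =>
    rw [el_eq h, Matrix.SpecialLinearGroup.transvection_add, ← el_eq h, ← el_eq h]
    exact S.mul_mem ih h1
  | pred n ih =>
    have h2 : el i j (-1) = (el i j 1)⁻¹ := by
      rw [el_eq h, el_eq h, Matrix.SpecialLinearGroup.transvection_inv]
    have h3 : el i j (-(n : ℤ) - 1) = el i j (-(n : ℤ)) * el i j (-1) := by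
      rw [el_eq h, el_eq h, el_eq h, ← Matrix.SpecialLinearGroup.transvection_add, sub_eq_add_neg]
    rw [h3, h2]
    exact S.mul_mem ih (S.inv_mem h1)

lemma row_same {i j : Fin 3} (h : i ≠ j) (c : ℤ) (g : G) (m : Fin 3) :
    (el i j c * g : G) i m = g i m + c * g j m := by
  rw [el_eq h]
  exact Matrix.transvection_mul_apply_same i j m c (g : MZ)

lemma row_ne {i j l : Fin 3} (h : i ≠ j) (hl : l ≠ i) (c : ℤ) (g : G) (m : Fin 3) :
    (el i j c * g : G) l m = g l m := by
  rw [el_eq h]
  exact Matrix.transvection_mul_apply_of_ne i j l m hl c (g : MZ)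

/-- the Euclidean algorithm in the rows `i`, `j` for the entries of column `k` -/
lemma euclid {i j : Fin 3} (h : i ≠ j) (k : Fin 3) : ∀ (n : ℕ) (g : G), (g j k).natAbs = n →
    ∃ s ∈ S, (s * g : G) j k = 0 ∧ (∀ l, l ≠ i → l ≠ j → ∀ m, (s * g : G) l m = g l m) ∧
      ∀ m, g i m = 0 → g j m = 0 → (s * g : G) i m = 0 ∧ (s * g : G) j m = 0 := by
  intro n
  induction n using Nat.strong_induction_on with
  | _ n ih =>
    intro g hg
    by_cases h0 : g j k = 0
    · exact ⟨1, S.one_mem, by rwa [one_mul], fun l _ _ m => by rw [one_mul],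
        fun m h1 h2 => by rw [one_mul]; exact ⟨h1, h2⟩⟩
    · set q : ℤ := g i k / g j k with hq
      set t : G := el i j 1 * el j i (-1) * el i j 1 * el i j (-q) with ht
      have htS : t ∈ S := S.mul_mem (S.mul_mem (S.mul_mem (el_mem h _) (el_mem h.symm _))
        (el_mem h _)) (el_mem h _)
      have hti : ∀ m, (t * g : G) i m = g j m := by
        intro m
        simp only [ht, mul_assoc, row_same h, row_same h.symm, row_ne h h.symm,
          row_ne h.symm h]
        ring
      have htj : ∀ m, (t * g : G) j m = -(g i m - q * g j m) := by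
        intro m
        simp only [ht, mul_assoc, row_same h, row_same h.symm, row_ne h h.symm]
        ring
      have htl : ∀ l, l ≠ i → l ≠ j → ∀ m, (t * g : G) l m = g l m := by
        intro l hli hlj m
        simp only [ht, mul_assoc, row_ne h hli, row_ne h.symm hlj]
      have hlt : ((t * g : G) j k).natAbs < n := by
        have h1 : (t * g : G) j k = -(g i k % g j k) := by
          rw [htj k, Int.emod_def]
          ring
        have h4 := Int.emod_nonneg (g i k) h0
        have h5 := Int.emod_lt_abs (g i k) h0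
        rw [Int.abs_eq_natAbs] at h5
        rw [h1, Int.natAbs_neg, ← hg]
        omega
      obtain ⟨s, hs, h1, h2, h3⟩ := ih _ hlt (t * g) rfl
      refine ⟨s * t, S.mul_mem hs htS, ?_, ?_, ?_⟩
      · rw [mul_assoc]; exact h1
      · intro l hli hlj m
        rw [mul_assoc, h2 l hli hlj m, htl l hli hlj m]
      · intro m hi hj
        rw [mul_assoc]
        exact h3 m (by rw [hti, hj]) (by rw [htj, hi, hj]; ring)

/-- the square of a signed transposition -/
def sq (i j : Fin 3) : G := (el i j 1 * el j i (-1) * el i j 1) ^ 2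

lemma sq_mem {i j : Fin 3} (h : i ≠ j) : sq i j ∈ S :=
  S.pow_mem (S.mul_mem (S.mul_mem (el_mem h _) (el_mem h.symm _)) (el_mem h _)) 2

lemma diag_mem (D : G) (h01 : D 0 1 = 0) (h02 : D 0 2 = 0) (h12 : D 1 2 = 0) (h10 : D 1 0 = 0)
    (h20 : D 2 0 = 0) (h21 : D 2 1 = 0) : D ∈ S := by
  have hdet : D 0 0 * D 1 1 * D 2 2 = 1 := by
    have := D.det_coe
    rw [Matrix.det_fin_three] at this
    simp only [h01, h02, h12, h10, h20, h21] at this
    linarith
  have ha : IsUnit (D 0 0) := IsUnit.of_mul_eq_one (D 1 1 * D 2 2) (by linarith)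
  have hb : IsUnit (D 1 1) := IsUnit.of_mul_eq_one (D 0 0 * D 2 2) (by linarith)
  have key : ∀ E : G, E ∈ S → (∀ a b, D a b = E a b) → D ∈ S := by
    intro E hE hab
    have : D = E := Matrix.SpecialLinearGroup.ext _ _ hab
    rwa [this]
  rcases Int.isUnit_iff.mp ha with ha | ha <;> rcases Int.isUnit_iff.mp hb with hb | hb
  · refine key 1 S.one_mem ?_
    have hc : D 2 2 = 1 := by rw [ha, hb] at hdet; linarith
    intro a b
    fin_cases a <;> fin_cases b <;> simp [ha, hb, hc, h01, h02, h12, h10, h20, h21]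
  · refine key (sq 1 2) (sq_mem (by decide)) ?_
    have hc : D 2 2 = -1 := by rw [ha, hb] at hdet; linarith
    intro a b
    fin_cases a <;> fin_cases b <;> simp [ha, hb, hc, h01, h02, h12, h10, h20, h21] <;>
      decide +kernel
  · refine key (sq 0 2) (sq_mem (by decide)) ?_
    have hc : D 2 2 = -1 := by rw [ha, hb] at hdet; linarith
    intro a b
    fin_cases a <;> fin_cases b <;> simp [ha, hb, hc, h01, h02, h12, h10, h20, h21] <;>
      decide +kernel
  · refine key (sq 0 1) (sq_mem (by decide)) ?_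
    have hc : D 2 2 = 1 := by rw [ha, hb] at hdet; linarith
    intro a b
    fin_cases a <;> fin_cases b <;> simp [ha, hb, hc, h01, h02, h12, h10, h20, h21] <;>
      decide +kernel

lemma upper_mem (g : G) (h10 : g 1 0 = 0) (h20 : g 2 0 = 0) (h21 : g 2 1 = 0) : g ∈ S := by
  have hdet : g 0 0 * g 1 1 * g 2 2 = 1 := by
    have := g.det_coe
    rw [Matrix.det_fin_three] at this
    simp only [h10, h20, h21] at this
    linarith
  have hb : IsUnit (g 1 1) := IsUnit.of_mul_eq_one (g 0 0 * g 2 2) (by linarith)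
  have hc : IsUnit (g 2 2) := IsUnit.of_mul_eq_one (g 0 0 * g 1 1) (by linarith)
  have hb2 : g 1 1 * g 1 1 = 1 := Int.isUnit_mul_self hb
  have hc2 : g 2 2 * g 2 2 = 1 := Int.isUnit_mul_self hc
  have n01 : (0 : Fin 3) ≠ 1 := by decide
  have n02 : (0 : Fin 3) ≠ 2 := by decide
  have n12 : (1 : Fin 3) ≠ 2 := by decide
  set t : G := el 0 1 (-(g 0 1 * g 1 1)) * el 0 2 (-(g 0 2 * g 2 2)) *
    el 1 2 (-(g 1 2 * g 2 2)) with ht
  have htS : t ∈ S := S.mul_mem (S.mul_mem (el_mem n01 _) (el_mem n02 _)) (el_mem n12 _)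
  have r2 : ∀ m, (t * g : G) 2 m = g 2 m := by
    intro m
    simp only [ht, mul_assoc, row_ne n01 n02.symm, row_ne n02 n02.symm, row_ne n12 n12.symm]
  have r1 : ∀ m, (t * g : G) 1 m = g 1 m + -(g 1 2 * g 2 2) * g 2 m := by
    intro m
    simp only [ht, mul_assoc, row_ne n01 n01.symm, row_ne n02 n01.symm, row_same n12]
  have r0 : ∀ m, (t * g : G) 0 m = g 0 m + -(g 0 2 * g 2 2) * g 2 m +
      -(g 0 1 * g 1 1) * (g 1 m + -(g 1 2 * g 2 2) * g 2 m) := by
    intro m
    simp only [ht, mul_assoc, row_same n01, row_ne n02 n01.symm, row_same n12, row_same n02,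
      row_ne n12 n01, row_ne n12 n12.symm]
  have hD : t * g ∈ S := by
    refine diag_mem _ ?_ ?_ ?_ ?_ ?_ ?_
    · rw [r0, h21]; linear_combination -(g 0 1) * hb2
    · rw [r0]
      linear_combination -(g 0 2) * hc2 + g 0 1 * g 1 1 * g 1 2 * hc2
    · rw [r1]; linear_combination -(g 1 2) * hc2
    · rw [r1, h10, h20]; ring
    · rw [r2, h20]
    · rw [r2, h21]
  have := S.mul_mem (S.inv_mem htS) hD
  rwa [inv_mul_cancel_left] at this

end GENM

open GENM in
theorem specGEN : SpecGEN := by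
  show GENM.S = ⊤
  rw [eq_top_iff]
  intro g _
  have n01 : (0 : Fin 3) ≠ 1 := by decide
  have n02 : (0 : Fin 3) ≠ 2 := by decide
  have n12 : (1 : Fin 3) ≠ 2 := by decide
  obtain ⟨s, hs, hs1, -, -⟩ := euclid n12 0 _ g rfl
  obtain ⟨s', hs', hs1', hs2', -⟩ := euclid n01 0 _ (s * g) rfl
  obtain ⟨s'', hs'', hs1'', hs2'', hs3''⟩ := euclid n12 1 _ (s' * (s * g)) rfl
  have h20 : (s' * (s * g) : G) 2 0 = 0 := by rw [hs2' 2 n02.symm n12.symm 0, hs1]
  have h3 := hs3'' 0 hs1' h20
  have h4 := upper_mem _ h3.1 h3.2 hs1''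
  have h5 : g = s⁻¹ * (s'⁻¹ * (s''⁻¹ * (s'' * (s' * (s * g))))) := by group
  rw [h5]
  exact S.mul_mem (S.inv_mem hs) (S.mul_mem (S.inv_mem hs') (S.mul_mem (S.inv_mem hs'') h4))

end Pool.Agent.Lib.MP8519b0
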