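import Pool.Agent.Lib.MP_8519b0_al.Spec

/-!
# Module LET: the action on letters
-/

set_option autoImplicit false

namespace Pool.Agent.Lib.MP8519b0

namespace LETM

lemma nil_fix {m : ℕ} {ρ : G →* Equiv.Perm (List (Fin m))} (hρ : SelfSimilar ρ) (g : G) :
    ρ g [] = [] := by
  cases hw : (ρ g).symm [] with
  | nil =>
    have h := (ρ g).apply_symm_apply []
    rw [hw] at h
    exact h
  | cons x w =>
    obtain ⟨h, y, hy⟩ := hρ g x
    have h1 := (ρ g).apply_symm_apply []
    rw [hw, hy w] at h1
    exact absurd h1 (List.cons_ne_nil _ _)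

lemma len {m : ℕ} {ρ : G →* Equiv.Perm (List (Fin m))} (hρ : SelfSimilar ρ) :
    ∀ (w : List (Fin m)) (g : G), (ρ g w).length = w.length
  | [], g => by rw [nil_fix hρ g]
  | x :: w, g => by
    obtain ⟨h, y, hy⟩ := hρ g x
    rw [hy w, List.length_cons, List.length_cons, len hρ w h]

end LETM

open LETM

theorem specLET : SpecLET := by
  intro m ρ hρ
  refine ⟨fun g w => len hρ w g, ?_⟩
  choose h y hy using hρ
  have hρ' : SelfSimilar ρ := fun g x => ⟨h g x, y g x, hy g x⟩
  have h1 : ∀ g x, ρ g [x] = [y g x] := by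
    intro g x
    rw [hy g x [], nil_fix hρ' (h g x)]
  let f : G →* Function.End (Fin m) :=
    { toFun := fun g x => y g x
      map_one' := by
        funext x
        have h2 := h1 1 x
        rw [map_one] at h2
        exact (List.cons.inj h2).1.symm
      map_mul' := by
        intro g g'
        funext x
        have h2 := h1 (g * g') x
        rw [map_mul, Equiv.Perm.mul_apply, h1 g' x, h1 g (y g' x)] at h2
        exact (List.cons.inj h2).1.symm }
  refine ⟨f.toHomPerm, fun g x => h1 g x, fun g x => ⟨h g x, fun w => hy g x w⟩⟩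

end Pool.Agent.Lib.MP8519b0
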