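import Pool.Agent.Lib.MP_8519b0_al.Spec

/-! MP_8519b0_al, module NEG: at least seven letters are needed (helper61). -/

set_option autoImplicit false

namespace Pool.Agent.Lib.MP8519b0

/-- **NEG**. -/
theorem specNEG (hSIX : SpecSIX) (hLET : SpecLET) : SpecNEG := by
  intro m ρ hinj hss
  by_contra hm
  obtain ⟨hlen, α, -, hsec⟩ := hLET m ρ hss
  have hα : α = 1 := hSIX m (by omega) α
  have key : ∀ (w : List (Fin m)) (g : G), ρ g w = w := by
    intro w
    induction w with
    | nil =>
      intro g
      have h1 := hlen g []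
      rw [List.length_nil] at h1
      exact List.length_eq_zero_iff.mp h1
    | cons x w ih =>
      intro g
      obtain ⟨h, hh⟩ := hsec g x
      rw [hh w, ih h, hα]
      rfl
  have h1 : ρ (el 0 1 1) = ρ 1 := by
    ext1 w
    rw [key w, key w]
  have h2 : el 0 1 1 = (1 : G) := hinj h1
  have h3 : ((el 0 1 1 : G) : MZ) 0 1 = ((1 : G) : MZ) 0 1 := by rw [h2]
  have h4 : (0 : Fin 3) ≠ 1 := by decide
  rw [el, dif_pos h4] at h3
  simp [Matrix.SpecialLinearGroup.transvection, Matrix.transvection] at h3

end Pool.Agent.Lib.MP8519b0
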