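import Pool.Agent.Lib.MP_8519b0_al.Spec

/-!
# Module SEV: seven letters suffice
-/

set_option autoImplicit false

namespace Pool.Agent.Lib.MP8519b0

namespace SEVM

/-- the nonzero vectors mod 2 -/
abbrev V : Type := {v : Fin 3 → ZMod 2 // v ≠ 0}

/-- reduction mod 2 -/
def red (g : G) : Matrix (Fin 3) (Fin 3) (ZMod 2) := (g : MZ).map (Int.castRingHom (ZMod 2))

lemma red_mul (g h : G) : red (g * h) = red g * red h := by
  unfold red
  rw [Matrix.SpecialLinearGroup.coe_mul, Matrix.map_mul]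

lemma red_one : red 1 = 1 := by
  unfold red
  rw [Matrix.SpecialLinearGroup.coe_one]
  simp

lemma red_ne (g : G) (v : V) : (red g).mulVec v.1 ≠ 0 := by
  intro h
  apply v.2
  have : (red (g⁻¹)).mulVec ((red g).mulVec v.1) = v.1 := by
    rw [Matrix.mulVec_mulVec, ← red_mul, inv_mul_cancel, red_one, Matrix.one_mulVec]
  rw [← this, h, Matrix.mulVec_zero]

/-- the action on the nonzero vectors -/
def act0 : G →* Function.End V where
  toFun g := fun v => ⟨(red g).mulVec v.1, red_ne g v⟩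
  map_one' := by
    funext v
    apply Subtype.ext
    change (red 1).mulVec v.1 = v.1
    rw [red_one, Matrix.one_mulVec]
  map_mul' g h := by
    funext v
    apply Subtype.ext
    change (red (g * h)).mulVec v.1 = (red g).mulVec ((red h).mulVec v.1)
    rw [red_mul, Matrix.mulVec_mulVec]

/-- the action by permutations -/
def act1 : G →* Equiv.Perm V := act0.toHomPerm

lemma act1_apply (g : G) (v : V) : (act1 g v).1 = (red g).mulVec v.1 := rfl

lemma cardV : Fintype.card V = 7 := by decide +kernel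

/-- numbering of the letters -/
noncomputable def e : V ≃ Fin 7 := Fintype.equivFinOfCardEq cardV

/-- the action on the letters -/
noncomputable def al : G →* Equiv.Perm (Fin 7) := (e.permCongrHom.toMonoidHom).comp act1

lemma al_apply (g : G) (x : Fin 7) : al g x = e (act1 g (e.symm x)) := rfl

/-- the first basis vector -/
def e0 : V := ⟨![1, 0, 0], by decide⟩

/-- seven matrices -/
def lst : List MZ := [!![1, 0, 0; 0, 1, 0; 0, 0, 1], !![1, 0, 0; 1, 1, 0; 0, 0, 1],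
  !![1, 0, 0; 0, 1, 0; 1, 0, 1], !![1, 0, 0; 1, 1, 0; 1, 0, 1], !![0, -1, 0; 1, 0, 0; 0, 0, 1],
  !![0, -1, 0; 1, 0, 0; 1, 0, 1], !![0, 1, 0; 0, 0, 1; 1, 0, 0]]

lemma lst_det : ∀ A ∈ lst, A.det = 1 := by
  intro A hA
  simp only [lst, List.mem_cons, List.not_mem_nil, or_false] at hA
  rcases hA with rfl | rfl | rfl | rfl | rfl | rfl | rfl <;> simp [Matrix.det_fin_three]

lemma trans0 : ∀ v : V, ∃ A ∈ lst, (A.map (Int.castRingHom (ZMod 2))).mulVec e0.1 = v.1 := by
  decide +kernel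

lemma trans1 (v : V) : ∃ g : G, act1 g e0 = v := by
  obtain ⟨A, hA, h⟩ := trans0 v
  exact ⟨⟨A, lst_det A hA⟩, Subtype.ext h⟩

lemma trans (x y : Fin 7) : ∃ g : G, al g x = y := by
  obtain ⟨g, hg⟩ := trans1 (e.symm x)
  obtain ⟨h, hh⟩ := trans1 (e.symm y)
  refine ⟨h * g⁻¹, ?_⟩
  rw [al_apply, map_mul, Equiv.Perm.mul_apply, ← hg]
  have : act1 g⁻¹ (act1 g e0) = e0 := by
    rw [← Equiv.Perm.mul_apply, ← map_mul, inv_mul_cancel, map_one, Equiv.Perm.one_apply]
  rw [this, hh, Equiv.apply_symm_apply]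

/-- the base letter -/
noncomputable def x0 : Fin 7 := e e0

/-- the stabiliser of the base letter -/
noncomputable def H : Subgroup G := (MulAction.stabilizer (Equiv.Perm (Fin 7)) x0).comap al

lemma mem_H (g : G) : g ∈ H ↔ al g x0 = x0 := by
  unfold H
  rw [Subgroup.mem_comap, MulAction.mem_stabilizer_iff]
  rfl

lemma even_of_mem {g : G} (hg : g ∈ H) : 2 ∣ (g : MZ) 1 0 ∧ 2 ∣ (g : MZ) 2 0 := by
  rw [mem_H, al_apply, x0, Equiv.symm_apply_apply] at hg
  have h1 : act1 g e0 = e0 := e.injective hg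
  have h2 : (red g).mulVec e0.1 = e0.1 := by
    rw [← act1_apply, h1]
  have h3 := congrFun h2 1
  have h4 := congrFun h2 2
  simp [red, Matrix.mulVec, dotProduct, Fin.sum_univ_three, e0] at h3 h4
  constructor
  · exact (ZMod.intCast_zmod_eq_zero_iff_dvd _ 2).1 h3
  · exact (ZMod.intCast_zmod_eq_zero_iff_dvd _ 2).1 h4

/-- the diagonal matrix -/
def D : MZ := !![2, 0, 0; 0, 1, 0; 0, 0, 1]

/-- conjugation by the diagonal matrix -/
def P (g : MZ) : MZ :=
  !![g 0 0, 2 * g 0 1, 2 * g 0 2; g 1 0 / 2, g 1 1, g 1 2; g 2 0 / 2, g 2 1, g 2 2]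

lemma P_mul_D (g : MZ) (h1 : 2 ∣ g 1 0) (h2 : 2 ∣ g 2 0) : P g * D = D * g := by
  ext i j
  fin_cases i <;> fin_cases j <;>
    simp [P, D, Matrix.mul_apply, Fin.sum_univ_three, Int.ediv_mul_cancel h1,
      Int.ediv_mul_cancel h2, mul_comm]

lemma D_cancel (A B : MZ) (h : A * D = B * D) : A = B := by
  ext i j
  have := congrFun (congrFun h i) j
  fin_cases i <;> fin_cases j <;>
    simp [D, Matrix.mul_apply, Fin.sum_univ_three] at this ⊢ <;> exact this

lemma det_D : D.det = 2 := by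
  simp [D, Matrix.det_fin_three]

lemma P_det (g : MZ) (h1 : 2 ∣ g 1 0) (h2 : 2 ∣ g 2 0) (hg : g.det = 1) : (P g).det = 1 := by
  have h := congrArg Matrix.det (P_mul_D g h1 h2)
  rw [Matrix.det_mul, Matrix.det_mul, det_D, hg] at h
  omega

/-- the virtual endomorphism -/
def phi : H →* G where
  toFun g := ⟨P (g : G), P_det _ (even_of_mem g.2).1 (even_of_mem g.2).2 (g : G).2⟩
  map_one' := by
    apply Subtype.ext
    apply D_cancel
    change P _ * D = 1 * D
    rw [P_mul_D _ (even_of_mem (1 : H).2).1 (even_of_mem (1 : H).2).2]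
    simp
  map_mul' g h := by
    apply Subtype.ext
    apply D_cancel
    change P (((g * h : H) : G) : MZ) * D = P ((g : G) : MZ) * P ((h : G) : MZ) * D
    have h1 : (((g * h : H) : G) : MZ) = ((g : G) : MZ) * ((h : G) : MZ) := by
      rw [Subgroup.coe_mul, Matrix.SpecialLinearGroup.coe_mul]
    rw [P_mul_D _ (even_of_mem (g * h).2).1 (even_of_mem (g * h).2).2,
      Matrix.mul_assoc, P_mul_D _ (even_of_mem h.2).1 (even_of_mem h.2).2, ← Matrix.mul_assoc,
      P_mul_D _ (even_of_mem g.2).1 (even_of_mem g.2).2, h1, Matrix.mul_assoc]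

lemma phi_entry (g : H) : ((g : G) : MZ) 1 0 = 2 * (phi g : MZ) 1 0 ∧
    ((g : G) : MZ) 2 0 = 2 * (phi g : MZ) 2 0 := by
  have h := even_of_mem g.2
  constructor
  · change _ = 2 * (((g : G) : MZ) 1 0 / 2)
    rw [Int.mul_ediv_cancel' h.1]
  · change _ = 2 * (((g : G) : MZ) 2 0 / 2)
    rw [Int.mul_ediv_cancel' h.2]

/-- elements with prescribed first column -/
def u1 : G := ⟨!![0, -1, 0; 1, 0, 0; 0, 0, 1], by simp [Matrix.det_fin_three]⟩
/-- elements with prescribed first column -/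
def u2 : G := ⟨!![0, 1, 0; 0, 0, 1; 1, 0, 0], by simp [Matrix.det_fin_three]⟩
/-- elements with prescribed first column -/
def u3 : G := ⟨!![1, 0, 0; 1, 1, 0; 0, 0, 1], by simp [Matrix.det_fin_three]⟩
/-- elements with prescribed first column -/
def u4 : G := ⟨!![1, 0, 0; 0, 1, 0; 1, 0, 1], by simp [Matrix.det_fin_three]⟩

lemma col (k u : G) (h : ((u⁻¹ * k * u : G) : MZ) 1 0 = 0 ∧ ((u⁻¹ * k * u : G) : MZ) 2 0 = 0) :
    ∃ c : ℤ, ∀ i, ((k : MZ) * (u : MZ)) i 0 = c * (u : MZ) i 0 := by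
  refine ⟨((u⁻¹ * k * u : G) : MZ) 0 0, fun i => ?_⟩
  have h1 : (k : MZ) * (u : MZ) = (u : MZ) * ((u⁻¹ * k * u : G) : MZ) := by
    rw [← Matrix.SpecialLinearGroup.coe_mul, ← Matrix.SpecialLinearGroup.coe_mul]
    congr 1
    group
  rw [h1, Matrix.mul_apply, Fin.sum_univ_three, h.1, h.2]
  ring

lemma final (k : G) (h : ∀ u : G, ((u⁻¹ * k * u : G) : MZ) 1 0 = 0 ∧
    ((u⁻¹ * k * u : G) : MZ) 2 0 = 0) : k = 1 := by
  have h0 := h 1
  simp only [inv_one, one_mul, mul_one] at h0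
  obtain ⟨c1, hc1⟩ := col k u1 (h u1)
  obtain ⟨c2, hc2⟩ := col k u2 (h u2)
  obtain ⟨c3, hc3⟩ := col k u3 (h u3)
  obtain ⟨c4, hc4⟩ := col k u4 (h u4)
  have a0 := hc1 0
  have a1 := hc1 1
  have a2 := hc1 2
  have b0 := hc2 0
  have b1 := hc2 1
  have b2 := hc2 2
  have d0 := hc3 0
  have d1 := hc3 1
  have d2 := hc3 2
  have f0 := hc4 0
  have f1 := hc4 1
  have f2 := hc4 2
  simp [u1, u2, u3, u4, Matrix.mul_apply, Fin.sum_univ_three] at a0 a1 a2 b0 b1 b2 d0 d1 d2 f0 f1 f2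
  have hdet : (k : MZ).det = 1 := k.2
  rw [Matrix.det_fin_three] at hdet
  obtain ⟨h10, h20⟩ := h0
  rw [h10, h20, a0, a2, b0, b1] at hdet
  rw [a0] at d0
  rw [h10] at d1
  rw [b0] at f0
  rw [h20] at f2
  have e1 : (k : MZ) 1 1 = (k : MZ) 0 0 := by linarith
  have e2 : (k : MZ) 2 2 = (k : MZ) 0 0 := by linarith
  rw [e1, e2] at hdet
  have e3 : (k : MZ) 0 0 ^ 3 = 1 := by nlinarith [hdet]
  have e4 : (k : MZ) 0 0 = 1 := by
    have : (k : MZ) 0 0 ∣ 1 := ⟨(k : MZ) 0 0 ^ 2, by nlinarith [e3]⟩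
    rcases Int.isUnit_iff.1 (isUnit_of_dvd_one this) with h | h
    · exact h
    · rw [h] at e3
      norm_num at e3
  apply Subtype.ext
  ext i j
  fin_cases i <;> fin_cases j <;> simp [h10, h20, a0, a2, b0, b1, e1, e2, e4]

end SEVM

open SEVM in
theorem specSEV (hACT : SpecACT) : SpecSEV := by
  obtain ⟨ρ, hss, hlet, hsec⟩ := hACT 7 al trans x0 H mem_H phi
  refine ⟨ρ, ?_, hss⟩
  rw [injective_iff_map_eq_one]
  have hK : ∀ k : G, ρ k = 1 → k ∈ H := by
    intro k hk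
    rw [mem_H]
    have := hlet k x0
    rw [hk, Equiv.Perm.one_apply] at this
    exact (List.cons.inj this).1.symm
  have hphi : ∀ k : G, ∀ hk : ρ k = 1, ρ (phi ⟨k, hK k hk⟩) = 1 := by
    intro k hk
    apply Equiv.ext
    intro w
    have := hsec ⟨k, hK k hk⟩ w
    rw [show (((⟨k, hK k hk⟩ : H) : G)) = k from rfl, hk, Equiv.Perm.one_apply] at this
    exact (List.cons.inj this).2.symm
  have hdvd : ∀ n : ℕ, ∀ k : G, ρ k = 1 → (2 : ℤ) ^ n ∣ (k : MZ) 1 0 ∧ (2 : ℤ) ^ n ∣ (k : MZ) 2 0 := by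
    intro n
    induction n with
    | zero => intro k _; simp
    | succ n ih =>
      intro k hk
      have h1 := phi_entry ⟨k, hK k hk⟩
      have h2 := ih _ (hphi k hk)
      rw [show (((⟨k, hK k hk⟩ : H) : G)) = k from rfl] at h1
      rw [h1.1, h1.2, pow_succ']
      exact ⟨mul_dvd_mul_left 2 h2.1, mul_dvd_mul_left 2 h2.2⟩
  have hzero : ∀ z : ℤ, (∀ n : ℕ, (2 : ℤ) ^ n ∣ z) → z = 0 := by
    intro z hz
    by_contra hne
    have h1 := hz z.natAbs
    have h2 := Int.natAbs_dvd_natAbs.2 h1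
    have h3 := Nat.le_of_dvd (Int.natAbs_pos.2 hne) h2
    rw [Int.natAbs_pow] at h3
    have h4 : z.natAbs < 2 ^ z.natAbs := Nat.lt_two_pow_self
    change 2 ^ z.natAbs ≤ z.natAbs at h3
    omega
  intro k hk
  refine final k fun u => ?_
  have hk2 : ρ (u⁻¹ * k * u) = 1 := by
    rw [map_mul, map_mul, hk, mul_one, ← map_mul, inv_mul_cancel, map_one]
  exact ⟨hzero _ fun n => (hdvd n _ hk2).1, hzero _ fun n => (hdvd n _ hk2).2⟩

end Pool.Agent.Lib.MP8519b0
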