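import Pool.Agent.Lib.MP_8519b0_al.Spec

/-!
# MP_8519b0_al: `SL_3(Z)` has no nontrivial action on at most six points
-/

set_option autoImplicit false

open scoped commutatorElement

namespace Pool.Agent.Lib.MP8519b0

namespace SIXM

/-- The cyclic permutation matrix. -/
def w0 : G := ⟨!![0, 0, 1; 1, 0, 0; 0, 1, 0], by decide⟩

theorem w0_pow : w0 ^ 3 = 1 := by decide +kernel

theorem conj_a : w0 * el 0 1 1 * w0⁻¹ = el 1 2 1 := by decide +kernel

theorem conj_b : w0 ^ 2 * el 0 1 1 * (w0 ^ 2)⁻¹ = el 2 0 1 := by decide +kernel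

theorem com_a : ⁅el 0 1 1, el 1 2 1⁆ = el 0 2 1 := by decide +kernel

theorem com_b : ⁅el 2 0 1, el 0 1 1⁆ = el 2 1 1 := by decide +kernel

theorem com_c : ⁅el 1 2 1, el 2 0 1⁆ = el 1 0 1 := by decide +kernel

theorem com_d : ⁅el 0 2 1, el 2 1 1⁆ = el 0 1 1 := by decide +kernel

theorem comm_a : el 0 1 1 * el 0 2 1 = el 0 2 1 * el 0 1 1 := by decide +kernel

end SIXM

open SIXM in
theorem specSIX (hG : SpecGEN) (hS : SpecSXP) : SpecSIX := by
  intro m hm ρ
  -- composition with an embedding into the permutations of six points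
  set ι : Fin m ↪ Fin 6 := Fin.castLEEmb hm with hι
  set τ : G →* Equiv.Perm (Fin 6) := (Equiv.Perm.viaEmbeddingHom ι).comp ρ with hτ
  have key : τ (el 0 1 1) = 1 := by
    apply hS (τ w0) (τ (el 0 1 1))
    · rw [← map_pow, w0_pow, map_one]
    · have h1 : ⁅τ (el 0 1 1), τ w0 * τ (el 0 1 1) * (τ w0)⁻¹⁆ = τ (el 0 2 1) := by
        rw [← com_a, map_commutatorElement, ← conj_a]
        simp only [map_mul, map_inv]
      rw [h1, ← map_mul, ← map_mul, comm_a]
    · have h1 : ⁅τ (el 0 1 1), τ w0 * τ (el 0 1 1) * (τ w0)⁻¹⁆ = τ (el 0 2 1) := by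
        rw [← com_a, map_commutatorElement, ← conj_a]
        simp only [map_mul, map_inv]
      have h2 : ⁅(τ w0) ^ 2 * τ (el 0 1 1) * ((τ w0) ^ 2)⁻¹, τ (el 0 1 1)⁆ = τ (el 2 1 1) := by
        rw [← com_b, map_commutatorElement, ← conj_b]
        simp only [map_mul, map_inv, map_pow]
      rw [h1, h2, ← map_commutatorElement, com_d]
  have e01 : el 0 1 1 ∈ τ.ker := key
  have e12 : el 1 2 1 ∈ τ.ker := by
    rw [← conj_a]
    exact (MonoidHom.normal_ker τ).conj_mem _ e01 _
  have e20 : el 2 0 1 ∈ τ.ker := by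
    rw [← conj_b]
    exact (MonoidHom.normal_ker τ).conj_mem _ e01 _
  have hcom : ∀ a b : G, a ∈ τ.ker → ⁅a, b⁆ ∈ τ.ker := by
    intro a b ha
    rw [MonoidHom.mem_ker] at ha ⊢
    rw [map_commutatorElement, ha, commutatorElement_one_left]
  have e02 : el 0 2 1 ∈ τ.ker := by
    rw [← com_a]
    exact hcom _ _ e01
  have e21 : el 2 1 1 ∈ τ.ker := by
    rw [← com_b]
    exact hcom _ _ e20
  have e10 : el 1 0 1 ∈ τ.ker := by
    rw [← com_c]
    exact hcom _ _ e12
  have htop : τ.ker = ⊤ := by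
    rw [eq_top_iff, ← hG, Subgroup.closure_le]
    rintro g ⟨i, j, hij, rfl⟩
    fin_cases i <;> fin_cases j <;> first | exact absurd rfl hij | assumption
  have hone : ∀ g : G, ρ g = 1 := by
    intro g
    have h1 : τ g = 1 := by
      rw [← MonoidHom.mem_ker, htop]
      exact Subgroup.mem_top g
    apply Equiv.Perm.viaEmbeddingHom_injective ι
    rw [map_one]
    exact h1
  ext1 g
  exact hone g

end Pool.Agent.Lib.MP8519b0
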