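import Pool.Agent.Lib.MP_8519b0_al.Spec

/-!
# SXP: a computation in `S_6`
-/

set_option autoImplicit false

open scoped commutatorElement

namespace Pool.Agent.Lib.MP8519b0

namespace SXPM

/-- a 3-cycle -/
def w1 : Equiv.Perm (Fin 6) := ⟨![1, 2, 0, 3, 4, 5], ![2, 0, 1, 3, 4, 5], by decide, by decide⟩

/-- a product of two 3-cycles -/
def w2 : Equiv.Perm (Fin 6) := ⟨![1, 2, 0, 4, 5, 3], ![2, 0, 1, 5, 3, 4], by decide, by decide⟩

/-- the property of `w` -/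
def Pr (w : Equiv.Perm (Fin 6)) : Prop :=
  ∀ E : Equiv.Perm (Fin 6),
    (E * ⁅E, w * E * w⁻¹⁆ = ⁅E, w * E * w⁻¹⁆ * E) →
    (⁅⁅E, w * E * w⁻¹⁆, ⁅w ^ 2 * E * (w ^ 2)⁻¹, E⁆⁆ = E) → E = 1

set_option maxRecDepth 100000 in
theorem pr1 : Pr w1 := by
  unfold Pr
  decide +kernel

set_option maxRecDepth 100000 in
theorem pr2 : Pr w2 := by
  unfold Pr
  decide +kernel

theorem pr0 : Pr 1 := by
  intro E _ h
  simpa using h.symm

theorem c1 : w1.cycleType = Multiset.replicate 1 3 := by decide +kernel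

theorem c2 : w2.cycleType = Multiset.replicate 2 3 := by decide +kernel

theorem Pr.conj {w : Equiv.Perm (Fin 6)} (hw : Pr w) (c : Equiv.Perm (Fin 6)) :
    Pr (c * w * c⁻¹) := by
  intro E h1 h2
  have key := hw (c⁻¹ * E * c)
  have e1 : w * (c⁻¹ * E * c) * w⁻¹ = c⁻¹ * (c * w * c⁻¹ * E * (c * w * c⁻¹)⁻¹) * c := by group
  have e2 : w ^ 2 * (c⁻¹ * E * c) * (w ^ 2)⁻¹
      = c⁻¹ * ((c * w * c⁻¹) ^ 2 * E * ((c * w * c⁻¹) ^ 2)⁻¹) * c := by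
    rw [pow_two, pow_two]
    group
  have e3 : ∀ a b : Equiv.Perm (Fin 6), ⁅c⁻¹ * a * c, c⁻¹ * b * c⁆ = c⁻¹ * ⁅a, b⁆ * c := by
    intro a b
    simp only [commutatorElement_def]
    group
  rw [e1, e2, e3, e3, e3] at key
  have k1 := key (by
    have : c⁻¹ * (E * ⁅E, c * w * c⁻¹ * E * (c * w * c⁻¹)⁻¹⁆) * c
      = c⁻¹ * (⁅E, c * w * c⁻¹ * E * (c * w * c⁻¹)⁻¹⁆ * E) * c := by rw [h1]
    calc c⁻¹ * E * c * (c⁻¹ * ⁅E, c * w * c⁻¹ * E * (c * w * c⁻¹)⁻¹⁆ * c)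
        = c⁻¹ * (E * ⁅E, c * w * c⁻¹ * E * (c * w * c⁻¹)⁻¹⁆) * c := by group
      _ = c⁻¹ * (⁅E, c * w * c⁻¹ * E * (c * w * c⁻¹)⁻¹⁆ * E) * c := this
      _ = c⁻¹ * ⁅E, c * w * c⁻¹ * E * (c * w * c⁻¹)⁻¹⁆ * c * (c⁻¹ * E * c) := by group)
    (by rw [h2])
  have k2 : E = c * (c⁻¹ * E * c) * c⁻¹ := by group
  rw [k2, k1]
  group

theorem cases3 {w : Equiv.Perm (Fin 6)} (h : w ^ 3 = 1) : Pr w := by
  have : Fact (Nat.Prime 3) := ⟨Nat.prime_three⟩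
  have h1 := Equiv.Perm.cycleType_of_pow_prime_eq_one h
  have h2 : w.cycleType.sum ≤ 6 := by
    rw [Equiv.Perm.sum_cycleType]
    exact (Finset.card_le_univ _).trans (by simp)
  have h3 : w.cycleType.card ≤ 2 := by
    rw [h1] at h2
    rw [Multiset.sum_replicate] at h2
    simp only [smul_eq_mul] at h2
    omega
  have h4 : w.cycleType.card = 0 ∨ w.cycleType.card = 1 ∨ w.cycleType.card = 2 := by omega
  rcases h4 with h4 | h4 | h4
  · have : w = 1 := Equiv.Perm.card_cycleType_eq_zero.1 h4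
    rw [this]
    exact pr0
  · rw [h4, ← c1] at h1
    obtain ⟨c, hc⟩ := isConj_iff.1 (Equiv.Perm.isConj_iff_cycleType_eq.2 h1.symm)
    rw [← hc]
    exact pr1.conj c
  · rw [h4, ← c2] at h1
    obtain ⟨c, hc⟩ := isConj_iff.1 (Equiv.Perm.isConj_iff_cycleType_eq.2 h1.symm)
    rw [← hc]
    exact pr2.conj c

end SXPM

open SXPM in
theorem specSXP : SpecSXP := by
  intro w E hw h1 h2
  exact cases3 hw E h1 h2

end Pool.Agent.Lib.MP8519b0
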