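import Pool.Agent.Lib.MP_8519b0_al.FNA
import Pool.Agent.Lib.MP_8519b0_al.NEG
import Pool.Agent.Lib.MP_8519b0_al.SIX
import Pool.Agent.Lib.MP_8519b0_al.SXP
import Pool.Agent.Lib.MP_8519b0_al.GEN
import Pool.Agent.Lib.MP_8519b0_al.LET
import Pool.Agent.Lib.MP_8519b0_al.SEV
import Pool.Agent.Lib.MP_8519b0_al.ACT
import Pool.Agent.Lib.MP_8519b0_al.EXT

/-!
# MP_8519b0_al: Theorem A, assembled from the modules
-/

set_option autoImplicit false

namespace Pool.Agent.Lib.MP8519b0

/-- THEOREM A. -/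
theorem theoremA : SpecFNA :=
  specFNA (specNEG (specSIX specGEN specSXP) specLET) (specSEV specACT) (specEXT specLET)

end Pool.Agent.Lib.MP8519b0
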