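import Pool.Agent.Lib.MP_8519b0_al.Spec

/-!
# Module LIE: representations of the relations of `sl_3` on `ℚ^3`
-/

set_option autoImplicit false

namespace Pool.Agent.Lib.MP8519b0

namespace LIEM

open Matrix

/-- A nonzero matrix does not kill some vector. -/
theorem exists_mulVec_ne {A : MQ} (hA : A ≠ 0) : ∃ w : Fin 3 → ℚ, A *ᵥ w ≠ 0 := by
  by_contra hcon
  push Not at hcon
  apply hA
  ext r s
  have h := congrFun (hcon (Pi.single s 1)) r
  rw [mulVec_single_one] at h
  exact h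

/-- A matrix of square zero has rank at most one. -/
theorem exists_vecMulVec {A : MQ} (hA : A * A = 0) : ∃ u v : Fin 3 → ℚ, A = vecMulVec u v := by
  have h1 := LinearMap.finrank_range_add_finrank_ker (Matrix.mulVecLin A)
  have h2 : LinearMap.range (Matrix.mulVecLin A) ≤ LinearMap.ker (Matrix.mulVecLin A) := by
    rintro _ ⟨x, rfl⟩
    rw [LinearMap.mem_ker, Matrix.mulVecLin_apply, Matrix.mulVecLin_apply, mulVec_mulVec, hA,
      zero_mulVec]
  have h3 := Submodule.finrank_mono h2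
  rw [Module.finrank_fin_fun] at h1
  have h4 : Module.finrank ℚ (LinearMap.range (Matrix.mulVecLin A)) ≤ 1 := by omega
  obtain ⟨v0, hv0⟩ := finrank_le_one_iff.1 h4
  have h5 : ∀ j : Fin 3, ∃ c : ℚ, c • (v0 : Fin 3 → ℚ) = A *ᵥ Pi.single j 1 := by
    intro j
    obtain ⟨c, hc⟩ := hv0 ⟨A *ᵥ Pi.single j 1, ⟨Pi.single j 1, rfl⟩⟩
    exact ⟨c, congrArg Subtype.val hc⟩
  choose c hc using h5
  refine ⟨(v0 : Fin 3 → ℚ), c, ?_⟩
  ext i j
  have h := congrFun (hc j) i
  rw [mulVec_single_one] at h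
  rw [vecMulVec_apply, mul_comm]
  exact h.symm

/-- Step 3. -/
theorem mul_zero_or {A B : MQ} (hA : A * A = 0) (hB : B * B = 0)
    (hZ : (A * B - B * A) * (A * B - B * A) = 0) : B * A = 0 ∨ A * B = 0 := by
  obtain ⟨u, v, hu⟩ := exists_vecMulVec hA
  obtain ⟨u', v', hu'⟩ := exists_vecMulVec hB
  obtain ⟨a, ha⟩ : ∃ a, a = v ⬝ᵥ u' := ⟨_, rfl⟩
  obtain ⟨b, hb⟩ : ∃ b, b = v' ⬝ᵥ u := ⟨_, rfl⟩
  have hAB : A * B = a • vecMulVec u v' := by
    rw [hu, hu', vecMulVec_mul_vecMulVec, vecMulVec_smul, ha]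
  have hBA : B * A = b • vecMulVec u' v := by
    rw [hu, hu', vecMulVec_mul_vecMulVec, vecMulVec_smul, hb]
  by_cases ha0 : a = 0
  · right
    rw [hAB, ha0, zero_smul]
  by_cases hb0 : b = 0
  · left
    rw [hBA, hb0, zero_smul]
  exfalso
  have hABA : A * B * A = (a * b) • A := by
    rw [hAB, smul_mul_assoc]
    conv_lhs => rw [hu, vecMulVec_mul_vecMulVec, vecMulVec_smul, ← hb, smul_smul, ← hu]
  have hBAB : B * A * B = (a * b) • B := by
    rw [hBA, smul_mul_assoc]
    conv_lhs => rw [hu', vecMulVec_mul_vecMulVec, vecMulVec_smul, ← ha, smul_smul, ← hu', mul_comm b a]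
  have h1 : (A * B - B * A) * (A * B - B * A) = (A * B * A) * B + (B * A * B) * A := by
    have h2 : (A * B - B * A) * (A * B - B * A) =
        (A * B * A) * B - A * (B * B) * A - B * (A * A) * B + (B * A * B) * A := by noncomm_ring
    rw [h2, hA, hB]
    simp
  rw [h1, hABA, hBAB, smul_mul_assoc, smul_mul_assoc, ← smul_add] at hZ
  have hab : a * b ≠ 0 := mul_ne_zero ha0 hb0
  have hsum : A * B + B * A = 0 := (smul_eq_zero.1 hZ).resolve_left hab
  have h3 : A * B * A = 0 := by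
    have h4 : A * B = -(B * A) := eq_neg_of_add_eq_zero_left hsum
    rw [h4, neg_mul, mul_assoc, hA, mul_zero, neg_zero]
  rw [hABA] at h3
  have h4 : A = 0 := (smul_eq_zero.1 h3).resolve_left hab
  have h5 : B = 0 := by
    rw [← smul_eq_zero_iff_right hab, ← hBAB, h4, mul_zero, zero_mul]
  -- then all is zero, so `vecMulVec u v' = 0`
  have h6 : vecMulVec u v' = 0 := by
    rw [h4, zero_mul] at hAB
    exact (smul_eq_zero.1 hAB.symm).resolve_left ha0
  have hu0 : u = 0 ∨ v' = 0 := by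
    by_contra hcon
    push Not at hcon
    obtain ⟨hu1, hv1⟩ := hcon
    obtain ⟨i, hi⟩ := Function.ne_iff.1 hu1
    obtain ⟨j, hj⟩ := Function.ne_iff.1 hv1
    have h7 := congrFun (congrFun h6 i) j
    rw [vecMulVec_apply] at h7
    exact (mul_ne_zero hi hj) h7
  rcases hu0 with h | h
  · apply hb0
    rw [hb, h, dotProduct_zero]
  · apply hb0
    rw [hb, h, zero_dotProduct]

/-- Step 1. -/
theorem sq_zero {X W Z : MQ} (hZ3 : Z ^ 3 = 0) (hX : X * Z = Z * X) (hW : W * Z = Z * W)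
    (hZ : X * W - W * X = Z) : Z * Z = 0 := by
  by_contra hne
  obtain ⟨v, hv⟩ := exists_mulVec_ne hne
  have hZ3' : Z * Z * Z = 0 := by
    rw [← hZ3, pow_succ, pow_two]
  -- the basis
  let P : MQ := Matrix.of fun i k => ((Z ^ (k : ℕ)) *ᵥ v) i
  have hP : ∀ c : Fin 3 → ℚ, P *ᵥ c = (c 0 • (1 : MQ) + c 1 • Z + c 2 • (Z * Z)) *ᵥ v := by
    intro c
    ext i
    have h1 : (P *ᵥ c) i = ∑ k : Fin 3, ((Z ^ (k : ℕ)) *ᵥ v) i * c k := rfl
    rw [h1, Fin.sum_univ_three, add_mulVec, add_mulVec, smul_mulVec, smul_mulVec, smul_mulVec]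
    simp only [Fin.val_zero, Fin.val_one, Fin.val_two, pow_zero, pow_one, Pi.add_apply,
      Pi.smul_apply, smul_eq_mul, pow_two]
    ring
  have hdet : P.det ≠ 0 := by
    intro h0
    obtain ⟨c, hc0, hc⟩ := exists_mulVec_eq_zero_iff.2 h0
    rw [hP] at hc
    have e1 : (c 0 • (Z * Z)) *ᵥ v = 0 := by
      have h2 : (Z * Z) *ᵥ ((c 0 • (1 : MQ) + c 1 • Z + c 2 • (Z * Z)) *ᵥ v) = 0 := by
        rw [hc, mulVec_zero]
      rw [mulVec_mulVec] at h2
      have h3 : Z * Z * (c 0 • (1 : MQ) + c 1 • Z + c 2 • (Z * Z)) =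
          c 0 • (Z * Z) + c 1 • (Z * Z * Z) + c 2 • (Z * Z * Z * Z) := by
        simp only [mul_add, mul_smul_comm, mul_one, mul_assoc]
      rw [h3, hZ3', zero_mul, smul_zero, smul_zero, add_zero, add_zero] at h2
      exact h2
    have c0 : c 0 = 0 := by
      rw [smul_mulVec] at e1
      exact (smul_eq_zero.1 e1).resolve_right hv
    rw [c0, zero_smul, zero_add] at hc
    have e2 : (c 1 • (Z * Z)) *ᵥ v = 0 := by
      have h2 : Z *ᵥ ((c 1 • Z + c 2 • (Z * Z)) *ᵥ v) = 0 := by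
        rw [hc, mulVec_zero]
      rw [mulVec_mulVec] at h2
      have h3 : Z * (c 1 • Z + c 2 • (Z * Z)) = c 1 • (Z * Z) + c 2 • (Z * Z * Z) := by
        simp only [mul_add, mul_smul_comm, mul_assoc]
      rw [h3, hZ3', smul_zero, add_zero] at h2
      exact h2
    have c1 : c 1 = 0 := by
      rw [smul_mulVec] at e2
      exact (smul_eq_zero.1 e2).resolve_right hv
    rw [c1, zero_smul, zero_add, smul_mulVec] at hc
    have c2 : c 2 = 0 := (smul_eq_zero.1 hc).resolve_right hv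
    apply hc0
    ext k
    fin_cases k
    · exact c0
    · exact c1
    · exact c2
  have hsurj : ∀ y : Fin 3 → ℚ, ∃ c : Fin 3 → ℚ, P *ᵥ c = y := by
    intro y
    refine ⟨P⁻¹ *ᵥ y, ?_⟩
    rw [mulVec_mulVec, Matrix.mul_nonsing_inv P (isUnit_iff_ne_zero.2 hdet), one_mulVec]
  have hpol : ∀ X : MQ, X * Z = Z * X → ∃ p : MQ, X *ᵥ v = p *ᵥ v ∧ p * Z = Z * p ∧
      ∀ W : MQ, W * Z = Z * W → W * p = p * W := by
    intro X _
    obtain ⟨c, hc⟩ := hsurj (X *ᵥ v)
    rw [hP] at hc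
    have hcomm : ∀ W : MQ, W * Z = Z * W → W * (c 0 • (1 : MQ) + c 1 • Z + c 2 • (Z * Z)) =
        (c 0 • (1 : MQ) + c 1 • Z + c 2 • (Z * Z)) * W := by
      intro W hW
      have h1 : W * (Z * Z) = Z * Z * W := by
        rw [← mul_assoc, hW, mul_assoc, hW, ← mul_assoc]
      simp only [mul_add, add_mul, mul_smul_comm, smul_mul_assoc, mul_one, one_mul, hW, h1]
    exact ⟨_, hc.symm, (hcomm Z rfl).symm, hcomm⟩
  obtain ⟨p, hp, hpZ, hpc⟩ := hpol X hX
  obtain ⟨q, hq, hqZ, hqc⟩ := hpol W hW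
  have h1 : (X * W) *ᵥ v = (q * p) *ᵥ v := by
    rw [← mulVec_mulVec, hq, mulVec_mulVec, hqc X hX, ← mulVec_mulVec, hp, mulVec_mulVec]
  have h2 : (W * X) *ᵥ v = (p * q) *ᵥ v := by
    rw [← mulVec_mulVec, hp, mulVec_mulVec, hpc W hW, ← mulVec_mulVec, hq, mulVec_mulVec]
  have h3 : Z *ᵥ v = 0 := by
    rw [← hZ, sub_mulVec, h1, h2, hqc p hpZ, sub_self]
  apply hv
  rw [← mulVec_mulVec, h3, mulVec_zero]

/-- Type (a): matrix units. -/
theorem typeA (Y : Fin 3 → Fin 3 → MQ)
    (ha : ∀ i j k, i ≠ j → j ≠ k → i ≠ k → Y i j * Y j k = Y i k)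
    (hb : ∀ i j k, i ≠ j → j ≠ k → i ≠ k → Y j k * Y i j = 0)
    (hne : ∀ i j, i ≠ j → Y i j ≠ 0) :
    ∃ g : MQ, g.det ≠ 0 ∧ ∀ i j, i ≠ j → Y i j * g = g * Matrix.single i j 1 := by
  have third : ∀ i j : Fin 3, i ≠ j → ∃ k, k ≠ i ∧ k ≠ j := by decide
  have hc : ∀ i j k, i ≠ j → i ≠ k → j ≠ k → Y i j * Y i k = 0 := by
    intro i j k hij hik hjk
    rw [← ha i k j hik hjk.symm hij, mul_assoc, hb i k j hik hjk.symm hij, mul_zero]
  have hd : ∀ i j, i ≠ j → Y i j * Y i j = 0 := by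
    intro i j hij
    obtain ⟨k, hki, hkj⟩ := third i j hij
    calc Y i j * Y i j = (Y i k * Y k j) * (Y i k * Y k j) := by rw [ha i k j hki.symm hkj hij]
      _ = Y i k * (Y k j * Y i k) * Y k j := by simp only [mul_assoc]
      _ = 0 := by rw [hb i k j hki.symm hkj hij, mul_zero, zero_mul]
  have he : ∀ i j k, i ≠ k → j ≠ k → i ≠ j → Y i k * Y j k = 0 := by
    intro i j k hik hjk hij
    rw [← ha j i k hij.symm hik hjk, ← mul_assoc, hb j i k hij.symm hik hjk, zero_mul]
  have h12 : ∀ k : Fin 3, k ≠ 0 → k = 1 ∨ k = 2 := by decide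
  have hP : ∀ k, k ≠ 0 → Y 0 1 * Y 1 0 = Y 0 k * Y k 0 := by
    intro k hk
    by_cases h1 : k = 1
    · rw [h1]
    · have h2 : k = 2 := by
        revert hk h1
        revert k
        decide
      rw [h2, ← ha 1 2 0 (by decide) (by decide) (by decide), ← mul_assoc,
        ha 0 1 2 (by decide) (by decide) (by decide)]
  -- the first column of the matrix units
  let E : Fin 3 → MQ := fun k => if k = 0 then Y 0 1 * Y 1 0 else Y k 0
  have hE0 : E 0 = Y 0 1 * Y 1 0 := if_pos rfl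
  have hEk : ∀ k, k ≠ 0 → E k = Y k 0 := fun k hk => if_neg hk
  have hF1 : ∀ i j, i ≠ j → Y i j * E j = E i := by
    intro i j hij
    by_cases hj : j = 0
    · subst hj
      obtain ⟨k, hki, hk0⟩ := third i 0 hij
      rw [hE0, hP k hk0, ← mul_assoc, ha i 0 k hij hk0.symm hki.symm,
        ha i k 0 hki.symm hk0 hij, hEk i hij]
    · rw [hEk j hj]
      by_cases hi : i = 0
      · subst hi
        rw [hE0, hP j hj]
      · rw [hEk i hi, ha i j 0 hij hj hi]
  have hF2 : ∀ i j k, i ≠ j → k ≠ j → Y i j * E k = 0 := by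
    intro i j k hij hkj
    by_cases hk : k = 0
    · subst hk
      rw [hE0]
      by_cases hi : i = 0
      · subst hi
        rw [hP j hkj.symm, ← mul_assoc, hd 0 j hij, zero_mul]
      · rw [hP i hi, ← mul_assoc, hb 0 i j (Ne.symm hi) hij hkj, zero_mul]
    · rw [hEk k hk]
      by_cases hik : i = k
      · subst hik
        by_cases hj : j = 0
        · subst hj
          exact hd i 0 hij
        · exact hc i j 0 hij hk hj
      · -- `k` is the third index
        by_cases hj : j = 0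
        · subst hj
          exact he i k 0 hij hk hik
        · have hi : i = 0 := by
            revert hij hkj hk hik hj
            revert i j k
            decide
          subst hi
          exact hb k 0 j hk hij hkj
  have hE0ne : E 0 ≠ 0 := by
    intro h
    apply hne 0 1 (by decide)
    have h1 : E 0 * Y 0 1 = Y 0 1 := by
      rw [hE0, hP 2 (by decide), mul_assoc, ha 2 0 1 (by decide) (by decide) (by decide),
        ha 0 2 1 (by decide) (by decide) (by decide)]
    rw [← h1, h, zero_mul]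
  obtain ⟨w, hw⟩ := exists_mulVec_ne hE0ne
  let g : MQ := Matrix.of fun r k => (E k *ᵥ w) r
  have hg : ∀ i j, i ≠ j → Y i j * g = g * Matrix.single i j 1 := by
    intro i j hij
    ext r k
    have h1 : (Y i j * g) r k = ((Y i j * E k) *ᵥ w) r := by
      rw [← mulVec_mulVec]
      rfl
    rw [h1]
    by_cases hkj : k = j
    · subst hkj
      rw [hF1 i k hij, mul_single_apply_same, mul_one]
      rfl
    · rw [hF2 i j k hij hkj, mul_single_apply_of_ne _ _ _ _ _ hkj, zero_mulVec]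
      rfl
  refine ⟨g, ?_, hg⟩
  intro hdet
  obtain ⟨c, hc0, hc⟩ := exists_mulVec_eq_zero_iff.2 hdet
  have hgc : g *ᵥ c = c 0 • (E 0 *ᵥ w) + c 1 • (E 1 *ᵥ w) + c 2 • (E 2 *ᵥ w) := by
    ext i
    have h1 : (g *ᵥ c) i = ∑ k : Fin 3, (E k *ᵥ w) i * c k := rfl
    rw [h1, Fin.sum_univ_three]
    simp only [Pi.add_apply, Pi.smul_apply, smul_eq_mul]
    ring
  have hck : ∀ k, k ≠ 0 → c k = 0 := by
    intro k hk
    have h1 : Y 0 k *ᵥ (g *ᵥ c) = 0 := by
      rw [hc, mulVec_zero]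
    have h2 : ∀ l, Y 0 k *ᵥ (E l *ᵥ w) = if l = k then E 0 *ᵥ w else 0 := by
      intro l
      rw [mulVec_mulVec]
      split_ifs with h
      · rw [h, hF1 0 k hk.symm]
      · rw [hF2 0 k l hk.symm h, zero_mulVec]
    rw [hgc, mulVec_add, mulVec_add, mulVec_smul, mulVec_smul, mulVec_smul, h2, h2, h2] at h1
    have h3 : c k • (E 0 *ᵥ w) = 0 := by
      have h4 : k = 1 ∨ k = 2 := h12 k hk
      rcases h4 with rfl | rfl
      · simpa using h1
      · simpa using h1
    exact (smul_eq_zero.1 h3).resolve_right hw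
  apply hc0
  have h1 := hck 1 (by decide)
  have h2 := hck 2 (by decide)
  rw [hgc, h1, h2, zero_smul, zero_smul, add_zero, add_zero] at hc
  have h3 := (smul_eq_zero.1 hc).resolve_right hw
  ext k
  fin_cases k
  · exact h3
  · exact h1
  · exact h2

/-- Type (b), from type (a) by the transposition. -/
theorem typeB (Y : Fin 3 → Fin 3 → MQ)
    (ha : ∀ i j k, i ≠ j → j ≠ k → i ≠ k → Y j k * Y i j = -Y i k)
    (hb : ∀ i j k, i ≠ j → j ≠ k → i ≠ k → Y i j * Y j k = 0)
    (hne : ∀ i j, i ≠ j → Y i j ≠ 0) :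
    ∃ g : MQ, g.det ≠ 0 ∧ ∀ i j, i ≠ j → Y i j * g = -(g * Matrix.single j i 1) := by
  obtain ⟨g, hdet, hg⟩ := typeA (fun i j => -(Y i j)ᵀ)
    (by
      intro i j k hij hjk hik
      show -(Y i j)ᵀ * -(Y j k)ᵀ = -(Y i k)ᵀ
      rw [neg_mul_neg, ← transpose_mul, ha i j k hij hjk hik, transpose_neg])
    (by
      intro i j k hij hjk hik
      show -(Y j k)ᵀ * -(Y i j)ᵀ = 0
      rw [neg_mul_neg, ← transpose_mul, hb i j k hij hjk hik, transpose_zero])
    (by
      intro i j hij h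
      apply hne i j hij
      have h1 : (Y i j)ᵀ = 0 := neg_eq_zero.1 h
      rw [← transpose_transpose (Y i j), h1, transpose_zero])
  have hu : IsUnit gᵀ.det := by
    rw [det_transpose]
    exact isUnit_iff_ne_zero.2 hdet
  refine ⟨(gᵀ)⁻¹, ?_, ?_⟩
  · intro h
    have h1 : (gᵀ * (gᵀ)⁻¹).det = 1 := by
      rw [mul_nonsing_inv _ hu, det_one]
    rw [det_mul, h, mul_zero] at h1
    exact zero_ne_one h1
  · intro i j hij
    have h1 := congrArg transpose (hg i j hij)
    simp only [transpose_mul, transpose_neg, transpose_transpose, transpose_single] at h1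
    -- `h1 : gᵀ * -(Y i j) = single j i 1 * gᵀ`
    have h2 : (gᵀ)⁻¹ * (gᵀ * -(Y i j)) * (gᵀ)⁻¹ = (gᵀ)⁻¹ * (single j i 1 * gᵀ) * (gᵀ)⁻¹ := by
      rw [h1]
    rw [← mul_assoc, nonsing_inv_mul _ hu, one_mul, mul_assoc, mul_assoc, mul_nonsing_inv _ hu,
      mul_one] at h2
    rw [← h2, neg_mul, neg_neg]

end LIEM

open LIEM in
theorem specLIE : SpecLIE := by
  intro Y h3 hrel hrow hcol
  have third : ∀ i j : Fin 3, i ≠ j → ∃ k, k ≠ i ∧ k ≠ j := by decide
  by_cases h0 : ∃ i j, i ≠ j ∧ Y i j = 0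
  · left
    obtain ⟨i, j, hij, hY⟩ := h0
    obtain ⟨k, hki, hkj⟩ := third i j hij
    have step : ∀ i j k, i ≠ j → j ≠ k → i ≠ k → Y i j = 0 → Y i k = 0 ∧ Y k j = 0 := by
      intro i j k hij hjk hik h
      refine ⟨?_, ?_⟩
      · rw [← hrel i j k hij hjk hik, h]
        simp
      · rw [← hrel k i j hik.symm hij hjk.symm, h]
        simp
    obtain ⟨h1, h2⟩ := step i j k hij hkj.symm hki.symm hY
    obtain ⟨-, h3⟩ := step i k j hki.symm hkj hij h1
    obtain ⟨h4, -⟩ := step k j i hkj hij.symm hki h2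
    obtain ⟨h5, -⟩ := step j k i hkj.symm hki hij.symm h3
    intro a b hab
    have key : ∀ i j k : Fin 3, i ≠ j → k ≠ i → k ≠ j → ∀ a b : Fin 3, a ≠ b →
        (a = i ∧ b = j) ∨ (a = i ∧ b = k) ∨ (a = k ∧ b = j) ∨ (a = j ∧ b = k) ∨
        (a = k ∧ b = i) ∨ (a = j ∧ b = i) := by decide
    rcases key i j k hij hki hkj a b hab with ⟨rfl, rfl⟩ | ⟨rfl, rfl⟩ | ⟨rfl, rfl⟩ | ⟨rfl, rfl⟩ |
      ⟨rfl, rfl⟩ | ⟨rfl, rfl⟩
    · exact hY
    · exact h1
    · exact h2
    · exact h3
    · exact h4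
    · exact h5
  · right
    push Not at h0
    have hsq : ∀ i j, i ≠ j → Y i j * Y i j = 0 := by
      intro i k hik
      obtain ⟨j, hji, hjk⟩ := third i k hik
      exact sq_zero (X := Y i j) (W := Y j k) (h3 i k hik) (hrow i j k hji.symm hjk hik)
        (hcol i j k hji.symm hjk hik).symm (hrel i j k hji.symm hjk hik)
    have hor : ∀ i j k, i ≠ j → j ≠ k → i ≠ k → Y j k * Y i j = 0 ∨ Y i j * Y j k = 0 := by
      intro i j k hij hjk hik
      refine mul_zero_or (hsq i j hij) (hsq j k hjk) ?_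
      rw [hrel i j k hij hjk hik]
      exact hsq i k hik
    -- values in the two types
    have hA : ∀ i j k, i ≠ j → j ≠ k → i ≠ k → Y j k * Y i j = 0 → Y i j * Y j k = Y i k := by
      intro i j k hij hjk hik h
      rw [← hrel i j k hij hjk hik, h, sub_zero]
    have hB : ∀ i j k, i ≠ j → j ≠ k → i ≠ k → Y i j * Y j k = 0 → Y j k * Y i j = -Y i k := by
      intro i j k hij hjk hik h
      rw [← hrel i j k hij hjk hik, h, zero_sub, neg_neg]
    have swap1 : ∀ i j k, i ≠ j → j ≠ k → i ≠ k → Y j k * Y i j = 0 → Y k j * Y i k = 0 := by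
      intro i j k hij hjk hik h
      rcases hor i k j hik hjk.symm hij with h1 | h1
      · exact h1
      · exfalso
        apply h0 i k hik
        have e1 := hA i j k hij hjk hik h
        have e2 := hB i k j hik hjk.symm hij h1
        have e3 : Y i k * Y j k = 0 := by
          rw [← e1, mul_assoc, hsq j k hjk, mul_zero]
        have e4 : Y i j = -(Y k j * Y i k) := by
          rw [e2, neg_neg]
        rw [← e1, e4, neg_mul, mul_assoc, e3, mul_zero, neg_zero]
    have swap2 : ∀ i j k, i ≠ j → j ≠ k → i ≠ k → Y j k * Y i j = 0 → Y i k * Y j i = 0 := by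
      intro i j k hij hjk hik h
      rcases hor j i k hij.symm hik hjk with h1 | h1
      · exact h1
      · exfalso
        apply h0 i k hik
        have e1 := hA i j k hij hjk hik h
        have e2 := hB j i k hij.symm hik hjk h1
        have e3 : Y i j * Y i k = 0 := by
          rw [← e1, ← mul_assoc, hsq i j hij, zero_mul]
        have e4 : Y j k = -(Y i k * Y j i) := by
          rw [e2, neg_neg]
        rw [← e1, e4, mul_neg, ← mul_assoc, e3, zero_mul, neg_zero]
    have swap1' : ∀ i j k, i ≠ j → j ≠ k → i ≠ k → Y i j * Y j k = 0 → Y i k * Y k j = 0 := by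
      intro i j k hij hjk hik h
      rcases hor i k j hik hjk.symm hij with h1 | h1
      · exfalso
        have := swap1 i k j hik hjk.symm hij h1
        apply h0 i k hik
        rw [← hrel i j k hij hjk hik, this, h, sub_zero]
      · exact h1
    have swap2' : ∀ i j k, i ≠ j → j ≠ k → i ≠ k → Y i j * Y j k = 0 → Y j i * Y i k = 0 := by
      intro i j k hij hjk hik h
      rcases hor j i k hij.symm hik hjk with h1 | h1
      · exfalso
        have := swap2 j i k hij.symm hik hjk h1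
        apply h0 i k hik
        rw [← hrel i j k hij hjk hik, this, h, sub_zero]
      · exact h1
    have key : ∀ a b c : Fin 3, a ≠ b → b ≠ c → a ≠ c →
        (a = 0 ∧ b = 1 ∧ c = 2) ∨ (a = 0 ∧ b = 2 ∧ c = 1) ∨ (a = 1 ∧ b = 0 ∧ c = 2) ∨
        (a = 1 ∧ b = 2 ∧ c = 0) ∨ (a = 2 ∧ b = 0 ∧ c = 1) ∨ (a = 2 ∧ b = 1 ∧ c = 0) := by decide
    rcases hor 0 1 2 (by decide) (by decide) (by decide) with h012 | h012
    · have h021 := swap1 0 1 2 (by decide) (by decide) (by decide) h012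
      have h102 := swap2 0 1 2 (by decide) (by decide) (by decide) h012
      have h120 := swap1 1 0 2 (by decide) (by decide) (by decide) h102
      have h201 := swap2 0 2 1 (by decide) (by decide) (by decide) h021
      have h210 := swap1 2 0 1 (by decide) (by decide) (by decide) h201
      have hall : ∀ i j k, i ≠ j → j ≠ k → i ≠ k → Y j k * Y i j = 0 := by
        intro i j k hij hjk hik
        rcases key i j k hij hjk hik with ⟨rfl, rfl, rfl⟩ | ⟨rfl, rfl, rfl⟩ | ⟨rfl, rfl, rfl⟩ |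
          ⟨rfl, rfl, rfl⟩ | ⟨rfl, rfl, rfl⟩ | ⟨rfl, rfl, rfl⟩
        · exact h012
        · exact h021
        · exact h102
        · exact h120
        · exact h201
        · exact h210
      obtain ⟨g, hdet, hg⟩ := typeA Y
        (fun i j k hij hjk hik => hA i j k hij hjk hik (hall i j k hij hjk hik)) hall h0
      exact ⟨g, hdet, Or.inl hg⟩
    · have h021 := swap1' 0 1 2 (by decide) (by decide) (by decide) h012
      have h102 := swap2' 0 1 2 (by decide) (by decide) (by decide) h012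
      have h120 := swap1' 1 0 2 (by decide) (by decide) (by decide) h102
      have h201 := swap2' 0 2 1 (by decide) (by decide) (by decide) h021
      have h210 := swap1' 2 0 1 (by decide) (by decide) (by decide) h201
      have hall : ∀ i j k, i ≠ j → j ≠ k → i ≠ k → Y i j * Y j k = 0 := by
        intro i j k hij hjk hik
        rcases key i j k hij hjk hik with ⟨rfl, rfl, rfl⟩ | ⟨rfl, rfl, rfl⟩ | ⟨rfl, rfl, rfl⟩ |
          ⟨rfl, rfl, rfl⟩ | ⟨rfl, rfl, rfl⟩ | ⟨rfl, rfl, rfl⟩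
        · exact h012
        · exact h021
        · exact h102
        · exact h120
        · exact h201
        · exact h210
      obtain ⟨g, hdet, hg⟩ := typeB Y
        (fun i j k hij hjk hik => hB i j k hij hjk hik (hall i j k hij hjk hik)) hall h0
      exact ⟨g, hdet, Or.inr hg⟩

end Pool.Agent.Lib.MP8519b0
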