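import Pool.Agent.Lib.MP_8519b0_al.Spec

set_option autoImplicit false

namespace Pool.Agent.Lib.MP8519b0

namespace LOGM

lemma coeff {V : Type} [AddCommGroup V] [Module ℚ V] (c1 c2 c3 c4 : V)
    (h : ∀ a : ℕ, (a : ℚ) • c1 + (a : ℚ) ^ 2 • c2 + (a : ℚ) ^ 3 • c3 + (a : ℚ) ^ 4 • c4 = 0) :
    c1 = 0 := by
  have h1 := h 1
  have h2 := h 2
  have h3 := h 3
  have h4 := h 4
  have e : c1 = (4 : ℚ) • (((1 : ℕ) : ℚ) • c1 + ((1 : ℕ) : ℚ) ^ 2 • c2 + ((1 : ℕ) : ℚ) ^ 3 • c3 +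
      ((1 : ℕ) : ℚ) ^ 4 • c4) - (3 : ℚ) • (((2 : ℕ) : ℚ) • c1 + ((2 : ℕ) : ℚ) ^ 2 • c2 +
      ((2 : ℕ) : ℚ) ^ 3 • c3 + ((2 : ℕ) : ℚ) ^ 4 • c4) + (4 / 3 : ℚ) • (((3 : ℕ) : ℚ) • c1 +
      ((3 : ℕ) : ℚ) ^ 2 • c2 + ((3 : ℕ) : ℚ) ^ 3 • c3 + ((3 : ℕ) : ℚ) ^ 4 • c4) -
      (1 / 4 : ℚ) • (((4 : ℕ) : ℚ) • c1 + ((4 : ℕ) : ℚ) ^ 2 • c2 + ((4 : ℕ) : ℚ) ^ 3 • c3 +
      ((4 : ℕ) : ℚ) ^ 4 • c4) := by
    push_cast
    module
  rw [e, h1, h2, h3, h4]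
  simp

end LOGM

theorem specLOG : SpecLOG := by
  intro X Y Z N h
  have step1 : ∀ b : ℕ, X * EX ((b : ℚ) • Y) - (N * b) • (Z * EX ((b : ℚ) • Y)) -
      EX ((b : ℚ) • Y) * X = 0 := by
    intro b
    generalize hE : EX ((b : ℚ) • Y) = E at *
    refine LOGM.coeff _
      ((1 / 2 : ℚ) • (X * (X * E)) - ((N * b) ^ 2 / 2) • (Z * (Z * E)) -
        (N * b) • (Z * (E * X)) - (1 / 2 : ℚ) • (E * (X * X)))
      (-((N * b / 2) • (Z * (E * (X * X)))) - ((N * b) ^ 2 / 2) • (Z * (Z * (E * X))))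
      (-(((N * b) ^ 2 / 4) • (Z * (Z * (E * (X * X)))))) fun a => ?_
    have h1 := h a b
    rw [hE] at h1
    rw [← sub_eq_zero] at h1
    rw [← h1]
    simp only [EX, pow_two, smul_mul_assoc, mul_smul_comm, smul_smul, add_mul, mul_add, one_mul,
      mul_one, mul_assoc, smul_add]
    module
  have step2 : X * Y - N • Z - Y * X = 0 := by
    refine LOGM.coeff _
      ((1 / 2 : ℚ) • (X * (Y * Y)) - N • (Z * Y) - (1 / 2 : ℚ) • (Y * (Y * X)))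
      (-((N / 2) • (Z * (Y * Y)))) 0 fun b => ?_
    refine Eq.trans ?_ (step1 b)
    simp only [EX, pow_two, smul_mul_assoc, mul_smul_comm, smul_smul, add_mul, mul_add, one_mul,
      mul_one, mul_assoc, smul_add]
    module
  rw [sub_sub, sub_eq_zero] at step2
  rw [step2]
  abel

end Pool.Agent.Lib.MP8519b0
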