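import Pool.Agent.Lib.MP_8519b0_al.Spec

/-!
# NCT: the case `φ = 1` on some `E(M)` is not faithful
-/

set_option autoImplicit false

namespace Pool.Agent.Lib.MP8519b0

namespace NCTM

theorem el_add {i j : Fin 3} (h : i ≠ j) (a b : ℤ) : el i j (a + b) = el i j a * el i j b := by
  unfold el
  rw [dif_pos h, dif_pos h, dif_pos h]
  apply Subtype.ext
  show Matrix.transvection i j (a + b) = Matrix.transvection i j a * Matrix.transvection i j b
  rw [Matrix.transvection_mul_transvection_same i j h]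

theorem el_zero {i j : Fin 3} (h : i ≠ j) : el i j 0 = 1 := by
  unfold el
  rw [dif_pos h]
  apply Subtype.ext
  show Matrix.transvection i j 0 = 1
  exact Matrix.transvection_zero i j

theorem el_pow {i j : Fin 3} (h : i ≠ j) (a : ℤ) (n : ℕ) : el i j (a * n) = el i j a ^ n := by
  induction n with
  | zero => rw [Nat.cast_zero, mul_zero, el_zero h, pow_zero]
  | succ n ih => rw [Nat.cast_succ, mul_add, mul_one, el_add h, ih, pow_succ]

theorem EN_mul (a : ℤ) (n : ℕ) : EN (a * n) ≤ EN a := by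
  unfold EN
  rw [Subgroup.closure_le]
  rintro g ⟨i, j, h, rfl⟩
  rw [el_pow h]
  have h1 : el i j a ∈ Subgroup.closure {g : G | ∃ i j : Fin 3, i ≠ j ∧ g = el i j a} :=
    Subgroup.subset_closure ⟨i, j, h, rfl⟩
  exact pow_mem h1 n

theorem el_ne_one (n : ℕ) (hn : 1 ≤ n) : el 0 1 (n : ℤ) ≠ 1 := by
  intro h
  have h1 : (0 : Fin 3) ≠ 1 := by decide
  have h2 : ((el 0 1 (n : ℤ) : G) : MZ) 0 1 = (1 : MZ) 0 1 := by rw [h]; rfl
  unfold el at h2
  rw [dif_pos h1] at h2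
  have h3 : ((Matrix.SpecialLinearGroup.transvection h1 (n : ℤ) : G) : MZ) 0 1 = (n : ℤ) := by
    show Matrix.transvection (0 : Fin 3) 1 (n : ℤ) 0 1 = (n : ℤ)
    simp [Matrix.transvection]
  rw [h3, Matrix.one_apply_ne h1] at h2
  omega

end NCTM

theorem specNCT (hCNJ : SpecCNJ) : SpecNCT := by
  intro H hH φ ⟨M, hM1, hM, hφ⟩ hcore
  classical
  -- the image of the kernel
  set L : Subgroup G := φ.ker.map H.subtype with hL
  have memL : ∀ g : G, g ∈ L ↔ ∃ hg : g ∈ H, φ ⟨g, hg⟩ = 1 := by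
    intro g
    rw [hL, Subgroup.mem_map]
    constructor
    · rintro ⟨x, hx, rfl⟩
      exact ⟨x.2, hx⟩
    · rintro ⟨hg, h⟩
      exact ⟨⟨g, hg⟩, h, rfl⟩
  have ENL : EN (M : ℤ) ≤ L := fun k hk => (memL k).2 ⟨hM hk, hφ k hk⟩
  have conjL : ∀ h ∈ H, ∀ l ∈ L, h * l * h⁻¹ ∈ L := by
    intro h hh l hl
    obtain ⟨hl', e⟩ := (memL l).1 hl
    refine (memL _).2 ⟨H.mul_mem (H.mul_mem hh hl') (H.inv_mem hh), ?_⟩
    have e1 : (⟨h * l * h⁻¹, H.mul_mem (H.mul_mem hh hl') (H.inv_mem hh)⟩ : H) =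
        ⟨h, hh⟩ * ⟨l, hl'⟩ * (⟨h, hh⟩ : H)⁻¹ := rfl
    rw [e1, map_mul, map_mul, map_inv, e, mul_one, mul_inv_cancel]
  -- the normal core
  set K : Subgroup G := L.normalCore with hK
  have hKL : K ≤ L := Subgroup.normalCore_le L
  have hKH : K ≤ H := fun k hk => ((memL k).1 (hKL hk)).1
  have hbot : K = ⊥ := by
    refine hcore K inferInstance hKH ?_
    intro k hk
    obtain ⟨_, e⟩ := (memL k).1 (hKL hk)
    rw [e]
    exact K.one_mem
  -- finitely many cosets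
  have : Finite (G ⧸ H) := Subgroup.finite_quotient_of_finiteIndex
  have : Fintype (G ⧸ H) := Fintype.ofFinite _
  have hc : ∀ q : G ⧸ H, ∃ m : ℕ, 1 ≤ m ∧ ∀ k ∈ EN (m : ℤ),
      (q.out)⁻¹ * k * (q.out)⁻¹⁻¹ ∈ EN (M : ℤ) := fun q => hCNJ (q.out)⁻¹ M hM1
  choose m hm1 hm using hc
  set P : ℕ := ∏ q, m q with hP
  have hP1 : 1 ≤ P := Nat.one_le_iff_ne_zero.2
    (Finset.prod_ne_zero_iff.2 fun q _ => Nat.one_le_iff_ne_zero.1 (hm1 q))
  have hsub : ∀ q, EN (P : ℤ) ≤ EN (m q : ℤ) := by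
    intro q
    obtain ⟨c, hc⟩ := Finset.dvd_prod_of_mem m (Finset.mem_univ q)
    rw [hP, hc, Nat.cast_mul]
    exact NCTM.EN_mul _ _
  have hPK : EN (P : ℤ) ≤ K := by
    intro k hk
    show k ∈ L.normalCore
    intro b
    -- b⁻¹ = q.out * h
    obtain ⟨h, hh⟩ := QuotientGroup.mk_out_eq_mul H b⁻¹
    set q : G ⧸ H := ((b⁻¹ : G) : G ⧸ H) with hq
    have e : b = (h : G) * (q.out)⁻¹ := by
      have : q.out = b⁻¹ * (h : G) := hh
      rw [this]
      group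
    have h1 : (q.out)⁻¹ * k * (q.out)⁻¹⁻¹ ∈ L := ENL (hm q k (hsub q hk))
    have h2 := conjL (h : G) h.2 _ h1
    have e2 : b * k * b⁻¹ = (h : G) * ((q.out)⁻¹ * k * (q.out)⁻¹⁻¹) * (h : G)⁻¹ := by
      rw [e]
      group
    rw [e2]
    exact h2
  have h01 : el 0 1 (P : ℤ) ∈ K :=
    hPK (Subgroup.subset_closure ⟨0, 1, by decide, rfl⟩)
  rw [hbot, Subgroup.mem_bot] at h01
  exact NCTM.el_ne_one P hP1 h01

end Pool.Agent.Lib.MP8519b0
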