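import Pool.Agent.Lib.MP_8519b0_al.Spec

/-!
# NTR: `φ(H) H` is not all of `SL_3(Z)`
-/

set_option autoImplicit false

namespace Pool.Agent.Lib.MP8519b0

namespace NTRM

theorem smul_cancel (a : ℤ) (ha : a ≠ 0) (X Y : MZ) (h : a • X = a • Y) : X = Y := by
  ext i j
  have h1 := congrFun (congrFun h i) j
  simp only [Matrix.smul_apply, smul_eq_mul] at h1
  exact mul_left_cancel₀ ha h1

/-- moving `C` through -/
theorem move (γ : ℤ) (hγ : γ ≠ 0) (A C F Q : MZ) (h1 : C * A = γ • (1 : MZ))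
    (h2 : A * C = γ • (1 : MZ)) (h : F * A = A * Q) : C * F = Q * C := by
  apply smul_cancel γ hγ
  have e1 : C * (F * A) * C = γ • (C * F) := by
    calc C * (F * A) * C = C * F * (A * C) := by simp only [Matrix.mul_assoc]
      _ = γ • (C * F) := by rw [h2, Matrix.mul_smul, Matrix.mul_one]
  have e2 : C * (A * Q) * C = γ • (Q * C) := by
    calc C * (A * Q) * C = (C * A) * (Q * C) := by simp only [Matrix.mul_assoc]
      _ = γ • (Q * C) := by rw [h1, Matrix.smul_mul, Matrix.one_mul]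
  rw [← e1, ← e2, h]

theorem coe_mul_inv (g : G) : (g : MZ) * ((g⁻¹ : G) : MZ) = 1 := by
  rw [← Matrix.SpecialLinearGroup.coe_mul, mul_inv_cancel, Matrix.SpecialLinearGroup.coe_one]

theorem coe_inv_mul (g : G) : ((g⁻¹ : G) : MZ) * (g : MZ) = 1 := by
  rw [← Matrix.SpecialLinearGroup.coe_mul, inv_mul_cancel, Matrix.SpecialLinearGroup.coe_one]

end NTRM

open NTRM in
theorem specNTR (hPAR : SpecPAR) (hRNK : SpecRNK) : SpecNTR := by
  intro H φ A hA hconj
  obtain ⟨a, c, γ, A', C', p, ha, hc, hγ, hp, hAA, hCC, h1, h2, hdA, hdC, hnA, hnC⟩ := hPAR A hA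
  rcases hconj with h | h
  · -- first case
    have h' : ∀ x : H, (φ x : MZ) * A' = A' * ((x : G) : MZ) := by
      intro x
      apply smul_cancel a ha
      have h3 := h x
      rw [hAA, Matrix.mul_smul, Matrix.smul_mul] at h3
      exact h3
    obtain ⟨k, hk⟩ := hRNK p C' C' hp hdC hdC hnC hnC
    refine ⟨k, fun q r hkq => hk (q : G) (φ r) ?_⟩
    have e1 := move γ hγ A' C' (φ q : MZ) ((q : G) : MZ) h1 h2 (h' q)
    have e2 := move γ hγ A' C' (φ r : MZ) ((r : G) : MZ) h1 h2 (h' r)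
    rw [hkq, Matrix.SpecialLinearGroup.coe_mul]
    calc C' * ((φ q : MZ) * ((r : G) : MZ)) * C' = (C' * (φ q : MZ)) * (((r : G) : MZ) * C') := by
          simp only [Matrix.mul_assoc]
      _ = (((q : G) : MZ) * C') * (C' * (φ r : MZ)) := by rw [e1, e2]
      _ = ((q : G) : MZ) * (C' * C') * (φ r : MZ) := by simp only [Matrix.mul_assoc]
  · -- second case
    have h' : ∀ x : H, (φ x : MZ) * A' = A' * (((x : G)⁻¹ : G) : MZ).transpose := by
      intro x
      apply smul_cancel a ha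
      have h3 := h x
      rw [hAA, Matrix.mul_smul, Matrix.smul_mul] at h3
      exact h3
    have hdA' : (p : ℤ) ∣ A'.transpose.det := by rw [Matrix.det_transpose]; exact hdA
    have hnA' : ∃ i j, ¬ ((p : ℤ) ∣ A'.transpose i j) := by
      obtain ⟨i, j, hij⟩ := hnA
      exact ⟨j, i, hij⟩
    obtain ⟨k, hk⟩ := hRNK p C' A'.transpose hp hdC hdA' hnC hnA'
    refine ⟨k, fun q r hkq => hk ((q : G)⁻¹).transpose ((φ r)⁻¹).transpose ?_⟩
    have e1 := move γ hγ A' C' (φ q : MZ) (((q : G)⁻¹ : G) : MZ).transpose h1 h2 (h' q)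
    have e2 : ((r : G) : MZ) * A'.transpose = A'.transpose * (((φ r)⁻¹ : G) : MZ).transpose := by
      have h3 : A' = (((φ r)⁻¹ : G) : MZ) * A' * (((r : G)⁻¹ : G) : MZ).transpose := by
        calc A' = ((((φ r)⁻¹ : G) : MZ) * (φ r : MZ)) * A' := by
              rw [coe_inv_mul, Matrix.one_mul]
          _ = (((φ r)⁻¹ : G) : MZ) * ((φ r : MZ) * A') := by rw [Matrix.mul_assoc]
          _ = _ := by rw [h' r, ← Matrix.mul_assoc]
      have h4 : A'.transpose = (((r : G)⁻¹ : G) : MZ) *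
          (A'.transpose * (((φ r)⁻¹ : G) : MZ).transpose) := by
        conv_lhs => rw [h3]
        rw [Matrix.transpose_mul, Matrix.transpose_mul, Matrix.transpose_transpose]
      calc ((r : G) : MZ) * A'.transpose = ((r : G) : MZ) * ((((r : G)⁻¹ : G) : MZ) *
          (A'.transpose * (((φ r)⁻¹ : G) : MZ).transpose)) := by rw [← h4]
        _ = _ := by rw [← Matrix.mul_assoc, coe_mul_inv, Matrix.one_mul]
    rw [hkq, Matrix.SpecialLinearGroup.coe_mul, Matrix.SpecialLinearGroup.coe_transpose,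
      Matrix.SpecialLinearGroup.coe_transpose]
    calc C' * ((φ q : MZ) * ((r : G) : MZ)) * A'.transpose =
          (C' * (φ q : MZ)) * (((r : G) : MZ) * A'.transpose) := by simp only [Matrix.mul_assoc]
      _ = ((((q : G)⁻¹ : G) : MZ).transpose * C') *
          (A'.transpose * (((φ r)⁻¹ : G) : MZ).transpose) := by rw [e1, e2]
      _ = _ := by simp only [Matrix.mul_assoc]

end Pool.Agent.Lib.MP8519b0
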