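import Pool.Agent.Lib.MP_8519b0_al.Spec

/-!
# MP_8519b0_al: `A t C` is not `0` mod `p` for some `t` (module NZM)
-/

set_option autoImplicit false

namespace Pool.Agent.Lib.MP8519b0

namespace NZMM

theorem entry (A C : MZ) (i j k l : Fin 3) :
    (A * Matrix.transvection i j (1 : ℤ) * C) k l = (A * C) k l + A k i * C j l := by
  rw [Matrix.transvection, Matrix.mul_add, Matrix.add_mul, Matrix.mul_one, Matrix.add_apply]
  congr 1
  rw [Matrix.mul_apply, Finset.sum_eq_single j]
  · rw [Matrix.mul_single_apply_same, mul_one]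
  · intro b _ hb
    rw [Matrix.mul_single_apply_of_ne _ _ _ _ _ hb, zero_mul]
  · intro h
    exact absurd (Finset.mem_univ j) h

end NZMM

theorem specNZM : SpecNZM := by
  rintro p A C hp ⟨k0, i0, hA⟩ ⟨j1, l1, hC⟩
  by_contra hcon
  push Not at hcon
  have hpp : Prime (p : ℤ) := Nat.prime_iff_prime_int.mp hp
  have h1 : ∀ k l, (p : ℤ) ∣ (A * C) k l := by
    intro k l
    have h := hcon 1 k l
    rw [Matrix.SpecialLinearGroup.coe_one, Matrix.mul_one] at h
    exact h
  have h2 : ∀ i j, i ≠ j → ∀ k l, (p : ℤ) ∣ A k i * C j l := by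
    intro i j hij k l
    have h : (p : ℤ) ∣ (A * Matrix.transvection i j (1 : ℤ) * C) k l :=
      hcon ⟨Matrix.transvection i j 1, Matrix.det_transvection_of_ne i j hij 1⟩ k l
    rw [NZMM.entry] at h
    exact (dvd_add_right (h1 k l)).mp h
  have h3 : ∀ j, j ≠ i0 → ∀ l, (p : ℤ) ∣ C j l := by
    intro j hj l
    exact (hpp.dvd_or_dvd (h2 i0 j hj.symm k0 l)).resolve_left hA
  have h4 : j1 = i0 := by
    by_contra h
    exact hC (h3 j1 h l1)
  subst h4
  have h5 := h1 k0 l1
  rw [Matrix.mul_apply, ← Finset.add_sum_erase _ _ (Finset.mem_univ j1)] at h5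
  have h6 : (p : ℤ) ∣ ∑ x ∈ Finset.univ.erase j1, A k0 x * C x l1 := by
    refine Finset.dvd_sum fun x hx => ?_
    exact Dvd.dvd.mul_left (h3 x (Finset.ne_of_mem_erase hx) l1) _
  have h7 : (p : ℤ) ∣ A k0 j1 * C j1 l1 := (dvd_add_left h6).mp h5
  rcases hpp.dvd_or_dvd h7 with h | h
  · exact hA h
  · exact hC h

end Pool.Agent.Lib.MP8519b0
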