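import Pool.Agent.Lib.MP_8519b0_al.Spec

/-!
# Module PAR: a good matrix and its adjugate
-/

set_option autoImplicit false

namespace Pool.Agent.Lib.MP8519b0

namespace PARM

/-- cancellation of an integer factor -/
theorem cancel {n : ℤ} (hn : n ≠ 0) {X Y : MZ} (h : n • X = n • Y) : X = Y := by
  ext i j
  have h1 := congrFun (congrFun h i) j
  rw [Matrix.smul_apply, Matrix.smul_apply, smul_eq_mul, smul_eq_mul] at h1
  exact mul_left_cancel₀ hn h1

/-- if `Y X = γ 1` and `p ∣ γ`, and `Y` is primitive at `p`, then `p ∣ det X` -/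
theorem dvd_det {X Y : MZ} {γ : ℤ} {p : ℕ} (hp : p.Prime) (hpγ : (p : ℤ) ∣ γ)
    (h : Y * X = γ • (1 : MZ)) (hY : ∃ i j, ¬ ((p : ℤ) ∣ Y i j)) : (p : ℤ) ∣ X.det := by
  by_contra hX
  obtain ⟨i, j, hij⟩ := hY
  apply hij
  have h1 : X.det • Y = γ • X.adjugate := by
    calc X.det • Y = Y * (X.det • (1 : MZ)) := by rw [Matrix.mul_smul, Matrix.mul_one]
      _ = Y * (X * X.adjugate) := by rw [Matrix.mul_adjugate]
      _ = (Y * X) * X.adjugate := by rw [Matrix.mul_assoc]
      _ = γ • X.adjugate := by rw [h, Matrix.smul_mul, Matrix.one_mul]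
  have h2 := congrFun (congrFun h1 i) j
  rw [Matrix.smul_apply, Matrix.smul_apply, smul_eq_mul, smul_eq_mul] at h2
  have h3 : (p : ℤ) ∣ X.det * Y i j := by
    rw [h2]
    exact Dvd.dvd.mul_right hpγ _
  exact ((Nat.prime_iff_prime_int.mp hp).dvd_or_dvd h3).resolve_left hX

end PARM

open PARM in
/-- PAR: a good matrix and its adjugate. -/
theorem specPAR (hPRZ : SpecPRZ) : SpecPAR := by
  rintro A ⟨hdet, hnot⟩
  have hA0 : A ≠ 0 := by
    rintro rfl
    exact hdet Matrix.det_zero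
  have hadj0 : A.adjugate ≠ 0 := by
    intro h
    have h1 := Matrix.adjugate_mul A
    rw [h, Matrix.zero_mul] at h1
    have h2 := congrFun (congrFun h1 0) 0
    rw [Matrix.smul_apply, Matrix.one_apply_eq, smul_eq_mul, mul_one, Matrix.zero_apply] at h2
    exact hdet h2.symm
  obtain ⟨a, A', ha, hA, hA'⟩ := hPRZ A hA0
  obtain ⟨c, C', hc, hC, hC'⟩ := hPRZ A.adjugate hadj0
  have hca : c * a ≠ 0 := mul_ne_zero hc ha
  have e1 : (c * a) • (C' * A') = A.det • (1 : MZ) := by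
    rw [← Matrix.adjugate_mul A]
    conv_rhs => rw [hC]
    conv_rhs => rw [hA]
    rw [Matrix.smul_mul, Matrix.mul_smul, smul_smul]
  have e2 : (c * a) • (A' * C') = A.det • (1 : MZ) := by
    have h := Matrix.mul_adjugate A
    rw [← h]
    conv_rhs => rw [hC]
    conv_rhs => rw [hA]
    rw [Matrix.smul_mul, Matrix.mul_smul, smul_smul, mul_comm a c]
  obtain ⟨γ, hγ⟩ : ∃ γ, γ = (C' * A') 0 0 := ⟨_, rfl⟩
  have e3 : c * a * γ = A.det := by
    have h := congrFun (congrFun e1 0) 0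
    rw [Matrix.smul_apply, Matrix.smul_apply, Matrix.one_apply_eq, smul_eq_mul, smul_eq_mul,
      mul_one, ← hγ] at h
    exact h
  have hγ0 : γ ≠ 0 := by
    intro h
    rw [h, mul_zero] at e3
    exact hdet e3.symm
  have f1 : C' * A' = γ • (1 : MZ) := by
    apply cancel hca
    rw [e1, smul_smul, e3]
  have f2 : A' * C' = γ • (1 : MZ) := by
    apply cancel hca
    rw [e2, smul_smul, e3]
  -- a prime divisor of `γ`
  have hγ1 : γ.natAbs ≠ 1 := by
    intro h
    have h1 : IsUnit γ := Int.isUnit_iff_natAbs_eq.2 h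
    have h2 : C'.det * A'.det = γ ^ 3 := by
      rw [← Matrix.det_mul, f1, Matrix.det_smul, Matrix.det_one, mul_one, Fintype.card_fin]
    have h3 : IsUnit (C'.det * A'.det) := by
      rw [h2]
      exact h1.pow 3
    exact hnot ⟨a, A', isUnit_of_mul_isUnit_right h3, hA⟩
  obtain ⟨p, hp, hpγ⟩ := Nat.exists_prime_and_dvd hγ1
  have hpγ' : (p : ℤ) ∣ γ := Int.natCast_dvd.2 hpγ
  exact ⟨a, c, γ, A', C', p, ha, hc, hγ0, hp, hA, hC, f1, f2,
    dvd_det hp hpγ' f1 (hC' p hp), dvd_det hp hpγ' f2 (hA' p hp), hA' p hp, hC' p hp⟩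

end Pool.Agent.Lib.MP8519b0
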