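import Pool.Agent.Lib.MP_8519b0_al.Spec

/-!
# PRZ: the content of an integral matrix
-/

set_option autoImplicit false

namespace Pool.Agent.Lib.MP8519b0

theorem specPRZ : SpecPRZ := by
  intro A hA
  obtain ⟨g, h1, h2⟩ := Finset.extract_gcd (s := (Finset.univ : Finset (Fin 3 × Fin 3)))
    (fun x => A x.1 x.2) Finset.univ_nonempty
  set c : ℤ := (Finset.univ : Finset (Fin 3 × Fin 3)).gcd (fun x => A x.1 x.2) with hc
  refine ⟨c, Matrix.of fun i j => g (i, j), ?_, ?_, ?_⟩
  · intro h0
    apply hA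
    ext i j
    have h3 := h1 (i, j) (Finset.mem_univ _)
    rw [h0, zero_mul] at h3
    exact h3
  · ext i j
    have h3 := h1 (i, j) (Finset.mem_univ _)
    rw [Matrix.smul_apply, Matrix.of_apply, smul_eq_mul]
    exact h3
  · intro p hp
    by_contra hcon
    push Not at hcon
    have h3 : (p : ℤ) ∣ (Finset.univ : Finset (Fin 3 × Fin 3)).gcd g :=
      Finset.dvd_gcd fun x _ => by
        have := hcon x.1 x.2
        rwa [Matrix.of_apply] at this
    rw [h2] at h3
    have h4 : (p : ℤ) ∣ ((1 : ℕ) : ℤ) := by exact_mod_cast h3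
    have h5 : p ∣ 1 := by exact_mod_cast h4
    exact hp.one_lt.ne' (Nat.dvd_one.1 h5)

end Pool.Agent.Lib.MP8519b0
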