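import Pool.Agent.Lib.MP_8519b0_al.Spec

/-!
# QUN: commutators which commute with their factors (MP_8519b0_al)
-/

set_option autoImplicit false

namespace Pool.Agent.Lib.MP8519b0

namespace QUNM

open Module Polynomial

/-- `p q = μ q p` for injective `p`, `q` on a space of dimension `≤ 3` implies `μ^6 = 1` -/
theorem pow_six {E : Type} [AddCommGroup E] [Module ℂ E] [FiniteDimensional ℂ E]
    (hE : 1 ≤ finrank ℂ E) (hE3 : finrank ℂ E ≤ 3) (p q : E →ₗ[ℂ] E)
    (hp : Function.Injective p) (hq : Function.Injective q) (μ : ℂ)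
    (h : p ∘ₗ q = μ • (q ∘ₗ p)) : μ ^ 6 = 1 := by
  have hdet : ∀ f : E →ₗ[ℂ] E, Function.Injective f → LinearMap.det f ≠ 0 := by
    intro f hf h0
    have h1 := LinearMap.bot_lt_ker_of_det_eq_zero h0
    rw [LinearMap.ker_eq_bot.2 hf] at h1
    exact lt_irrefl _ h1
  have e1 := congrArg LinearMap.det h
  rw [LinearMap.det_comp, LinearMap.det_smul, LinearMap.det_comp,
    mul_comm (LinearMap.det q) (LinearMap.det p)] at e1
  have hne : LinearMap.det p * LinearMap.det q ≠ 0 := mul_ne_zero (hdet p hp) (hdet q hq)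
  have e2 : μ ^ finrank ℂ E = 1 := by
    have e3 : μ ^ finrank ℂ E * (LinearMap.det p * LinearMap.det q) =
        1 * (LinearMap.det p * LinearMap.det q) := by rw [← e1, one_mul]
    exact mul_right_cancel₀ hne e3
  have h6 : finrank ℂ E ∣ 6 := by
    interval_cases finrank ℂ E <;> decide
  obtain ⟨k, hk⟩ := h6
  rw [hk, pow_mul, e2, one_pow]

end QUNM

open QUNM Module Polynomial in
theorem specQUN : SpecQUN := by
  intro P Q C hC hP hQ
  -- complex matrices
  let φ : MZ →+* Matrix (Fin 3) (Fin 3) ℂ := (Int.castRingHom ℂ).mapMatrix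
  have hφ : Function.Injective φ := by
    intro A B hAB
    ext i j
    have h1 := congrFun (congrFun hAB i) j
    have h2 : ((A i j : ℤ) : ℂ) = ((B i j : ℤ) : ℂ) := h1
    exact_mod_cast h2
  have hcoe : ∀ g h : G, φ ((g * h : G) : MZ) = φ (g : MZ) * φ (h : MZ) := by
    intro g h
    rw [Matrix.SpecialLinearGroup.coe_mul, map_mul]
  have hrel : P * Q = C * (Q * P) := by
    rw [hC]; group
  have hrelC : φ (P : MZ) * φ (Q : MZ) = φ (C : MZ) * (φ (Q : MZ) * φ (P : MZ)) := by
    rw [← hcoe, ← hcoe, ← hcoe, hrel]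
  have hPC : φ (C : MZ) * φ (P : MZ) = φ (P : MZ) * φ (C : MZ) := by
    rw [← hcoe, ← hcoe, hP]
  have hQC : φ (C : MZ) * φ (Q : MZ) = φ (Q : MZ) * φ (C : MZ) := by
    rw [← hcoe, ← hcoe, hQ]
  have hone : φ ((1 : G) : MZ) = 1 := by
    rw [Matrix.SpecialLinearGroup.coe_one, map_one]
  have hinv : ∀ g : G, φ ((g⁻¹ : G) : MZ) * φ (g : MZ) = 1 := by
    intro g
    rw [← hcoe, inv_mul_cancel, hone]
  let f := Matrix.toLin' (φ (C : MZ))
  let p := Matrix.toLin' (φ (P : MZ))
  let q := Matrix.toLin' (φ (Q : MZ))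
  have hinjT : ∀ g : G, Function.Injective (Matrix.toLin' (φ (g : MZ))) := by
    intro g
    have h1 : Matrix.toLin' (φ ((g⁻¹ : G) : MZ)) ∘ₗ Matrix.toLin' (φ (g : MZ)) =
        LinearMap.id := by
      rw [← Matrix.toLin'_mul, hinv, Matrix.toLin'_one]
    intro x y hxy
    have h2 := congrArg (Matrix.toLin' (φ ((g⁻¹ : G) : MZ))) hxy
    rw [← LinearMap.comp_apply, ← LinearMap.comp_apply, h1] at h2
    exact h2
  -- eigenvalues
  have hroot : ∀ μ : ℂ, μ ∈ (φ (C : MZ)).charpoly.roots → μ ^ 6 = 1 := by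
    intro μ hμ
    have hev : Module.End.HasEigenvalue f μ := by
      rw [Module.End.hasEigenvalue_iff_isRoot_charpoly]
      have h1 : f.charpoly = (φ (C : MZ)).charpoly := Matrix.charpoly_toLin' _
      rw [h1]
      exact (mem_roots'.1 hμ).2
    let E := Module.End.eigenspace f μ
    have hEp : ∀ x ∈ E, p x ∈ E := by
      intro x hx
      rw [Module.End.mem_eigenspace_iff] at hx ⊢
      have h1 : f (p x) = p (f x) := by
        show Matrix.toLin' _ (Matrix.toLin' _ x) = Matrix.toLin' _ (Matrix.toLin' _ x)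
        rw [← LinearMap.comp_apply, ← LinearMap.comp_apply, ← Matrix.toLin'_mul,
          ← Matrix.toLin'_mul, hPC]
      rw [h1, hx, map_smul]
    have hEq : ∀ x ∈ E, q x ∈ E := by
      intro x hx
      rw [Module.End.mem_eigenspace_iff] at hx ⊢
      have h1 : f (q x) = q (f x) := by
        show Matrix.toLin' _ (Matrix.toLin' _ x) = Matrix.toLin' _ (Matrix.toLin' _ x)
        rw [← LinearMap.comp_apply, ← LinearMap.comp_apply, ← Matrix.toLin'_mul,
          ← Matrix.toLin'_mul, hQC]
      rw [h1, hx, map_smul]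
    have hEne : E ≠ ⊥ := hev
    have hE1 : 1 ≤ finrank ℂ E := by
      rw [Nat.one_le_iff_ne_zero]
      intro h0
      exact hEne (Submodule.finrank_eq_zero.1 h0)
    have hE3 : finrank ℂ E ≤ 3 := by
      have := Submodule.finrank_le E
      simpa using this
    refine pow_six hE1 hE3 (p.restrict hEp) (q.restrict hEq) ?_ ?_ μ ?_
    · intro x y hxy
      apply Subtype.ext
      apply hinjT P
      exact congrArg Subtype.val hxy
    · intro x y hxy
      apply Subtype.ext
      apply hinjT Q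
      exact congrArg Subtype.val hxy
    · ext x : 1
      apply Subtype.ext
      show p (q x.1) = μ • q (p x.1)
      have h1 : p (q x.1) = f (q (p x.1)) := by
        show Matrix.toLin' _ (Matrix.toLin' _ x.1) =
          Matrix.toLin' _ (Matrix.toLin' _ (Matrix.toLin' _ x.1))
        rw [← LinearMap.comp_apply, ← Matrix.toLin'_mul, hrelC, Matrix.toLin'_mul,
          Matrix.toLin'_mul]
        rfl
      rw [h1]
      exact Module.End.mem_eigenspace_iff.1 (hEq _ (hEp _ x.2))
  -- the characteristic polynomial divides `(X^6 - 1)^3`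
  have hdvd : (φ (C : MZ)).charpoly ∣ (X ^ 6 - 1 : ℂ[X]) ^ 3 := by
    have hmon : (φ (C : MZ)).charpoly.Monic := Matrix.charpoly_monic _
    have hsp : (φ (C : MZ)).charpoly.Splits := IsAlgClosed.splits _
    have hprod := hsp.eq_prod_roots_of_monic hmon
    have hcard : (φ (C : MZ)).charpoly.roots.card = 3 := by
      rw [← hsp.natDegree_eq_card_roots, Matrix.charpoly_natDegree_eq_dim]
      rfl
    rw [hprod]
    have h1 : ((φ (C : MZ)).charpoly.roots.map fun _ => (X ^ 6 - 1 : ℂ[X])).prod =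
        (X ^ 6 - 1 : ℂ[X]) ^ 3 := by
      rw [Multiset.map_const', Multiset.prod_replicate, hcard]
    rw [← h1]
    apply Multiset.prod_dvd_prod_of_dvd
    intro μ hμ
    rw [dvd_iff_isRoot, IsRoot, eval_sub, eval_pow, eval_X, eval_one, hroot μ hμ, sub_self]
  obtain ⟨R, hR⟩ := hdvd
  apply hφ
  have h2 := congrArg (aeval (φ (C : MZ))) hR
  rw [map_mul, Matrix.aeval_self_charpoly, zero_mul] at h2
  simp only [map_pow, map_sub, aeval_X, map_one] at h2
  have h3 : φ (((C ^ 6 : G) : MZ)) = φ (C : MZ) ^ 6 := by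
    rw [Matrix.SpecialLinearGroup.coe_pow, map_pow]
  rw [map_pow, map_sub, map_one, h3, map_zero]
  exact h2

end Pool.Agent.Lib.MP8519b0
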