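import Pool.Agent.Lib.MP_8519b0_al.Spec

/-!
# Module RIG: superrigidity of finite index subgroups of `SL_3(Z)`
-/

set_option autoImplicit false

namespace Pool.Agent.Lib.MP8519b0

namespace RIGM

theorem el_coe {i j : Fin 3} (h : i ≠ j) (c : ℤ) :
    (el i j c : MZ) = 1 + Matrix.single i j c := by
  unfold el
  rw [dif_pos h]
  rfl

theorem el_self (i : Fin 3) (c : ℤ) : el i i c = 1 := by
  unfold el
  rw [dif_neg (by simp)]

theorem el_zero (i j : Fin 3) : el i j 0 = 1 := by
  by_cases h : i = j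
  · subst h
    exact el_self i 0
  · unfold el
    rw [dif_pos h]
    exact Matrix.SpecialLinearGroup.transvection_coeff_zero h

theorem el_add (i j : Fin 3) (a b : ℤ) : el i j (a + b) = el i j a * el i j b := by
  by_cases h : i = j
  · subst h
    simp only [el_self, mul_one]
  · unfold el
    rw [dif_pos h, dif_pos h, dif_pos h]
    exact Matrix.SpecialLinearGroup.transvection_add h a b

theorem el_neg (i j : Fin 3) (a : ℤ) : el i j (-a) = (el i j a)⁻¹ := by
  rw [eq_inv_iff_mul_eq_one, ← el_add, neg_add_cancel, el_zero]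

theorem el_pow (i j : Fin 3) (a : ℤ) (n : ℕ) : (el i j a) ^ n = el i j (n * a) := by
  induction n with
  | zero => simp [el_zero]
  | succ n ih =>
    rw [pow_succ, ih, ← el_add]
    congr 1
    push_cast
    ring

theorem el_comm3 {i j k : Fin 3} (hij : i ≠ j) (hjk : j ≠ k) (hik : i ≠ k) (a b : ℤ) :
    el i j a * el j k b = el i k (a * b) * el j k b * el i j a := by
  apply Subtype.ext
  rw [Matrix.SpecialLinearGroup.coe_mul, Matrix.SpecialLinearGroup.coe_mul,
    Matrix.SpecialLinearGroup.coe_mul, el_coe hij, el_coe hjk, el_coe hik]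
  simp only [mul_add, add_mul, one_mul, mul_one, Matrix.single_mul_single_same,
    Matrix.single_mul_single_of_ne _ _ _ _ hik.symm, Matrix.single_mul_single_of_ne _ _ _ _ hjk.symm,
    add_zero]
  abel

theorem el_commA {i j k : Fin 3} (hij : i ≠ j) (hik : i ≠ k) (a b : ℤ) :
    el i j a * el i k b = el i k b * el i j a := by
  apply Subtype.ext
  rw [Matrix.SpecialLinearGroup.coe_mul, Matrix.SpecialLinearGroup.coe_mul, el_coe hij, el_coe hik]
  simp only [mul_add, add_mul, one_mul, mul_one, Matrix.single_mul_single_of_ne _ _ _ _ hik.symm,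
    Matrix.single_mul_single_of_ne _ _ _ _ hij.symm, add_zero]
  abel

theorem el_commB {i j k : Fin 3} (hik : i ≠ k) (hjk : j ≠ k) (a b : ℤ) :
    el i k a * el j k b = el j k b * el i k a := by
  apply Subtype.ext
  rw [Matrix.SpecialLinearGroup.coe_mul, Matrix.SpecialLinearGroup.coe_mul, el_coe hjk, el_coe hik]
  simp only [mul_add, add_mul, one_mul, mul_one, Matrix.single_mul_single_of_ne _ _ _ _ hik.symm,
    Matrix.single_mul_single_of_ne _ _ _ _ hjk.symm, add_zero]
  abel

theorem el_mem (N : ℤ) (i j : Fin 3) (m : ℤ) : el i j (N * m) ∈ EN N := by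
  have h1 : ∀ n : ℕ, el i j (n * N) ∈ EN N := by
    intro n
    rw [← el_pow]
    refine Subgroup.pow_mem _ ?_ n
    by_cases h : i = j
    · subst h
      rw [el_self]
      exact Subgroup.one_mem _
    · exact Subgroup.subset_closure ⟨i, j, h, rfl⟩
  obtain ⟨n, hn | hn⟩ := Int.eq_nat_or_neg m
  · rw [hn, mul_comm]
    exact h1 n
  · have h2 : N * m = -(n * N) := by rw [hn]; ring
    rw [h2, el_neg]
    exact Subgroup.inv_mem _ (h1 n)

theorem EN_mono {N M : ℤ} (h : N ∣ M) : EN M ≤ EN N := by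
  obtain ⟨c, rfl⟩ := h
  unfold EN
  rw [Subgroup.closure_le]
  rintro _ ⟨i, j, -, rfl⟩
  exact el_mem N i j c

/-- `toQ` as a homomorphism -/
def tq : G →* MQ where
  toFun := toQ
  map_one' := by
    unfold toQ
    rw [Matrix.SpecialLinearGroup.coe_one]
    exact Matrix.map_one _ Int.cast_zero Int.cast_one
  map_mul' g h := by
    unfold toQ
    rw [Matrix.SpecialLinearGroup.coe_mul]
    exact Matrix.map_mul (f := Int.castRingHom ℚ)

theorem tq_apply (g : G) : tq g = toQ g := rfl

/-- the inverse transpose -/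
def ts : G →* MQ where
  toFun g := (toQ g⁻¹).transpose
  map_one' := by
    have := tq.map_one
    rw [tq_apply] at this
    rw [inv_one, this, Matrix.transpose_one]
  map_mul' g h := by
    have := tq.map_mul h⁻¹ g⁻¹
    simp only [tq_apply] at this
    rw [mul_inv_rev, this, Matrix.transpose_mul]

theorem ts_apply (g : G) : ts g = (toQ g⁻¹).transpose := rfl

theorem toQ_det (g : G) : (toQ g).det = 1 := by
  have h := (Int.castRingHom ℚ).map_det (g : MZ)
  rw [g.det_coe, map_one] at h
  exact h.symm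

theorem toQ_inj {g h : G} (H : toQ g = toQ h) : g = h := by
  apply Subtype.ext
  unfold toQ at H
  exact Matrix.map_injective Int.cast_injective H

theorem toQ_el {i j : Fin 3} (h : i ≠ j) (c : ℤ) :
    toQ (el i j c) = 1 + (c : ℚ) • Matrix.single i j 1 := by
  unfold toQ
  rw [el_coe h, Matrix.map_add _ Int.cast_add, Matrix.map_one _ Int.cast_zero Int.cast_one]
  congr 1
  ext a b
  simp [Matrix.single, Matrix.map_apply]

/-- a matrix commuting with all `E_ij`, `i ≠ j`, of determinant one, is one -/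
theorem eq_one_of_commute {T : MQ} (hT : ∀ i j : Fin 3, i ≠ j →
    T * Matrix.single i j 1 = Matrix.single i j 1 * T) (hdet : T.det = 1) : T = 1 := by
  have h1 : T ∈ Set.range (Matrix.scalar (Fin 3)) := by
    refine Matrix.mem_range_scalar_of_commute_single ?_
    intro i j hij
    exact (hT i j hij).symm
  obtain ⟨c, rfl⟩ := h1
  have h2 : c ^ 3 = 1 := by
    have h3 : (Matrix.scalar (Fin 3) c : MQ).det = c ^ 3 := by
      rw [Matrix.scalar_apply, Matrix.det_diagonal]
      simp
    rw [← h3, hdet]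
  have h4 : c = 1 := by
    have h5 : (c - 1) * (c ^ 2 + c + 1) = 0 := by linear_combination h2
    rcases mul_eq_zero.1 h5 with h6 | h6
    · linarith
    · nlinarith [sq_nonneg (c + 1 / 2)]
  rw [h4, map_one]

/-- the final step -/
theorem final (hCNJ : SpecCNJ) (H : Subgroup G) (φ : H →* G) (β : G →* MQ) (g : MQ)
    (hg : g.det ≠ 0) (hβ : ∀ x, (β x).det = 1) (N : ℕ) (hN : 1 ≤ N) (hNH : EN (N : ℤ) ≤ H)
    (hel : ∀ (i j : Fin 3) (_ : i ≠ j), toQ (φ ⟨el i j N,
      hNH (by have := el_mem (N : ℤ) i j 1; rwa [mul_one] at this)⟩) * g = g * β (el i j N))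
    (hcom : ∀ (T : MQ) (M : ℕ), 1 ≤ M → (∀ i j : Fin 3, i ≠ j → T * β (el i j M) = β (el i j M) * T) →
      ∀ i j : Fin 3, i ≠ j → T * Matrix.single i j 1 = Matrix.single i j 1 * T) :
    ∀ h : H, toQ (φ h) * g = g * β h := by
  have hmul : ∀ a b : H, toQ (φ (a * b)) = toQ (φ a) * toQ (φ b) := by
    intro a b
    rw [map_mul]
    exact tq.map_mul _ _
  have hone : toQ (φ (1 : H)) = 1 := by
    rw [map_one]
    exact tq.map_one
  have hgu : IsUnit g.det := isUnit_iff_ne_zero.2 hg
  -- the subgroup on which the identity holds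
  let S : Subgroup H :=
    { carrier := {h : H | toQ (φ h) * g = g * β h}
      mul_mem' := by
        intro a b ha hb
        show toQ (φ (a * b)) * g = g * β ((a * b : H) : G)
        have ha' : toQ (φ a) * g = g * β (a : G) := ha
        have hb' : toQ (φ b) * g = g * β (b : G) := hb
        rw [hmul, Subgroup.coe_mul, map_mul, mul_assoc, hb', ← mul_assoc, ha', mul_assoc]
      one_mem' := by
        show toQ (φ (1 : H)) * g = g * β ((1 : H) : G)
        rw [hone, Subgroup.coe_one, map_one, one_mul, mul_one]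
      inv_mem' := by
        intro a ha
        show toQ (φ a⁻¹) * g = g * β ((a⁻¹ : H) : G)
        have ha' : toQ (φ a) * g = g * β (a : G) := ha
        have h1 : β (a : G) * β ((a⁻¹ : H) : G) = 1 := by
          rw [← map_mul, ← Subgroup.coe_mul, mul_inv_cancel, Subgroup.coe_one, map_one]
        have h2 : toQ (φ a⁻¹) * toQ (φ a) = 1 := by
          rw [← hmul, inv_mul_cancel, hone]
        calc toQ (φ a⁻¹) * g = toQ (φ a⁻¹) * (g * (β (a : G) * β ((a⁻¹ : H) : G))) := by
              rw [h1, mul_one]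
          _ = toQ (φ a⁻¹) * ((toQ (φ a) * g) * β ((a⁻¹ : H) : G)) := by
              rw [ha', mul_assoc]
          _ = (toQ (φ a⁻¹) * toQ (φ a)) * (g * β ((a⁻¹ : H) : G)) := by
              simp only [mul_assoc]
          _ = g * β ((a⁻¹ : H) : G) := by rw [h2, one_mul] }
  have hEN : ∀ (k : G) (hk : k ∈ EN (N : ℤ)), toQ (φ ⟨k, hNH hk⟩) * g = g * β k := by
    have h1 : EN (N : ℤ) ≤ S.map H.subtype := by
      unfold EN
      rw [Subgroup.closure_le]
      rintro _ ⟨i, j, hij, rfl⟩
      exact ⟨⟨el i j N, _⟩, hel i j hij, rfl⟩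
    intro k hk
    obtain ⟨s, hs, hs'⟩ := h1 hk
    have h2 : (⟨k, hNH hk⟩ : H) = s := Subtype.ext hs'.symm
    rw [h2]
    have hs2 : toQ (φ s) * g = g * β (s : G) := hs
    rw [hs2]
    congr 2
  intro h
  obtain ⟨M, hM, hMc⟩ := hCNJ (h : G) N hN
  have hMN : EN ((M * N : ℕ) : ℤ) ≤ EN (N : ℤ) := EN_mono (by push_cast; exact dvd_mul_left _ _)
  have hMM : EN ((M * N : ℕ) : ℤ) ≤ EN (M : ℤ) := EN_mono (by push_cast; exact dvd_mul_right _ _)
  have hginv : g⁻¹ * g = 1 := Matrix.nonsing_inv_mul g hgu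
  have hginv' : g * g⁻¹ = 1 := Matrix.mul_nonsing_inv g hgu
  have hβi : β (h : G) * β ((h : G)⁻¹) = 1 := by rw [← map_mul, mul_inv_cancel, map_one]
  have hβi' : β ((h : G)⁻¹) * β (h : G) = 1 := by rw [← map_mul, inv_mul_cancel, map_one]
  obtain ⟨T, hT⟩ : ∃ T : MQ, T = β ((h : G)⁻¹) * g⁻¹ * toQ (φ h) * g := ⟨_, rfl⟩
  have hTk : ∀ k ∈ EN ((M * N : ℕ) : ℤ), T * β k = β k * T := by
    intro k hk
    have hkN := hMN hk
    have hconj := hMc k (hMM hk)
    have e1 := hEN k hkN
    have e2 := hEN _ hconj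
    have e3 : toQ (φ h) * toQ (φ ⟨k, hNH hkN⟩) =
        toQ (φ ⟨(h : G) * k * (h : G)⁻¹, hNH hconj⟩) * toQ (φ h) := by
      rw [← hmul, ← hmul]
      congr 2
      apply Subtype.ext
      show (h : G) * k = (h : G) * k * (h : G)⁻¹ * (h : G)
      group
    have e4 : toQ (φ ⟨(h : G) * k * (h : G)⁻¹, hNH hconj⟩) =
        g * (β (h : G) * β k * β ((h : G)⁻¹)) * g⁻¹ := by
      rw [map_mul, map_mul] at e2
      rw [← e2, mul_assoc _ g g⁻¹, hginv', mul_one]
    have e5 : toQ (φ h) * g * β k = g * (β (h : G) * β k * β ((h : G)⁻¹)) * g⁻¹ *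
        (toQ (φ h) * g) := by
      rw [← e4, mul_assoc, ← e1, ← mul_assoc, e3, mul_assoc]
    calc T * β k = β ((h : G)⁻¹) * g⁻¹ * (toQ (φ h) * g * β k) := by
          rw [hT]
          simp only [mul_assoc]
      _ = β ((h : G)⁻¹) * (g⁻¹ * g) * (β (h : G) * β k * β ((h : G)⁻¹)) * g⁻¹ *
            (toQ (φ h) * g) := by
          rw [e5]
          simp only [mul_assoc]
      _ = (β ((h : G)⁻¹) * β (h : G)) * β k * (β ((h : G)⁻¹) * g⁻¹ * toQ (φ h) * g) := by
          rw [hginv, mul_one]
          simp only [mul_assoc]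
      _ = β k * T := by rw [hβi', one_mul, hT]
  have hTdet : T.det = 1 := by
    rw [hT, Matrix.det_mul, Matrix.det_mul, Matrix.det_mul, hβ, toQ_det, Matrix.det_nonsing_inv,
      Ring.inverse_eq_inv']
    field_simp
  have hT1 : T = 1 := by
    refine eq_one_of_commute (hcom T (M * N) (Nat.mul_pos hM hN) fun i j hij => ?_) hTdet
    refine hTk _ ?_
    have := el_mem ((M * N : ℕ) : ℤ) i j 1
    rwa [mul_one] at this
  calc toQ (φ h) * g = g * (β (h : G) * β ((h : G)⁻¹)) * g⁻¹ * toQ (φ h) * g := by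
        rw [hβi, mul_one, hginv', one_mul]
    _ = g * β (h : G) * T := by
        rw [hT]
        simp only [mul_assoc]
    _ = g * β (h : G) := by rw [hT1, mul_one]

theorem EX_zero : EX 0 = 1 := by
  unfold EX
  simp

/-- the exponential of a multiple of a conjugate of `E_ij` -/
theorem EX_conj {X g E : MQ} {c : ℚ} (hX : X * g = c • (g * E)) (hE : E * E = 0) :
    EX X * g = g * (1 + c • E) := by
  have h1 : X * X * g = 0 := by
    rw [mul_assoc, hX, Matrix.mul_smul, ← mul_assoc, hX, Matrix.smul_mul, mul_assoc g, hE, mul_zero,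
      smul_zero, smul_zero]
  unfold EX
  rw [add_mul, add_mul, one_mul, Matrix.smul_mul, h1, smul_zero, add_zero, hX, mul_add, mul_one,
    Matrix.mul_smul]

theorem single_sq {i j : Fin 3} (h : i ≠ j) :
    (Matrix.single i j (1 : ℚ)) * Matrix.single i j 1 = 0 :=
  Matrix.single_mul_single_of_ne _ _ _ _ h.symm _

theorem third (i j : Fin 3) (h : i ≠ j) : ∃ k : Fin 3, i ≠ k ∧ k ≠ j := by
  fin_cases i <;> fin_cases j <;> first | exact absurd rfl h | decide

end RIGM

open RIGM

theorem specRIG (hQUN : SpecQUN) (hEXL : SpecEXL) (hLOG : SpecLOG) (hLIE : SpecLIE)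
    (hCNJ : SpecCNJ) (hFIX : SpecFIX) : SpecRIG := by
  intro H hH φ
  obtain ⟨N₀, hN₀, hN₀H⟩ := hFIX H hH
  obtain ⟨N, hNdef⟩ : ∃ N : ℕ, N = 6 * N₀ ^ 2 := ⟨_, rfl⟩
  have hN : 1 ≤ N := by
    rw [hNdef]
    have : 0 < N₀ ^ 2 := by positivity
    omega
  have hNZ : (N : ℤ) = N₀ * (6 * N₀) := by
    rw [hNdef]
    push_cast
    ring
  have hNH : EN (N : ℤ) ≤ H := (EN_mono (by rw [hNZ]; exact dvd_mul_right _ _)).trans hN₀H
  have hNQ : (N : ℚ) ≠ 0 := by
    have : N ≠ 0 := by omega
    exact_mod_cast this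
  -- the elements
  let e : Fin 3 → Fin 3 → ℤ → H := fun i j m => ⟨el i j (N₀ * m), hN₀H (el_mem _ i j m)⟩
  let u : Fin 3 → Fin 3 → H := fun i j => ⟨el i j N, hNH (by
    have := el_mem (N : ℤ) i j 1; rwa [mul_one] at this)⟩
  have hue : ∀ i j, u i j = (e i j N₀) ^ 6 := by
    intro i j
    apply Subtype.ext
    show el i j N = (el i j (N₀ * N₀)) ^ 6
    rw [el_pow]
    congr 1
    rw [hNdef]
    push_cast
    ring
  have huni : ∀ i k, ((φ (u i k) : G) - 1 : MZ) ^ 3 = 0 := by
    intro i k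
    by_cases hik : i = k
    · subst hik
      have h1 : u i i = 1 := Subtype.ext (el_self i N)
      rw [h1, map_one, Matrix.SpecialLinearGroup.coe_one, sub_self]
      exact zero_pow (by norm_num)
    obtain ⟨j, hij, hjk⟩ := third i k hik
    have hrel : ∀ a b : ℤ, e i j a * e j k b = e i k (N₀ * (a * b)) * e j k b * e i j a := by
      intro a b
      apply Subtype.ext
      show el i j (N₀ * a) * el j k (N₀ * b) =
        el i k (N₀ * (N₀ * (a * b))) * el j k (N₀ * b) * el i j (N₀ * a)
      rw [el_comm3 hij hjk hik]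
      congr 3
      ring
    have hr1 := hrel 1 1
    rw [mul_one, mul_one] at hr1
    have hC1 : e i k N₀ * e i j 1 = e i j 1 * e i k N₀ :=
      Subtype.ext (el_commA hik hij _ _)
    have hC2 : e i k N₀ * e j k 1 = e j k 1 * e i k N₀ :=
      Subtype.ext (el_commB hik hjk _ _)
    rw [hue, map_pow]
    refine hQUN (φ (e i j 1)) (φ (e j k 1)) (φ (e i k N₀)) ?_ ?_ ?_
    · rw [← map_inv, ← map_inv, ← map_mul, ← map_mul, ← map_mul]
      congr 1
      rw [hr1]
      group
    · rw [← map_mul, ← map_mul, hC1]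
    · rw [← map_mul, ← map_mul, hC2]
  have huniQ : ∀ i k, (toQ (φ (u i k)) - 1) ^ 3 = 0 := by
    intro i k
    have h1 := congrArg (Int.castRingHom ℚ).mapMatrix (huni i k)
    rw [map_pow, map_sub, map_one, map_zero] at h1
    exact h1
  choose X hX3 hX using fun i k => hEXL _ (huniQ i k)
  have hpow : ∀ (i k : Fin 3) (a : ℕ), toQ (φ (u i k ^ a)) = EX ((a : ℚ) • X i k) := by
    intro i k a
    rw [← hX, map_pow]
    exact map_pow tq _ _
  have hmul : ∀ a b : H, toQ (φ (a * b)) = toQ (φ a) * toQ (φ b) := by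
    intro a b
    rw [map_mul]
    exact tq.map_mul _ _
  -- the brackets
  have hb1 : ∀ i j k : Fin 3, i ≠ j → j ≠ k → i ≠ k →
      X i j * X j k - X j k * X i j = (N : ℚ) • X i k := by
    intro i j k hij hjk hik
    refine hLOG _ _ _ _ fun a b => ?_
    have h1 : u i j ^ a * u j k ^ b = u i k ^ (N * a * b) * u j k ^ b * u i j ^ a := by
      apply Subtype.ext
      show (el i j N) ^ a * (el j k N) ^ b = (el i k N) ^ (N * a * b) * (el j k N) ^ b * (el i j N) ^ a
      rw [el_pow, el_pow, el_pow, el_comm3 hij hjk hik]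
      congr 3
      push_cast
      ring
    have h2 := congrArg (fun z => toQ (φ z)) h1
    simp only [hmul, hpow] at h2
    push_cast at h2
    exact h2
  have hb2 : ∀ i j k : Fin 3, i ≠ j → i ≠ k → X i j * X i k = X i k * X i j := by
    intro i j k hij hik
    have h0 : X i j * X i k - X i k * X i j = (0 : ℚ) • X i j := by
      refine hLOG _ _ _ _ fun a b => ?_
      have h1 : u i j ^ a * u i k ^ b = u i k ^ b * u i j ^ a := by
        apply Subtype.ext
        show (el i j N) ^ a * (el i k N) ^ b = (el i k N) ^ b * (el i j N) ^ a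
        rw [el_pow, el_pow, el_commA hij hik]
      have h2 := congrArg (fun z => toQ (φ z)) h1
      simp only [hmul, hpow] at h2
      rw [zero_mul, zero_mul, zero_smul, EX_zero, one_mul]
      exact h2
    rw [zero_smul] at h0
    exact sub_eq_zero.1 h0
  have hb3 : ∀ i j k : Fin 3, i ≠ k → j ≠ k → X i k * X j k = X j k * X i k := by
    intro i j k hik hjk
    have h0 : X i k * X j k - X j k * X i k = (0 : ℚ) • X i k := by
      refine hLOG _ _ _ _ fun a b => ?_
      have h1 : u i k ^ a * u j k ^ b = u j k ^ b * u i k ^ a := by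
        apply Subtype.ext
        show (el i k N) ^ a * (el j k N) ^ b = (el j k N) ^ b * (el i k N) ^ a
        rw [el_pow, el_pow, el_commB hik hjk]
      have h2 := congrArg (fun z => toQ (φ z)) h1
      simp only [hmul, hpow] at h2
      rw [zero_mul, zero_mul, zero_smul, EX_zero, one_mul]
      exact h2
    rw [zero_smul] at h0
    exact sub_eq_zero.1 h0
  have hU : ∀ i j, toQ (φ (u i j)) = EX (X i j) := by
    intro i j
    have := hpow i j 1
    rwa [pow_one, Nat.cast_one, one_smul] at this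
  have hlie := hLIE (fun i j => (N : ℚ)⁻¹ • X i j) (by
      intro i j _
      show ((N : ℚ)⁻¹ • X i j) ^ 3 = 0
      rw [smul_pow, hX3, smul_zero]) (by
      intro i j k hij hjk hik
      show (N : ℚ)⁻¹ • X i j * (N : ℚ)⁻¹ • X j k - (N : ℚ)⁻¹ • X j k * (N : ℚ)⁻¹ • X i j =
        (N : ℚ)⁻¹ • X i k
      rw [smul_mul_smul_comm, smul_mul_smul_comm, ← smul_sub, hb1 i j k hij hjk hik, smul_smul]
      congr 1
      field_simp) (by
      intro i j k hij _ hik
      show (N : ℚ)⁻¹ • X i j * (N : ℚ)⁻¹ • X i k = (N : ℚ)⁻¹ • X i k * (N : ℚ)⁻¹ • X i j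
      rw [smul_mul_smul_comm, smul_mul_smul_comm, hb2 i j k hij hik]) (by
      intro i j k _ hjk hik
      show (N : ℚ)⁻¹ • X i k * (N : ℚ)⁻¹ • X j k = (N : ℚ)⁻¹ • X j k * (N : ℚ)⁻¹ • X i k
      rw [smul_mul_smul_comm, smul_mul_smul_comm, hb3 i j k hik hjk])
  have hscale : ∀ (i j : Fin 3) (g Z : MQ), ((N : ℚ)⁻¹ • X i j) * g = Z →
      X i j * g = (N : ℚ) • Z := by
    intro i j g Z h
    rw [← h, Matrix.smul_mul, smul_smul, mul_inv_cancel₀ hNQ, one_smul]
  rcases hlie with h0 | ⟨g, hg, h1 | h1⟩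
  · -- trivial on a congruence subgroup
    left
    refine ⟨N, hN, hNH, ?_⟩
    have hX0 : ∀ i j, i ≠ j → X i j = 0 := by
      intro i j hij
      have h1 : (N : ℚ)⁻¹ • X i j = 0 := h0 i j hij
      rcases smul_eq_zero.1 h1 with h2 | h2
      · exact absurd h2 (inv_ne_zero hNQ)
      · exact h2
    have h3 : EN (N : ℤ) ≤ (φ.ker).map H.subtype := by
      unfold EN
      rw [Subgroup.closure_le]
      rintro _ ⟨i, j, hij, rfl⟩
      refine ⟨u i j, ?_, rfl⟩
      show φ (u i j) = 1
      apply toQ_inj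
      rw [hU, hX0 i j hij, EX_zero]
      exact tq.map_one.symm
    intro k hk
    obtain ⟨s, hs, hs'⟩ := h3 hk
    have h4 : (⟨k, hNH hk⟩ : H) = s := Subtype.ext hs'.symm
    rw [h4]
    exact hs
  · right
    refine ⟨g, hg, Or.inl ?_⟩
    refine final hCNJ H φ tq g hg toQ_det N hN hNH ?_ ?_
    · intro i j hij
      show toQ (φ (u i j)) * g = g * toQ (el i j N)
      rw [hU, toQ_el hij, EX_conj (hscale i j g _ (h1 i j hij)) (single_sq hij)]
      push_cast
      rfl
    · intro T M hM hT i j hij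
      have h2 := hT i j hij
      rw [tq_apply, toQ_el hij, mul_add, add_mul, mul_one, one_mul, add_right_inj,
        Matrix.mul_smul, Matrix.smul_mul] at h2
      have hMQ : ((M : ℤ) : ℚ) ≠ 0 := by
        have : (M : ℤ) ≠ 0 := by omega
        exact_mod_cast this
      exact smul_right_injective _ hMQ h2
  · right
    refine ⟨g, hg, Or.inr ?_⟩
    have htsel : ∀ (i j : Fin 3) (c : ℤ), i ≠ j →
        ts (el i j c) = 1 + (-(c : ℚ)) • Matrix.single j i 1 := by
      intro i j c hij
      rw [ts_apply, ← el_neg, toQ_el hij, Matrix.transpose_add, Matrix.transpose_one,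
        Matrix.transpose_smul, Matrix.transpose_single]
      push_cast
      rfl
    refine final hCNJ H φ ts g hg (fun x => ?_) N hN hNH ?_ ?_
    · rw [ts_apply, Matrix.det_transpose, toQ_det]
    · intro i j hij
      show toQ (φ (u i j)) * g = g * ts (el i j N)
      have h2 : X i j * g = (-(N : ℚ)) • (g * Matrix.single j i 1) := by
        rw [hscale i j g _ (h1 i j hij), smul_neg, neg_smul]
      rw [hU, htsel i j N hij, EX_conj h2 (single_sq hij.symm)]
      push_cast
      rfl
    · intro T M hM hT i j hij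
      have h2 := hT j i hij.symm
      rw [htsel j i M hij.symm, mul_add, add_mul, mul_one, one_mul, add_right_inj,
        Matrix.mul_smul, Matrix.smul_mul] at h2
      have hMQ : -((M : ℤ) : ℚ) ≠ 0 := by
        have : (M : ℤ) ≠ 0 := by omega
        rw [neg_ne_zero]
        exact_mod_cast this
      exact smul_right_injective _ hMQ h2

end Pool.Agent.Lib.MP8519b0
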