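import Pool.Agent.Lib.MP_8519b0_al.Spec

/-!
# MP_8519b0_al, module RNK: the rank of `A k B` modulo `p` depends on `k`
-/

set_option autoImplicit false

namespace Pool.Agent.Lib.MP8519b0

namespace RNKM

open Matrix

variable {p : ℕ}

/-- matrices modulo `p` -/
abbrev MF (p : ℕ) : Type := Matrix (Fin 3) (Fin 3) (ZMod p)

/-- reduction modulo `p` -/
def rd (p : ℕ) (X : MZ) : MF p := X.map (Int.cast : ℤ → ZMod p)

theorem rd_eq (X : MZ) : rd p X = (Int.castRingHom (ZMod p)).mapMatrix X := rfl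

theorem rd_mul (X Y : MZ) : rd p (X * Y) = rd p X * rd p Y := by
  rw [rd_eq, rd_eq, rd_eq, map_mul]

theorem rd_det (X : MZ) : (rd p X).det = ((X.det : ℤ) : ZMod p) := by
  rw [rd_eq, ← RingHom.map_det]
  rfl

theorem rd_adj (X : MZ) : rd p X.adjugate = (rd p X).adjugate := by
  rw [rd_eq, rd_eq, RingHom.map_adjugate]

theorem rd_transpose (X : MZ) : rd p Xᵀ = (rd p X)ᵀ := rfl

theorem rd_one : rd p 1 = 1 := by
  rw [rd_eq, map_one]

theorem rd_ne {X : MZ} (h : ∃ i j, ¬ ((p : ℤ) ∣ X i j)) : rd p X ≠ 0 := by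
  obtain ⟨i, j, hij⟩ := h
  intro h0
  apply hij
  have h1 := congrFun (congrFun h0 i) j
  exact (ZMod.intCast_zmod_eq_zero_iff_dvd _ p).1 h1

theorem inv_mul' (q : G) : rd p ((q⁻¹ : G) : MZ) * rd p (q : MZ) = 1 := by
  rw [← rd_mul, ← Matrix.SpecialLinearGroup.coe_mul, inv_mul_cancel,
    Matrix.SpecialLinearGroup.coe_one, rd_one]

theorem mul_inv' (q : G) : rd p (q : MZ) * rd p ((q⁻¹ : G) : MZ) = 1 := by
  rw [← rd_mul, ← Matrix.SpecialLinearGroup.coe_mul, mul_inv_cancel,
    Matrix.SpecialLinearGroup.coe_one, rd_one]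

theorem adj_coe (q : G) : (rd p (q : MZ)).adjugate = rd p ((q⁻¹ : G) : MZ) := by
  rw [Matrix.SpecialLinearGroup.coe_inv, rd_adj]

/-- the hypothesis modulo `p` -/
def Hyp (P Q : MF p) : Prop :=
  ∀ k : G, ∃ q r : G, P * rd p (k : MZ) * Q = rd p (q : MZ) * (P * Q) * rd p (r : MZ)

theorem exists_mulVec_ne {Q : MF p} (hQ : Q ≠ 0) : ∃ v : Fin 3 → ZMod p, Q.mulVec v ≠ 0 := by
  by_contra hcon
  push Not at hcon
  apply hQ
  ext i j
  have h := congrFun (hcon (Pi.single j 1)) i
  rw [Matrix.mulVec_single_one] at h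
  exact h

theorem mul_ne [Fact p.Prime] (hTRA : SpecTRA) {P Q : MF p} (hP : P ≠ 0) (hQ : Q ≠ 0)
    (h : Hyp P Q) (k : G) : P * rd p (k : MZ) * Q ≠ 0 := by
  intro h0
  obtain ⟨q, r, h1⟩ := h k
  rw [h0] at h1
  have h2 : P * Q = 0 := by
    have h3 : rd p ((q⁻¹ : G) : MZ) * (rd p (q : MZ) * (P * Q) * rd p (r : MZ)) *
        rd p ((r⁻¹ : G) : MZ) = P * Q := by
      have h4 : rd p ((q⁻¹ : G) : MZ) * (rd p (q : MZ) * (P * Q) * rd p (r : MZ)) *
          rd p ((r⁻¹ : G) : MZ) = (rd p ((q⁻¹ : G) : MZ) * rd p (q : MZ)) * (P * Q) *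
            (rd p (r : MZ) * rd p ((r⁻¹ : G) : MZ)) := by
        simp only [Matrix.mul_assoc]
      rw [h4, inv_mul', mul_inv', one_mul, mul_one]
    rw [← h3, ← h1]
    simp
  obtain ⟨v, hv⟩ := exists_mulVec_ne hQ
  obtain ⟨w, hw⟩ := exists_mulVec_ne hP
  have hw0 : w ≠ 0 := by
    rintro rfl
    exact hw (Matrix.mulVec_zero P)
  obtain ⟨g, c, hc, hg⟩ := hTRA p (Q.mulVec v) w hv hw0
  obtain ⟨q', r', h5⟩ := h g
  rw [h2, Matrix.mul_zero, Matrix.zero_mul] at h5
  have h6 : (P * rd p (g : MZ) * Q).mulVec v = c • P.mulVec w := by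
    rw [← Matrix.mulVec_mulVec, ← Matrix.mulVec_mulVec]
    show P.mulVec ((rd p (g : MZ)).mulVec (Q.mulVec v)) = _
    have h7 : (rd p (g : MZ)).mulVec (Q.mulVec v) = c • w := hg
    rw [h7, Matrix.mulVec_smul]
  rw [h5, Matrix.zero_mulVec] at h6
  exact (smul_ne_zero hc hw) h6.symm

/-- a matrix with adjugate zero has rank at most one -/
theorem rank_one [Fact p.Prime] {Q : MF p} (hQ : Q ≠ 0) (hadj : Q.adjugate = 0) :
    ∃ (b l : Fin 3 → ZMod p), b ≠ 0 ∧ ∀ i j, Q i j = b i * l j := by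
  have hex : ∃ i j, Q i j ≠ 0 := by
    by_contra hcon
    push Not at hcon
    exact hQ (by ext i j; exact hcon i j)
  obtain ⟨i₀, j₀, h0⟩ := hex
  rw [Matrix.adjugate_fin_three] at hadj
  have h00 := congrFun (congrFun hadj 0) 0
  have h01 := congrFun (congrFun hadj 0) 1
  have h02 := congrFun (congrFun hadj 0) 2
  have h10 := congrFun (congrFun hadj 1) 0
  have h11 := congrFun (congrFun hadj 1) 1
  have h12 := congrFun (congrFun hadj 1) 2
  have h20 := congrFun (congrFun hadj 2) 0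
  have h21 := congrFun (congrFun hadj 2) 1
  have h22 := congrFun (congrFun hadj 2) 2
  simp at h00 h01 h02 h10 h11 h12 h20 h21 h22
  have key : ∀ i j, Q i j * Q i₀ j₀ = Q i j₀ * Q i₀ j := by
    intro i j
    fin_cases i₀ <;> fin_cases j₀ <;> fin_cases i <;> fin_cases j <;>
      first
        | ring1
        | (simp only [Fin.zero_eta, Fin.mk_one, Fin.reduceFinMk]
           first
            | linear_combination h00 | linear_combination -h00
            | linear_combination h01 | linear_combination -h01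
            | linear_combination h02 | linear_combination -h02
            | linear_combination h10 | linear_combination -h10
            | linear_combination h11 | linear_combination -h11
            | linear_combination h12 | linear_combination -h12
            | linear_combination h20 | linear_combination -h20
            | linear_combination h21 | linear_combination -h21
            | linear_combination h22 | linear_combination -h22)
  refine ⟨fun i => Q i j₀, fun j => Q i₀ j / Q i₀ j₀, ?_, ?_⟩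
  · intro hb
    exact h0 (congrFun hb i₀)
  · intro i j
    have h1 := key i j
    field_simp
    exact h1

/-- the main contradiction -/
theorem main [Fact p.Prime] (hTRA : SpecTRA) {P Q : MF p} (hP : P ≠ 0) (hQ : Q ≠ 0)
    (hdet : P.det = 0) (h : Hyp P Q) : Q.adjugate ≠ 0 := by
  intro hadj
  obtain ⟨b, l, hb, hbl⟩ := rank_one hQ hadj
  obtain ⟨c, hc, hPc⟩ := Matrix.exists_mulVec_eq_zero_iff.2 hdet
  obtain ⟨k, d, -, hk⟩ := hTRA p b c hb hc
  refine mul_ne hTRA hP hQ h k ?_
  ext i j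
  have h1 : (P * rd p (k : MZ) * Q) i j = (P * rd p (k : MZ)).mulVec b i * l j := by
    rw [Matrix.mul_apply, Matrix.mulVec, dotProduct, Finset.sum_mul]
    refine Finset.sum_congr rfl fun m _ => ?_
    rw [hbl m j]
    ring
  have h2 : (P * rd p (k : MZ)).mulVec b = 0 := by
    rw [← Matrix.mulVec_mulVec]
    have h3 : (rd p (k : MZ)).mulVec b = d • c := hk
    rw [h3, Matrix.mulVec_smul, hPc, smul_zero]
  rw [h1, h2]
  simp

theorem hyp_transpose {P Q : MF p} (h : Hyp P Q) : Hyp Qᵀ Pᵀ := by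
  intro k
  obtain ⟨q, r, h1⟩ := h k.transpose
  refine ⟨r.transpose, q.transpose, ?_⟩
  have h2 : ∀ g : G, rd p ((g.transpose : G) : MZ) = (rd p (g : MZ))ᵀ := fun g => rfl
  rw [h2] at h1
  rw [h2, h2]
  have h3 := congrArg Matrix.transpose h1
  simp only [Matrix.transpose_mul, Matrix.transpose_transpose] at h3
  simp only [Matrix.mul_assoc] at h3 ⊢
  exact h3

theorem hyp_adj {P Q : MF p} (h : Hyp P Q) : Hyp Q.adjugate P.adjugate := by
  intro k
  obtain ⟨q, r, h1⟩ := h k⁻¹
  refine ⟨r⁻¹, q⁻¹, ?_⟩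
  have h3 := congrArg Matrix.adjugate h1
  simp only [Matrix.adjugate_mul_distrib, adj_coe, inv_inv] at h3
  simp only [Matrix.mul_assoc] at h3 ⊢
  exact h3

end RNKM

open RNKM in
theorem specRNK (hTRA : SpecTRA) (_hNZM : SpecNZM) : SpecRNK := by
  intro p A B hp hdA hdB hA hB
  haveI : Fact p.Prime := ⟨hp⟩
  by_contra hcon
  push Not at hcon
  have hP := rd_ne hA
  have hQ := rd_ne hB
  have hdP : (rd p A).det = 0 := by
    rw [rd_det]
    exact (ZMod.intCast_zmod_eq_zero_iff_dvd _ p).2 hdA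
  have hdQ : (rd p B).det = 0 := by
    rw [rd_det]
    exact (ZMod.intCast_zmod_eq_zero_iff_dvd _ p).2 hdB
  have hH : Hyp (rd p A) (rd p B) := by
    intro k
    obtain ⟨q, r, h⟩ := hcon k
    refine ⟨q, r, ?_⟩
    have h2 := congrArg (rd p) h
    simpa only [rd_mul] using h2
  have h1 := main hTRA hP hQ hdP hH
  have h2 : (rd p A).adjugate ≠ 0 := by
    have h3 := main hTRA (P := (rd p B).transpose) (Q := (rd p A).transpose)
      (by
        intro h0
        exact hQ (Matrix.transpose_eq_zero.1 h0))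
      (by
        intro h0
        exact hP (Matrix.transpose_eq_zero.1 h0))
      (by rw [Matrix.det_transpose]; exact hdQ) (hyp_transpose hH)
    intro h0
    apply h3
    rw [← Matrix.adjugate_transpose, h0, Matrix.transpose_zero]
  refine main hTRA h1 h2 ?_ (hyp_adj hH) ?_
  · rw [Matrix.det_adjugate, hdQ]
    simp
  · rw [Matrix.adjugate_adjugate _ (by simp), hdP]
    simp

end Pool.Agent.Lib.MP8519b0
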