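import Pool.Agent.Lib.MP_8519b0_al.Spec

/-! # SEC: the virtual endomorphism of a faithful action (helper94) -/

set_option autoImplicit false

namespace Pool.Agent.Lib.MP8519b0

namespace SECM

variable {m : ℕ} (ρ : G →* Equiv.Perm (List (Fin m)))

lemma unique (hρ : Function.Injective ρ) {x : Fin m} {g h h' : G} (h1 : Section ρ x g h)
    (h2 : Section ρ x g h') : h = h' := by
  apply hρ
  ext1 w
  have e := (h1 w).symm.trans (h2 w)
  exact (List.cons.inj e).2

lemma sec_mul {x : Fin m} {g g' h h' : G} (h1 : Section ρ x g h) (h2 : Section ρ x g' h') :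
    Section ρ x (g * g') (h * h') := by
  intro w
  rw [map_mul, map_mul, Equiv.Perm.mul_apply, Equiv.Perm.mul_apply, h2 w, h1]

/-- the core -/
lemma core (hρ : Function.Injective ρ)
    (hlen : ∀ (g : G) (w : List (Fin m)), (ρ g w).length = w.length) (x : Fin m)
    (hsec : ∀ t : G, ∃ (y : Fin m) (s : G), ∀ v : List (Fin m), ρ t (x :: v) = y :: ρ s v)
    (htr : LetterTransitive ρ) (H : Subgroup G) (φ : H →* G)
    (hφ : ∀ h : H, Section ρ x (h : G) (φ h)) : CoreFree H φ := by
  intro K hK hKH hinv
  have key : ∀ n : ℕ, ∀ w : List (Fin m), w.length = n → ∀ k ∈ K, ρ k w = w := by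
    intro n
    induction n with
    | zero =>
      intro w hw k _
      have h0 : w = [] := List.length_eq_zero_iff.mp hw
      rw [h0]
      have := hlen k []
      exact List.length_eq_zero_iff.mp (by simpa using this)
    | succ n ih =>
      intro w hw k hk
      rcases w with _ | ⟨y, w'⟩
      · simp at hw
      · obtain ⟨t, ht⟩ := htr x y
        obtain ⟨y', s, hs⟩ := hsec t
        have hyy : y' = y := by
          have h1 := hs []
          rw [ht] at h1
          exact (List.cons.inj h1).1.symm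
        obtain ⟨v, hv⟩ : ∃ v, v = ρ s⁻¹ w' := ⟨_, rfl⟩
        have hsv : ρ s v = w' := by
          rw [hv, ← Equiv.Perm.mul_apply, ← map_mul, mul_inv_cancel, map_one]
          rfl
        have htv : ρ t (x :: v) = y :: w' := by
          rw [hs v, hsv, hyy]
        have hk' : t⁻¹ * k * t ∈ K := by
          have := hK.conj_mem k hk t⁻¹
          rwa [inv_inv] at this
        have hlv : v.length = n := by
          rw [hv, hlen]
          simpa using hw
        have h1 := hφ ⟨t⁻¹ * k * t, hKH hk'⟩ v
        rw [ih v hlv _ (hinv _ hk')] at h1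
        have h2 : k * t = t * (t⁻¹ * k * t) := by group
        calc ρ k (y :: w') = ρ k (ρ t (x :: v)) := by rw [htv]
          _ = ρ (k * t) (x :: v) := by rw [map_mul, Equiv.Perm.mul_apply]
          _ = ρ t (ρ (t⁻¹ * k * t) (x :: v)) := by rw [h2, map_mul, Equiv.Perm.mul_apply]
          _ = ρ t (x :: v) := congrArg (ρ t) h1
          _ = y :: w' := htv
  refine (Subgroup.eq_bot_iff_forall _).mpr fun k hk => hρ ?_
  rw [map_one]
  ext1 w
  exact key _ w rfl k hk

end SECM

open SECM in
theorem specSEC (hLET : SpecLET) : SpecSEC := by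
  intro m ρ hρ hss htr x
  obtain ⟨hlen, α, hα, hsec⟩ := hLET m ρ hss
  obtain ⟨H, hHdef⟩ : ∃ H : Subgroup G,
      H = (MulAction.stabilizer (Equiv.Perm (Fin m)) x).comap α := ⟨_, rfl⟩
  have hmem : ∀ g : G, g ∈ H ↔ α g x = x := by
    intro g
    rw [hHdef, Subgroup.mem_comap, MulAction.mem_stabilizer_iff]
    rfl
  have hmem' : ∀ g : G, g ∈ H ↔ ρ g [x] = [x] := by
    intro g
    rw [hmem, hα g x]
    constructor
    · intro h
      rw [h]
    · intro h
      exact (List.cons.inj h).1
  have hex : ∀ g : H, ∃ h : G, Section ρ x (g : G) h := by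
    intro g
    obtain ⟨h, hh⟩ := hsec g x
    rw [(hmem g).mp g.2] at hh
    exact ⟨h, hh⟩
  choose f hf using hex
  let φ : H →* G :=
    { toFun := f
      map_one' := unique ρ hρ (hf 1) (by
        intro w
        show ρ 1 (x :: w) = x :: ρ 1 w
        rw [map_one]
        rfl)
      map_mul' := fun g g' => unique ρ hρ (hf (g * g')) (sec_mul ρ (hf g) (hf g')) }
  have hφ : ∀ h : H, Section ρ x (h : G) (φ h) := hf
  refine ⟨H, φ, ?_, hmem', hφ, ?_, ?_⟩
  · have h1 : α.ker ≤ H := by
      intro g hg
      rw [hmem, MonoidHom.mem_ker.mp hg]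
      rfl
    have h2 : α.ker.FiniteIndex := Subgroup.finiteIndex_ker α
    exact Subgroup.finiteIndex_of_le h1
  · intro g h hs
    have h0 : ρ h [] = [] := List.length_eq_zero_iff.mp (by simpa using hlen h [])
    have hg : g ∈ H := by
      rw [hmem', hs [], h0]
    exact ⟨hg, unique ρ hρ (hφ ⟨g, hg⟩) hs⟩
  · exact core ρ hρ hlen x (fun t => by
      obtain ⟨s, hs⟩ := hsec t x
      exact ⟨α t x, s, hs⟩) htr H φ hφ

end Pool.Agent.Lib.MP8519b0
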