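import Pool.Agent.Lib.MP_8519b0_al.Spec

/-!
# TRA: `SL_3(Z)` acts transitively on the points of the projective plane over `ZMod p`
-/

set_option autoImplicit false

namespace Pool.Agent.Lib.MP8519b0

namespace TRAM

/-- reduction mod `p` -/
abbrev red (p : ℕ) (k : G) : Matrix (Fin 3) (Fin 3) (ZMod p) :=
  (k : MZ).map (Int.cast : ℤ → ZMod p)

lemma red_mul (p : ℕ) (k l : G) : red p (k * l) = red p k * red p l := by
  have h := Matrix.map_mul (L := (k : MZ)) (M := (l : MZ)) (f := Int.castRingHom (ZMod p))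
  unfold red
  rw [Matrix.SpecialLinearGroup.coe_mul]
  exact h

lemma red_one (p : ℕ) : red p 1 = 1 := by
  unfold red
  rw [Matrix.SpecialLinearGroup.coe_one]
  ext i j
  rw [Matrix.map_apply]
  by_cases h : i = j
  · subst h; simp
  · simp [Matrix.one_apply_ne h]

lemma step (p : ℕ) (k l : G) (v w : Fin 3 → ZMod p) (h1 : (red p l).mulVec v = w)
    (e : ZMod p) (u : Fin 3 → ZMod p) (h2 : (red p k).mulVec w = e • u) :
    (red p (k * l)).mulVec v = e • u := by
  rw [red_mul, ← Matrix.mulVec_mulVec, h1, h2]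

lemma clear (p : ℕ) [Fact p.Prime] (v : Fin 3 → ZMod p) (h : v 0 ≠ 0) :
    ∃ k : G, (red p k).mulVec v = (v 0) • ![1, 0, 0] := by
  obtain ⟨c, hc⟩ := ZMod.intCast_surjective (-v 1 / v 0)
  obtain ⟨d, hd⟩ := ZMod.intCast_surjective (-v 2 / v 0)
  refine ⟨⟨!![1, 0, 0; c, 1, 0; d, 0, 1], by simp [Matrix.det_fin_three]⟩, ?_⟩
  have e1 : (c : ZMod p) * v 0 + v 1 = 0 := by
    rw [hc]; field_simp; ring
  have e2 : (d : ZMod p) * v 0 + v 2 = 0 := by
    rw [hd]; field_simp; ring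
  ext i
  fin_cases i
  · simp [red, Matrix.mulVec, dotProduct, Fin.sum_univ_three]
  · simp [red, Matrix.mulVec, dotProduct, Fin.sum_univ_three]
    exact e1
  · simp [red, Matrix.mulVec, dotProduct, Fin.sum_univ_three]
    exact e2

lemma toE0 (p : ℕ) [Fact p.Prime] (v : Fin 3 → ZMod p) (hv : v ≠ 0) :
    ∃ (k : G) (c : ZMod p), c ≠ 0 ∧ (red p k).mulVec v = c • ![1, 0, 0] := by
  by_cases h0 : v 0 = 0
  · by_cases h1 : v 1 = 0
    · have h2 : v 2 ≠ 0 := by
        intro h2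
        apply hv
        ext i
        fin_cases i
        · exact h0
        · exact h1
        · exact h2
      set l : G := ⟨!![1, 0, 1; 0, 1, 0; 0, 0, 1], by simp [Matrix.det_fin_three]⟩ with hl
      set w := (red p l).mulVec v with hw
      have hw0 : w 0 = v 2 := by
        simp [hw, hl, red, Matrix.mulVec, dotProduct, Fin.sum_univ_three, h0]
      obtain ⟨k, hk⟩ := clear p w (by rw [hw0]; exact h2)
      exact ⟨k * l, w 0, by rw [hw0]; exact h2, step p k l v w rfl _ _ hk⟩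
    · set l : G := ⟨!![1, 1, 0; 0, 1, 0; 0, 0, 1], by simp [Matrix.det_fin_three]⟩ with hl
      set w := (red p l).mulVec v with hw
      have hw0 : w 0 = v 1 := by
        simp [hw, hl, red, Matrix.mulVec, dotProduct, Fin.sum_univ_three, h0]
      obtain ⟨k, hk⟩ := clear p w (by rw [hw0]; exact h1)
      exact ⟨k * l, w 0, by rw [hw0]; exact h1, step p k l v w rfl _ _ hk⟩
  · obtain ⟨k, hk⟩ := clear p v h0
    exact ⟨k, v 0, h0, hk⟩

end TRAM

theorem specTRA : SpecTRA := by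
  intro p _ v w hv hw
  obtain ⟨k1, c1, hc1, h1⟩ := TRAM.toE0 p v hv
  obtain ⟨k2, c2, hc2, h2⟩ := TRAM.toE0 p w hw
  refine ⟨k2⁻¹ * k1, c1 * c2⁻¹, mul_ne_zero hc1 (inv_ne_zero hc2), ?_⟩
  have h3 : (TRAM.red p k2⁻¹).mulVec ((TRAM.red p k2).mulVec w) = w := by
    rw [Matrix.mulVec_mulVec, ← TRAM.red_mul, inv_mul_cancel, TRAM.red_one, Matrix.one_mulVec]
  rw [h2, Matrix.mulVec_smul] at h3
  show (TRAM.red p (k2⁻¹ * k1)).mulVec v = (c1 * c2⁻¹) • w
  rw [TRAM.red_mul, ← Matrix.mulVec_mulVec, h1, Matrix.mulVec_smul, ← h3, smul_smul, mul_assoc,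
    inv_mul_cancel₀ hc2, mul_one]

end Pool.Agent.Lib.MP8519b0
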