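import Pool.Agent.Lib.MP_8519b0_al.Spec

/-! # TRC: traces (helper4) -/

set_option autoImplicit false

namespace Pool.Agent.Lib.MP8519b0

namespace TRCM

theorem tr (A M : MZ) : (A * M).trace =
    (A 0 0 * M 0 0 + A 0 1 * M 1 0 + A 0 2 * M 2 0) +
    (A 1 0 * M 0 1 + A 1 1 * M 1 1 + A 1 2 * M 2 1) +
    (A 2 0 * M 0 2 + A 2 1 * M 1 2 + A 2 2 * M 2 2) := by
  rw [Matrix.trace_fin_three]
  simp only [Matrix.mul_apply, Fin.sum_univ_three]

end TRCM

open TRCM in
theorem specTRC : SpecTRC := by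
  intro p A _ hA
  by_contra hall
  push Not at hall
  have key : ∀ M : MZ, M.det = 1 → (p : ℤ) ∣ (A * M).trace := fun M hM => hall ⟨M, hM⟩
  have h0 := key !![1, 0, 0; 0, 1, 0; 0, 0, 1] (by simp [Matrix.det_fin_three])
  have h01 := key !![1, 0, 0; 1, 1, 0; 0, 0, 1] (by simp [Matrix.det_fin_three])
  have h02 := key !![1, 0, 0; 0, 1, 0; 1, 0, 1] (by simp [Matrix.det_fin_three])
  have h12 := key !![1, 0, 0; 0, 1, 0; 0, 1, 1] (by simp [Matrix.det_fin_three])
  have h10 := key !![1, 1, 0; 0, 1, 0; 0, 0, 1] (by simp [Matrix.det_fin_three])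
  have h20 := key !![1, 0, 1; 0, 1, 0; 0, 0, 1] (by simp [Matrix.det_fin_three])
  have h21 := key !![1, 0, 0; 0, 1, 1; 0, 0, 1] (by simp [Matrix.det_fin_three])
  have d0 := key !![1, 0, 0; 0, 0, -1; 0, 1, 0] (by simp [Matrix.det_fin_three])
  have d1 := key !![0, 0, -1; 0, 1, 0; 1, 0, 0] (by simp [Matrix.det_fin_three])
  have d2 := key !![0, -1, 0; 1, 0, 0; 0, 0, 1] (by simp [Matrix.det_fin_three])
  rw [tr] at h0 h01 h02 h12 h10 h20 h21 d0 d1 d2
  simp at h0 h01 h02 h12 h10 h20 h21 d0 d1 d2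
  have e01 : (p : ℤ) ∣ A 0 1 := by
    have := dvd_sub h01 h0
    ring_nf at this
    exact this
  have e02 : (p : ℤ) ∣ A 0 2 := by
    have := dvd_sub h02 h0
    ring_nf at this
    exact this
  have e12 : (p : ℤ) ∣ A 1 2 := by
    have := dvd_sub h12 h0
    ring_nf at this
    exact this
  have e10 : (p : ℤ) ∣ A 1 0 := by
    have := dvd_sub h10 h0
    ring_nf at this
    exact this
  have e20 : (p : ℤ) ∣ A 2 0 := by
    have := dvd_sub h20 h0
    ring_nf at this
    exact this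
  have e21 : (p : ℤ) ∣ A 2 1 := by
    have := dvd_sub h21 h0
    ring_nf at this
    exact this
  have e00 : (p : ℤ) ∣ A 0 0 := by
    have := dvd_add (dvd_sub d0 e12) e21
    ring_nf at this
    exact this
  have e11 : (p : ℤ) ∣ A 1 1 := by
    have := dvd_add (dvd_sub d1 e02) e20
    ring_nf at this
    exact this
  have e22 : (p : ℤ) ∣ A 2 2 := by
    have := dvd_add (dvd_sub d2 e01) e10
    ring_nf at this
    exact this
  obtain ⟨i, j, hij⟩ := hA
  apply hij
  fin_cases i <;> fin_cases j <;> assumption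

end Pool.Agent.Lib.MP8519b0
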