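import Pool.Agent.Lib.MP_8519b0_al.FNB
import Pool.Agent.Lib.MP_8519b0_al.GEN
import Pool.Agent.Lib.MP_8519b0_al.LET
import Pool.Agent.Lib.MP_8519b0_al.ACT
import Pool.Agent.Lib.MP_8519b0_al.QUN
import Pool.Agent.Lib.MP_8519b0_al.EXL
import Pool.Agent.Lib.MP_8519b0_al.LOG
import Pool.Agent.Lib.MP_8519b0_al.LIE
import Pool.Agent.Lib.MP_8519b0_al.CNJ
import Pool.Agent.Lib.MP_8519b0_al.FIX
import Pool.Agent.Lib.MP_8519b0_al.RIG
import Pool.Agent.Lib.MP_8519b0_al.NCT
import Pool.Agent.Lib.MP_8519b0_al.NCU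
import Pool.Agent.Lib.MP_8519b0_al.PRZ
import Pool.Agent.Lib.MP_8519b0_al.PAR
import Pool.Agent.Lib.MP_8519b0_al.TRC
import Pool.Agent.Lib.MP_8519b0_al.NZM
import Pool.Agent.Lib.MP_8519b0_al.CVK
import Pool.Agent.Lib.MP_8519b0_al.CVR
import Pool.Agent.Lib.MP_8519b0_al.CLS
import Pool.Agent.Lib.MP_8519b0_al.TRA
import Pool.Agent.Lib.MP_8519b0_al.RNK
import Pool.Agent.Lib.MP_8519b0_al.NTR
import Pool.Agent.Lib.MP_8519b0_al.SEC
import Pool.Agent.Lib.MP_8519b0_al.FIA

/-!
# MP_8519b0_al: Theorem B, assembled from the modules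
-/

set_option autoImplicit false

namespace Pool.Agent.Lib.MP8519b0

/-- Conjugates of the groups `E(M)`. -/
theorem theoremCNJ : SpecCNJ := specCNJ specGEN

/-- Superrigidity for homomorphisms from finite index subgroups of `SL_3(Z)` to `SL_3(Z)`. -/
theorem theoremRIG : SpecRIG :=
  specRIG specQUN specEXL specLOG specLIE theoremCNJ specFIX

/-- Products of good matrices. -/
theorem theoremNTR : SpecNTR := specNTR (specPAR specPRZ) (specRNK specTRA specNZM)

/-- THEOREM B. -/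
theorem theoremB : SpecFNB :=
  specFNB specLET specACT (specCVR (specPAR specPRZ) specTRC specNZM specCVK)
    (specCLS theoremRIG (specNCT theoremCNJ) specNCU) theoremNTR (specSEC specLET) specFIA

end Pool.Agent.Lib.MP8519b0
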