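import Pool.Agent.Lib.MP_8519b0_al.Spec2

/-!
# MP_8519b0_al: transvections with growing sections (module GRW)
-/

set_option autoImplicit false

namespace Pool.Agent.Lib.MP8519b0

namespace GRWM

theorem det_one_add (x y : Fin 3 → ℤ) (h : x ⬝ᵥ y = 0) (c : ℤ) :
    (1 + c • Matrix.vecMulVec x y : MZ).det = 1 := by
  have h' : x 0 * y 0 + x 1 * y 1 + x 2 * y 2 = 0 := by
    simpa [dotProduct, Fin.sum_univ_three] using h
  rw [Matrix.det_fin_three]
  simp only [Matrix.add_apply, Matrix.smul_apply, Matrix.vecMulVec_apply, smul_eq_mul,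
    Matrix.one_apply, Fin.isValue]
  simp only [Fin.isValue, Fin.reduceEq, if_true, if_false]
  linear_combination c * h'

/-- the transvection `1 + c x yᵀ` -/
def tv (x y : Fin 3 → ℤ) (h : x ⬝ᵥ y = 0) (c : ℤ) : G :=
  ⟨1 + c • Matrix.vecMulVec x y, det_one_add x y h c⟩

theorem coe_tv (x y : Fin 3 → ℤ) (h : x ⬝ᵥ y = 0) (c : ℤ) :
    (tv x y h c : MZ) = 1 + c • Matrix.vecMulVec x y := rfl

theorem tv_inv (x y : Fin 3 → ℤ) (h : x ⬝ᵥ y = 0) (c : ℤ) :
    (tv x y h c)⁻¹ = tv x y h (-c) := by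
  rw [inv_eq_iff_mul_eq_one]
  apply Matrix.SpecialLinearGroup.ext_iff _ _ |>.2
  intro i j
  have : (tv x y h c * tv x y h (-c) : G).1 = (1 : MZ) := by
    rw [Matrix.SpecialLinearGroup.coe_mul, coe_tv, coe_tv]
    have h2 : Matrix.vecMulVec x y * Matrix.vecMulVec x y = (0 : MZ) := by
      rw [Matrix.mul_vecMulVec, Matrix.vecMulVec_mulVec]
      rw [dotProduct_comm, h]
      simp
    have h3 : c • Matrix.vecMulVec x y * -c • Matrix.vecMulVec x y = (0 : MZ) := by
      rw [Matrix.smul_mul, Matrix.mul_smul, h2, smul_zero, smul_zero]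
    rw [add_mul, mul_add, mul_add, h3, one_mul, one_mul, mul_one, add_zero, add_assoc,
      ← add_smul, neg_add_cancel, zero_smul, add_zero]
  exact congrFun (congrFun this i) j

theorem cancel_right {A C : MZ} {γ : ℤ} (hγ : γ ≠ 0) (hAC : A * C = γ • (1 : MZ)) {F F' : MZ}
    (h : F * A = F' * A) : F = F' := by
  have h1 : F * A * C = F' * A * C := by rw [h]
  rw [Matrix.mul_assoc, Matrix.mul_assoc, hAC, Matrix.mul_smul, Matrix.mul_smul, Matrix.mul_one,
    Matrix.mul_one] at h1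
  exact smul_right_injective MZ hγ h1

theorem conj_step (x y z w : Fin 3 → ℤ) (h : x ⬝ᵥ y = 0) (k : G)
    (h1 : (k : MZ).mulVec z = x) (h2 : (k : MZ).transpose.mulVec y = w) (d : ℤ) (f : G)
    (hf : (f : MZ) = 1 + d • Matrix.vecMulVec z w) : f = k⁻¹ * tv x y h d * k := by
  have key : k * f = tv x y h d * k := by
    apply Subtype.ext
    change (k : MZ) * (f : MZ) = (tv x y h d : MZ) * (k : MZ)
    rw [hf, coe_tv, mul_add, add_mul, mul_one, one_mul, Matrix.mul_smul, Matrix.smul_mul,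
      Matrix.mul_vecMulVec, h1, Matrix.vecMulVec_mul, ← h2, Matrix.mulVec_transpose]
  rw [mul_assoc, ← key, inv_mul_cancel_left]

end GRWM

open GRWM in
theorem specGRW (hPAQ : SpecPAQ) (hPVC : SpecPVC) (hTRP : SpecTRP) : SpecGRW := by
  intro H φ A hA hconj
  obtain ⟨a, γ, A', C', ha, hγ, hAa, hCA, hAC, pA, pC⟩ := hPAQ A hA
  have hγ0 : γ ≠ 0 := by
    intro h; rw [h] at hγ; norm_num at hγ
  obtain ⟨z, w, hzw, pz, pw, pCz, pAw⟩ := hPVC A' C' γ hγ0 hCA hAC pA pC
  have hACz : A'.mulVec (C'.mulVec z) = γ • z := by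
    rw [Matrix.mulVec_mulVec, hAC, Matrix.smul_mulVec, Matrix.one_mulVec]
  have hzA : Matrix.vecMulVec z (A'.transpose.mulVec w) = Matrix.vecMulVec z w * A' := by
    rw [Matrix.vecMulVec_mul, Matrix.mulVec_transpose]
  have horth : (C'.mulVec z) ⬝ᵥ (A'.transpose.mulVec w) = 0 := by
    rw [Matrix.mulVec_transpose, dotProduct_comm, ← Matrix.dotProduct_mulVec, hACz,
      dotProduct_smul, dotProduct_comm, hzw, smul_zero]
  have horth' : (A'.transpose.mulVec w) ⬝ᵥ (C'.mulVec z) = 0 := by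
    rw [dotProduct_comm]; exact horth
  rcases hconj with hc1 | hc2
  · have hc1' : ∀ h : H, (φ h : MZ) * A' = A' * ((h : G) : MZ) := by
      intro h
      have := hc1 h
      rw [hAa, Matrix.mul_smul, Matrix.smul_mul] at this
      exact smul_right_injective MZ ha this
    obtain ⟨k, hk1, hk2⟩ := hTRP _ _ z w pCz pAw pz pw horth hzw
    refine ⟨tv _ _ horth, C'.mulVec z, A'.transpose.mulVec w, γ, k, hγ, pCz, pAw, horth,
      fun c => coe_tv _ _ horth c, ?_⟩
    intro c hc
    apply conj_step _ _ z w horth k hk1 hk2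
    apply cancel_right hγ0 hAC
    rw [hc1', coe_tv, mul_add, add_mul, mul_one, one_mul, Matrix.mul_smul, Matrix.mul_vecMulVec,
      hACz, Matrix.smul_mul, ← hzA, Matrix.smul_vecMulVec, smul_smul, mul_comm c γ]
  · have hc2' : ∀ h : H, (φ h : MZ) * A' = A' * (((h : G)⁻¹ : G) : MZ).transpose := by
      intro h
      have := hc2 h
      rw [hAa, Matrix.mul_smul, Matrix.smul_mul] at this
      exact smul_right_injective MZ ha this
    obtain ⟨k, hk1, hk2⟩ := hTRP _ _ z w pAw pCz pz pw horth' hzw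
    refine ⟨tv _ _ horth', A'.transpose.mulVec w, C'.mulVec z, -γ, k, by rwa [abs_neg], pAw, pCz,
      horth', fun c => coe_tv _ _ horth' c, ?_⟩
    intro c hc
    apply conj_step _ _ z w horth' k hk1 hk2
    apply cancel_right hγ0 hAC
    rw [hc2', tv_inv, coe_tv, Matrix.transpose_add, Matrix.transpose_one, Matrix.transpose_smul,
      Matrix.transpose_vecMulVec, mul_add, add_mul, mul_one, one_mul, Matrix.mul_smul,
      Matrix.mul_vecMulVec, hACz, Matrix.smul_mul, ← hzA, Matrix.smul_vecMulVec, smul_smul]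
    congr 2
    ring

end Pool.Agent.Lib.MP8519b0
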