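import Pool.Agent.Lib.MP_8519b0_al.Spec2

/-!
# Module PAQ: primitive parts of a good matrix and of its adjugate (adapted from PAR)
-/

set_option autoImplicit false

namespace Pool.Agent.Lib.MP8519b0

namespace PAQM

/-- cancellation of an integer factor -/
theorem cancel {n : ℤ} (hn : n ≠ 0) {X Y : MZ} (h : n • X = n • Y) : X = Y := by
  ext i j
  have h1 := congrFun (congrFun h i) j
  rw [Matrix.smul_apply, Matrix.smul_apply, smul_eq_mul, smul_eq_mul] at h1
  exact mul_left_cancel₀ hn h1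

end PAQM

open PAQM in
/-- PAQ: primitive parts of a good matrix and of its adjugate. -/
theorem specPAQ (hPRZ : SpecPRZ) : SpecPAQ := by
  rintro A ⟨hdet, hnot⟩
  have hA0 : A ≠ 0 := by
    rintro rfl
    exact hdet Matrix.det_zero
  have hadj0 : A.adjugate ≠ 0 := by
    intro h
    have h1 := Matrix.adjugate_mul A
    rw [h, Matrix.zero_mul] at h1
    have h2 := congrFun (congrFun h1 0) 0
    rw [Matrix.smul_apply, Matrix.one_apply_eq, smul_eq_mul, mul_one, Matrix.zero_apply] at h2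
    exact hdet h2.symm
  obtain ⟨a, A', ha, hA, hA'⟩ := hPRZ A hA0
  obtain ⟨c, C', hc, hC, hC'⟩ := hPRZ A.adjugate hadj0
  have hca : c * a ≠ 0 := mul_ne_zero hc ha
  have e1 : (c * a) • (C' * A') = A.det • (1 : MZ) := by
    rw [← Matrix.adjugate_mul A]
    conv_rhs => rw [hC]
    conv_rhs => rw [hA]
    rw [Matrix.smul_mul, Matrix.mul_smul, smul_smul]
  have e2 : (c * a) • (A' * C') = A.det • (1 : MZ) := by
    have h := Matrix.mul_adjugate A
    rw [← h]
    conv_rhs => rw [hC]
    conv_rhs => rw [hA]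
    rw [Matrix.smul_mul, Matrix.mul_smul, smul_smul, mul_comm a c]
  obtain ⟨γ, hγ⟩ : ∃ γ, γ = (C' * A') 0 0 := ⟨_, rfl⟩
  have e3 : c * a * γ = A.det := by
    have h := congrFun (congrFun e1 0) 0
    rw [Matrix.smul_apply, Matrix.smul_apply, Matrix.one_apply_eq, smul_eq_mul, smul_eq_mul,
      mul_one, ← hγ] at h
    exact h
  have hγ0 : γ ≠ 0 := by
    intro h
    rw [h, mul_zero] at e3
    exact hdet e3.symm
  have f1 : C' * A' = γ • (1 : MZ) := by
    apply cancel hca
    rw [e1, smul_smul, e3]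
  have f2 : A' * C' = γ • (1 : MZ) := by
    apply cancel hca
    rw [e2, smul_smul, e3]
  have hγ1 : γ.natAbs ≠ 1 := by
    intro h
    have h1 : IsUnit γ := Int.isUnit_iff_natAbs_eq.2 h
    have h2 : C'.det * A'.det = γ ^ 3 := by
      rw [← Matrix.det_mul, f1, Matrix.det_smul, Matrix.det_one, mul_one, Fintype.card_fin]
    have h3 : IsUnit (C'.det * A'.det) := by
      rw [h2]
      exact h1.pow 3
    exact hnot ⟨a, A', isUnit_of_mul_isUnit_right h3, hA⟩
  have hγ2 : 2 ≤ |γ| := by
    rw [Int.abs_eq_natAbs]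
    have h0 : γ.natAbs ≠ 0 := by
      intro h
      exact hγ0 (Int.natAbs_eq_zero.mp h)
    omega
  exact ⟨a, γ, A', C', ha, hγ2, hA, f1, f2, hA', hC'⟩

end Pool.Agent.Lib.MP8519b0
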