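import Pool.Agent.Lib.MP_8519b0_al.Spec2

/-!
# MP_8519b0_al, module PVC: a choice of two orthogonal vectors
-/

set_option autoImplicit false

namespace Pool.Agent.Lib.MP8519b0

namespace PVCM

/-- all entries are divisible by `p` -/
def Z0 (p : ℕ) (v : Fin 3 → ℤ) : Prop := ∀ i, (p : ℤ) ∣ v i

theorem dvd_prod_iff (S : Finset ℕ) (hS : ∀ q ∈ S, q.Prime) {p : ℕ} (hp : p.Prime) :
    (p : ℤ) ∣ ∏ q ∈ S, (q : ℤ) ↔ p ∈ S := by
  have hp' : Prime (p : ℤ) := Nat.prime_iff_prime_int.1 hp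
  rw [Prime.dvd_finsetProd_iff hp']
  constructor
  · rintro ⟨q, hq, hd⟩
    have h1 : p ∣ q := by exact_mod_cast hd
    have h2 := (Nat.prime_dvd_prime_iff_eq hp (hS q hq)).1 h1
    rw [h2]
    exact hq
  · intro h
    exact ⟨p, h, dvd_rfl⟩

open Classical in
theorem combine (P : Finset ℕ) (hP : ∀ p ∈ P, p.Prime) (v w : Fin 3 → ℤ) :
    ∃ t : ℤ, ∀ p ∈ P, ¬ (Z0 p v ∧ Z0 p w) → ¬ Z0 p (fun i => v i + t * w i) := by
  have hS : ∀ q ∈ P.filter (fun p => ¬ Z0 p v), q.Prime := fun q hq =>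
    hP q (Finset.mem_filter.1 hq).1
  refine ⟨∏ q ∈ P.filter (fun p => ¬ Z0 p v), (q : ℤ), fun p hp h1 h2 => ?_⟩
  have h3 := dvd_prod_iff _ hS (hP p hp)
  by_cases hv : Z0 p v
  · have hw : ¬ Z0 p w := fun hw => h1 ⟨hv, hw⟩
    apply hw
    intro i
    have h4 : (p : ℤ) ∣ (∏ q ∈ P.filter (fun p => ¬ Z0 p v), (q : ℤ)) * w i :=
      (dvd_add_right (hv i)).1 (h2 i)
    rcases (Nat.prime_iff_prime_int.1 (hP p hp)).dvd_or_dvd h4 with h5 | h5
    · have h6 := (Finset.mem_filter.1 (h3.1 h5)).2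
      exact absurd hv h6
    · exact h5
  · have h5 := h3.2 (Finset.mem_filter.2 ⟨hp, hv⟩)
    apply hv
    intro i
    exact (dvd_add_left (h5.mul_right (w i))).1 (h2 i)

theorem mulVec3 (A : MZ) (v : Fin 3 → ℤ) (i : Fin 3) :
    A.mulVec v i = A i 0 * v 0 + A i 1 * v 1 + A i 2 * v 2 := by
  simp [Matrix.mulVec, dotProduct, Fin.sum_univ_three]

end PVCM

open PVCM

theorem specPVC : SpecPVC := by
  intro A C γ hγ hCA hAC hA hC
  have hPp : ∀ p ∈ γ.natAbs.primeFactors, p.Prime := fun p hp => Nat.prime_of_mem_primeFactors hp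
  have hPd : ∀ p ∈ γ.natAbs.primeFactors, (p : ℤ) ∣ γ := fun p hp =>
    Int.natCast_dvd.2 (Nat.dvd_of_mem_primeFactors hp)
  have hPm : ∀ p : ℕ, p.Prime → p ∉ γ.natAbs.primeFactors → ¬ (p : ℤ) ∣ γ := by
    intro p hp h1 h2
    exact h1 (Nat.mem_primeFactors.2 ⟨hp, Int.natCast_dvd.1 h2, by
      rw [Ne, Int.natAbs_eq_zero]; exact hγ⟩)
  obtain ⟨t, ht⟩ := combine _ hPp (fun i => C i 0) (fun i => C i 1)
  obtain ⟨s, hs⟩ := combine _ hPp (fun i => C i 0 + t * C i 1) (fun i => C i 2)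
  obtain ⟨t', ht'⟩ := combine _ hPp (fun j => - t * A 0 j + A 1 j) (fun j => - s * A 0 j + A 2 j)
  have hCA' : ∀ i j, C i 0 * A 0 j + C i 1 * A 1 j + C i 2 * A 2 j = γ * (1 : MZ) i j := by
    intro i j
    have h1 := congrFun (congrFun hCA i) j
    rw [Matrix.mul_apply, Fin.sum_univ_three, Matrix.smul_apply, smul_eq_mul] at h1
    exact h1
  have hAC' : ∀ i j, A i 0 * C 0 j + A i 1 * C 1 j + A i 2 * C 2 j = γ * (1 : MZ) i j := by
    intro i j
    have h1 := congrFun (congrFun hAC i) j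
    rw [Matrix.mul_apply, Fin.sum_univ_three, Matrix.smul_apply, smul_eq_mul] at h1
    exact h1
  -- `C z` is not zero modulo the primes dividing `γ`
  have hCz : ∀ p ∈ γ.natAbs.primeFactors,
      ¬ Z0 p (fun i => C i 0 + t * C i 1 + s * C i 2) := by
    intro p hp
    apply hs p hp
    rintro ⟨h1, h2⟩
    have h3 : Z0 p (fun i => C i 0) ∧ Z0 p (fun i => C i 1) := by
      by_contra h4
      exact ht p hp h4 h1
    obtain ⟨i, j, hij⟩ := hC p (hPp p hp)
    apply hij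
    fin_cases j
    · exact h3.1 i
    · exact h3.2 i
    · exact h2 i
  have hAw : ∀ p ∈ γ.natAbs.primeFactors,
      ¬ Z0 p (fun j => (- t * A 0 j + A 1 j) + t' * (- s * A 0 j + A 2 j)) := by
    intro p hp
    apply ht' p hp
    rintro ⟨h1, h2⟩
    have hpp : Prime (p : ℤ) := Nat.prime_iff_prime_int.1 (hPp p hp)
    have h3 : ∃ i, ¬ (p : ℤ) ∣ C i 0 + t * C i 1 + s * C i 2 := by
      by_contra hcon
      push Not at hcon
      exact hCz p hp hcon
    obtain ⟨i, hi⟩ := h3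
    have h4 : ∀ j, (p : ℤ) ∣ A 0 j := by
      intro j
      have h5 : (C i 0 + t * C i 1 + s * C i 2) * A 0 j =
          γ * (1 : MZ) i j - C i 1 * (- t * A 0 j + A 1 j) - C i 2 * (- s * A 0 j + A 2 j) := by
        rw [← hCA' i j]
        ring
      have h6 : (p : ℤ) ∣ (C i 0 + t * C i 1 + s * C i 2) * A 0 j := by
        rw [h5]
        exact dvd_sub (dvd_sub ((hPd p hp).mul_right _) ((h1 j).mul_left _)) ((h2 j).mul_left _)
      exact (hpp.dvd_or_dvd h6).resolve_left hi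
    obtain ⟨i', j, hij⟩ := hA p (hPp p hp)
    apply hij
    fin_cases i'
    · exact h4 j
    · exact (dvd_add_right ((h4 j).mul_left _)).1 (h1 j)
    · exact (dvd_add_right ((h4 j).mul_left _)).1 (h2 j)
  refine ⟨![1, t, s], ![-t - t' * s, 1, t'], ?_, ?_, ?_, ?_, ?_⟩
  · simp [dotProduct, Fin.sum_univ_three]
    ring
  · intro p hp
    refine ⟨0, fun h => ?_⟩
    have h1 : (p : ℤ) ∣ 1 := by simpa using h
    exact (Nat.prime_iff_prime_int.1 hp).not_dvd_one h1
  · intro p hp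
    refine ⟨1, fun h => ?_⟩
    have h1 : (p : ℤ) ∣ 1 := by simpa using h
    exact (Nat.prime_iff_prime_int.1 hp).not_dvd_one h1
  · intro p hp
    by_contra hcon
    push Not at hcon
    have h1 : ∀ i, (p : ℤ) ∣ C i 0 + t * C i 1 + s * C i 2 := by
      intro i
      have h2 := hcon i
      rw [mulVec3] at h2
      have h3 : C i 0 * (![1, t, s] : Fin 3 → ℤ) 0 + C i 1 * (![1, t, s] : Fin 3 → ℤ) 1 +
          C i 2 * (![1, t, s] : Fin 3 → ℤ) 2 = C i 0 + t * C i 1 + s * C i 2 := by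
        simp
        ring
      rwa [h3] at h2
    by_cases hpP : p ∈ γ.natAbs.primeFactors
    · exact hCz p hpP h1
    · apply hPm p hp hpP
      have h2 : γ = A 0 0 * (C 0 0 + t * C 0 1 + s * C 0 2) +
          A 0 1 * (C 1 0 + t * C 1 1 + s * C 1 2) + A 0 2 * (C 2 0 + t * C 2 1 + s * C 2 2) := by
        have a0 := hAC' 0 0
        have a1 := hAC' 0 1
        have a2 := hAC' 0 2
        simp at a0 a1 a2
        linear_combination (-1 : ℤ) * a0 - t * a1 - s * a2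
      rw [h2]
      exact dvd_add (dvd_add ((h1 0).mul_left _) ((h1 1).mul_left _)) ((h1 2).mul_left _)
  · intro p hp
    by_contra hcon
    push Not at hcon
    have h1 : ∀ j, (p : ℤ) ∣ (- t * A 0 j + A 1 j) + t' * (- s * A 0 j + A 2 j) := by
      intro j
      have h2 := hcon j
      rw [mulVec3] at h2
      have h3 : A.transpose j 0 * (![-t - t' * s, 1, t'] : Fin 3 → ℤ) 0 +
          A.transpose j 1 * (![-t - t' * s, 1, t'] : Fin 3 → ℤ) 1 +
          A.transpose j 2 * (![-t - t' * s, 1, t'] : Fin 3 → ℤ) 2 =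
          (- t * A 0 j + A 1 j) + t' * (- s * A 0 j + A 2 j) := by
        simp
        ring
      rwa [h3] at h2
    by_cases hpP : p ∈ γ.natAbs.primeFactors
    · exact hAw p hpP h1
    · apply hPm p hp hpP
      have h2 : γ = C 0 1 * ((- t * A 0 0 + A 1 0) + t' * (- s * A 0 0 + A 2 0)) +
          C 1 1 * ((- t * A 0 1 + A 1 1) + t' * (- s * A 0 1 + A 2 1)) +
          C 2 1 * ((- t * A 0 2 + A 1 2) + t' * (- s * A 0 2 + A 2 2)) := by
        have a0 := hAC' 0 1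
        have a1 := hAC' 1 1
        have a2 := hAC' 2 1
        simp at a0 a1 a2
        linear_combination (t + t' * s) * a0 - a1 - t' * a2
      rw [h2]
      exact dvd_add (dvd_add ((h1 0).mul_left _) ((h1 1).mul_left _)) ((h1 2).mul_left _)

end Pool.Agent.Lib.MP8519b0
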