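import Pool.Agent.Lib.MP_8519b0_al.RAY

/-! MP_8519b0_al, module RAY2: the form of RAY for all powers (after RAY by helper61). -/

set_option autoImplicit false

namespace Pool.Agent.Lib.MP8519b0

/-- RAY for all powers. -/
def SpecRAY2 : Prop :=
  ∀ (m : ℕ) (ρ : G →* Equiv.Perm (List (Fin m))), SelfSimilar ρ →
    ∀ (x : Fin m) (H : Subgroup G) (φ : H →* G) (A : MZ), H.FiniteIndex →
    (∀ h : H, Section ρ x (h : G) (φ h)) → Good A → IsConj3 H φ A →
    ∃ (g : G) (w : ℕ → List (Fin m)) (s : ℕ → G), (∀ n, (w n).length = n ∧ w n <+: w (n + 1)) ∧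
      (∀ (n : ℕ) (u : List (Fin m)), ρ g (w n ++ u) = w n ++ ρ (s n) u) ∧
      ∀ c : ℕ, 1 ≤ c → ∀ n n' : ℕ, n ≠ n' → ¬ IsConj (s n ^ c) (s n' ^ c)

/-- **RAY2**. -/
theorem specRAY2 (hGRW : SpecGRW) : SpecRAY2 := by
  intro m ρ hss x H φ A hfin hsec hA hconj
  obtain ⟨gg, xv, yv, r, k, hr, hxp, hyp, hxy, hg, hφ⟩ := hGRW H φ A hA hconj
  -- a one parameter group
  have hadd : ∀ c d : ℤ, gg (c + d) = gg c * gg d := by
    intro c d
    apply Subtype.ext
    change (gg (c + d) : MZ) = ((gg c * gg d : G) : MZ)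
    rw [Matrix.SpecialLinearGroup.coe_mul, hg, hg, hg]
    have h0 : Matrix.vecMulVec xv yv * Matrix.vecMulVec xv yv = 0 := by
      rw [Matrix.vecMulVec_mul_vecMulVec]
      have : yv ⬝ᵥ xv = 0 := by rw [dotProduct_comm]; exact hxy
      rw [this]
      simp
    rw [mul_add, mul_one, add_mul, one_mul, smul_mul_assoc, mul_smul_comm, h0, smul_zero,
      smul_zero, add_zero, add_smul, add_assoc]
  have hzero : gg 0 = 1 := by
    have h := hadd 0 0
    rw [add_zero] at h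
    exact (mul_eq_left.1 h.symm)
  have hpow : ∀ n : ℕ, gg n = gg 1 ^ n := by
    intro n
    induction n with
    | zero => rw [Nat.cast_zero, pow_zero, hzero]
    | succ n ih => rw [Nat.cast_succ, hadd, ih, pow_succ]
  obtain ⟨M, hM0, -, hMH⟩ := Subgroup.exists_pow_mem_of_index_ne_zero hfin.index_ne_zero (gg 1)
  rw [← hpow] at hMH
  have hneg : gg (-(M : ℤ)) ∈ H := by
    have h := hadd (M : ℤ) (-(M : ℤ))
    rw [add_neg_cancel, hzero] at h
    rw [← inv_eq_of_mul_eq_one_right h.symm]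
    exact H.inv_mem hMH
  have hmem : ∀ c : ℤ, gg ((M : ℤ) * c) ∈ H := by
    intro c
    induction c using Int.induction_on with
    | zero => rw [mul_zero, hzero]; exact H.one_mem
    | succ i ih => rw [mul_add, mul_one, hadd]; exact H.mul_mem ih hMH
    | pred i ih =>
      rw [mul_sub, mul_one, sub_eq_add_neg, hadd]
      exact H.mul_mem ih hneg
  -- the words
  let P : ℕ → List (Fin m) × G → Prop := fun n p => p.1.length = n ∧
    ∀ (c : ℤ) (u : List (Fin m)), ρ (gg ((M : ℤ) * c)) (p.1 ++ u) =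
      p.1 ++ ρ (p.2 * gg (r ^ n * ((M : ℤ) * c)) * p.2⁻¹) u
  have base : P 0 ([], 1) := by
    refine ⟨rfl, fun c u => ?_⟩
    change ρ (gg ((M : ℤ) * c)) u = ρ (1 * gg (r ^ 0 * ((M : ℤ) * c)) * 1⁻¹) u
    rw [pow_zero, one_mul, one_mul, inv_one, mul_one]
  have step : ∀ (n : ℕ) (p : {p : List (Fin m) × G // P n p}),
      ∃ p' : {p : List (Fin m) × G // P (n + 1) p}, p.1.1 <+: p'.1.1 := by
    rintro n ⟨⟨w, q⟩, hlen, hw⟩
    obtain ⟨s, y, hs⟩ := hss q x
    refine ⟨⟨(w ++ [y], s * k⁻¹), ?_, ?_⟩, List.prefix_append w [y]⟩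
    · change (w ++ [y]).length = n + 1
      rw [List.length_append, List.length_singleton]
      exact congrArg (· + 1) hlen
    · intro c u
      change ρ (gg ((M : ℤ) * c)) ((w ++ [y]) ++ u) =
        (w ++ [y]) ++ ρ (s * k⁻¹ * gg (r ^ (n + 1) * ((M : ℤ) * c)) * (s * k⁻¹)⁻¹) u
      rw [List.append_assoc, List.append_assoc, List.singleton_append, List.singleton_append]
      have h1 := hw c (y :: u)
      change ρ (gg ((M : ℤ) * c)) (w ++ y :: u) =
        w ++ ρ (q * gg (r ^ n * ((M : ℤ) * c)) * q⁻¹) (y :: u) at h1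
      rw [h1]
      congr 1
      set g' := gg (r ^ n * ((M : ℤ) * c)) with hg'
      have hg'H : g' ∈ H := by
        have h2 : r ^ n * ((M : ℤ) * c) = (M : ℤ) * (r ^ n * c) := by ring
        rw [hg', h2]
        exact hmem _
      have h3 : φ ⟨g', hg'H⟩ = k⁻¹ * gg (r ^ (n + 1) * ((M : ℤ) * c)) * k := by
        have h4 := hφ (r ^ n * ((M : ℤ) * c)) hg'H
        have h5 : r * (r ^ n * ((M : ℤ) * c)) = r ^ (n + 1) * ((M : ℤ) * c) := by ring
        rw [h5] at h4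
        exact h4
      have h6 : ρ q⁻¹ (y :: u) = x :: ρ s⁻¹ u := by
        have h7 : ρ q (x :: ρ s⁻¹ u) = y :: u := by
          rw [hs, ← Equiv.Perm.mul_apply, ← map_mul, mul_inv_cancel, map_one,
            Equiv.Perm.one_apply]
        rw [← h7, ← Equiv.Perm.mul_apply, ← map_mul, inv_mul_cancel, map_one,
          Equiv.Perm.one_apply]
      have h8 : ρ g' (x :: ρ s⁻¹ u) = x :: ρ (φ ⟨g', hg'H⟩) (ρ s⁻¹ u) := hsec ⟨g', hg'H⟩ _
      rw [map_mul, map_mul, Equiv.Perm.mul_apply, Equiv.Perm.mul_apply, h6, h8, hs, h3]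
      congr 1
      rw [← Equiv.Perm.mul_apply, ← Equiv.Perm.mul_apply, ← map_mul, ← map_mul]
      congr 2
      group
  choose nx hnx using step
  let seq : ∀ n, {p : List (Fin m) × G // P n p} := fun n =>
    Nat.rec (motive := fun n => {p : List (Fin m) × G // P n p}) ⟨([], 1), base⟩
      (fun n p => nx n p) n
  have hM : (M : ℤ) ≠ 0 := by exact_mod_cast hM0.ne'
  have hr0 : r ≠ 0 := by
    rintro rfl
    simp at hr
  refine ⟨gg ((M : ℤ) * 1), fun n => (seq n).1.1,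
    fun n => (seq n).1.2 * gg (r ^ n * ((M : ℤ) * 1)) * ((seq n).1.2)⁻¹,
    fun n => ⟨(seq n).2.1, hnx n (seq n)⟩, fun n u => (seq n).2.2 1 u, ?_⟩
  have hpow2 : ∀ (a : ℤ) (c : ℕ), gg a ^ c = gg (a * c) := by
    intro a c
    induction c with
    | zero => rw [pow_zero, Nat.cast_zero, mul_zero, hzero]
    | succ c ih => rw [pow_succ, ih, ← hadd, Nat.cast_succ, mul_add, mul_one]
  have hcp : ∀ (q : G) (a : ℤ) (c : ℕ), (q * gg a * q⁻¹) ^ c = q * gg (a * c) * q⁻¹ := by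
    intro q a c
    rw [← hpow2, conj_pow]
  intro c hc
  have hc0 : (c : ℤ) ≠ 0 := by exact_mod_cast (by omega : c ≠ 0)
  have key : ∀ n n' : ℕ, n < n' →
      ¬ IsConj (((seq n).1.2 * gg (r ^ n * ((M : ℤ) * 1)) * ((seq n).1.2)⁻¹) ^ c)
        (((seq n').1.2 * gg (r ^ n' * ((M : ℤ) * 1)) * ((seq n').1.2)⁻¹) ^ c) := by
    intro n n' hnn h
    rw [hcp, hcp] at h
    have h1 : IsConj (gg (r ^ n * ((M : ℤ) * 1) * c))
        ((seq n).1.2 * gg (r ^ n * ((M : ℤ) * 1) * c) * ((seq n).1.2)⁻¹) :=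
      isConj_iff.2 ⟨_, rfl⟩
    have h2 : IsConj (gg (r ^ n' * ((M : ℤ) * 1) * c))
        ((seq n').1.2 * gg (r ^ n' * ((M : ℤ) * 1) * c) * ((seq n').1.2)⁻¹) :=
      isConj_iff.2 ⟨_, rfl⟩
    have h3 := (h1.trans h).trans h2.symm
    have h4 : r ^ n' * ((M : ℤ) * 1) * c = r ^ n * ((M : ℤ) * 1) * c * r ^ (n' - n) := by
      have h5 : n' = n + (n' - n) := by omega
      conv_lhs => rw [h5, pow_add]
      ring
    rw [h4] at h3
    exact RAYM.not_conj gg xv yv r hr hxp hyp hg _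
      (mul_ne_zero (mul_ne_zero (pow_ne_zero _ hr0) (by simpa using hM)) hc0)
      (n' - n) (by omega) h3
  intro n n' hnn h
  rcases lt_or_gt_of_ne hnn with h1 | h1
  · exact key n n' h1 h
  · exact key n' n h1 h.symm

end Pool.Agent.Lib.MP8519b0
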