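import Pool.Agent.Lib.MP_8519b0_al.Spec2

/-!
MP_8519b0_al, module TRP: `SL_3(Z)` is transitive on pairs of orthogonal primitive vectors.
-/

set_option autoImplicit false

namespace Pool.Agent.Lib.MP8519b0

namespace TRPM

lemma bez (x : Fin 3 → ℤ) (h : PrimV x) :
    ∃ u : Fin 3 → ℤ, u 0 * x 0 + u 1 * x 1 + u 2 * x 2 = 1 := by
  have hg : Int.gcd (x 0) ((Int.gcd (x 1) (x 2) : ℕ) : ℤ) = 1 := by
    by_contra hne
    obtain ⟨p, hp, hpd⟩ := Nat.exists_prime_and_dvd hne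
    obtain ⟨i, hi⟩ := h p hp
    have h0 : (p : ℤ) ∣ x 0 := (Int.natCast_dvd_natCast.mpr hpd).trans (Int.gcd_dvd_left ..)
    have h12 : (p : ℤ) ∣ ((Int.gcd (x 1) (x 2) : ℕ) : ℤ) :=
      (Int.natCast_dvd_natCast.mpr hpd).trans (Int.gcd_dvd_right ..)
    have h1 : (p : ℤ) ∣ x 1 := h12.trans (Int.gcd_dvd_left ..)
    have h2 : (p : ℤ) ∣ x 2 := h12.trans (Int.gcd_dvd_right ..)
    fin_cases i
    · exact hi h0
    · exact hi h1
    · exact hi h2
  have e1 := Int.gcd_eq_gcd_ab (x 0) ((Int.gcd (x 1) (x 2) : ℕ) : ℤ)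
  have e2 := Int.gcd_eq_gcd_ab (x 1) (x 2)
  rw [hg] at e1
  set a := Int.gcdA (x 0) ((Int.gcd (x 1) (x 2) : ℕ) : ℤ)
  set b := Int.gcdB (x 0) ((Int.gcd (x 1) (x 2) : ℕ) : ℤ)
  set a' := Int.gcdA (x 1) (x 2)
  set b' := Int.gcdB (x 1) (x 2)
  refine ⟨![a, a' * b, b' * b], ?_⟩
  simp only [Matrix.cons_val_zero, Matrix.cons_val_one, Matrix.cons_val]
  rw [e2] at e1
  push_cast at e1
  linarith

/-- The matrix with the columns `x`, `p`, `u × y`. -/
def mat (x y u p : Fin 3 → ℤ) : Matrix (Fin 3) (Fin 3) ℤ :=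
  !![x 0, p 0, u 1 * y 2 - u 2 * y 1; x 1, p 1, u 2 * y 0 - u 0 * y 2;
    x 2, p 2, u 0 * y 1 - u 1 * y 0]

lemma det_mat (x y u p : Fin 3 → ℤ) (hu : u 0 * x 0 + u 1 * x 1 + u 2 * x 2 = 1)
    (hp : p 0 * y 0 + p 1 * y 1 + p 2 * y 2 = 1)
    (hxy : x 0 * y 0 + x 1 * y 1 + x 2 * y 2 = 0) : (mat x y u p).det = 1 := by
  rw [Matrix.det_fin_three]
  simp only [mat, Matrix.of_apply, Matrix.cons_val', Matrix.cons_val_zero, Matrix.cons_val_one,
    Matrix.cons_val, Matrix.cons_val_fin_one]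
  linear_combination (p 0 * y 0 + p 1 * y 1 + p 2 * y 2) * hu + hp -
    (p 0 * u 0 + p 1 * u 1 + p 2 * u 2) * hxy

lemma base (x y : Fin 3 → ℤ) (hx : PrimV x) (hy : PrimV y) (hxy : x ⬝ᵥ y = 0) :
    ∃ k : G, (k : MZ).mulVec ![1, 0, 0] = x ∧ (k : MZ).transpose.mulVec y = ![0, 1, 0] := by
  obtain ⟨u, hu⟩ := bez x hx
  obtain ⟨p, hp⟩ := bez y hy
  have hxy' : x 0 * y 0 + x 1 * y 1 + x 2 * y 2 = 0 := by
    rw [← hxy]
    simp [dotProduct, Fin.sum_univ_three]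
  refine ⟨⟨mat x y u p, det_mat x y u p hu hp hxy'⟩, ?_, ?_⟩
  · funext i
    fin_cases i <;>
      simp [mat, Matrix.mulVec, dotProduct, Fin.sum_univ_three]
  · funext i
    fin_cases i
    · simp only [mat, Matrix.mulVec, dotProduct, Fin.sum_univ_three, Matrix.transpose_apply]
      simp
      linarith
    · simp only [mat, Matrix.mulVec, dotProduct, Fin.sum_univ_three, Matrix.transpose_apply]
      simp
      linarith
    · simp only [mat, Matrix.mulVec, dotProduct, Fin.sum_univ_three, Matrix.transpose_apply]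
      simp
      ring

end TRPM

theorem specTRP : SpecTRP := by
  intro x y z w hx hy hz hw hxy hzw
  obtain ⟨k₁, h1, h2⟩ := TRPM.base x y hx hy hxy
  obtain ⟨k₂, h3, h4⟩ := TRPM.base z w hz hw hzw
  refine ⟨k₁ * k₂⁻¹, ?_, ?_⟩
  · have e : ((k₁ * k₂⁻¹ : G) : MZ) * (k₂ : MZ) = (k₁ : MZ) := by
      rw [← Matrix.SpecialLinearGroup.coe_mul, inv_mul_cancel_right]
    rw [← h3, Matrix.mulVec_mulVec, e, h1]
  · have e : ((k₁ * k₂⁻¹ : G) : MZ).transpose = ((k₂⁻¹ : G) : MZ).transpose * (k₁ : MZ).transpose := by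
      rw [Matrix.SpecialLinearGroup.coe_mul, Matrix.transpose_mul]
    have e' : ((k₂⁻¹ : G) : MZ).transpose * (k₂ : MZ).transpose = 1 := by
      rw [← Matrix.transpose_mul, ← Matrix.SpecialLinearGroup.coe_mul, mul_inv_cancel,
        Matrix.SpecialLinearGroup.coe_one, Matrix.transpose_one]
    rw [e, ← Matrix.mulVec_mulVec, h2, ← h4, Matrix.mulVec_mulVec, e', Matrix.one_mulVec]

end Pool.Agent.Lib.MP8519b0
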