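import Pool.Agent.Lib.MP_8519b0_al.FinalD
import Pool.Agent.Lib.MP_8519b0_al.RAY2
import Pool.Agent.Lib.MP_8519b0_al.GRW
import Pool.Agent.Lib.MP_8519b0_al.PAQ
import Pool.Agent.Lib.MP_8519b0_al.PVC
import Pool.Agent.Lib.MP_8519b0_al.TRP
import Pool.Agent.Lib.MP_8519b0_al.AUT

/-!
# MP_8519b0_al: Theorem C (not finite-state, not an automaton group), assembled from the modules
-/

set_option autoImplicit false

namespace Pool.Agent.Lib.MP8519b0

/-- THEOREM C, first part: an element all whose powers have pairwise not conjugate sections. -/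
theorem theoremC1 : ∀ (m : ℕ) (ρ : G →* Equiv.Perm (List (Fin m))), Function.Injective ρ →
    SelfSimilar ρ → ∃ (g : G) (w : ℕ → List (Fin m)) (s : ℕ → G),
      (∀ n, (w n).length = n ∧ w n <+: w (n + 1)) ∧
      (∀ (n : ℕ) (u : List (Fin m)), ρ g (w n ++ u) = w n ++ ρ (s n) u) ∧
      ∀ c : ℕ, 1 ≤ c → ∀ n n' : ℕ, n ≠ n' → ¬ IsConj (s n ^ c) (s n' ^ c) := by
  intro m ρ hinj hss
  obtain ⟨x, H, φ, A, hfin, hH, hsec, hA, hφ⟩ := theoremMIX m ρ hinj hss
  exact specRAY2 (specGRW (specPAQ specPRZ) specPVC specTRP) m ρ hss x H φ A hfin hsec hA hφ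

/-- THEOREM C, second part: no subgroup of finite index consists of finite-state elements. -/
theorem theoremC2 : ∀ (m : ℕ) (ρ : G →* Equiv.Perm (List (Fin m))), Function.Injective ρ →
    SelfSimilar ρ → ∀ K : Subgroup G, K.FiniteIndex → ∃ g ∈ K,
      {h : G | ∃ w v : List (Fin m), w.length = v.length ∧
        ∀ u : List (Fin m), ρ g (w ++ u) = v ++ ρ h u}.Infinite := by
  intro m ρ hinj hss K hK
  obtain ⟨g, w, s, hw, hsec, hconj⟩ := theoremC1 m ρ hinj hss
  obtain ⟨c, hc0, -, hcK⟩ := Subgroup.exists_pow_mem_of_index_ne_zero hK.index_ne_zero g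
  refine ⟨g ^ c, hcK, ?_⟩
  have hsinj : Function.Injective (fun n => s n ^ c) := by
    intro n n' hnn
    by_contra hne
    refine hconj c hc0 n n' hne ?_
    have hnn' : s n ^ c = s n' ^ c := hnn
    rw [hnn']
  have hpow : ∀ (c : ℕ) (n : ℕ) (u : List (Fin m)),
      ρ (g ^ c) (w n ++ u) = w n ++ ρ (s n ^ c) u := by
    intro c n
    induction c with
    | zero =>
      intro u
      rw [pow_zero, pow_zero, map_one, Equiv.Perm.one_apply, Equiv.Perm.one_apply]
    | succ c ih =>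
      intro u
      rw [pow_succ, pow_succ, map_mul, map_mul, Equiv.Perm.mul_apply, Equiv.Perm.mul_apply,
        hsec, ih]
  have hsub : Set.range (fun n => s n ^ c) ⊆ {h : G | ∃ w v : List (Fin m),
      w.length = v.length ∧ ∀ u : List (Fin m), ρ (g ^ c) (w ++ u) = v ++ ρ h u} := by
    rintro _ ⟨n, rfl⟩
    exact ⟨w n, w n, rfl, hpow c n⟩
  exact (Set.infinite_range_of_injective hsinj).mono hsub

/-- THEOREM C, third part: `SL_3(Z)` is not an automaton group. -/
theorem theoremC3 : ∀ (m : ℕ) (ρ : G →* Equiv.Perm (List (Fin m))), Function.Injective ρ →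
    ∀ S : Set G, S.Finite → Subgroup.closure S = ⊤ →
    ∃ s ∈ S, ∃ x : Fin m, ∀ s' ∈ S, ∀ y : Fin m, ∃ w : List (Fin m),
      ρ s (x :: w) ≠ y :: ρ s' w := by
  intro m ρ hinj S hS hgen
  by_contra hcon
  push Not at hcon
  have hclosed : ∀ s ∈ S, ∀ x : Fin m, ∃ s' ∈ S, ∃ y : Fin m, ∀ w : List (Fin m),
      ρ s (x :: w) = y :: ρ s' w := hcon
  obtain ⟨hss, hfinite⟩ := specAUT m ρ hinj S hS hgen hclosed
  obtain ⟨g, -, hg⟩ := theoremC2 m ρ hinj hss ⊤ inferInstance
  exact hg (hfinite g)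

end Pool.Agent.Lib.MP8519b0
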