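import Pool.Agent.Lib.MP_8519b0_al.Spec2

set_option autoImplicit false

namespace Pool.Agent.Lib.MP8519b0

namespace MIXM

lemma el_mul {i j : Fin 3} (h : i ≠ j) (a b : ℤ) : el i j a * el i j b = el i j (a + b) := by
  unfold el
  rw [dif_pos h, dif_pos h, dif_pos h]
  exact (Matrix.SpecialLinearGroup.transvection_add h a b).symm

lemma el_zero {i j : Fin 3} (h : i ≠ j) : el i j 0 = 1 := by
  unfold el
  rw [dif_pos h]
  exact Matrix.SpecialLinearGroup.transvection_coeff_zero h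

lemma el_pow {i j : Fin 3} (h : i ≠ j) (a : ℤ) (n : ℕ) : el i j a ^ n = el i j (n * a) := by
  induction n with
  | zero => rw [pow_zero, Nat.cast_zero, zero_mul, el_zero h]
  | succ n ih =>
    rw [pow_succ, ih, el_mul h]
    congr 1
    push_cast
    ring

lemma EN_le {a b : ℕ} (h : a ∣ b) : EN (b : ℤ) ≤ EN (a : ℤ) := by
  obtain ⟨c, rfl⟩ := h
  unfold EN
  rw [Subgroup.closure_le]
  rintro g ⟨i, j, hij, rfl⟩
  have h1 : el i j ((a * c : ℕ) : ℤ) = el i j (a : ℤ) ^ c := by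
    rw [el_pow hij]
    congr 1
    push_cast
    ring
  rw [h1]
  refine Subgroup.pow_mem _ (Subgroup.subset_closure ?_) c
  exact ⟨i, j, hij, rfl⟩

/-- The inverse transpose. -/
def th : G →* G where
  toFun g := ⟨((g⁻¹ : G) : MZ).transpose, by
    rw [Matrix.det_transpose]
    exact (g⁻¹ : G).2⟩
  map_one' := Subtype.ext (by
    change ((1⁻¹ : G) : MZ).transpose = 1
    rw [inv_one]
    exact Matrix.transpose_one)
  map_mul' a b := Subtype.ext (by
    change (((a * b)⁻¹ : G) : MZ).transpose = ((a⁻¹ : G) : MZ).transpose * ((b⁻¹ : G) : MZ).transpose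
    rw [mul_inv_rev, Matrix.SpecialLinearGroup.coe_mul, Matrix.transpose_mul])

lemma th_coe (g : G) : ((th g : G) : MZ) = ((g⁻¹ : G) : MZ).transpose := rfl

lemma th_th (g : G) : th (th g) = g := by
  apply Subtype.ext
  change ((((th g)⁻¹ : G)) : MZ).transpose = (g : MZ)
  rw [← map_inv, th_coe, inv_inv, Matrix.transpose_transpose]

lemma th_el {i j : Fin 3} (h : i ≠ j) (a : ℤ) : th (el i j a) = (el j i a)⁻¹ := by
  have h1 : (el i j a)⁻¹ = el i j (-a) := by
    rw [inv_eq_iff_mul_eq_one, el_mul h, add_neg_cancel, el_zero h]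
  have h2 : (el j i a)⁻¹ = el j i (-a) := by
    rw [inv_eq_iff_mul_eq_one, el_mul h.symm, add_neg_cancel, el_zero h.symm]
  apply Subtype.ext
  rw [h2]
  change (((el i j a)⁻¹ : G) : MZ).transpose = ((el j i (-a) : G) : MZ)
  rw [h1]
  unfold el
  rw [dif_pos h, dif_pos h.symm]
  change (Matrix.transvection i j (-a)).transpose = Matrix.transvection j i (-a)
  unfold Matrix.transvection
  rw [Matrix.transpose_add, Matrix.transpose_one, Matrix.transpose_single]

lemma th_EN (M : ℤ) {k : G} (hk : k ∈ EN M) : th k ∈ EN M := by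
  have h : EN M ≤ (EN M).comap th := by
    conv_lhs => unfold EN
    rw [Subgroup.closure_le]
    rintro g ⟨i, j, hij, rfl⟩
    rw [SetLike.mem_coe, Subgroup.mem_comap, th_el hij]
    refine Subgroup.inv_mem _ (Subgroup.subset_closure ?_)
    exact ⟨j, i, hij.symm, rfl⟩
  exact h hk

lemma el_ne_one {M : ℤ} (hM : M ≠ 0) : el 0 1 M ≠ 1 := by
  intro h
  have h1 := congrArg (fun g : G => (g : MZ) 0 1) h
  unfold el at h1
  rw [dif_pos (by decide : (0 : Fin 3) ≠ 1)] at h1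
  have h2 : (Matrix.transvection (0 : Fin 3) 1 M : MZ) 0 1 = (1 : MZ) 0 1 := h1
  unfold Matrix.transvection at h2
  rw [Matrix.add_apply, Matrix.single_apply_same, Matrix.one_apply_ne (by decide), zero_add] at h2
  exact hM h2

end MIXM

open MIXM in
theorem specMIX (hLET : SpecLET) (hSPX : SpecSPX) (hTRI : SpecTRI) (hCOR : SpecCOR)
    (hFIX : SpecFIX) : SpecMIX := by
  intro m ρ hinj hss
  by_contra hcon
  obtain ⟨hlen, _⟩ := hLET m ρ hss
  choose H φ hfin hmem hsec using hSPX m ρ hinj hss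
  -- the subgroups `L`
  have key : ∀ x : Fin m, ∃ (L : Subgroup G) (M' : ℕ), L ≤ H x ∧ 1 ≤ M' ∧
      (∀ k ∈ EN (M' : ℤ), ∀ g : G, g * k * g⁻¹ ∈ L) ∧
      ∀ (k : G) (hk : k ∈ H x), k ∈ L → ∃ b : G, φ x ⟨k, hk⟩ = 1 ∨ φ x ⟨k, hk⟩ = b * k * b⁻¹ ∨
        φ x ⟨k, hk⟩ = b * th k * b⁻¹ := by
    intro x
    rcases hTRI (H x) (hfin x) (φ x) with ⟨M, hM1, hM, hM2⟩ | ⟨A, hA, hA2⟩ | ⟨b, hb⟩
    · -- kind (T)
      have hnorm : ∀ h ∈ H x, ∀ l ∈ (φ x).ker.map (H x).subtype,
          h * l * h⁻¹ ∈ (φ x).ker.map (H x).subtype := by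
        intro h hh l hl
        obtain ⟨k, hk, rfl⟩ := Subgroup.mem_map.1 hl
        refine Subgroup.mem_map.2 ⟨⟨h, hh⟩ * k * ⟨h, hh⟩⁻¹, ?_, rfl⟩
        exact (MonoidHom.normal_ker (φ x)).conj_mem k hk ⟨h, hh⟩
      have hEN : EN (M : ℤ) ≤ (φ x).ker.map (H x).subtype := by
        intro k hk
        exact Subgroup.mem_map.2 ⟨⟨k, hM hk⟩, MonoidHom.mem_ker.2 (hM2 k hk), rfl⟩
      obtain ⟨M', hM'1, hM'⟩ := hCOR (H x) _ (hfin x) hnorm M hM1 hEN
      refine ⟨_, M', ?_, hM'1, hM', ?_⟩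
      · exact Subgroup.map_subtype_le _
      · intro k hk hkL
        obtain ⟨k', hk', hkk⟩ := Subgroup.mem_map.1 hkL
        have h1 : (⟨k, hk⟩ : H x) = k' := Subtype.ext hkk.symm
        exact ⟨1, Or.inl (by rw [h1]; exact MonoidHom.mem_ker.1 hk')⟩
    · -- a good letter
      exact absurd ⟨x, H x, φ x, A, hfin x, hmem x, hsec x, hA, hA2⟩ hcon
    · -- kind (U)
      obtain ⟨M, hM1, hM⟩ := hFIX (H x) (hfin x)
      obtain ⟨M', hM'1, hM'⟩ := hCOR (H x) (H x) (hfin x)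
        (fun h hh l hl => (H x).mul_mem ((H x).mul_mem hh hl) ((H x).inv_mem hh)) M hM1 hM
      refine ⟨H x, M', le_rfl, hM'1, hM', ?_⟩
      intro k hk _
      refine ⟨b, Or.inr ?_⟩
      rcases hb with hb | hb
      · left
        rw [eq_mul_inv_iff_mul_eq]
        exact Subtype.ext (hb ⟨k, hk⟩)
      · right
        rw [eq_mul_inv_iff_mul_eq]
        exact Subtype.ext (hb ⟨k, hk⟩)
  choose L M' hLH hM'1 hM' hφ using key
  set M : ℕ := ∏ x : Fin m, M' x with hM
  have hM0 : M ≠ 0 := Finset.prod_ne_zero_iff.2 fun x _ => by have := hM'1 x; omega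
  have hdvd : ∀ x, M' x ∣ M := fun x => Finset.dvd_prod_of_mem _ (Finset.mem_univ x)
  -- the subgroup `K`
  let K : Subgroup G :=
    { carrier := {k | ∀ (x : Fin m) (g : G), g * k * g⁻¹ ∈ L x ∧ g * th k * g⁻¹ ∈ L x}
      one_mem' := by
        intro x g
        rw [map_one, mul_one, mul_inv_cancel]
        exact ⟨(L x).one_mem, (L x).one_mem⟩
      mul_mem' := by
        intro a b ha hb x g
        have e1 : g * (a * b) * g⁻¹ = (g * a * g⁻¹) * (g * b * g⁻¹) := by group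
        have e2 : g * th (a * b) * g⁻¹ = (g * th a * g⁻¹) * (g * th b * g⁻¹) := by
          rw [map_mul]
          group
        rw [e1, e2]
        exact ⟨(L x).mul_mem (ha x g).1 (hb x g).1, (L x).mul_mem (ha x g).2 (hb x g).2⟩
      inv_mem' := by
        intro a ha x g
        have e1 : g * a⁻¹ * g⁻¹ = (g * a * g⁻¹)⁻¹ := by group
        have e2 : g * th a⁻¹ * g⁻¹ = (g * th a * g⁻¹)⁻¹ := by
          rw [map_inv]
          group
        rw [e1, e2]
        exact ⟨(L x).inv_mem (ha x g).1, (L x).inv_mem (ha x g).2⟩ }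
  have hKm : ∀ k : G, k ∈ K ↔ ∀ (x : Fin m) (g : G), g * k * g⁻¹ ∈ L x ∧ g * th k * g⁻¹ ∈ L x :=
    fun k => Iff.rfl
  have hKL : ∀ k ∈ K, ∀ x, k ∈ L x := by
    intro k hk x
    have := ((hKm k).1 hk x 1).1
    rwa [one_mul, inv_one, mul_one] at this
  have hKconj : ∀ k ∈ K, ∀ u : G, u * k * u⁻¹ ∈ K := by
    intro k hk u
    rw [hKm]
    intro x g
    have e1 : g * (u * k * u⁻¹) * g⁻¹ = (g * u) * k * (g * u)⁻¹ := by group
    have e2 : g * th (u * k * u⁻¹) * g⁻¹ = (g * th u) * th k * (g * th u)⁻¹ := by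
      rw [map_mul, map_mul, map_inv]
      group
    rw [e1, e2]
    exact ⟨((hKm k).1 hk x _).1, ((hKm k).1 hk x _).2⟩
  have hKth : ∀ k ∈ K, th k ∈ K := by
    intro k hk
    rw [hKm]
    intro x g
    rw [th_th]
    exact ⟨((hKm k).1 hk x g).2, ((hKm k).1 hk x g).1⟩
  have hENK : ∀ k ∈ EN (M : ℤ), k ∈ K := by
    intro k hk
    rw [hKm]
    intro x g
    exact ⟨hM' x k (EN_le (hdvd x) hk) g, hM' x (th k) (EN_le (hdvd x) (th_EN _ hk)) g⟩
  have hfix : ∀ w : List (Fin m), ∀ k ∈ K, ρ k w = w := by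
    intro w
    induction w with
    | nil =>
      intro k _
      have := hlen k []
      rw [List.length_nil] at this
      exact List.eq_nil_of_length_eq_zero this
    | cons x w ih =>
      intro k hk
      have hkL := hKL k hk x
      have hkH := hLH x hkL
      have h1 : ρ k (x :: w) = x :: ρ (φ x ⟨k, hkH⟩) w := hsec x ⟨k, hkH⟩ w
      have h2 : φ x ⟨k, hkH⟩ ∈ K := by
        obtain ⟨b, h3 | h3 | h3⟩ := hφ x k hkH hkL
        · rw [h3]
          exact K.one_mem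
        · rw [h3]
          exact hKconj k hk b
        · rw [h3]
          exact hKconj _ (hKth k hk) b
      rw [h1, ih _ h2]
  have hel : el 0 1 (M : ℤ) ∈ EN (M : ℤ) := Subgroup.subset_closure ⟨0, 1, by decide, rfl⟩
  have h1 : ρ (el 0 1 (M : ℤ)) = 1 := Equiv.ext fun w => hfix w _ (hENK _ hel)
  have h2 : el 0 1 (M : ℤ) = 1 := hinj (h1.trans (map_one ρ).symm)
  exact el_ne_one (by exact_mod_cast hM0) h2

end Pool.Agent.Lib.MP8519b0
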