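import Pool.Agent.Lib.MP_8519b0_al.Spec2

/-!
# Module ORB: a good letter gives many orbits
-/

set_option autoImplicit false

namespace Pool.Agent.Lib.MP8519b0

namespace ORBM

/-- sections at words -/
lemma sec_word {m : ℕ} (ρ : G →* Equiv.Perm (List (Fin m)))
    (hlen : ∀ (g : G) (w : List (Fin m)), (ρ g w).length = w.length)
    (α : G →* Equiv.Perm (Fin m))
    (hα : ∀ (g : G) (x : Fin m), ∃ h : G, ∀ w : List (Fin m), ρ g (x :: w) = α g x :: ρ h w) :
    ∀ (v : List (Fin m)) (g : G), ∃ h : G, ∀ u, ρ g (v ++ u) = ρ g v ++ ρ h u := by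
  intro v
  induction v with
  | nil =>
    intro g
    refine ⟨g, fun u => ?_⟩
    have h0 : ρ g [] = [] := List.eq_nil_of_length_eq_zero (hlen g [])
    rw [h0, List.nil_append, List.nil_append]
  | cons x v ih =>
    intro g
    obtain ⟨h', hh'⟩ := hα g x
    obtain ⟨h, hh⟩ := ih h'
    refine ⟨h, fun u => ?_⟩
    rw [List.cons_append, hh', hh', hh, List.cons_append]

/-- two continuations of a word ending in `y` in different orbits -/
lemma two {m : ℕ} (ρ : G →* Equiv.Perm (List (Fin m)))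
    (hlen : ∀ (g : G) (w : List (Fin m)), (ρ g w).length = w.length)
    (α : G →* Equiv.Perm (Fin m)) (hα1 : ∀ (g : G) (x : Fin m), ρ g [x] = [α g x])
    (hα : ∀ (g : G) (x : Fin m), ∃ h : G, ∀ w : List (Fin m), ρ g (x :: w) = α g x :: ρ h w)
    (x : Fin m) (H : Subgroup G) (φ : H →* G) (hH : ∀ g : G, g ∈ H ↔ ρ g [x] = [x])
    (hsec : ∀ h : H, Section ρ x (h : G) (φ h)) (k : G) (hk : ∀ q r : H, k ≠ φ q * (r : G))
    (y : Fin m) (t : G) (ht : ρ t [x] = [y]) :
    ∃ a b : Fin m, (∃ s : G, ρ s [x] = [a]) ∧ (∃ s : G, ρ s [x] = [b]) ∧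
      ∀ (v : List (Fin m)) (g : G), ρ g (v ++ [y, a]) ≠ v ++ [y, b] := by
  obtain ⟨s, hs⟩ := hα t x
  have hty : α t x = y := by
    have h1 := hα1 t x
    rw [ht] at h1
    exact (List.cons.inj h1).1.symm
  rw [hty] at hs
  refine ⟨α s x, α (s * k) x, ⟨s, hα1 s x⟩, ⟨s * k, hα1 (s * k) x⟩, ?_⟩
  intro v g hg
  obtain ⟨h₀, hh₀⟩ := sec_word ρ hlen α hα v g
  rw [hh₀] at hg
  have h2 := (List.append_inj hg (hlen g v)).2
  obtain ⟨h₁, hh₁⟩ := hα h₀ y
  rw [hh₁] at h2
  obtain ⟨h3, h4⟩ := List.cons.inj h2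
  rw [h3] at hh₁
  have hx : ρ (t⁻¹ * h₀ * t) [x] = [x] := by
    rw [map_mul, map_mul, Equiv.Perm.mul_apply, Equiv.Perm.mul_apply, ht, hα1 h₀ y, h3, map_inv,
      Equiv.Perm.inv_eq_iff_eq, ht]
  have hmem : t⁻¹ * h₀ * t ∈ H := (hH _).mpr hx
  have h5 := hsec ⟨_, hmem⟩ [x]
  simp only [map_mul, Equiv.Perm.mul_apply, map_inv] at h5
  rw [Equiv.Perm.inv_eq_iff_eq, hs, hh₁, hs] at h5
  have h6 := (List.cons.inj h5).2
  rw [hα1 s x, h4, ← hα1 (s * k) x, map_mul, Equiv.Perm.mul_apply] at h6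
  have h7 := (ρ s).injective h6
  set q : H := ⟨t⁻¹ * h₀ * t, hmem⟩ with hq
  have h8 : ρ ((φ q)⁻¹ * k) [x] = [x] := by
    rw [map_mul, Equiv.Perm.mul_apply, map_inv, Equiv.Perm.inv_eq_iff_eq, h7]
  have h9 : (φ q)⁻¹ * k ∈ H := (hH _).mpr h8
  exact hk q ⟨_, h9⟩ (by simp)

end ORBM

open ORBM in
theorem specORB (hLET : SpecLET) (hNTR : SpecNTR) : SpecORB := by
  intro m ρ hss x H φ A hH hsec hA hconj n
  obtain ⟨hlen, α, hα1, hα⟩ := hLET m ρ hss
  obtain ⟨k, hk⟩ := hNTR H φ A hA hconj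
  have htwo := two ρ hlen α hα1 hα x H φ hH hsec k hk
  have hsw := sec_word ρ hlen α hα
  have key : ∀ n : ℕ, ∃ (ι : Type) (_ : Fintype ι), Fintype.card ι = 2 ^ n ∧
      ∃ f : ι → List (Fin m), (∀ i, (f i).length = n + 1) ∧
        (∀ i, ∃ (v : List (Fin m)) (y : Fin m) (t : G), f i = v ++ [y] ∧ ρ t [x] = [y]) ∧
        ∀ i j, i ≠ j → ∀ g : G, ρ g (f i) ≠ f j := by
    intro n
    induction n with
    | zero =>
      refine ⟨Unit, inferInstance, by simp, fun _ => [x], fun _ => rfl,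
        fun _ => ⟨[], x, 1, rfl, by simp⟩, fun i j hij => absurd (Subsingleton.elim i j) hij⟩
    | succ n ih =>
      obtain ⟨ι, hι, hcard, f, hf1, hf2, hf3⟩ := ih
      choose v y t hfv hty using hf2
      choose a b ha hb hab using fun i => htwo (y i) (t i) (hty i)
      refine ⟨ι × Bool, inferInstance, ?_, fun p => f p.1 ++ [if p.2 then a p.1 else b p.1],
        ?_, ?_, ?_⟩
      · rw [Fintype.card_prod, hcard, Fintype.card_bool, pow_succ]
      · intro p
        simp [hf1]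
      · rintro ⟨i, c⟩
        cases c
        · obtain ⟨s, hs⟩ := hb i
          exact ⟨f i, b i, s, by simp, hs⟩
        · obtain ⟨s, hs⟩ := ha i
          exact ⟨f i, a i, s, by simp, hs⟩
      · rintro ⟨i, c⟩ ⟨j, d⟩ hne g hg
        simp only at hg
        obtain ⟨h, hh⟩ := hsw (f i) g
        have h1 := hg
        rw [hh] at h1
        have h2 := (List.append_inj h1 (by rw [hlen, hf1, hf1])).1
        have hij : i = j := by
          by_contra hij
          exact hf3 i j hij g h2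
        subst hij
        have h3 : ∀ z : Fin m, f i ++ [z] = v i ++ [y i, z] := by
          intro z
          rw [hfv i, List.append_assoc]
          rfl
        rw [h3, h3] at hg
        cases c <;> cases d
        · exact hne rfl
        · simp only [Bool.false_eq_true, if_false, if_true] at hg
          apply hab i (v i) g⁻¹
          rw [map_inv, Equiv.Perm.inv_eq_iff_eq]
          exact hg.symm
        · simp only [Bool.false_eq_true, if_false, if_true] at hg
          exact hab i (v i) g hg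
        · exact hne rfl
  obtain ⟨ι, hι, hcard, f, hf1, _, hf3⟩ := key n
  let e : ι ≃ Fin (2 ^ n) := Fintype.equivFinOfCardEq hcard
  refine ⟨fun i => f (e.symm i), fun i => hf1 _, fun i j hij g => hf3 _ _ ?_ g⟩
  intro h
  exact hij (e.symm.injective h)

end Pool.Agent.Lib.MP8519b0
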