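import Pool.Agent.Lib.MP_8519b0_al.Spec2

/-! # SPX: the section homomorphism at any letter (adapted from SEC by helper94) -/

set_option autoImplicit false

namespace Pool.Agent.Lib.MP8519b0

namespace SPXM

variable {m : ℕ} (ρ : G →* Equiv.Perm (List (Fin m)))

lemma unique (hρ : Function.Injective ρ) {x : Fin m} {g h h' : G} (h1 : Section ρ x g h)
    (h2 : Section ρ x g h') : h = h' := by
  apply hρ
  ext1 w
  have e := (h1 w).symm.trans (h2 w)
  exact (List.cons.inj e).2

lemma sec_mul {x : Fin m} {g g' h h' : G} (h1 : Section ρ x g h) (h2 : Section ρ x g' h') :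
    Section ρ x (g * g') (h * h') := by
  intro w
  rw [map_mul, map_mul, Equiv.Perm.mul_apply, Equiv.Perm.mul_apply, h2 w, h1]

end SPXM

open SPXM in
theorem specSPX (hLET : SpecLET) : SpecSPX := by
  intro m ρ hρ hss x
  obtain ⟨hlen, α, hα, hsec⟩ := hLET m ρ hss
  obtain ⟨H, hHdef⟩ : ∃ H : Subgroup G,
      H = (MulAction.stabilizer (Equiv.Perm (Fin m)) x).comap α := ⟨_, rfl⟩
  have hmem : ∀ g : G, g ∈ H ↔ α g x = x := by
    intro g
    rw [hHdef, Subgroup.mem_comap, MulAction.mem_stabilizer_iff]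
    rfl
  have hmem' : ∀ g : G, g ∈ H ↔ ρ g [x] = [x] := by
    intro g
    rw [hmem, hα g x]
    constructor
    · intro h
      rw [h]
    · intro h
      exact (List.cons.inj h).1
  have hex : ∀ g : H, ∃ h : G, Section ρ x (g : G) h := by
    intro g
    obtain ⟨h, hh⟩ := hsec g x
    rw [(hmem g).mp g.2] at hh
    exact ⟨h, hh⟩
  choose f hf using hex
  let φ : H →* G :=
    { toFun := f
      map_one' := unique ρ hρ (hf 1) (by
        intro w
        show ρ 1 (x :: w) = x :: ρ 1 w
        rw [map_one]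
        rfl)
      map_mul' := fun g g' => unique ρ hρ (hf (g * g')) (sec_mul ρ (hf g) (hf g')) }
  refine ⟨H, φ, ?_, hmem', hf⟩
  have h1 : α.ker ≤ H := by
    intro g hg
    rw [hmem, MonoidHom.mem_ker.mp hg]
    rfl
  have h2 : α.ker.FiniteIndex := Subgroup.finiteIndex_ker α
  exact Subgroup.finiteIndex_of_le h1

end Pool.Agent.Lib.MP8519b0
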