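import Pool.Agent.Lib.MP_8519b0_al.Spec2

/-!
# MP_8519b0_al, module TRI: three kinds of homomorphisms of finite index subgroups
-/

set_option autoImplicit false

namespace Pool.Agent.Lib.MP8519b0

namespace TRIM

/-- the cast of matrices -/
def cQ : MZ →+* MQ := (Int.castRingHom ℚ).mapMatrix

lemma cQ_apply (A : MZ) (i j : Fin 3) : cQ A i j = (A i j : ℚ) := rfl

lemma cQ_inj : Function.Injective cQ := by
  intro A B h
  ext i j
  have h1 := congrFun (congrFun h i) j
  rw [cQ_apply, cQ_apply] at h1
  exact_mod_cast h1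

lemma toQ_eq (g : G) : toQ g = cQ (g : MZ) := rfl

lemma exists_int (g : MQ) : ∃ (n : ℕ) (A : MZ), n ≠ 0 ∧ cQ A = (n : ℚ) • g := by
  have hn : (∏ i, ∏ j, (g i j).den) ≠ 0 := Finset.prod_ne_zero_iff.2 fun i _ =>
    Finset.prod_ne_zero_iff.2 fun j _ => (g i j).den_nz
  have hd : ∀ i j, (g i j).den ∣ ∏ i, ∏ j, (g i j).den := fun i j =>
    (Finset.dvd_prod_of_mem (fun j => (g i j).den) (Finset.mem_univ j)).trans
      (Finset.dvd_prod_of_mem (fun i => ∏ j, (g i j).den) (Finset.mem_univ i))
  generalize (∏ i, ∏ j, (g i j).den) = n at *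
  choose c hc using hd
  refine ⟨n, fun i j => c i j * (g i j).num, hn, ?_⟩
  ext i j
  have h1 : (n : ℚ) = (g i j).den * c i j := by
    exact_mod_cast hc i j
  have h2 : ((g i j).den : ℚ) * g i j = (g i j).num := by
    rw [mul_comm]; exact Rat.mul_den_eq_num _
  rw [cQ_apply, Matrix.smul_apply, smul_eq_mul, h1]
  push_cast
  rw [← h2]
  ring

lemma conj_of_Q {H : Subgroup G} {φ : H →* G} {A : MZ} {g : MQ} {n : ℕ}
    (hA : cQ A = (n : ℚ) • g) (h : (∀ h : H, toQ (φ h) * g = g * toQ (h : G)) ∨
      (∀ h : H, toQ (φ h) * g = g * (toQ ((h : G)⁻¹)).transpose)) : IsConj3 H φ A := by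
  rcases h with h | h
  · left
    intro x
    apply cQ_inj
    rw [map_mul, map_mul, hA, Matrix.mul_smul, Matrix.smul_mul]
    exact congrArg _ (h x)
  · right
    intro x
    apply cQ_inj
    rw [map_mul, map_mul, hA, Matrix.mul_smul, Matrix.smul_mul]
    exact congrArg _ (h x)

lemma cancel {H : Subgroup G} {φ : H →* G} {B : MZ} {c : ℤ} (hc : c ≠ 0)
    (h : IsConj3 H φ (c • B)) : IsConj3 H φ B := by
  have hinj : Function.Injective fun X : MZ => c • X := smul_right_injective MZ hc
  rcases h with h | h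
  · left
    intro x
    apply hinj
    have := h x
    rw [Matrix.mul_smul, Matrix.smul_mul] at this
    exact this
  · right
    intro x
    apply hinj
    have := h x
    rw [Matrix.mul_smul, Matrix.smul_mul] at this
    exact this

end TRIM

open TRIM in
theorem specTRI (hRIG : SpecRIG) : SpecTRI := by
  intro H hH φ
  rcases hRIG H hH φ with h | ⟨g, hg, h⟩
  · exact Or.inl h
  · right
    obtain ⟨n, A, hn, hA⟩ := exists_int g
    have hdet : A.det ≠ 0 := by
      intro h0
      have h1 : (cQ A).det = 0 := by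
        have := RingHom.map_det (Int.castRingHom ℚ) A
        rw [h0, map_zero] at this
        exact this.symm
      rw [hA, Matrix.det_smul] at h1
      have h2 : (n : ℚ) ≠ 0 := by exact_mod_cast hn
      exact (mul_ne_zero (pow_ne_zero _ h2) hg) h1
    have hc := conj_of_Q hA h
    by_cases hG : Good A
    · exact Or.inl ⟨A, hG, hc⟩
    · right
      have : ∃ (c : ℤ) (B : MZ), IsUnit B.det ∧ A = c • B := by
        by_contra h3
        exact hG ⟨hdet, h3⟩
      obtain ⟨c, B, hB, rfl⟩ := this
      have hc0 : c ≠ 0 := by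
        rintro rfl
        apply hdet
        rw [zero_smul, Matrix.det_zero]
      have hcB := cancel hc0 hc
      rcases Int.isUnit_iff.1 hB with h1 | h1
      · exact ⟨⟨B, h1⟩, hcB⟩
      · have h2 : (-B).det = 1 := by
          rw [Matrix.det_neg, h1]
          simp
        refine ⟨⟨-B, h2⟩, ?_⟩
        have h3 : B = (-1 : ℤ) • (-B) := by simp
        rw [h3] at hcB
        exact cancel (by norm_num) hcB

end Pool.Agent.Lib.MP8519b0
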