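import Pool.Agent.Lib.MP_8519b0_al.FinalB
import Pool.Agent.Lib.MP_8519b0_al.SPX
import Pool.Agent.Lib.MP_8519b0_al.TRI
import Pool.Agent.Lib.MP_8519b0_al.COR
import Pool.Agent.Lib.MP_8519b0_al.MIX
import Pool.Agent.Lib.MP_8519b0_al.ORB
import Pool.Agent.Lib.MP_8519b0_al.FND
import Pool.Agent.Lib.MP_8519b0_al.CRI

/-!
# MP_8519b0_al: Theorem D and the criterion for faithfulness, assembled from the modules
-/

set_option autoImplicit false

namespace Pool.Agent.Lib.MP8519b0

/-- A faithful self-similar action has a good letter. -/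
theorem theoremMIX : SpecMIX :=
  specMIX specLET (specSPX specLET) (specTRI theoremRIG) (specCOR theoremCNJ) specFIX

/-- The criterion for faithfulness. -/
theorem theoremCRI : SpecCRI :=
  specCRI (specCVR (specPAR specPRZ) specTRC specNZM specCVK) theoremMIX

/-- THEOREM D. -/
theorem theoremD : SpecFND := specFND theoremMIX (specORB specLET theoremNTR)

/-- The criterion, the realization of all good matrices and the growth of the number of orbits. -/
theorem theoremB2 : SpecCRI ∧
    (∀ A : MZ, Good A →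
      (∃ (m : ℕ) (ρ : G →* Equiv.Perm (List (Fin m))) (x : Fin m), Function.Injective ρ ∧
        SelfSimilar ρ ∧ LetterTransitive ρ ∧
        (∀ g : G, ρ g [x] = [x] ↔ ∃ h : G, (h : MZ) * A = A * (g : MZ)) ∧
        ∀ g h : G, (h : MZ) * A = A * (g : MZ) → Section ρ x g h) ∧
      (∃ (m : ℕ) (ρ : G →* Equiv.Perm (List (Fin m))) (x : Fin m), Function.Injective ρ ∧
        SelfSimilar ρ ∧ LetterTransitive ρ ∧
        (∀ g : G, ρ g [x] = [x] ↔ ∃ h : G, (h : MZ) * A = A * ((g⁻¹ : G) : MZ).transpose) ∧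
        ∀ g h : G, (h : MZ) * A = A * ((g⁻¹ : G) : MZ).transpose → Section ρ x g h)) ∧
    SpecFND :=
  ⟨theoremCRI, theoremB.2.1, theoremD⟩

end Pool.Agent.Lib.MP8519b0
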