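import Pool.Agent.Lib.MP_8519b0_al.Spec3

/-!
# IDX: stabilisers of lines of `(ZMod p)^3` in `SL_3(Z)`
-/

set_option autoImplicit false

namespace Pool.Agent.Lib.MP8519b0

namespace IDXM

open scoped LinearAlgebra.Projectivization

lemma red_mul (p : ℕ) (k l : G) : red p (k * l) = red p k * red p l := by
  have h := Matrix.map_mul (L := (k : MZ)) (M := (l : MZ)) (f := Int.castRingHom (ZMod p))
  unfold red
  rw [Matrix.SpecialLinearGroup.coe_mul]
  exact h

/-- reduction mod `p` as a homomorphism of groups -/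
def rd (p : ℕ) : G →* Matrix.SpecialLinearGroup (Fin 3) (ZMod p) :=
  Matrix.SpecialLinearGroup.map (Int.castRingHom (ZMod p))

lemma rd_coe (p : ℕ) (g : G) : ((rd p g : Matrix.SpecialLinearGroup (Fin 3) (ZMod p)) :
    Matrix (Fin 3) (Fin 3) (ZMod p)) = red p g := rfl

lemma smul_vec (p : ℕ) [Fact p.Prime] (g : G) (v : Fin 3 → ZMod p) :
    rd p g • v = (red p g).mulVec v := rfl

lemma main (p : ℕ) [Fact p.Prime] (hTRA : SpecTRA) (v : Fin 3 → ZMod p) (hv : v ≠ 0) :
    ∃ S : Subgroup G, (∀ g : G, g ∈ S ↔ ∃ c : ZMod p, (red p g).mulVec v = c • v) ∧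
      S.index = p ^ 2 + p + 1 := by
  let act : MulAction G (ℙ (ZMod p) (Fin 3 → ZMod p)) := MulAction.compHom _ (rd p)
  have hact : ∀ (g : G) (x : ℙ (ZMod p) (Fin 3 → ZMod p)), g • x = rd p g • x := fun _ _ => rfl
  have htr : MulAction.IsPretransitive G (ℙ (ZMod p) (Fin 3 → ZMod p)) := by
    constructor
    intro x y
    induction x using Projectivization.ind with
    | h a ha =>
      induction y using Projectivization.ind with
      | h b hb =>
        obtain ⟨k, c, hc, hk⟩ := hTRA p a b ha hb
        refine ⟨k, ?_⟩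
        rw [hact, Projectivization.smul_mk, Projectivization.mk_eq_mk_iff']
        refine ⟨c, ?_⟩
        rw [smul_vec]
        exact hk.symm
  refine ⟨MulAction.stabilizer G (Projectivization.mk (ZMod p) v hv), ?_, ?_⟩
  · intro g
    rw [MulAction.mem_stabilizer_iff, hact, Projectivization.smul_mk,
      Projectivization.mk_eq_mk_iff']
    constructor
    · rintro ⟨c, hc⟩
      exact ⟨c, by rw [← smul_vec]; exact hc.symm⟩
    · rintro ⟨c, hc⟩
      exact ⟨c, by rw [smul_vec]; exact hc.symm⟩
  · rw [MulAction.index_stabilizer_of_transitive,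
      Projectivization.card_of_finrank (ZMod p) (Fin 3 → ZMod p) (n := 3) (by simp)]
    simp [Finset.sum_range_succ]
    ring

/-- `th` as a homomorphism of groups -/
def thHom : G →* G where
  toFun := th
  map_one' := by
    unfold th
    apply Subtype.ext
    simp
  map_mul' g h := by
    unfold th
    apply Subtype.ext
    rw [mul_inv_rev]
    simp [Matrix.transpose_mul]

lemma th_th (g : G) : th (th g) = g := by
  have h1 : thHom (thHom g)⁻¹ = (thHom (thHom g))⁻¹ := map_inv thHom _
  have h2 : ∀ k : G, (thHom k)⁻¹ = k.transpose := by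
    intro k
    have h3 : (thHom k)⁻¹ = thHom k⁻¹ := (map_inv thHom k).symm
    rw [h3]
    change th k⁻¹ = _
    unfold th
    rw [inv_inv]
  change (thHom g)⁻¹.transpose = g
  rw [h2 g]
  apply Subtype.ext
  rfl

end IDXM

open IDXM in
theorem specIDX (hTRA : SpecTRA) : SpecIDX := by
  intro p _ v hv
  refine ⟨main p hTRA v hv, ?_⟩
  obtain ⟨S, h1, h2⟩ := main p hTRA v hv
  refine ⟨S.comap thHom, ?_, ?_⟩
  · intro g
    rw [Subgroup.mem_comap]
    exact h1 (th g)
  · rw [Subgroup.index_comap_of_surjective S (f := thHom) (fun g => ⟨th g, th_th g⟩)]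
    exact h2

end Pool.Agent.Lib.MP8519b0
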