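import Pool.Agent.Lib.MP_8519b0_al.Spec3

/-!
# MP_8519b0_al: module IV1 (points and lines are different)
-/

set_option autoImplicit false

namespace Pool.Agent.Lib.MP8519b0

namespace IV1M

open Matrix

/-- `1 + E_12` -/
def e12 : G := ⟨!![1, 0, 0; 0, 1, 1; 0, 0, 1], by simp [Matrix.det_fin_three]⟩

/-- `1 + E_21` -/
def e21 : G := ⟨!![1, 0, 0; 0, 1, 0; 0, 1, 1], by simp [Matrix.det_fin_three]⟩

/-- `1 + E_10` -/
def e10 : G := ⟨!![1, 0, 0; 1, 1, 0; 0, 0, 1], by simp [Matrix.det_fin_three]⟩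

theorem cm (g h : G) : ((g * h : G) : MZ) = (g : MZ) * (h : MZ) :=
  Matrix.SpecialLinearGroup.coe_mul g h

/-- the entry `k_00` is odd if `InP k` -/
theorem odd_of_inP {k : G} (h : InP k) : ¬ (2 : ℤ) ∣ k 0 0 := by
  intro h0
  have hd : (k : MZ).det = 1 := Matrix.SpecialLinearGroup.det_coe k
  rw [Matrix.det_fin_three] at hd
  obtain ⟨⟨a, ha⟩, ⟨b, hb⟩⟩ := h
  obtain ⟨c, hc⟩ := h0
  have ha' : (k : MZ) 1 0 = 2 * a := ha
  have hb' : (k : MZ) 2 0 = 2 * b := hb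
  have hc' : (k : MZ) 0 0 = 2 * c := hc
  rw [ha', hb', hc'] at hd
  have h1 : (2 : ℤ) ∣ 1 := by
    rw [← hd]
    refine ⟨c * (k : MZ) 1 1 * (k : MZ) 2 2 - c * (k : MZ) 1 2 * (k : MZ) 2 1
      - (k : MZ) 0 1 * a * (k : MZ) 2 2 + (k : MZ) 0 1 * (k : MZ) 1 2 * b
      + (k : MZ) 0 2 * a * (k : MZ) 2 1 - (k : MZ) 0 2 * (k : MZ) 1 1 * b, ?_⟩
    ring
  omega

/-- if `InP (t g t⁻¹)` then `g` fixes the first column of `t⁻¹` modulo `2` -/
theorem fixes {s g h : G} (hgs : g * s = s * h) (hh : InP h) (a : Fin 3) :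
    (2 : ℤ) ∣ ((g * s : G) : MZ) a 0 - (s : MZ) a 0 := by
  have h0 := odd_of_inP hh
  obtain ⟨⟨b, hb⟩, ⟨c, hc⟩⟩ := hh
  obtain ⟨d, hd⟩ : ∃ d, (h : MZ) 0 0 = 2 * d + 1 := by
    have h0' : ¬ (2 : ℤ) ∣ (h : MZ) 0 0 := h0
    exact ⟨(h : MZ) 0 0 / 2, by omega⟩
  have hb' : (h : MZ) 1 0 = 2 * b := hb
  have hc' : (h : MZ) 2 0 = 2 * c := hc
  rw [hgs, cm, Matrix.mul_apply, Fin.sum_univ_three, hd, hb', hc']
  refine ⟨(s : MZ) a 0 * d + (s : MZ) a 1 * b + (s : MZ) a 2 * c, ?_⟩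
  ring

theorem key (t : G) (ht : ∀ g : G, InQ g → InP (t * g * t⁻¹)) : False := by
  set s : G := t⁻¹ with hs
  have hcomm : ∀ g : G, g * s = s * (t * g * s) := by
    intro g
    rw [hs]
    group
  have h1 : (2 : ℤ) ∣ (s : MZ) 2 0 := by
    have hq : InQ e12 := by constructor <;> simp [e12]
    have h := fixes (hcomm e12) (ht e12 hq) 1
    rw [cm, Matrix.mul_apply, Fin.sum_univ_three] at h
    simpa [e12] using h
  have h2 : (2 : ℤ) ∣ (s : MZ) 1 0 := by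
    have hq : InQ e21 := by constructor <;> simp [e21]
    have h := fixes (hcomm e21) (ht e21 hq) 2
    rw [cm, Matrix.mul_apply, Fin.sum_univ_three] at h
    simpa [e21] using h
  have h3 : (2 : ℤ) ∣ (s : MZ) 0 0 := by
    have hq : InQ e10 := by constructor <;> simp [e10]
    have h := fixes (hcomm e10) (ht e10 hq) 1
    rw [cm, Matrix.mul_apply, Fin.sum_univ_three] at h
    simpa [e10] using h
  exact odd_of_inP (k := s) ⟨h2, h1⟩ h3

theorem main {m : ℕ} (ρ σ : G →* Equiv.Perm (List (Fin m))) (x y z : Fin m)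
    (hσ : LetterTransitive σ) (hz : ∀ g : G, ρ g [x] = [x] ↔ σ g [z] = [z])
    (hP : ∀ g : G, ρ g [x] = [x] ↔ InP g) (hQ : ∀ g : G, σ g [y] = [y] ↔ InQ g) : False := by
  obtain ⟨t, ht⟩ := hσ y z
  refine key t fun g hg => ?_
  rw [← hP, hz]
  have h1 : σ g [y] = [y] := (hQ g).2 hg
  have h2 : σ t⁻¹ [z] = [y] := by
    rw [← ht, ← Equiv.Perm.mul_apply, ← map_mul, inv_mul_cancel, map_one, Equiv.Perm.one_apply]
  rw [map_mul, map_mul, Equiv.Perm.mul_apply, Equiv.Perm.mul_apply, h2, h1, ht]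

end IV1M

open IV1M in
theorem specIV1 : SpecIV1 := by
  intro m ρ σ x y hσ hP hQ
  constructor
  · rintro ⟨T, hT, h⟩
    have hl : (T [x]).length = 1 := (hT [x] []).1
    obtain ⟨z, hz⟩ := List.length_eq_one_iff.1 hl
    refine main ρ σ x y z hσ (fun g => ?_) hP hQ
    rw [← hz, ← h]
    exact T.injective.eq_iff.symm
  · rintro ⟨T, hT, h⟩
    have hl : (T.symm [x]).length = 1 := by
      have h1 := (hT (T.symm [x]) []).1
      rw [Equiv.apply_symm_apply] at h1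
      exact h1.symm
    obtain ⟨z, hz⟩ := List.length_eq_one_iff.1 hl
    have hz' : T [z] = [x] := by rw [← hz, Equiv.apply_symm_apply]
    refine main ρ σ x y z hσ (fun g => ?_) hP hQ
    rw [← hz', ← h]
    exact T.injective.eq_iff

end Pool.Agent.Lib.MP8519b0
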