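import Pool.Agent.Lib.MP_8519b0_al.Spec3

/-!
# Module IV2: an invariant which separates the two forms
-/

set_option autoImplicit false

namespace Pool.Agent.Lib.MP8519b0

namespace IV2M

theorem cm (g h : G) : ((g * h : G) : MZ) = (g : MZ) * (h : MZ) :=
  Matrix.SpecialLinearGroup.coe_mul g h

theorem cdet (g : G) : (g : MZ).det = 1 := Matrix.SpecialLinearGroup.det_coe g

theorem z2 {a : ℤ} (h : (2 : ℤ) ∣ a) : ((a : ℤ) : ZMod 2) = 0 :=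
  (ZMod.intCast_zmod_eq_zero_iff_dvd a 2).2 (by exact_mod_cast h)

/-- `1 + E_12` -/
def a12 : G := ⟨!![1, 0, 0; 0, 1, 1; 0, 0, 1], by simp [Matrix.det_fin_three]⟩
/-- `1 + E_21` -/
def a21 : G := ⟨!![1, 0, 0; 0, 1, 0; 0, 1, 1], by simp [Matrix.det_fin_three]⟩
/-- `1 + E_10` -/
def a10 : G := ⟨!![1, 0, 0; 1, 1, 0; 0, 0, 1], by simp [Matrix.det_fin_three]⟩
/-- `1 + E_01` -/
def a01 : G := ⟨!![1, 1, 0; 0, 1, 0; 0, 0, 1], by simp [Matrix.det_fin_three]⟩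

theorem col {u h : G} (hk : InP (u⁻¹ * h * u)) : ∃ c : ZMod 2, ∀ i : Fin 3,
    ((h i 0 * u 0 0 + h i 1 * u 1 0 + h i 2 * u 2 0 : ℤ) : ZMod 2) = ((u i 0 : ℤ) : ZMod 2) * c := by
  set k : G := u⁻¹ * h * u with hkdef
  have e : (u : MZ) * (k : MZ) = (h : MZ) * (u : MZ) := by
    rw [← cm, ← cm, hkdef, mul_assoc, mul_inv_cancel_left]
  refine ⟨((k 0 0 : ℤ) : ZMod 2), fun i => ?_⟩
  have e1 := congrFun (congrFun e i) 0
  rw [Matrix.mul_apply, Matrix.mul_apply, Fin.sum_univ_three, Fin.sum_univ_three] at e1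
  change _ = h i 0 * u 0 0 + h i 1 * u 1 0 + h i 2 * u 2 0 at e1
  rw [← e1]
  have h1 := z2 hk.1
  have h2 := z2 hk.2
  push_cast
  change ((u i 0 : ℤ) : ZMod 2) * ((k 0 0 : ℤ) : ZMod 2) + ((u i 1 : ℤ) : ZMod 2) * ((k 1 0 : ℤ) : ZMod 2)
    + ((u i 2 : ℤ) : ZMod 2) * ((k 2 0 : ℤ) : ZMod 2) = _
  rw [h1, h2]
  ring

theorem row {u h : G} (hk : InQ (u⁻¹ * h * u)) : ∃ c : ZMod 2, ∀ j : Fin 3,
    (((u⁻¹ : G) 0 0 * h 0 j + (u⁻¹ : G) 0 1 * h 1 j + (u⁻¹ : G) 0 2 * h 2 j : ℤ) : ZMod 2)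
      = c * (((u⁻¹ : G) 0 j : ℤ) : ZMod 2) := by
  set k : G := u⁻¹ * h * u with hkdef
  set w : G := u⁻¹ with hw
  have e : (k : MZ) * (w : MZ) = (w : MZ) * (h : MZ) := by
    rw [← cm, ← cm, hkdef, hw, mul_assoc, mul_inv_cancel, mul_one]
  refine ⟨((k 0 0 : ℤ) : ZMod 2), fun j => ?_⟩
  have e1 := congrFun (congrFun e 0) j
  rw [Matrix.mul_apply, Matrix.mul_apply, Fin.sum_univ_three, Fin.sum_univ_three] at e1
  change _ = w 0 0 * h 0 j + w 0 1 * h 1 j + w 0 2 * h 2 j at e1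
  rw [← e1]
  have h1 := z2 hk.1
  have h2 := z2 hk.2
  push_cast
  change ((k 0 0 : ℤ) : ZMod 2) * ((w 0 j : ℤ) : ZMod 2) + ((k 0 1 : ℤ) : ZMod 2) * ((w 1 j : ℤ) : ZMod 2)
    + ((k 0 2 : ℤ) : ZMod 2) * ((w 2 j : ℤ) : ZMod 2) = _
  rw [h1, h2]
  ring

theorem keyP (u : G) (H : ∀ h : G, InQ h → InP (u⁻¹ * h * u)) : False := by
  have q12 : InQ a12 := ⟨by decide, by decide⟩
  have q21 : InQ a21 := ⟨by decide, by decide⟩
  have q10 : InQ a10 := ⟨by decide, by decide⟩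
  obtain ⟨c, hc⟩ := col (H a12 q12)
  obtain ⟨c', hc'⟩ := col (H a21 q21)
  obtain ⟨c'', hc''⟩ := col (H a10 q10)
  have key1 : ∀ c v1 v2 : ZMod 2, v1 + v2 = v1 * c → v2 = v2 * c → v2 = 0 := by decide
  have key2 : ∀ c v1 v0 : ZMod 2, v1 + v0 = v0 * c → v1 = v1 * c → v1 = 0 := by decide
  have x1 := hc 1
  have x2 := hc 2
  have y1 := hc' 1
  have y2 := hc' 2
  have w0 := hc'' 0
  have w1 := hc'' 1
  simp [a12] at x1 x2
  simp [a21] at y1 y2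
  simp [a10] at w0 w1
  have v2 : ((u 2 0 : ℤ) : ZMod 2) = 0 := by
    apply key1 c ((u 1 0 : ℤ) : ZMod 2) _
    · simpa using x1
    · simpa using x2
  have v1 : ((u 1 0 : ℤ) : ZMod 2) = 0 := by
    apply key1 c' ((u 2 0 : ℤ) : ZMod 2) _
    · rw [add_comm]; simpa using y2
    · simpa using y1
  have v0 : ((u 0 0 : ℤ) : ZMod 2) = 0 := by
    apply key1 c'' ((u 1 0 : ℤ) : ZMod 2) _
    · rw [add_comm]; simpa using w1
    · simpa using w0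
  have hd := cdet u
  rw [Matrix.det_fin_three] at hd
  have hd2 := congrArg (Int.cast : ℤ → ZMod 2) hd
  push_cast at hd2
  change ((u 0 0 : ℤ) : ZMod 2) * ((u 1 1 : ℤ) : ZMod 2) * ((u 2 2 : ℤ) : ZMod 2)
    - ((u 0 0 : ℤ) : ZMod 2) * ((u 1 2 : ℤ) : ZMod 2) * ((u 2 1 : ℤ) : ZMod 2)
    - ((u 0 1 : ℤ) : ZMod 2) * ((u 1 0 : ℤ) : ZMod 2) * ((u 2 2 : ℤ) : ZMod 2)
    + ((u 0 1 : ℤ) : ZMod 2) * ((u 1 2 : ℤ) : ZMod 2) * ((u 2 0 : ℤ) : ZMod 2)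
    + ((u 0 2 : ℤ) : ZMod 2) * ((u 1 0 : ℤ) : ZMod 2) * ((u 2 1 : ℤ) : ZMod 2)
    - ((u 0 2 : ℤ) : ZMod 2) * ((u 1 1 : ℤ) : ZMod 2) * ((u 2 0 : ℤ) : ZMod 2) = 1 at hd2
  rw [v0, v1, v2] at hd2
  simp at hd2

theorem keyQ (u : G) (H : ∀ h : G, InP h → InQ (u⁻¹ * h * u)) : False := by
  have q12 : InP a12 := ⟨by decide, by decide⟩
  have q21 : InP a21 := ⟨by decide, by decide⟩
  have q01 : InP a01 := ⟨by decide, by decide⟩
  obtain ⟨c, hc⟩ := row (H a12 q12)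
  obtain ⟨c', hc'⟩ := row (H a21 q21)
  obtain ⟨c'', hc''⟩ := row (H a01 q01)
  have key1 : ∀ c v1 v2 : ZMod 2, v1 + v2 = c * v1 → v2 = c * v2 → v2 = 0 := by decide
  have x1 := hc 1
  have x2 := hc 2
  have y1 := hc' 1
  have y2 := hc' 2
  have w0 := hc'' 0
  have w1 := hc'' 1
  set w : G := u⁻¹ with hw
  have v1 : ((w 0 1 : ℤ) : ZMod 2) = 0 := by
    apply key1 c ((w 0 2 : ℤ) : ZMod 2) _
    · simpa [a12, add_comm] using x2
    · simpa [a12] using x1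
  have v2 : ((w 0 2 : ℤ) : ZMod 2) = 0 := by
    apply key1 c' ((w 0 1 : ℤ) : ZMod 2) _
    · simpa [a21] using y1
    · simpa [a21] using y2
  have v0 : ((w 0 0 : ℤ) : ZMod 2) = 0 := by
    apply key1 c'' ((w 0 1 : ℤ) : ZMod 2) _
    · simpa [a01, add_comm] using w1
    · simpa [a01] using w0
  have hd := cdet w
  rw [Matrix.det_fin_three] at hd
  have hd2 := congrArg (Int.cast : ℤ → ZMod 2) hd
  push_cast at hd2
  change ((w 0 0 : ℤ) : ZMod 2) * ((w 1 1 : ℤ) : ZMod 2) * ((w 2 2 : ℤ) : ZMod 2)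
    - ((w 0 0 : ℤ) : ZMod 2) * ((w 1 2 : ℤ) : ZMod 2) * ((w 2 1 : ℤ) : ZMod 2)
    - ((w 0 1 : ℤ) : ZMod 2) * ((w 1 0 : ℤ) : ZMod 2) * ((w 2 2 : ℤ) : ZMod 2)
    + ((w 0 1 : ℤ) : ZMod 2) * ((w 1 2 : ℤ) : ZMod 2) * ((w 2 0 : ℤ) : ZMod 2)
    + ((w 0 2 : ℤ) : ZMod 2) * ((w 1 0 : ℤ) : ZMod 2) * ((w 2 1 : ℤ) : ZMod 2)
    - ((w 0 2 : ℤ) : ZMod 2) * ((w 1 1 : ℤ) : ZMod 2) * ((w 2 0 : ℤ) : ZMod 2) = 1 at hd2
  rw [v0, v1, v2] at hd2
  simp at hd2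

/-- from a word of length two to one letter -/
theorem letter {σ : G →* Equiv.Perm (List (Fin 7))} {α : G →* Equiv.Perm (Fin 7)}
    (h1 : ∀ (g : G) (x : Fin 7), σ g [x] = [α g x])
    (h2 : ∀ (g : G) (x : Fin 7), ∃ h : G, ∀ w : List (Fin 7), σ g (x :: w) = α g x :: σ h w)
    (htr : LetterTransitive σ) (y a b : Fin 7) (hab : ∀ g : G, σ g [a] = [a] → σ g [a, b] = [a, b]) :
    ∃ u : G, ∀ g h : G, α g y = y → Section σ y g h → α (u⁻¹ * h * u) y = y := by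
  obtain ⟨t, ht⟩ := htr y a
  have ht' : α t y = a := by
    rw [h1] at ht
    exact (List.cons.inj ht).1
  obtain ⟨s, hs⟩ := h2 t y
  rw [ht'] at hs
  obtain ⟨u, hu⟩ := htr y (α s⁻¹ b)
  have hu' : α u y = α s⁻¹ b := by
    rw [h1] at hu
    exact (List.cons.inj hu).1
  refine ⟨u, fun g h hg hsec => ?_⟩
  have e1 : σ t [y, α s⁻¹ b] = [a, b] := by
    rw [hs, h1, map_inv, Equiv.Perm.inv_def, Equiv.apply_symm_apply]
  have e2 : σ (t * g * t⁻¹) [a] = [a] := by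
    rw [h1, map_mul, map_mul, map_inv, Equiv.Perm.mul_apply, Equiv.Perm.mul_apply]
    have : (α t)⁻¹ a = y := by
      rw [Equiv.Perm.inv_eq_iff_eq, ht']
    rw [this, hg, ht']
  have e3 := hab _ e2
  rw [map_mul, map_mul, map_inv, Equiv.Perm.mul_apply, Equiv.Perm.mul_apply] at e3
  have e4 : (σ t)⁻¹ [a, b] = [y, α s⁻¹ b] := by
    rw [Equiv.Perm.inv_eq_iff_eq, e1]
  rw [e4, ← e1] at e3
  have e5 := (σ t).injective e3
  rw [hsec, h1] at e5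
  have e6 : α h (α s⁻¹ b) = α s⁻¹ b := by
    have := (List.cons.inj e5).2
    exact (List.cons.inj this).1
  rw [map_mul, map_mul, map_inv, Equiv.Perm.mul_apply, Equiv.Perm.mul_apply, hu', e6,
    Equiv.Perm.inv_eq_iff_eq, hu']

end IV2M

open IV2M in
theorem specIV2 (hLET : SpecLET) (hDOM : SpecDOM) : SpecIV2 := by
  obtain ⟨d1, d2, d3, d4, d5, d6, d7, d8⟩ := hDOM
  constructor
  · rintro ρ x (⟨hx, hsec⟩ | ⟨hx, hsec⟩)
    · refine ⟨x, x, fun g hg => ?_⟩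
      have hP : InP g := (hx g).1 hg
      obtain ⟨h, hh⟩ := (d2 (th g)).2 ((d4 g).2 hP)
      have h1 : ρ h [x] = [x] := (hx h).2 (d6 _ _ hh)
      have h2 := hsec g h hh [x]
      rw [h1] at h2
      exact h2
    · refine ⟨x, x, fun g hg => ?_⟩
      have hQ : InQ g := (hx g).1 hg
      obtain ⟨h, hh⟩ := (d1 (th g)).2 ((d3 g).2 hQ)
      have h1 : ρ h [x] = [x] := (hx h).2 (d5 _ _ hh)
      have h2 := hsec g h hh [x]
      rw [h1] at h2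
      exact h2
  · intro σ y hself htr hor a b
    by_contra hcon
    push Not at hcon
    obtain ⟨-, α, h1, h2⟩ := hLET 7 σ hself
    have hfix : ∀ g : G, σ g [y] = [y] ↔ α g y = y := by
      intro g
      rw [h1]
      constructor
      · intro h; exact (List.cons.inj h).1
      · intro h; rw [h]
    obtain ⟨u, hu⟩ := letter h1 h2 htr y a b hcon
    rcases hor with ⟨hx, hsec⟩ | ⟨hx, hsec⟩
    · apply keyP u
      intro h hh
      obtain ⟨g, hg⟩ := d7 h hh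
      have hP : InP g := (d1 g).1 ⟨h, hg⟩
      have h3 := hu g h ((hfix g).1 ((hx g).2 hP)) (hsec g h hg)
      exact (hx _).1 ((hfix _).2 h3)
    · apply keyQ u
      intro h hh
      obtain ⟨g, hg⟩ := d8 h hh
      have hQ : InQ g := (d2 g).1 ⟨h, hg⟩
      have h3 := hu g h ((hfix g).1 ((hx g).2 hQ)) (hsec g h hg)
      exact (hx _).1 ((hfix _).2 h3)

end Pool.Agent.Lib.MP8519b0
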