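import Pool.Agent.Lib.MP_8519b0_al.Spec3

/-!
# MP_8519b0_al: module IV3 (an invariant of the equivalence)
-/

set_option autoImplicit false

namespace Pool.Agent.Lib.MP8519b0

namespace IV3M

theorem treeAut_symm {m : ℕ} (T : Equiv.Perm (List (Fin m))) (hT : TreeAut T) : TreeAut T.symm := by
  have hl : ∀ u, (T.symm u).length = u.length := by
    intro u
    have := (hT (T.symm u) []).1
    rw [Equiv.apply_symm_apply] at this
    exact this.symm
  intro u v
  refine ⟨hl u, ?_⟩
  set w := T.symm (u ++ v) with hw
  have hTw : T w = u ++ v := by rw [hw, Equiv.apply_symm_apply]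
  have hlen : w.length = u.length + v.length := by
    rw [hw, hl, List.length_append]
  have h1 : T (w.take u.length) <+: u ++ v := by
    have := (hT (w.take u.length) (w.drop u.length)).2
    rwa [List.take_append_drop, hTw] at this
  have h2 : (T (w.take u.length)).length = u.length := by
    rw [(hT (w.take u.length) []).1, List.length_take]
    omega
  have h3 : T (w.take u.length) = u := by
    have h4 := List.prefix_iff_eq_take.1 h1
    rw [h2, List.take_left'] at h4
    · exact h4
    · rfl
  have h5 : T.symm u = w.take u.length := by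
    rw [Equiv.symm_apply_eq]
    exact h3.symm
  rw [h5]
  exact List.take_prefix _ _

theorem one {m : ℕ} (ρ σ : G →* Equiv.Perm (List (Fin m))) (T : Equiv.Perm (List (Fin m)))
    (hT : TreeAut T) (h : ∀ (g : G) (w : List (Fin m)), T (ρ g w) = σ g (T w))
    (hab : ∃ a b : Fin m, ∀ g : G, ρ g [a] = [a] → ρ g [a, b] = [a, b]) :
    ∃ a b : Fin m, ∀ g : G, σ g [a] = [a] → σ g [a, b] = [a, b] := by
  obtain ⟨a, b, hab⟩ := hab
  have l1 : (T [a]).length = 1 := (hT [a] []).1
  have l2 : (T [a, b]).length = 2 := (hT [a, b] []).1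
  have hp : T [a] <+: T [a, b] := (hT [a] [b]).2
  obtain ⟨a', ha'⟩ := List.length_eq_one_iff.1 l1
  obtain ⟨c, b', hb'⟩ := List.length_eq_two.1 l2
  rw [ha', hb'] at hp
  have hc : a' = c := by
    obtain ⟨t, ht⟩ := hp
    simp only [List.cons_append, List.nil_append, List.cons.injEq] at ht
    exact ht.1
  subst hc
  refine ⟨a', b', fun g hg => ?_⟩
  have h1 : ρ g [a] = [a] := by
    apply T.injective
    rw [h, ha', hg]
  rw [← hb', ← h, hab g h1]

end IV3M

open IV3M in
theorem specIV3 : SpecIV3 := by
  intro m ρ σ hE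
  obtain ⟨T, hT, h⟩ := hE
  constructor
  · exact one ρ σ T hT h
  · refine one σ ρ T.symm (treeAut_symm T hT) ?_
    intro g w
    rw [Equiv.symm_apply_eq, h, Equiv.apply_symm_apply]

end Pool.Agent.Lib.MP8519b0
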