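import Pool.Agent.Lib.MP_8519b0_al.Spec3

/-! # MP_8519b0_al, module LIN: a singular matrix mod `p` gives an invariant line -/

set_option autoImplicit false

namespace Pool.Agent.Lib.MP8519b0

namespace LINM

open Matrix Module

variable (p : ℕ) [Fact p.Prime]

/-- reduction mod `p` of a matrix -/
def rd (A : MZ) : Matrix (Fin 3) (Fin 3) (ZMod p) := A.map (Int.cast : ℤ → ZMod p)

lemma rd_mul (A B : MZ) : rd p (A * B) = rd p A * rd p B := by
  unfold rd
  exact Matrix.map_mul (f := Int.castRingHom (ZMod p))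

lemma rd_one : rd p (1 : MZ) = 1 := by
  unfold rd
  exact Matrix.map_one _ Int.cast_zero Int.cast_one

lemma rd_det (A : MZ) : (rd p A).det = ((A.det : ℤ) : ZMod p) := by
  have h := RingHom.map_det (Int.castRingHom (ZMod p)) A
  exact h.symm

lemma rd_transpose (A : MZ) : rd p A.transpose = (rd p A).transpose := rfl

lemma red_eq (g : G) : red p g = rd p (g : MZ) := rfl

lemma key (B : Matrix (Fin 3) (Fin 3) (ZMod p)) (h0 : B ≠ 0) (hd : B.det = 0) :
    (∃ v : Fin 3 → ZMod p, v ≠ 0 ∧ B *ᵥ v = 0 ∧ ∀ w, B *ᵥ w = 0 → ∃ c : ZMod p, w = c • v) ∨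
    (∃ y : Fin 3 → ZMod p, B.transpose *ᵥ y ≠ 0 ∧ ∀ z, ∃ c : ZMod p, B.transpose *ᵥ z = c • (B.transpose *ᵥ y)) := by
  have hsum := LinearMap.finrank_range_add_finrank_ker B.mulVecLin
  rw [Module.finrank_fin_fun] at hsum
  have hker : 0 < finrank (ZMod p) (LinearMap.ker B.mulVecLin) := by
    obtain ⟨v, hv, hBv⟩ := Matrix.exists_mulVec_eq_zero_iff.mpr hd
    rw [Module.finrank_pos_iff_exists_ne_zero]
    refine ⟨⟨v, ?_⟩, fun h => hv (congrArg Subtype.val h)⟩
    rw [LinearMap.mem_ker]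
    exact hBv
  have hran : 0 < finrank (ZMod p) (LinearMap.range B.mulVecLin) := by
    by_contra hh
    have h1 : finrank (ZMod p) (LinearMap.range B.mulVecLin) = 0 := by omega
    rw [Submodule.finrank_eq_zero, LinearMap.range_eq_bot] at h1
    apply h0
    have h2 : B.mulVecLin = (0 : Matrix (Fin 3) (Fin 3) (ZMod p)).mulVecLin := by
      rw [h1, Matrix.mulVecLin_zero]
    exact Matrix.mulVec_injective (by
      funext v
      have := congrArg (fun l => l v) h2
      exact this)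
  have hcases : finrank (ZMod p) (LinearMap.ker B.mulVecLin) = 1 ∨
      finrank (ZMod p) (LinearMap.range B.mulVecLin) = 1 := by omega
  rcases hcases with hc | hc
  · left
    obtain ⟨⟨v, hvk⟩, hv, hs⟩ := finrank_eq_one_iff'.mp hc
    refine ⟨v, fun h => hv (Subtype.ext h), (LinearMap.mem_ker.mp hvk : _), fun w hw => ?_⟩
    obtain ⟨c, hcw⟩ := hs ⟨w, LinearMap.mem_ker.mpr hw⟩
    exact ⟨c, (congrArg Subtype.val hcw).symm⟩
  · right
    have hr : finrank (ZMod p) (LinearMap.range B.transpose.mulVecLin) = 1 := by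
      have h1 := Matrix.rank_transpose B
      unfold Matrix.rank at h1
      rw [h1, hc]
    obtain ⟨⟨v, hvk⟩, hv, hs⟩ := finrank_eq_one_iff'.mp hr
    obtain ⟨y, hy⟩ := LinearMap.mem_range.mp hvk
    refine ⟨y, ?_, fun z => ?_⟩
    · intro h
      apply hv
      apply Subtype.ext
      exact hy.symm.trans h
    · obtain ⟨c, hcw⟩ := hs ⟨B.transpose.mulVecLin z, LinearMap.mem_range.mpr ⟨z, rfl⟩⟩
      refine ⟨c, ?_⟩
      have h1 := congrArg Subtype.val hcw
      have h2 : B.transpose *ᵥ y = v := hy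
      rw [h2]
      exact h1.symm

end LINM

open LINM Matrix in
theorem specLIN : SpecLIN := by
  intro A p _ hdet hne
  have h0 : rd p A ≠ 0 := by
    intro h
    obtain ⟨i, j, hij⟩ := hne
    apply hij
    have h1 : rd p A i j = 0 := by rw [h]; rfl
    exact (ZMod.intCast_zmod_eq_zero_iff_dvd _ _).mp h1
  have hd : (rd p A).det = 0 := by
    rw [rd_det]
    exact (ZMod.intCast_zmod_eq_zero_iff_dvd _ _).mpr hdet
  have hinv : ∀ g : G, red p g * red p g⁻¹ = 1 := by
    intro g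
    have h1 : (g : MZ) * ((g⁻¹ : G) : MZ) = 1 := by
      have h3 : ((g * g⁻¹ : G) : MZ) = ((1 : G) : MZ) := by rw [mul_inv_cancel]
      exact h3
    rw [red_eq, red_eq, ← rd_mul, h1, rd_one]
  have hcom : ∀ g h : G, (h : MZ) * A = A * (g : MZ) → red p h * rd p A = rd p A * red p g := by
    intro g h hh
    rw [red_eq, red_eq, ← rd_mul, ← rd_mul, hh]
  rcases key p (rd p A) h0 hd with ⟨v, hv, hBv, hs⟩ | ⟨y, hy, hs⟩
  · refine ⟨v, hv, Or.inl fun g h hh => ?_⟩
    obtain ⟨c, hc⟩ := hs ((red p g).mulVec v) (by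
      rw [Matrix.mulVec_mulVec, ← hcom g h hh, ← Matrix.mulVec_mulVec, hBv, Matrix.mulVec_zero])
    exact ⟨c, hc⟩
  · refine ⟨(rd p A).transpose *ᵥ y, hy, Or.inr fun g h hh => ?_⟩
    obtain ⟨w, hw⟩ : ∃ w, w = (rd p A).transpose *ᵥ y := ⟨_, rfl⟩
    obtain ⟨c, hc⟩ := hs ((red p h).transpose *ᵥ y)
    have h1 : (red p g).transpose *ᵥ w = c • w := by
      rw [hw, Matrix.mulVec_mulVec, ← Matrix.transpose_mul, ← hcom g h hh, Matrix.transpose_mul,
        ← Matrix.mulVec_mulVec, hc]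
    have h2 : (red p (th g)) = (red p g⁻¹).transpose := rfl
    have h3 : (red p (th g)) *ᵥ ((red p g).transpose *ᵥ w) = w := by
      rw [h2, Matrix.mulVec_mulVec, ← Matrix.transpose_mul, hinv, Matrix.transpose_one, Matrix.one_mulVec]
    rw [h1, Matrix.mulVec_smul] at h3
    rw [← hw]
    have hw0 : w ≠ 0 := by rw [hw]; exact hy
    have hc0 : c ≠ 0 := by
      rintro rfl
      rw [zero_smul] at h3
      exact hw0 h3.symm
    refine ⟨c⁻¹, ?_⟩
    calc red p (th g) *ᵥ w = c⁻¹ • (c • (red p (th g) *ᵥ w)) := by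
          rw [smul_smul, inv_mul_cancel₀ hc0, one_smul]
      _ = c⁻¹ • w := by rw [h3]

end Pool.Agent.Lib.MP8519b0
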