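import Pool.Agent.Lib.MP_8519b0_al.Spec3

/-!
# MP_8519b0_al, module LIX: the index of the stabiliser of a letter (helper64)
-/

set_option autoImplicit false

namespace Pool.Agent.Lib.MP8519b0

theorem specLIX (hLET : SpecLET) : SpecLIX := by
  intro m ρ hρ x H hH
  obtain ⟨-, α, hα, -⟩ := hLET m ρ hρ
  letI act : MulAction G (Fin m) := MulAction.compHom (Fin m) α
  have hsm : ∀ (g : G) (y : Fin m), g • y = α g y := fun g y => rfl
  have hHs : H = MulAction.stabilizer G x := by
    ext g
    rw [hH g, MulAction.mem_stabilizer_iff, hsm, hα g x]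
    simp
  have hidx : H.index = (MulAction.orbit G x).ncard := by
    rw [hHs]
    exact MulAction.index_stabilizer G x
  have huniv : (Set.univ : Set (Fin m)).ncard = m := by
    rw [Set.ncard_univ, Nat.card_eq_fintype_card, Fintype.card_fin]
  refine ⟨?_, ?_, ?_, ?_⟩
  · rw [hidx]
    have h1 : 0 < (MulAction.orbit G x).ncard :=
      (Set.ncard_pos (Set.toFinite _)).mpr ⟨x, MulAction.mem_orbit_self x⟩
    omega
  · rw [hidx]
    calc (MulAction.orbit G x).ncard ≤ (Set.univ : Set (Fin m)).ncard :=
          Set.ncard_le_ncard (Set.subset_univ _) (Set.toFinite _)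
      _ = m := huniv
  · intro h y z
    have ho : MulAction.orbit G x = Set.univ := by
      apply Set.eq_of_subset_of_ncard_le (Set.subset_univ _) _ (Set.toFinite _)
      rw [huniv, ← hidx, h]
    have hy : y ∈ MulAction.orbit G x := by rw [ho]; trivial
    have hz : z ∈ MulAction.orbit G x := by rw [ho]; trivial
    obtain ⟨g, hg⟩ := hy
    obtain ⟨k, hk⟩ := hz
    have hg' : α g x = y := hg
    have hk' : α k x = z := hk
    refine ⟨k * g⁻¹, ?_⟩
    have e : (α (k * g⁻¹)) y = z := by
      rw [map_mul, map_inv, Equiv.Perm.mul_apply, ← hg']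
      have : (α g)⁻¹ ((α g) x) = x := by simp
      rw [this, hk']
    rw [hα, e]
  · intro h
    have ho : MulAction.orbit G x = Set.univ := by
      apply Set.eq_univ_of_forall
      intro y
      obtain ⟨g, hg⟩ := h x y
      rw [hα g x] at hg
      have hg2 : α g x = y := by simpa using hg
      exact ⟨g, hg2⟩
    rw [hidx, ho, huniv]

end Pool.Agent.Lib.MP8519b0
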