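import Pool.Agent.Lib.MP_8519b0_al.Spec3

/-!
# MP_8519b0_al: module NFP (helper74)

Matrices conjugating the stabiliser `P` of a point mod `2` into `SL_3(Z)`.
-/

set_option autoImplicit false

namespace Pool.Agent.Lib.MP8519b0

namespace NFPM

theorem el_coe {i j : Fin 3} (h : i ≠ j) (c : ℤ) :
    ((el i j c : G) : MZ) = 1 + Matrix.single i j c := by
  unfold el
  rw [dif_pos h]
  rfl

/-- divisibility from an elementary matrix -/
theorem key (A : MZ) (i j : Fin 3) (t : ℤ) (h : MZ)
    (hh : h * A = A * (1 + Matrix.single i j t)) (a b : Fin 3) :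
    A.det ∣ t * (A a i * A.adjugate j b) := by
  have h1 : A.det • h = A.det • (1 : MZ) + A * Matrix.single i j t * A.adjugate := by
    calc A.det • h = h * (A * A.adjugate) := by rw [Matrix.mul_adjugate, mul_smul_comm, mul_one]
      _ = (h * A) * A.adjugate := by rw [mul_assoc]
      _ = A.det • (1 : MZ) + A * Matrix.single i j t * A.adjugate := by
          rw [hh, mul_add, mul_one, add_mul, Matrix.mul_adjugate]
  have h2 := congrFun (congrFun h1 a) b
  have h3 : (A * Matrix.single i j t * A.adjugate) a b = t * (A a i * A.adjugate j b) := by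
    rw [Matrix.mul_apply, Finset.sum_eq_single j]
    · rw [Matrix.mul_single_apply_same]
      ring
    · intro c _ hc
      rw [Matrix.mul_single_apply_of_ne (hbj := hc), zero_mul]
    · intro hj
      exact absurd (Finset.mem_univ _) hj
  rw [Matrix.smul_apply, Matrix.add_apply, Matrix.smul_apply, h3, smul_eq_mul, smul_eq_mul] at h2
  exact ⟨h a b - (1 : MZ) a b, by linarith⟩

/-- composition -/
theorem tr (A : MZ) (hd : A.det ≠ 0) (i j k : Fin 3) (s t : ℤ)
    (h1 : ∀ a c, A.det ∣ s * (A a i * A.adjugate j c))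
    (h2 : ∀ c b, A.det ∣ t * (A c j * A.adjugate k b)) (a b : Fin 3) :
    A.det ∣ (s * t) * (A a i * A.adjugate k b) := by
  have h3 : ∑ c, A.adjugate j c * A c j = A.det := by
    have h4 := congrFun (congrFun (Matrix.adjugate_mul A) j) j
    rw [Matrix.mul_apply, Matrix.smul_apply, Matrix.one_apply_eq, smul_eq_mul, mul_one] at h4
    exact h4
  have e : A.det * ((s * t) * (A a i * A.adjugate k b)) =
      ∑ c, (s * (A a i * A.adjugate j c)) * (t * (A c j * A.adjugate k b)) := by
    rw [← h3, Finset.sum_mul]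
    exact Finset.sum_congr rfl fun c _ => by ring
  have h5 : A.det * A.det ∣ A.det * ((s * t) * (A a i * A.adjugate k b)) := by
    rw [e]
    exact Finset.dvd_sum fun c _ => mul_dvd_mul (h1 a c) (h2 c b)
  exact (mul_dvd_mul_iff_left hd).1 h5

theorem prim (A : MZ) (hP : PrimM A) (d z : ℤ) (hd : d ≠ 0) (h : ∀ a i, d ∣ A a i * z) :
    d ∣ z := by
  have hg0 : 0 < Int.gcd d z := Int.gcd_pos_of_ne_zero_left z hd
  obtain ⟨m', n', hg, hm, hn⟩ := Int.exists_gcd_one hg0
  have hgz : (Int.gcd d z : ℤ) ≠ 0 := by exact_mod_cast hg0.ne'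
  have h1 : ∀ a i, m' ∣ A a i := by
    intro a i
    have h2 : m' * (Int.gcd d z : ℤ) ∣ (A a i * n') * (Int.gcd d z : ℤ) := by
      rw [mul_assoc, ← hm, ← hn]
      exact h a i
    have h3 : m' ∣ A a i * n' := (mul_dvd_mul_iff_right hgz).1 h2
    exact (Int.isCoprime_iff_gcd_eq_one.2 hg).dvd_of_dvd_mul_right h3
  by_cases hu : m'.natAbs = 1
  · have h4 : IsUnit m' := Int.isUnit_iff_natAbs_eq.2 hu
    have h5 : m' * (Int.gcd d z : ℤ) ∣ (Int.gcd d z : ℤ) := by
      rw [h4.mul_left_dvd]
    rw [← hm] at h5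
    exact h5.trans (Int.gcd_dvd_right d z)
  · exfalso
    obtain ⟨p, hp, hpd⟩ := Nat.exists_prime_and_dvd hu
    obtain ⟨i, j, hij⟩ := hP p hp
    exact hij ((Int.natCast_dvd.2 hpd).trans (h1 i j))

theorem row' (A : MZ) (a b : Fin 3) : A.det ∣
    A a 0 * A.adjugate 0 b + A a 1 * A.adjugate 1 b + A a 2 * A.adjugate 2 b := by
  have h4 := congrFun (congrFun (Matrix.mul_adjugate A) a) b
  rw [Matrix.mul_apply, Fin.sum_univ_three, Matrix.smul_apply, smul_eq_mul] at h4
  rw [h4]
  exact dvd_mul_right _ _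

end NFPM

open NFPM in
/-- **NFP**. -/
theorem specNFP : SpecNFP := by
  intro A hP hd hu hall
  have hel : ∀ (i j : Fin 3) (t : ℤ), i ≠ j → InP (el i j t) →
      ∀ a b, A.det ∣ t * (A a i * A.adjugate j b) := by
    intro i j t hij hI a b
    obtain ⟨h, hh⟩ := hall (el i j t) hI
    rw [el_coe hij] at hh
    exact key A i j t h hh a b
  have inP : ∀ (i j : Fin 3) (t : ℤ) (hij : i ≠ j), (2 : ℤ) ∣ (1 + Matrix.single i j t : MZ) 1 0 →
      (2 : ℤ) ∣ (1 + Matrix.single i j t : MZ) 2 0 → InP (el i j t) := by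
    intro i j t hij h1 h2
    constructor
    · change (2 : ℤ) ∣ ((el i j t : G) : MZ) 1 0
      rw [el_coe hij]
      exact h1
    · change (2 : ℤ) ∣ ((el i j t : G) : MZ) 2 0
      rw [el_coe hij]
      exact h2
  have h01 := hel 0 1 1 (by decide) (inP 0 1 1 (by decide) (by simp) (by simp))
  have h02 := hel 0 2 1 (by decide) (inP 0 2 1 (by decide) (by simp) (by simp))
  have h12 := hel 1 2 1 (by decide) (inP 1 2 1 (by decide) (by simp) (by simp))
  have h21 := hel 2 1 1 (by decide) (inP 2 1 1 (by decide) (by simp) (by simp))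
  have h10 := hel 1 0 2 (by decide) (inP 1 0 2 (by decide) (by simp) (by simp))
  have h20 := hel 2 0 2 (by decide) (inP 2 0 2 (by decide) (by simp) (by simp))
  have h11 := tr A hd 1 2 1 1 1 h12 h21
  have h22 := tr A hd 2 1 2 1 1 h21 h12
  simp only [one_mul, mul_one] at h01 h02 h12 h21 h11 h22
  have hC1 : ∀ b, A.det ∣ A.adjugate 1 b := by
    intro b
    apply prim A hP A.det _ hd
    intro a i
    fin_cases i
    · exact h01 a b
    · exact h11 a b
    · exact h21 a b
  have hC2 : ∀ b, A.det ∣ A.adjugate 2 b := by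
    intro b
    apply prim A hP A.det _ hd
    intro a i
    fin_cases i
    · exact h02 a b
    · exact h12 a b
    · exact h22 a b
  have h00 : ∀ a b, A.det ∣ A a 0 * A.adjugate 0 b := by
    intro a b
    have h := row' A a b
    have h1 := h11 a b
    have h2 := h22 a b
    have h3 : A a 0 * A.adjugate 0 b = (A a 0 * A.adjugate 0 b + A a 1 * A.adjugate 1 b +
        A a 2 * A.adjugate 2 b) - A a 1 * A.adjugate 1 b - A a 2 * A.adjugate 2 b := by ring
    rw [h3]
    exact (h.sub h1).sub h2
  have hC0 : ∀ b, A.det ∣ 2 * A.adjugate 0 b := by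
    intro b
    apply prim A hP A.det _ hd
    intro a i
    fin_cases i
    · have h := (h00 a b).mul_left 2
      change A.det ∣ A a 0 * (2 * A.adjugate 0 b)
      rwa [mul_left_comm]
    · have h := h10 a b
      change A.det ∣ A a 1 * (2 * A.adjugate 0 b)
      rwa [mul_left_comm]
    · have h := h20 a b
      change A.det ∣ A a 2 * (2 * A.adjugate 0 b)
      rwa [mul_left_comm]
  have hV : ∀ i b : Fin 3, ∃ v : ℤ, (D1 * A.adjugate) i b = A.det * v := by
    intro i b
    unfold D1
    rw [Matrix.diagonal_mul]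
    fin_cases i
    · exact hC0 b
    · obtain ⟨v, hv⟩ := hC1 b
      exact ⟨v, by
        change 1 * A.adjugate 1 b = A.det * v
        rw [one_mul, hv]⟩
    · obtain ⟨v, hv⟩ := hC2 b
      exact ⟨v, by
        change 1 * A.adjugate 2 b = A.det * v
        rw [one_mul, hv]⟩
  choose V hV using hV
  have hVA : (D1 : MZ) = (Matrix.of V) * A := by
    have h1 : D1 * A.adjugate = A.det • (Matrix.of V : MZ) := by
      ext i b
      rw [hV, Matrix.smul_apply, smul_eq_mul]
      rfl
    have h2 : A.det • (D1 : MZ) = A.det • ((Matrix.of V) * A) := by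
      calc A.det • (D1 : MZ) = D1 * (A.adjugate * A) := by
            rw [Matrix.adjugate_mul, mul_smul_comm, mul_one]
        _ = (D1 * A.adjugate) * A := by rw [mul_assoc]
        _ = A.det • ((Matrix.of V) * A) := by rw [h1, smul_mul_assoc]
    exact smul_right_injective _ hd h2
  have hdet : (2 : ℤ) = (Matrix.of V : MZ).det * A.det := by
    have h1 := congrArg Matrix.det hVA
    rw [Matrix.det_mul] at h1
    rw [← h1]
    unfold D1
    rw [Matrix.det_diagonal, Fin.prod_univ_three]
    rfl
  have hVu : IsUnit (Matrix.of V : MZ).det := by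
    rcases Int.prime_two.irreducible.isUnit_or_isUnit hdet with h | h
    · exact h
    · exact absurd h hu
  refine ⟨(Matrix.of V : MZ)⁻¹, Matrix.isUnit_nonsing_inv_det _ hVu, ?_⟩
  rw [hVA, ← mul_assoc, Matrix.nonsing_inv_mul _ hVu, one_mul]

end Pool.Agent.Lib.MP8519b0
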