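import Pool.Agent.Lib.MP_8519b0_al.Spec3

/-!
# Module NFQ: matrices conjugating `Q` into `SL_3(Z)`
-/

set_option autoImplicit false

namespace Pool.Agent.Lib.MP8519b0

namespace NFQM

open Matrix

theorem key {A : MZ} {i j : Fin 3} {c : ℤ} {h : MZ} (e : h * A = A * transvection i j c)
    (a b : Fin 3) : A.det ∣ c * (A a i * A.adjugate j b) := by
  have e1 : h * A * A.adjugate = A * transvection i j c * A.adjugate := by rw [e]
  rw [Matrix.mul_assoc, Matrix.mul_adjugate, Matrix.mul_smul, Matrix.mul_one, transvection,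
    Matrix.mul_add, Matrix.mul_one, Matrix.add_mul, Matrix.mul_adjugate] at e1
  have e2 := congrFun (congrFun e1 a) b
  rw [Matrix.add_apply, Matrix.smul_apply, Matrix.smul_apply, smul_eq_mul, smul_eq_mul] at e2
  have e3 : (A * Matrix.single i j c * A.adjugate) a b = c * (A a i * A.adjugate j b) := by
    rw [Matrix.mul_apply, Finset.sum_eq_single j]
    · rw [Matrix.mul_single_apply_same]
      ring
    · intro k _ hk
      rw [Matrix.mul_single_apply_of_ne _ _ _ _ _ hk]
      ring
    · intro hk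
      exact absurd (Finset.mem_univ j) hk
  rw [e3] at e2
  exact ⟨h a b - (1 : MZ) a b, by linear_combination -e2⟩

theorem prd {A : MZ} (hd : A.det ≠ 0) {i k : Fin 3}
    (h1 : ∀ a b, A.det ∣ A a i * A.adjugate k b) (h2 : ∀ a b, A.det ∣ A a k * A.adjugate i b)
    (a b : Fin 3) : A.det ∣ A a i * A.adjugate i b := by
  choose X hX using h1
  choose Y hY using h2
  have h3 := congrFun (congrFun (Matrix.adjugate_mul A) k) k
  rw [Matrix.mul_apply, Matrix.smul_apply, Matrix.one_apply_eq, smul_eq_mul, mul_one] at h3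
  refine ⟨∑ c, X a c * Y c b, ?_⟩
  apply mul_left_cancel₀ hd
  calc A.det * (A a i * A.adjugate i b)
      = (∑ c, A.adjugate k c * A c k) * (A a i * A.adjugate i b) := by rw [h3]
    _ = ∑ c, (A a i * A.adjugate k c) * (A c k * A.adjugate i b) := by
        rw [Finset.sum_mul]
        exact Finset.sum_congr rfl fun c _ => by ring
    _ = ∑ c, (A.det * X a c) * (A.det * Y c b) :=
        Finset.sum_congr rfl fun c _ => by rw [hX, hY]
    _ = A.det * (A.det * ∑ c, X a c * Y c b) := by
        rw [Finset.mul_sum, Finset.mul_sum]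
        exact Finset.sum_congr rfl fun c _ => by ring

theorem prim {A : MZ} (hA : PrimM A) {d z : ℤ} (hd : d ≠ 0) (h : ∀ a i, d ∣ A a i * z) :
    d ∣ z := by
  have hg : 0 < Int.gcd d z := Int.gcd_pos_of_ne_zero_left _ hd
  obtain ⟨d', z', h1, h2, h3⟩ := Int.exists_gcd_one hg
  have hg0 : ((Int.gcd d z : ℕ) : ℤ) ≠ 0 := by exact_mod_cast hg.ne'
  generalize hgg : ((Int.gcd d z : ℕ) : ℤ) = g at h2 h3 hg0
  have h4 : ∀ a i, d' ∣ A a i := by
    intro a i
    have h5 := h a i
    rw [h2, h3, ← mul_assoc] at h5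
    have h6 : d' ∣ A a i * z' := Int.dvd_of_mul_dvd_mul_right hg0 h5
    exact (Int.isCoprime_iff_gcd_eq_one.2 h1).dvd_of_dvd_mul_right h6
  have h5 : IsUnit d' := by
    by_contra hu
    rw [Int.isUnit_iff_natAbs_eq] at hu
    obtain ⟨p, hp, hpd⟩ := Nat.exists_prime_and_dvd hu
    obtain ⟨i, j, hij⟩ := hA p hp
    exact hij ((Int.natCast_dvd.2 hpd).trans (h4 i j))
  rw [h2, h3]
  exact mul_dvd_mul (h5.dvd) (dvd_refl _)

theorem cancel {A B C : MZ} (hA : A.det ≠ 0) (h : B * A = C * A) : B = C := by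
  have h1 : B * A * A.adjugate = C * A * A.adjugate := by rw [h]
  rw [Matrix.mul_assoc, Matrix.mul_assoc, Matrix.mul_adjugate, Matrix.mul_smul, Matrix.mul_smul,
    Matrix.mul_one, Matrix.mul_one] at h1
  ext i j
  have h2 := congrFun (congrFun h1 i) j
  simp only [Matrix.smul_apply, smul_eq_mul] at h2
  exact mul_left_cancel₀ hA h2

theorem D2_det : D2.det = 4 := by
  rw [D2, Matrix.det_diagonal, Fin.prod_univ_three]
  rfl

end NFQM

open NFQM Matrix in
theorem specNFQ : SpecNFQ := by
  intro A hP hd hu hQ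
  have tr : ∀ (i j : Fin 3) (c : ℤ), i ≠ j → (2 : ℤ) ∣ (transvection i j c : MZ) 0 1 →
      (2 : ℤ) ∣ (transvection i j c : MZ) 0 2 →
      ∀ a b, A.det ∣ c * (A a i * A.adjugate j b) := by
    intro i j c hij h1 h2 a b
    obtain ⟨h, hh⟩ := hQ ⟨transvection i j c, det_transvection_of_ne i j hij c⟩ ⟨h1, h2⟩
    exact key hh a b
  have t10 : ∀ a b, A.det ∣ A a 1 * A.adjugate 0 b := fun a b => by
    have := tr 1 0 1 (by decide) (by simp [transvection]) (by simp [transvection]) a b
    rwa [one_mul] at this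
  have t20 : ∀ a b, A.det ∣ A a 2 * A.adjugate 0 b := fun a b => by
    have := tr 2 0 1 (by decide) (by simp [transvection]) (by simp [transvection]) a b
    rwa [one_mul] at this
  have t12 : ∀ a b, A.det ∣ A a 1 * A.adjugate 2 b := fun a b => by
    have := tr 1 2 1 (by decide) (by simp [transvection]) (by simp [transvection]) a b
    rwa [one_mul] at this
  have t21 : ∀ a b, A.det ∣ A a 2 * A.adjugate 1 b := fun a b => by
    have := tr 2 1 1 (by decide) (by simp [transvection]) (by simp [transvection]) a b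
    rwa [one_mul] at this
  have t01 : ∀ a b, A.det ∣ 2 * (A a 0 * A.adjugate 1 b) :=
    tr 0 1 2 (by decide) (by simp [transvection]) (by simp [transvection])
  have t02 : ∀ a b, A.det ∣ 2 * (A a 0 * A.adjugate 2 b) :=
    tr 0 2 2 (by decide) (by simp [transvection]) (by simp [transvection])
  have t11 : ∀ a b, A.det ∣ A a 1 * A.adjugate 1 b := prd hd t12 t21
  have t22 : ∀ a b, A.det ∣ A a 2 * A.adjugate 2 b := prd hd t21 t12
  have t00 : ∀ a b, A.det ∣ A a 0 * A.adjugate 0 b := by
    intro a b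
    have h3 := congrFun (congrFun (Matrix.mul_adjugate A) a) b
    rw [Matrix.mul_apply, Matrix.smul_apply, smul_eq_mul, Fin.sum_univ_three] at h3
    obtain ⟨u, hu⟩ := t11 a b
    obtain ⟨v, hv⟩ := t22 a b
    exact ⟨(1 : MZ) a b - u - v, by linear_combination h3 - hu - hv⟩
  have c0 : ∀ b, A.det ∣ A.adjugate 0 b := by
    intro b
    refine prim hP hd ?_
    intro a i
    fin_cases i
    · exact t00 a b
    · exact t10 a b
    · exact t20 a b
  have c1 : ∀ b, A.det ∣ 2 * A.adjugate 1 b := by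
    intro b
    refine prim hP hd ?_
    intro a i
    fin_cases i
    · obtain ⟨u, hu⟩ := t01 a b
      exact ⟨u, by rw [← hu]; simp only [Fin.zero_eta]; ring⟩
    · obtain ⟨u, hu⟩ := t11 a b
      exact ⟨2 * u, by simp only [Fin.mk_one]; linear_combination 2 * hu⟩
    · obtain ⟨u, hu⟩ := t21 a b
      exact ⟨2 * u, by simp only [Fin.reduceFinMk]; linear_combination 2 * hu⟩
  have c2 : ∀ b, A.det ∣ 2 * A.adjugate 2 b := by
    intro b
    refine prim hP hd ?_
    intro a i
    fin_cases i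
    · obtain ⟨u, hu⟩ := t02 a b
      exact ⟨u, by rw [← hu]; simp only [Fin.zero_eta]; ring⟩
    · obtain ⟨u, hu⟩ := t12 a b
      exact ⟨2 * u, by simp only [Fin.mk_one]; linear_combination 2 * hu⟩
    · obtain ⟨u, hu⟩ := t22 a b
      exact ⟨2 * u, by simp only [Fin.reduceFinMk]; linear_combination 2 * hu⟩
  choose v0 hv0 using c0
  choose v1 hv1 using c1
  choose v2 hv2 using c2
  set V : MZ := Matrix.of ![v0, v1, v2] with hV
  have e1 : D2 * A.adjugate = A.det • V := by
    ext i b
    rw [D2, Matrix.diagonal_mul, Matrix.smul_apply, smul_eq_mul]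
    fin_cases i
    · simpa [hV] using hv0 b
    · simpa [hV] using hv1 b
    · simpa [hV] using hv2 b
  have e2 : V * A = D2 := by
    have e3 : D2 * A.adjugate * A = A.det • V * A := by rw [e1]
    rw [Matrix.mul_assoc, Matrix.adjugate_mul, Matrix.mul_smul, Matrix.mul_one,
      Matrix.smul_mul] at e3
    ext i j
    have e4 := congrFun (congrFun e3 i) j
    rw [Matrix.smul_apply, Matrix.smul_apply, smul_eq_mul, smul_eq_mul] at e4
    exact (mul_left_cancel₀ hd e4).symm
  have e3 : V.det * A.det = 4 := by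
    rw [← Matrix.det_mul, e2, D2_det]
  have ev : ∀ a b, ∀ x v t : ℤ, A.det ∣ A a b * x → 2 * x = A.det * v → 2 ∣ A a b * v := by
    intro a b x v t h1 h2
    obtain ⟨m, hm⟩ := h1
    refine ⟨m, ?_⟩
    apply mul_left_cancel₀ hd
    linear_combination 2 * hm - A a b * h2
  have odd : ∀ a, ∀ i : Fin 3, (∀ b, A.det ∣ A a i * A.adjugate 1 b) →
      (∀ b, A.det ∣ A a i * A.adjugate 2 b) → 2 ∣ A a i := by
    intro a i h1 h2
    by_contra hodd
    have hp : Prime (2 : ℤ) := Int.prime_two
    have w1 : ∀ b, 2 ∣ v1 b := fun b =>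
      (hp.dvd_or_dvd (ev a i _ _ 0 (h1 b) (hv1 b))).resolve_left hodd
    have w2 : ∀ b, 2 ∣ v2 b := fun b =>
      (hp.dvd_or_dvd (ev a i _ _ 0 (h2 b) (hv2 b))).resolve_left hodd
    choose x1 hx1 using w1
    choose x2 hx2 using w2
    have h5 : V.det = 4 * (Matrix.of ![v0, x1, x2] : MZ).det := by
      rw [Matrix.det_fin_three, Matrix.det_fin_three]
      simp [hV, hx1, hx2]
      ring
    rw [h5] at e3
    apply hu
    refine IsUnit.of_mul_eq_one_right (Matrix.of ![v0, x1, x2] : MZ).det ?_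
    linarith
  have o1 : ∀ a, 2 ∣ A a 1 := fun a => odd a 1 (t11 a) (t12 a)
  have o2 : ∀ a, 2 ∣ A a 2 := fun a => odd a 2 (t21 a) (t22 a)
  choose b1 hb1 using o1
  choose b2 hb2 using o2
  set B : MZ := Matrix.of fun a => ![A a 0, b1 a, b2 a] with hB
  have e5 : A = B * D2 := by
    ext a i
    rw [D2, Matrix.mul_diagonal]
    fin_cases i
    · simp [hB]
    · simp [hB, hb1, mul_comm]
    · simp [hB, hb2, mul_comm]
  refine ⟨B, ?_, e5⟩
  have e6 : V * B = 1 := by
    apply cancel (A := D2) (by rw [D2_det]; norm_num)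
    rw [Matrix.mul_assoc, ← e5, e2, Matrix.one_mul]
  have e7 : V.det * B.det = 1 := by
    rw [← Matrix.det_mul, e6, Matrix.det_one]
  exact IsUnit.of_mul_eq_one_right _ e7

end Pool.Agent.Lib.MP8519b0
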