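import Pool.Agent.Lib.MP_8519b0_al.Spec3

/-!
# MP_8519b0_al, module REL: finitely many invariants
-/

set_option autoImplicit false

namespace Pool.Agent.Lib.MP8519b0

namespace RELM

theorem el_coe {i j : Fin 3} (h : i ≠ j) (c : ℤ) :
    ((el i j c : G) : MZ) = 1 + Matrix.single i j c := by
  unfold el
  rw [dif_pos h]
  rfl

theorem el_zero (i j : Fin 3) : el i j 0 = 1 := by
  unfold el
  split_ifs with h
  · exact Matrix.SpecialLinearGroup.transvection_coeff_zero h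
  · rfl

theorem el_add (i j : Fin 3) (a b : ℤ) : el i j (a + b) = el i j a * el i j b := by
  unfold el
  split_ifs with h
  · exact Matrix.SpecialLinearGroup.transvection_add h a b
  · rw [one_mul]

theorem el_inv (i j : Fin 3) (a : ℤ) : (el i j a)⁻¹ = el i j (-a) := by
  rw [inv_eq_iff_mul_eq_one, ← el_add, add_neg_cancel, el_zero]

theorem el_pow (i j : Fin 3) (n : ℕ) : el i j 1 ^ n = el i j (n : ℤ) := by
  induction n with
  | zero => rw [pow_zero, Nat.cast_zero, el_zero]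
  | succ n ih => rw [pow_succ, ih, ← el_add, Nat.cast_succ]

/-- the integral row vectors mod `D` -/
def Rw (D : ℕ) (A : MZ) : Set (Fin 3 → ZMod D) :=
  {z : Fin 3 → ZMod D | ∃ u : Fin 3 → ℤ, ∀ j, z j = (((Matrix.vecMul u A) j : ℤ) : ZMod D)}

/-- the first form -/
def F1 (H : Subgroup G) (φ : H →* G) (A : MZ) : Prop := ∀ h : H, (φ h : MZ) * A = A * ((h : G) : MZ)

/-- the second form -/
def F2 (H : Subgroup G) (φ : H →* G) (A : MZ) : Prop :=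
  ∀ h : H, (φ h : MZ) * A = A * (((h : G)⁻¹ : G) : MZ).transpose

/-- the relation -/
def R (m : ℕ) (x : Fin m) (D : ℕ) (ρ : G →* Equiv.Perm (List (Fin m)))
    (i : (Fin 3 → Fin 3 → Equiv.Perm (Fin m)) × Bool × Set (Fin 3 → ZMod D)) : Prop :=
  ∃ (α : G →* Equiv.Perm (Fin m)) (H : Subgroup G) (φ : H →* G) (A : MZ),
    (∀ (g : G) (y : Fin m), ρ g [y] = [α g y]) ∧ (∀ g : G, g ∈ H ↔ ρ g [x] = [x]) ∧
    (∀ h : H, Section ρ x (h : G) (φ h)) ∧ A.det ≠ 0 ∧ A.det ∣ (D : ℤ) ∧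
    (∀ a b, i.1 a b = α (el a b 1)) ∧
    ((i.2.1 = true ∧ F1 H φ A) ∨ (i.2.1 = false ∧ F2 H φ A)) ∧ i.2.2 = Rw D A

theorem one_add (i j : Fin 3) (h : i ≠ j) (N : ℕ) :
    (1 + (N : ℤ) • Matrix.single i j (1 : ℤ) : MZ) = ((el i j (N : ℤ) : G) : MZ) := by
  rw [el_coe h, Matrix.smul_single, smul_eq_mul, mul_one]

theorem mem_H {m : ℕ} (ρ : G →* Equiv.Perm (List (Fin m))) (x : Fin m) (α : G →* Equiv.Perm (Fin m))
    (hα : ∀ (g : G) (y : Fin m), ρ g [y] = [α g y]) (H : Subgroup G)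
    (hH : ∀ g : G, g ∈ H ↔ ρ g [x] = [x]) (i j : Fin 3) :
    el i j ((Fintype.card (Equiv.Perm (Fin m)) : ℕ) : ℤ) ∈ H := by
  rw [hH, hα, ← el_pow, map_pow, pow_card_eq_one]
  rfl

theorem det_dvd (hDET : SpecDET) {m : ℕ} (ρ : G →* Equiv.Perm (List (Fin m))) (x : Fin m)
    (α : G →* Equiv.Perm (Fin m)) (hα : ∀ (g : G) (y : Fin m), ρ g [y] = [α g y]) (H : Subgroup G)
    (hH : ∀ g : G, g ∈ H ↔ ρ g [x] = [x]) (φ : H →* G) (A : MZ) (hA : PrimM A) (hd : A.det ≠ 0)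
    (h : F1 H φ A ∨ F2 H φ A) :
    A.det ∣ ((Fintype.card (Equiv.Perm (Fin m)) : ℕ) : ℤ) ^ 6 := by
  refine hDET A _ hA hd ?_
  intro i j hij
  rw [one_add i j hij]
  rcases h with h | h
  · exact ⟨_, h ⟨_, mem_H ρ x α hα H hH i j⟩⟩
  · have hm := H.inv_mem (mem_H ρ x α hα H hH j i)
    refine ⟨_, (h ⟨_, hm⟩).trans ?_⟩
    show A * ((((el j i ((Fintype.card (Equiv.Perm (Fin m)) : ℕ) : ℤ))⁻¹)⁻¹ : G) : MZ).transpose = _
    rw [inv_inv, el_coe (Ne.symm hij), el_coe hij, Matrix.transpose_add, Matrix.transpose_one,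
      Matrix.transpose_single]

end RELM

open RELM in
/-- Finitely many invariants. -/
theorem specREL (hGEN : SpecGEN) (hLET : SpecLET) (hSEC : SpecSEC) (hCLS : SpecCLS) (hCPR : SpecCPR)
    (hDET : SpecDET) (hROW : SpecROW) (hCJU : SpecCJU) (hEQV : SpecEQV) : SpecREL := by
  intro m hm
  obtain ⟨D, hDdef⟩ : ∃ D : ℕ, D = Fintype.card (Equiv.Perm (Fin m)) ^ 6 := ⟨_, rfl⟩
  have hD0 : D ≠ 0 := by
    rw [hDdef]
    exact pow_ne_zero _ Fintype.card_ne_zero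
  haveI : NeZero D := ⟨hD0⟩
  haveI : Finite (Fin 3 → ZMod D) := inferInstance
  haveI : Finite (Set (Fin 3 → ZMod D)) := inferInstance
  refine ⟨(Fin 3 → Fin 3 → Equiv.Perm (Fin m)) × Bool × Set (Fin 3 → ZMod D), inferInstance,
    R m ⟨0, hm⟩ D, ?_, ?_⟩
  · intro ρ hinj hss hlt
    obtain ⟨-, α, hα, -⟩ := hLET m ρ hss
    obtain ⟨H, φ, hfi, hH, hS, -, hcf⟩ := hSEC m ρ hinj hss hlt ⟨0, hm⟩
    obtain ⟨A0, hg0, hc0⟩ := hCLS H hfi φ hcf
    obtain ⟨A, hA, hd, -, hc⟩ := hCPR A0 hg0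
    have hc' : F1 H φ A ∨ F2 H φ A := hc H φ hc0
    have hdv : A.det ∣ (D : ℤ) := by
      have := det_dvd hDET ρ ⟨0, hm⟩ α hα H hH φ A hA hd hc'
      rw [hDdef, Nat.cast_pow]
      exact this
    rcases hc' with h | h
    · exact ⟨(fun a b => α (el a b 1), true, Rw D A), α, H, φ, A, hα, hH, hS, hd, hdv,
        fun a b => rfl, Or.inl ⟨rfl, h⟩, rfl⟩
    · exact ⟨(fun a b => α (el a b 1), false, Rw D A), α, H, φ, A, hα, hH, hS, hd, hdv,
        fun a b => rfl, Or.inr ⟨rfl, h⟩, rfl⟩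
  · rintro ρ ρ' i hss hss' hlt hlt' ⟨α, H, φ, A, hα, hH, hS, hd, hdv, h1, h2, h3⟩
      ⟨α', H', φ', A', hα', hH', hS', hd', hdv', h1', h2', h3'⟩
    have hαα : α = α' := by
      refine MonoidHom.eq_of_eqOn_dense hGEN ?_
      rintro g ⟨a, b, -, rfl⟩
      rw [← h1 a b, ← h1' a b]
    subst hαα
    have hHH : H = H' := by
      ext g
      rw [hH, hH', hα, hα']
    subst hHH
    obtain ⟨U, hU, hAU⟩ := hROW A A' D hd hd' hdv hdv' (h3.symm.trans h3')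
    subst hAU
    have hforms : (F1 H φ A ∧ F1 H φ' (U * A)) ∨ (F2 H φ A ∧ F2 H φ' (U * A)) := by
      rcases h2 with ⟨e, h⟩ | ⟨e, h⟩
      · rcases h2' with ⟨e', h'⟩ | ⟨e', h'⟩
        · exact Or.inl ⟨h, h'⟩
        · rw [e] at e'
          exact absurd e' (by decide)
      · rcases h2' with ⟨e', h'⟩ | ⟨e', h'⟩
        · rw [e] at e'
          exact absurd e' (by decide)
        · exact Or.inr ⟨h, h'⟩
    obtain ⟨r, hr⟩ := hCJU H φ φ' A U hd hU hforms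
    exact hEQV m ρ ρ' hss hss' hlt hlt' ⟨0, hm⟩ ⟨0, hm⟩ H φ φ' r hH hH' hS hS' hr

end Pool.Agent.Lib.MP8519b0
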