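import Pool.Agent.Lib.MP_8519b0_al.Spec3

/-!
# MP_8519b0_al, module ROW: finitely many matrices up to unimodular factors
-/

set_option autoImplicit false

namespace Pool.Agent.Lib.MP8519b0

namespace ROWM

/-- a vector congruent to an element of the row lattice of `A` modulo a multiple of `det A` is in
the row lattice -/
theorem mem_lattice (A : MZ) (D : ℕ) (hD : A.det ∣ (D : ℤ)) (w u : Fin 3 → ℤ)
    (h : ∀ j, (((w j : ℤ)) : ZMod D) = (((Matrix.vecMul u A) j : ℤ) : ZMod D)) :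
    ∃ u' : Fin 3 → ℤ, w = Matrix.vecMul u' A := by
  obtain ⟨k, hk⟩ := hD
  have h1 : ∀ j, ∃ z : ℤ, (Matrix.vecMul u A) j - w j = (D : ℤ) * z := fun j =>
    (ZMod.intCast_eq_intCast_iff_dvd_sub _ _ _).1 (h j)
  choose z hz using h1
  refine ⟨u - k • Matrix.vecMul z A.adjugate, ?_⟩
  rw [Matrix.sub_vecMul, Matrix.smul_vecMul, Matrix.vecMul_vecMul, Matrix.adjugate_mul,
    Matrix.vecMul_smul, Matrix.vecMul_one]
  funext j
  have h2 := hz j
  rw [hk] at h2
  simp only [Pi.sub_apply, Pi.smul_apply, smul_eq_mul]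
  linarith

theorem exists_factor (A A' : MZ) (D : ℕ) (hD : A.det ∣ (D : ℤ))
    (h : {z : Fin 3 → ZMod D | ∃ u : Fin 3 → ℤ, ∀ j, z j = (((Matrix.vecMul u A') j : ℤ) : ZMod D)} ⊆
      {z : Fin 3 → ZMod D | ∃ u : Fin 3 → ℤ, ∀ j, z j = (((Matrix.vecMul u A) j : ℤ) : ZMod D)}) :
    ∃ U : MZ, A' = U * A := by
  have h1 : ∀ i : Fin 3, ∃ u' : Fin 3 → ℤ, A' i = Matrix.vecMul u' A := by
    intro i
    have h2 : (fun j => ((A' i j : ℤ) : ZMod D)) ∈ {z : Fin 3 → ZMod D | ∃ u : Fin 3 → ℤ,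
        ∀ j, z j = (((Matrix.vecMul u A') j : ℤ) : ZMod D)} := by
      refine ⟨Pi.single i 1, fun j => ?_⟩
      have h3 : Matrix.vecMul (Pi.single i 1) A' = A' i := Matrix.single_one_vecMul i A'
      rw [h3]
    obtain ⟨u, hu⟩ := h h2
    exact mem_lattice A D hD (A' i) u hu
  choose U hU using h1
  refine ⟨U, ?_⟩
  funext i
  rw [hU i]
  exact (Matrix.mul_apply_eq_vecMul U A i).symm

end ROWM

theorem specROW : SpecROW := by
  intro A A' D hA hA' hD hD' hset
  obtain ⟨U, hU⟩ := ROWM.exists_factor A A' D hD hset.ge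
  obtain ⟨U', hU'⟩ := ROWM.exists_factor A' A D hD' hset.le
  refine ⟨U, ?_, hU⟩
  have h1 : A'.det = U.det * A.det := by rw [← Matrix.det_mul, ← hU]
  have h2 : A.det = U'.det * A'.det := by rw [← Matrix.det_mul, ← hU']
  have h3 : A.det * (U'.det * U.det) = A.det * 1 := by
    rw [mul_one]
    calc A.det * (U'.det * U.det) = U'.det * (U.det * A.det) := by ring
      _ = A.det := by rw [← h1, ← h2]
  have h4 : U'.det * U.det = 1 := mul_left_cancel₀ hA h3
  exact IsUnit.of_mul_eq_one _ (by rw [mul_comm]; exact h4)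

end Pool.Agent.Lib.MP8519b0
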