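import Pool.Agent.Lib.MP_8519b0_al.Spec3

/-!
# MP_8519b0_al, module STD: the four standard actions over seven letters
-/

set_option autoImplicit false

namespace Pool.Agent.Lib.MP8519b0

namespace STDM

theorem det_D1 : D1.det = 2 := by
  unfold D1
  rw [Matrix.det_diagonal]
  simp [Fin.prod_univ_three]

theorem det_D2 : D2.det = 4 := by
  unfold D2
  rw [Matrix.det_diagonal]
  simp [Fin.prod_univ_three]

theorem good_of {A : MZ} {i j : Fin 3} (h1 : A i j = 1) (h0 : A.det ≠ 0)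
    (hu : ¬ IsUnit A.det) : Good A := by
  refine ⟨h0, ?_⟩
  rintro ⟨c, B, hB, hA⟩
  have hc : IsUnit c := by
    apply isUnit_of_dvd_one
    refine ⟨B i j, ?_⟩
    have h2 : A i j = c * B i j := by
      rw [hA, Matrix.smul_apply, smul_eq_mul]
    rw [← h2, h1]
  apply hu
  rw [hA, Matrix.det_smul]
  exact (hc.pow _).mul hB

theorem good_D1 : Good D1 := by
  refine good_of (i := 1) (j := 1) ?_ ?_ ?_
  · simp [D1]
  · rw [det_D1]; norm_num
  · rw [det_D1, Int.isUnit_iff]; omega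

theorem good_D2 : Good D2 := by
  refine good_of (i := 0) (j := 0) ?_ ?_ ?_
  · simp [D2]
  · rw [det_D2]; norm_num
  · rw [det_D2, Int.isUnit_iff]; omega

theorem mulVec_e0 (g : G) : (red 2 g).mulVec (Pi.single 0 1) = fun i => ((g i 0 : ℤ) : ZMod 2) := by
  rw [Matrix.mulVec_single_one]
  rfl

theorem even_iff (a : ℤ) : ((a : ℤ) : ZMod 2) = 0 ↔ (2 : ℤ) ∣ a :=
  ZMod.intCast_zmod_eq_zero_iff_dvd a 2

theorem mem_iff (g : G) : (∃ c : ZMod 2, (red 2 g).mulVec (Pi.single 0 1) =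
    c • (Pi.single 0 1 : Fin 3 → ZMod 2)) ↔ InP g := by
  rw [mulVec_e0]
  constructor
  · rintro ⟨c, hc⟩
    have h1 := congrFun hc 1
    have h2 := congrFun hc 2
    constructor
    · rw [← even_iff]
      simpa using h1
    · rw [← even_iff]
      simpa using h2
  · rintro ⟨h1, h2⟩
    rw [← even_iff] at h1 h2
    refine ⟨((g 0 0 : ℤ) : ZMod 2), ?_⟩
    funext i
    fin_cases i
    · simp
    · simpa using h1
    · simpa using h2

theorem e0_ne : (Pi.single 0 1 : Fin 3 → ZMod 2) ≠ 0 := by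
  intro h
  have h1 := congrFun h 0
  simp at h1

theorem idxP (hIDX : SpecIDX) : ∃ S : Subgroup G, (∀ g : G, g ∈ S ↔ InP g) ∧ S.index = 7 := by
  have : Fact (Nat.Prime 2) := ⟨Nat.prime_two⟩
  obtain ⟨S, hS, hi⟩ := (hIDX 2 (Pi.single 0 1) e0_ne).1
  exact ⟨S, fun g => (hS g).trans (mem_iff g), hi⟩

theorem idxQ (hDOM : SpecDOM) (hIDX : SpecIDX) :
    ∃ S : Subgroup G, (∀ g : G, g ∈ S ↔ InQ g) ∧ S.index = 7 := by
  have : Fact (Nat.Prime 2) := ⟨Nat.prime_two⟩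
  obtain ⟨S, hS, hi⟩ := (hIDX 2 (Pi.single 0 1) e0_ne).2
  exact ⟨S, fun g => ((hS g).trans (mem_iff (th g))).trans (hDOM.2.2.1 g), hi⟩

theorem seven (hLIX : SpecLIX) {P : G → Prop} {S : Subgroup G} (hS : ∀ g : G, g ∈ S ↔ P g)
    (hi : S.index = 7) {m : ℕ} {ρ : G →* Equiv.Perm (List (Fin m))} {x : Fin m}
    (hs : SelfSimilar ρ) (ht : LetterTransitive ρ) (hx : ∀ g : G, ρ g [x] = [x] ↔ P g) : m = 7 := by
  have h := (hLIX m ρ hs x S fun g => (hS g).trans (hx g).symm).2.2.2 ht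
  rw [← h, hi]

end STDM

open STDM in
theorem specSTD (hFNB : SpecFNB) (hDOM : SpecDOM) (hIDX : SpecIDX) (hLIX : SpecLIX) : SpecSTD := by
  obtain ⟨SP, hSP, hiP⟩ := idxP hIDX
  obtain ⟨SQ, hSQ, hiQ⟩ := idxQ hDOM hIDX
  refine ⟨?_, ?_, ?_, ?_⟩
  · obtain ⟨m, ρ, x, h1, h2, h3, h4, h5⟩ := (hFNB.2.1 D1 good_D1).1
    have hx : ∀ g : G, ρ g [x] = [x] ↔ InP g := fun g => (h4 g).trans (hDOM.1 g)
    have hm : m = 7 := seven hLIX hSP hiP h2 h3 hx
    subst hm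
    exact ⟨ρ, x, h1, h2, h3, hx, h5⟩
  · obtain ⟨m, ρ, x, h1, h2, h3, h4, h5⟩ := (hFNB.2.1 D2 good_D2).2
    have hx : ∀ g : G, ρ g [x] = [x] ↔ InP g := fun g =>
      ((h4 g).trans (hDOM.2.1 (th g))).trans (hDOM.2.2.2.1 g)
    have hm : m = 7 := seven hLIX hSP hiP h2 h3 hx
    subst hm
    exact ⟨ρ, x, h1, h2, h3, hx, h5⟩
  · obtain ⟨m, ρ, x, h1, h2, h3, h4, h5⟩ := (hFNB.2.1 D2 good_D2).1
    have hx : ∀ g : G, ρ g [x] = [x] ↔ InQ g := fun g => (h4 g).trans (hDOM.2.1 g)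
    have hm : m = 7 := seven hLIX hSQ hiQ h2 h3 hx
    subst hm
    exact ⟨ρ, x, h1, h2, h3, hx, h5⟩
  · obtain ⟨m, ρ, x, h1, h2, h3, h4, h5⟩ := (hFNB.2.1 D1 good_D1).2
    have hx : ∀ g : G, ρ g [x] = [x] ↔ InQ g := fun g =>
      ((h4 g).trans (hDOM.1 (th g))).trans (hDOM.2.2.1 g)
    have hm : m = 7 := seven hLIX hSQ hiQ h2 h3 hx
    subst hm
    exact ⟨ρ, x, h1, h2, h3, hx, h5⟩

end Pool.Agent.Lib.MP8519b0
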