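import Pool.Agent.Lib.MP_8519b0_al.Spec3

/-! # MP_8519b0_al, module SUL: the domain of a good virtual endomorphism stabilises a line -/

set_option autoImplicit false

namespace Pool.Agent.Lib.MP8519b0

namespace SULM

lemma tr_tr (g : G) : g.transpose.transpose = g := by
  apply Subtype.ext
  exact Matrix.transpose_transpose _

lemma th_th (g : G) : th (th g) = g := by
  have h1 : (g⁻¹).transpose * g.transpose = 1 := by
    apply Subtype.ext
    show ((g⁻¹ : G) : MZ).transpose * (g : MZ).transpose = 1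
    rw [← Matrix.transpose_mul]
    have h2 : (g : MZ) * ((g⁻¹ : G) : MZ) = 1 := by
      have h3 : ((g * g⁻¹ : G) : MZ) = ((1 : G) : MZ) := by rw [mul_inv_cancel]
      exact h3
    rw [h2, Matrix.transpose_one]
  have h4 : ((g⁻¹).transpose)⁻¹ = g.transpose := inv_eq_of_mul_eq_one_right h1
  show ((g⁻¹).transpose)⁻¹.transpose = g
  rw [h4, tr_tr]

end SULM

open SULM in
theorem specSUL (hLIN : SpecLIN) (hIDX : SpecIDX) : SpecSUL := by
  intro H φ A hP _ hu hconj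
  have hna : A.det.natAbs ≠ 1 := fun h => hu (Int.isUnit_iff_natAbs_eq.mpr h)
  obtain ⟨p, hp, hpd⟩ := Nat.exists_prime_and_dvd hna
  have : Fact p.Prime := ⟨hp⟩
  have hpd' : (p : ℤ) ∣ A.det := Int.natCast_dvd.mpr hpd
  obtain ⟨v, hv, hcase⟩ := hLIN A p hpd' (hP p hp)
  obtain ⟨⟨S1, h1, i1⟩, ⟨S2, h2, i2⟩⟩ := hIDX p v hv
  rcases hconj with hc | hc
  · rcases hcase with hl | hl
    · exact ⟨p, ⟨hp⟩, v, S1, hv, Or.inl h1, i1, fun g hg => (h1 g).mpr (hl g (φ ⟨g, hg⟩) (hc ⟨g, hg⟩))⟩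
    · exact ⟨p, ⟨hp⟩, v, S2, hv, Or.inr h2, i2, fun g hg => (h2 g).mpr (hl g (φ ⟨g, hg⟩) (hc ⟨g, hg⟩))⟩
  · rcases hcase with hl | hl
    · refine ⟨p, ⟨hp⟩, v, S2, hv, Or.inr h2, i2, fun g hg => (h2 g).mpr ?_⟩
      exact hl (th g) (φ ⟨g, hg⟩) (hc ⟨g, hg⟩)
    · refine ⟨p, ⟨hp⟩, v, S1, hv, Or.inl h1, i1, fun g hg => (h1 g).mpr ?_⟩
      have h3 := hl (th g) (φ ⟨g, hg⟩) (hc ⟨g, hg⟩)
      rw [th_th] at h3
      exact h3

end Pool.Agent.Lib.MP8519b0
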