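import Pool.Agent.Lib.MP_8519b0_al.Spec3

/-!
# Module SVA: faithful self-similar actions of `SL_3(Z)` over seven letters
-/

set_option autoImplicit false

namespace Pool.Agent.Lib.MP8519b0

namespace SVAM

lemma red_mul (p : ℕ) (k l : G) : red p (k * l) = red p k * red p l := by
  have h := Matrix.map_mul (L := (k : MZ)) (M := (l : MZ)) (f := Int.castRingHom (ZMod p))
  unfold red
  rw [Matrix.SpecialLinearGroup.coe_mul]
  exact h

lemma red_one (p : ℕ) : red p 1 = 1 := by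
  unfold red
  rw [Matrix.SpecialLinearGroup.coe_one]
  ext i j
  rw [Matrix.map_apply]
  by_cases h : i = j
  · subst h; simp
  · simp [Matrix.one_apply_ne h]

lemma th_mul (g h : G) : th (g * h) = th g * th h := by
  unfold th
  apply Subtype.ext
  rw [Matrix.SpecialLinearGroup.coe_transpose, mul_inv_rev, Matrix.SpecialLinearGroup.coe_mul,
    Matrix.transpose_mul, Matrix.SpecialLinearGroup.coe_mul,
    Matrix.SpecialLinearGroup.coe_transpose, Matrix.SpecialLinearGroup.coe_transpose]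

lemma th_one : th 1 = 1 := by
  unfold th
  apply Subtype.ext
  rw [Matrix.SpecialLinearGroup.coe_transpose, inv_one, Matrix.SpecialLinearGroup.coe_one,
    Matrix.transpose_one]

lemma th_inv (g : G) : th g⁻¹ = (th g)⁻¹ := by
  rw [eq_inv_iff_mul_eq_one, ← th_mul, inv_mul_cancel, th_one]

lemma th_th (g : G) : th (th g) = g := by
  have h : (th g)⁻¹ = g.transpose := by
    rw [← th_inv]
    unfold th
    rw [inv_inv]
  have h2 : th (th g) = ((th g)⁻¹).transpose := rfl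
  rw [h2, h]
  apply Subtype.ext
  rw [Matrix.SpecialLinearGroup.coe_transpose, Matrix.SpecialLinearGroup.coe_transpose,
    Matrix.transpose_transpose]

lemma two_dvd (a : ℤ) : ((a : ℤ) : ZMod 2) = 0 ↔ (2 : ℤ) ∣ a := by
  have := ZMod.intCast_zmod_eq_zero_iff_dvd a 2
  simpa using this

lemma inP_iff (g : G) :
    (∃ c : ZMod 2, (red 2 g).mulVec ![1, 0, 0] = c • ![1, 0, 0]) ↔ InP g := by
  have e : (red 2 g).mulVec ![1, 0, 0] =
      ![((g 0 0 : ℤ) : ZMod 2), ((g 1 0 : ℤ) : ZMod 2), ((g 2 0 : ℤ) : ZMod 2)] := by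
    ext i
    fin_cases i <;> simp [red, Matrix.mulVec, dotProduct, Fin.sum_univ_three]
  rw [e]
  unfold InP
  constructor
  · rintro ⟨c, hc⟩
    have h1 := congrFun hc 1
    have h2 := congrFun hc 2
    simp at h1 h2
    exact ⟨(two_dvd _).1 h1, (two_dvd _).1 h2⟩
  · rintro ⟨h1, h2⟩
    refine ⟨((g 0 0 : ℤ) : ZMod 2), ?_⟩
    have h1' := (two_dvd _).2 h1
    have h2' := (two_dvd _).2 h2
    ext i
    fin_cases i
    · simp
    · simpa using h1'
    · simpa using h2'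

lemma line_iff (p : ℕ) [Fact p.Prime] (k g : G) (v w : Fin 3 → ZMod p) (d : ZMod p) (hd : d ≠ 0)
    (hk : (red p k).mulVec v = d • w) :
    (∃ c : ZMod p, (red p (k⁻¹ * g * k)).mulVec v = c • v) ↔
      ∃ c : ZMod p, (red p g).mulVec w = c • w := by
  have hkk : ∀ z : Fin 3 → ZMod p, (red p k⁻¹).mulVec ((red p k).mulVec z) = z := by
    intro z
    rw [Matrix.mulVec_mulVec, ← red_mul, inv_mul_cancel, red_one, Matrix.one_mulVec]
  have hkk' : ∀ z : Fin 3 → ZMod p, (red p k).mulVec ((red p k⁻¹).mulVec z) = z := by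
    intro z
    rw [Matrix.mulVec_mulVec, ← red_mul, mul_inv_cancel, red_one, Matrix.one_mulVec]
  have e : (red p (k⁻¹ * g * k)).mulVec v =
      (red p k⁻¹).mulVec ((red p g).mulVec ((red p k).mulVec v)) := by
    rw [red_mul, red_mul, ← Matrix.mulVec_mulVec, ← Matrix.mulVec_mulVec]
  rw [e]
  constructor
  · rintro ⟨c, hc⟩
    refine ⟨c, ?_⟩
    have h1 := congrArg ((red p k).mulVec) hc
    rw [hkk', Matrix.mulVec_smul, hk, Matrix.mulVec_smul] at h1
    have h2 : d • ((red p g).mulVec w) = d • (c • w) := by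
      rw [h1, smul_comm]
    have h3 := congrArg (fun z => d⁻¹ • z) h2
    simp only [smul_smul] at h3
    rwa [← mul_assoc, inv_mul_cancel₀ hd, one_mul, one_smul] at h3
  · rintro ⟨c, hc⟩
    refine ⟨c, ?_⟩
    rw [hk, Matrix.mulVec_smul, hc, smul_comm, ← hk, Matrix.mulVec_smul, hkk]

lemma inQ_inv (g : G) (h : InQ g) : InQ g⁻¹ := by
  obtain ⟨h1, h2⟩ := h
  have e1 : (g⁻¹ : G) 0 1 = -(g 0 1 * g 2 2) + g 0 2 * g 2 1 := by
    have := Matrix.SpecialLinearGroup.coe_inv g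
    have h3 : (g⁻¹ : G) 0 1 = (Matrix.adjugate (g : MZ)) 0 1 := by
      rw [← this]
    rw [h3, Matrix.adjugate_fin_three]
    simp
  have e2 : (g⁻¹ : G) 0 2 = g 0 1 * g 1 2 - g 0 2 * g 1 1 := by
    have := Matrix.SpecialLinearGroup.coe_inv g
    have h3 : (g⁻¹ : G) 0 2 = (Matrix.adjugate (g : MZ)) 0 2 := by
      rw [← this]
    rw [h3, Matrix.adjugate_fin_three]
    simp
  refine ⟨?_, ?_⟩
  · rw [e1]
    exact dvd_add ((dvd_neg).2 (Dvd.dvd.mul_right h1 _)) (Dvd.dvd.mul_right h2 _)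
  · rw [e2]
    exact dvd_sub (Dvd.dvd.mul_right h1 _) (Dvd.dvd.mul_right h2 _)

lemma inP_th (g : G) : InP (th g) ↔ InQ g := by
  have e1 : (th g) 1 0 = (g⁻¹ : G) 0 1 := rfl
  have e2 : (th g) 2 0 = (g⁻¹ : G) 0 2 := rfl
  have e : InP (th g) ↔ InQ g⁻¹ := by
    unfold InP InQ
    rw [e1, e2]
  rw [e]
  constructor
  · intro h
    have := inQ_inv _ h
    rwa [inv_inv] at this
  · exact inQ_inv g

lemma conj_fix {m : ℕ} (ρ : G →* Equiv.Perm (List (Fin m))) (k g : G) (x x₀ : Fin m)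
    (h : ρ k [x] = [x₀]) : ρ g [x₀] = [x₀] ↔ ρ (k⁻¹ * g * k) [x] = [x] := by
  rw [map_mul, map_mul, Equiv.Perm.mul_apply, Equiv.Perm.mul_apply, h]
  constructor
  · intro h1
    rw [h1, ← h, ← Equiv.Perm.mul_apply, ← map_mul, inv_mul_cancel, map_one]
    rfl
  · intro h1
    have h2 := congrArg (ρ k) h1
    rw [h, ← Equiv.Perm.mul_apply, ← map_mul, mul_inv_cancel, map_one] at h2
    exact h2

end SVAM

open SVAM in
theorem specSVA (hMIX : SpecMIX) (hCPR : SpecCPR) (hSUL : SpecSUL) (hLIX : SpecLIX)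
    (hTRA : SpecTRA) (hLET : SpecLET) : SpecSVA := by
  intro ρ hinj hss
  obtain ⟨x, H, φ, A, _, hmem, _, hgood, hconj⟩ := hMIX 7 ρ hinj hss
  obtain ⟨A', hprim, hdet, hnu, htr⟩ := hCPR A hgood
  obtain ⟨p, hp, v, S, hv, hS, hidx, hle⟩ := hSUL H φ A' hprim hdet hnu (htr H φ hconj)
  obtain ⟨hne, hle7, htrans⟩ := hLIX 7 ρ hss x H hmem
  have hdvd : S.index ∣ H.index := Subgroup.index_dvd_of_le hle
  have hp2 : p = 2 := by
    have h1 := Nat.le_of_dvd (Nat.pos_of_ne_zero hne) hdvd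
    rw [hidx] at h1
    have h2 : p ^ 2 + p + 1 ≤ 7 := h1.trans hle7
    have h3 := hp.out.two_le
    by_contra hcon
    have h4 : 3 ≤ p := by omega
    nlinarith
  subst hp2
  have hS7 : S.index = 7 := by rw [hidx]; norm_num
  have hH7 : H.index = 7 := by
    rw [hS7] at hdvd
    have h1 := Nat.le_of_dvd (Nat.pos_of_ne_zero hne) hdvd
    omega
  have hSH : H = S := by
    apply le_antisymm hle
    have h1 := Subgroup.relIndex_mul_index hle
    rw [hH7, hS7] at h1
    have h2 : H.relIndex S = 1 := by omega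
    exact Subgroup.relIndex_eq_one.1 h2
  refine ⟨htrans.1 hH7, ?_⟩
  have he0 : (![1, 0, 0] : Fin 3 → ZMod 2) ≠ 0 := by
    intro h
    have := congrFun h 0
    simp at this
  obtain ⟨k, d, hd, hk⟩ := hTRA 2 v ![1, 0, 0] hv he0
  obtain ⟨_, α, hα, _⟩ := hLET 7 ρ hss
  rcases hS with hS | hS
  · refine ⟨α k x, Or.inl ?_⟩
    intro g
    rw [conj_fix ρ k g x (α k x) (hα k x), ← hmem, hSH, hS,
      line_iff 2 k g v ![1, 0, 0] d hd hk, inP_iff]
  · refine ⟨α (th k) x, Or.inr ?_⟩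
    intro g
    rw [conj_fix ρ (th k) g x (α (th k) x) (hα (th k) x), ← hmem, hSH, hS]
    have e : th ((th k)⁻¹ * g * th k) = k⁻¹ * th g * k := by
      rw [th_mul, th_mul, th_inv, th_th]
    rw [e, line_iff 2 k (th g) v ![1, 0, 0] d hd hk, inP_iff, inP_th]

end Pool.Agent.Lib.MP8519b0
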