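import Pool.Agent.Lib.MP_8519b0_al.Spec3

/-!
# MP_8519b0_al: module UNQ, uniqueness of the actions over seven letters
-/

set_option autoImplicit false

namespace Pool.Agent.Lib.MP8519b0

namespace UNQM

theorem th_coe (g : G) : ((th g : G) : MZ) = ((g⁻¹ : G) : MZ).transpose := rfl

theorem th_inv (g : G) : ((((th g)⁻¹ : G)) : MZ).transpose = (g : MZ) := by
  have h1 : th g * g.transpose = 1 := by
    apply Subtype.ext
    show ((g⁻¹ : G) : MZ).transpose * (g : MZ).transpose = 1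
    rw [← Matrix.transpose_mul]
    have : (g : MZ) * ((g⁻¹ : G) : MZ) = 1 := by
      rw [← Matrix.SpecialLinearGroup.coe_mul, mul_inv_cancel, Matrix.SpecialLinearGroup.coe_one]
    rw [this, Matrix.transpose_one]
  have h2 : (th g)⁻¹ = g.transpose := inv_eq_of_mul_eq_one_right h1
  rw [h2]
  show (g : MZ).transpose.transpose = g
  exact Matrix.transpose_transpose _

theorem D1_det : D1.det ≠ 0 := by
  unfold D1
  rw [Matrix.det_diagonal]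
  decide

theorem D2_det : D2.det ≠ 0 := by
  unfold D2
  rw [Matrix.det_diagonal]
  decide

/-- the conclusion from the same normal form -/
theorem core (hSEC : SpecSEC) (hCJU : SpecCJU) (hEQV : SpecEQV)
    (ρ σ : G →* Equiv.Perm (List (Fin 7))) (x y : Fin 7) (hρ : Function.Injective ρ)
    (hρs : SelfSimilar ρ) (hρt : LetterTransitive ρ) (hσs : SelfSimilar σ)
    (hσt : LetterTransitive σ) (H : Subgroup G) (φ : H →* G)
    (hH : ∀ g : G, g ∈ H ↔ σ g [y] = [y]) (hφ : ∀ h : H, Section σ y (h : G) (φ h))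
    (hH' : ∀ g : G, g ∈ H ↔ ρ g [x] = [x]) (D U : MZ) (hD : D.det ≠ 0) (hU : IsUnit U.det)
    (hc : ((∀ g : G, g ∈ H → ∃ h : G, (h : MZ) * D = D * (g : MZ) ∧ Section ρ x g h) ∧
        ∀ h : H, (φ h : MZ) * (U * D) = U * D * ((h : G) : MZ)) ∨
      ((∀ g : G, g ∈ H → ∃ h : G, (h : MZ) * D = D * (th g : MZ) ∧ Section ρ x g h) ∧
        ∀ h : H, (φ h : MZ) * (U * D) = U * D * (((h : G)⁻¹ : G) : MZ).transpose)) :
    Equi ρ σ := by
  obtain ⟨H', ψ, -, h1, h2, h3, -⟩ := hSEC 7 ρ hρ hρs hρt x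
  have hHH : H' = H := by
    ext g
    rw [h1, hH']
  subst hHH
  rcases hc with ⟨hd, hc⟩ | ⟨hd, hc⟩
  · have hψ : ∀ h : H', (ψ h : MZ) * D = D * ((h : G) : MZ) := by
      intro h
      obtain ⟨k, hk1, hk2⟩ := hd h h.2
      obtain ⟨hg, hk3⟩ := h3 h k hk2
      have : ψ h = k := hk3
      rw [this]
      exact hk1
    obtain ⟨r, hr⟩ := hCJU H' ψ φ D U hD hU (Or.inl ⟨hψ, hc⟩)
    exact hEQV 7 ρ σ hρs hσs hρt hσt x y H' ψ φ r hH' hH h2 hφ hr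
  · have hψ : ∀ h : H', (ψ h : MZ) * D = D * (((h : G)⁻¹ : G) : MZ).transpose := by
      intro h
      obtain ⟨k, hk1, hk2⟩ := hd h h.2
      obtain ⟨hg, hk3⟩ := h3 h k hk2
      have : ψ h = k := hk3
      rw [this]
      exact hk1
    obtain ⟨r, hr⟩ := hCJU H' ψ φ D U hD hU (Or.inr ⟨hψ, hc⟩)
    exact hEQV 7 ρ σ hρs hσs hρt hσt x y H' ψ φ r hH' hH h2 hφ hr

end UNQM

open UNQM in
theorem specUNQ (hSEC : SpecSEC) (hCLS : SpecCLS) (hCPR : SpecCPR) (hNFP : SpecNFP)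
    (hNFQ : SpecNFQ) (hDOM : SpecDOM) (hCJU : SpecCJU) (hEQV : SpecEQV) : SpecUNQ := by
  intro ρ₁ ρ₂ ρ₃ ρ₄ σ x₁ x₂ x₃ x₄ y ⟨a1, a2, a3, a4, a5⟩ ⟨b1, b2, b3, b4, b5⟩ ⟨c1, c2, c3, c4, c5⟩
    ⟨d1, d2, d3, d4, d5⟩ s1 s2 s3
  obtain ⟨m1, m2, m3, m4, -⟩ := hDOM
  obtain ⟨H, φ, hfi, hH, hφ, -, hcf⟩ := hSEC 7 σ s1 s2 s3 y
  obtain ⟨A, hA, hAc⟩ := hCLS H hfi φ hcf
  obtain ⟨A', p1, p2, p3, p4⟩ := hCPR A hA
  have hA' := p4 H φ hAc
  constructor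
  · intro hP
    have hHP : ∀ g : G, g ∈ H ↔ InP g := fun g => (hH g).trans (hP g)
    rcases hA' with hc | hc
    · left
      obtain ⟨U, hU, hUA⟩ := hNFP A' p1 p2 p3 fun g hg => ⟨φ ⟨g, (hHP g).2 hg⟩, hc ⟨g, (hHP g).2 hg⟩⟩
      rw [hUA] at hc
      refine core hSEC hCJU hEQV ρ₁ σ x₁ y a1 a2 a3 s2 s3 H φ hH hφ (fun g => (hHP g).trans (a4 g).symm)
        D1 U D1_det hU (Or.inl ⟨fun g hg => ?_, hc⟩)
      obtain ⟨k, hk⟩ := (m1 g).2 ((hHP g).1 hg)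
      exact ⟨k, hk, a5 g k hk⟩
    · right
      obtain ⟨U, hU, hUA⟩ := hNFQ A' p1 p2 p3 fun g hg => by
        have h1 : InP (th g) := (m3 g).2 hg
        have h2 := hc ⟨th g, (hHP _).2 h1⟩
        refine ⟨φ ⟨th g, (hHP _).2 h1⟩, ?_⟩
        rw [h2]
        show A' * (((th g)⁻¹ : G) : MZ).transpose = A' * (g : MZ)
        rw [th_inv]
      rw [hUA] at hc
      refine core hSEC hCJU hEQV ρ₂ σ x₂ y b1 b2 b3 s2 s3 H φ hH hφ (fun g => (hHP g).trans (b4 g).symm)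
        D2 U D2_det hU (Or.inr ⟨fun g hg => ?_, hc⟩)
      obtain ⟨k, hk⟩ := (m2 (th g)).2 ((m4 g).2 ((hHP g).1 hg))
      exact ⟨k, hk, b5 g k hk⟩
  · intro hQ
    have hHQ : ∀ g : G, g ∈ H ↔ InQ g := fun g => (hH g).trans (hQ g)
    rcases hA' with hc | hc
    · left
      obtain ⟨U, hU, hUA⟩ := hNFQ A' p1 p2 p3 fun g hg => ⟨φ ⟨g, (hHQ g).2 hg⟩, hc ⟨g, (hHQ g).2 hg⟩⟩
      rw [hUA] at hc
      refine core hSEC hCJU hEQV ρ₃ σ x₃ y c1 c2 c3 s2 s3 H φ hH hφ (fun g => (hHQ g).trans (c4 g).symm)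
        D2 U D2_det hU (Or.inl ⟨fun g hg => ?_, hc⟩)
      obtain ⟨k, hk⟩ := (m2 g).2 ((hHQ g).1 hg)
      exact ⟨k, hk, c5 g k hk⟩
    · right
      obtain ⟨U, hU, hUA⟩ := hNFP A' p1 p2 p3 fun g hg => by
        have h1 : InQ (th g) := (m4 g).2 hg
        have h2 := hc ⟨th g, (hHQ _).2 h1⟩
        refine ⟨φ ⟨th g, (hHQ _).2 h1⟩, ?_⟩
        rw [h2]
        show A' * (((th g)⁻¹ : G) : MZ).transpose = A' * (g : MZ)
        rw [th_inv]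
      rw [hUA] at hc
      refine core hSEC hCJU hEQV ρ₄ σ x₄ y d1 d2 d3 s2 s3 H φ hH hφ (fun g => (hHQ g).trans (d4 g).symm)
        D1 U D1_det hU (Or.inr ⟨fun g hg => ?_, hc⟩)
      obtain ⟨k, hk⟩ := (m1 (th g)).2 ((m3 g).2 ((hHQ g).1 hg))
      exact ⟨k, hk, d5 g k hk⟩

end Pool.Agent.Lib.MP8519b0
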