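import Pool.Agent.Lib.MP_8519b0_al.FinalD
import Pool.Agent.Lib.MP_8519b0_al.EQV
import Pool.Agent.Lib.MP_8519b0_al.IDX
import Pool.Agent.Lib.MP_8519b0_al.LIN
import Pool.Agent.Lib.MP_8519b0_al.CPR
import Pool.Agent.Lib.MP_8519b0_al.SUL
import Pool.Agent.Lib.MP_8519b0_al.LIX
import Pool.Agent.Lib.MP_8519b0_al.DIV
import Pool.Agent.Lib.MP_8519b0_al.DET
import Pool.Agent.Lib.MP_8519b0_al.ROW
import Pool.Agent.Lib.MP_8519b0_al.CJU
import Pool.Agent.Lib.MP_8519b0_al.REL
import Pool.Agent.Lib.MP_8519b0_al.FNT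
import Pool.Agent.Lib.MP_8519b0_al.NFP
import Pool.Agent.Lib.MP_8519b0_al.NFQ
import Pool.Agent.Lib.MP_8519b0_al.SVA
import Pool.Agent.Lib.MP_8519b0_al.DOM
import Pool.Agent.Lib.MP_8519b0_al.STD
import Pool.Agent.Lib.MP_8519b0_al.UNQ
import Pool.Agent.Lib.MP_8519b0_al.IV1
import Pool.Agent.Lib.MP_8519b0_al.IV2
import Pool.Agent.Lib.MP_8519b0_al.IV3
import Pool.Agent.Lib.MP_8519b0_al.FNE

/-!
# MP_8519b0_al: Theorem E, assembled from the modules
-/

set_option autoImplicit false

namespace Pool.Agent.Lib.MP8519b0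

theorem theoremSEC : SpecSEC := specSEC specLET

theorem theoremCLS : SpecCLS := specCLS theoremRIG (specNCT theoremCNJ) specNCU

theorem theoremCPR : SpecCPR := specCPR specPRZ

theorem theoremEQV : SpecEQV := specEQV specLET

theorem theoremIDX : SpecIDX := specIDX specTRA

theorem theoremLIX : SpecLIX := specLIX specLET

theorem theoremSUL : SpecSUL := specSUL specLIN theoremIDX

/-- THEOREM E (1). -/
theorem theoremE1 : SpecDIV := specDIV theoremSEC theoremCLS theoremCPR theoremSUL theoremLIX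

/-- THEOREM E (2). -/
theorem theoremE2 : SpecFNT :=
  specFNT (specREL specGEN specLET theoremSEC theoremCLS theoremCPR specDET specROW specCJU
    theoremEQV)

/-- THEOREM E (3). -/
theorem theoremE3 : SpecFNE :=
  specFNE (specSVA theoremMIX theoremCPR theoremSUL theoremLIX specTRA specLET)
    (specSTD theoremB specDOM theoremIDX theoremLIX)
    (specUNQ theoremSEC theoremCLS theoremCPR specNFP specNFQ specDOM specCJU theoremEQV)
    specIV1 (specIV2 specLET specDOM) specIV3

end Pool.Agent.Lib.MP8519b0
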