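import Pool.Agent.Lib.MP_8519b0_al.Spec

/-!
# MP_8519b0_al: module NCU

Conjugation by a unimodular matrix is not core free.
-/

set_option autoImplicit false

namespace Pool.Agent.Lib.MP8519b0

namespace NCUM

/-- inverse transpose -/
def th : G →* G where
  toFun g := (g⁻¹).transpose
  map_one' := by
    apply Subtype.ext
    rw [Matrix.SpecialLinearGroup.coe_transpose, inv_one, Matrix.SpecialLinearGroup.coe_one,
      Matrix.transpose_one]
  map_mul' g h := by
    apply Subtype.ext
    rw [Matrix.SpecialLinearGroup.coe_transpose, mul_inv_rev, Matrix.SpecialLinearGroup.coe_mul,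
      Matrix.transpose_mul, Matrix.SpecialLinearGroup.coe_mul,
      Matrix.SpecialLinearGroup.coe_transpose, Matrix.SpecialLinearGroup.coe_transpose]

theorem tr_tr (g : G) : g.transpose.transpose = g := by
  apply Subtype.ext
  rw [Matrix.SpecialLinearGroup.coe_transpose, Matrix.SpecialLinearGroup.coe_transpose,
    Matrix.transpose_transpose]

theorem tr_mul (g h : G) : (g * h).transpose = h.transpose * g.transpose := by
  apply Subtype.ext
  rw [Matrix.SpecialLinearGroup.coe_transpose, Matrix.SpecialLinearGroup.coe_mul,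
    Matrix.transpose_mul, Matrix.SpecialLinearGroup.coe_mul,
    Matrix.SpecialLinearGroup.coe_transpose, Matrix.SpecialLinearGroup.coe_transpose]

theorem tr_one : (1 : G).transpose = 1 := by
  apply Subtype.ext
  rw [Matrix.SpecialLinearGroup.coe_transpose, Matrix.SpecialLinearGroup.coe_one,
    Matrix.transpose_one]

theorem th_th (g : G) : th (th g) = g := by
  show (((g⁻¹).transpose)⁻¹).transpose = g
  have h1 : ((g⁻¹).transpose)⁻¹ = g.transpose := by
    rw [inv_eq_iff_mul_eq_one, ← tr_mul, mul_inv_cancel, tr_one]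
  rw [h1, tr_tr]

theorem inf_G : Infinite G := by
  refine Infinite.of_injective (fun c : ℤ => el 0 1 c) ?_
  intro c d hcd
  have h0 : el 0 1 c = el 0 1 d := hcd
  have h1 : ((el 0 1 c : G) : MZ) 0 1 = ((el 0 1 d : G) : MZ) 0 1 := by rw [h0]
  have h2 : ∀ x : ℤ, ((el 0 1 x : G) : MZ) 0 1 = x := by
    intro x
    unfold el
    rw [dif_pos (by decide)]
    show (Matrix.transvection (0 : Fin 3) 1 x) 0 1 = x
    simp [Matrix.transvection]
  rw [h2, h2] at h1
  exact h1

/-- a subgroup of finite index which is normal and invariant under inverse transpose -/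
theorem main {H : Subgroup G} (hH : H.FiniteIndex) {φ : H →* G} {b : G}
    (h : (∀ x : H, φ x = b * (x : G) * b⁻¹) ∨ (∀ x : H, φ x = b * th (x : G) * b⁻¹)) :
    ¬ CoreFree H φ := by
  intro hc
  have hN : H.normalCore.FiniteIndex := inferInstance
  have hNn : H.normalCore.Normal := inferInstance
  have hcm : (H.normalCore.comap th).FiniteIndex := by
    refine ⟨?_⟩
    intro h0
    have h1 : H.normalCore.index ≠ 0 := hN.index_ne_zero
    apply h1
    rw [Subgroup.index_comap] at h0
    have h2 : th.range = ⊤ := by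
      rw [MonoidHom.range_eq_top]
      exact fun g => ⟨th g, th_th g⟩
    rw [h2, Subgroup.relIndex_top_right] at h0
    exact h0
  have hKn : (H.normalCore ⊓ H.normalCore.comap th).Normal := by
    have := hNn.comap th
    infer_instance
  have hKf : (H.normalCore ⊓ H.normalCore.comap th).FiniteIndex := inferInstance
  have hKH : (H.normalCore ⊓ H.normalCore.comap th) ≤ H :=
    inf_le_left.trans H.normalCore_le
  have hbot := hc _ hKn hKH ?_
  · rw [hbot] at hKf
    have h3 : (⊥ : Subgroup G).index ≠ 0 := hKf.index_ne_zero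
    rw [Subgroup.index_bot] at h3
    have h4 : Finite G := Nat.finite_of_card_ne_zero h3
    exact (not_finite_iff_infinite.mpr inf_G) h4
  · intro k hk
    rcases h with h | h
    · rw [h]
      exact hKn.conj_mem k hk b
    · rw [h]
      refine hKn.conj_mem _ ?_ b
      refine ⟨hk.2, ?_⟩
      show th (th k) ∈ H.normalCore
      rw [th_th]
      exact hk.1

end NCUM

open NCUM in
theorem specNCU : SpecNCU := by
  intro H hH φ B hB hconj
  obtain ⟨e, he, b, hb⟩ : ∃ e : ℤ, e ≠ 0 ∧ ∃ b : G, B = e • (b : MZ) := by
    rcases Int.isUnit_iff.mp hB with h1 | h1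
    · exact ⟨1, one_ne_zero, ⟨B, h1⟩, by rw [one_smul]⟩
    · refine ⟨-1, by norm_num, ⟨-B, ?_⟩, ?_⟩
      · rw [Matrix.det_neg, h1]
        simp
      · show B = (-1 : ℤ) • (-B)
        rw [neg_smul, one_smul, neg_neg]
  have key : ∀ (X Y : G), (X : MZ) * B = B * (Y : MZ) → X = b * Y * b⁻¹ := by
    intro X Y h
    rw [hb, Matrix.mul_smul, Matrix.smul_mul] at h
    have h1 : (X : MZ) * (b : MZ) = (b : MZ) * (Y : MZ) := by
      ext i j
      have h2 := congrFun (congrFun h i) j
      simp only [Matrix.smul_apply, smul_eq_mul] at h2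
      exact mul_left_cancel₀ he h2
    rw [eq_mul_inv_iff_mul_eq]
    apply Subtype.ext
    rw [Matrix.SpecialLinearGroup.coe_mul, Matrix.SpecialLinearGroup.coe_mul]
    exact h1
  refine main hH (b := b) ?_
  rcases hconj with h | h
  · left
    intro x
    exact key _ _ (h x)
  · right
    intro x
    refine key _ (th (x : G)) ?_
    rw [h x]
    rfl

end Pool.Agent.Lib.MP8519b0
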