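import Pool.Agent.Lib.MP_8519b0_al.Spec2

/-! MP_8519b0_al, module RAY: an element with pairwise not conjugate sections (helper61). -/

set_option autoImplicit false

namespace Pool.Agent.Lib.MP8519b0

namespace RAYM

/-- not conjugate -/
theorem not_conj (gg : ℤ → G) (x y : Fin 3 → ℤ) (r : ℤ) (hr : 2 ≤ |r|) (hx : PrimV x)
    (hy : PrimV y) (hg : ∀ c : ℤ, (gg c : MZ) = 1 + c • Matrix.vecMulVec x y) (a : ℤ) (ha : a ≠ 0)
    (e : ℕ) (he : 1 ≤ e) : ¬ IsConj (gg a) (gg (a * r ^ e)) := by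
  intro h
  obtain ⟨t, ht⟩ := isConj_iff.1 h
  have h1 : t * gg a = gg (a * r ^ e) * t := by
    rw [← ht]
    group
  have h2 : (t : MZ) * (gg a : MZ) = (gg (a * r ^ e) : MZ) * (t : MZ) := by
    rw [← Matrix.SpecialLinearGroup.coe_mul, h1, Matrix.SpecialLinearGroup.coe_mul]
  set N := Matrix.vecMulVec x y with hN
  rw [hg, hg, mul_add, add_mul, mul_one, one_mul, add_right_inj, mul_smul_comm,
    smul_mul_assoc, mul_smul] at h2
  have h3 : (t : MZ) * N = r ^ e • (N * (t : MZ)) := by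
    have h4 : ∀ i j, ((t : MZ) * N) i j = (r ^ e • (N * (t : MZ))) i j := by
      intro i j
      have h5 := congrFun (congrFun h2 i) j
      rw [Matrix.smul_apply, Matrix.smul_apply, smul_eq_mul, smul_eq_mul] at h5
      exact mul_left_cancel₀ ha h5
    ext i j
    exact h4 i j
  have h6 : N = r ^ e • (((t⁻¹ : G) : MZ) * (N * (t : MZ))) := by
    have h7 : ((t⁻¹ : G) : MZ) * (t : MZ) = 1 := by
      rw [← Matrix.SpecialLinearGroup.coe_mul, inv_mul_cancel, Matrix.SpecialLinearGroup.coe_one]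
    calc N = (((t⁻¹ : G) : MZ) * (t : MZ)) * N := by rw [h7, one_mul]
      _ = ((t⁻¹ : G) : MZ) * ((t : MZ) * N) := by rw [mul_assoc]
      _ = r ^ e • (((t⁻¹ : G) : MZ) * (N * (t : MZ))) := by rw [h3, mul_smul_comm]
  have hr1 : r.natAbs ≠ 1 := by
    intro h
    have : |r| = 1 := by rw [Int.abs_eq_natAbs, h]; rfl
    omega
  obtain ⟨p, hp, hpr⟩ := Nat.exists_prime_and_dvd hr1
  have hpr' : (p : ℤ) ∣ r := Int.natCast_dvd.2 hpr
  obtain ⟨i, hi⟩ := hx p hp
  obtain ⟨j, hj⟩ := hy p hp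
  have h8 : x i * y j = r ^ e * (((t⁻¹ : G) : MZ) * (N * (t : MZ))) i j := by
    have h9 := congrFun (congrFun h6 i) j
    rw [Matrix.smul_apply, smul_eq_mul] at h9
    rw [← h9, hN, Matrix.vecMulVec_apply]
  have h10 : (p : ℤ) ∣ x i * y j := by
    rw [h8]
    exact Dvd.dvd.mul_right (dvd_pow hpr' (by omega)) _
  rcases (Nat.prime_iff_prime_int.1 hp).dvd_or_dvd h10 with h | h
  · exact hi h
  · exact hj h

end RAYM

open RAYM in
/-- **RAY**. -/
theorem specRAY (hGRW : SpecGRW) : SpecRAY := by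
  intro m ρ hss x H φ A hfin hsec hA hconj
  obtain ⟨gg, xv, yv, r, k, hr, hxp, hyp, hxy, hg, hφ⟩ := hGRW H φ A hA hconj
  -- a one parameter group
  have hadd : ∀ c d : ℤ, gg (c + d) = gg c * gg d := by
    intro c d
    apply Subtype.ext
    change (gg (c + d) : MZ) = ((gg c * gg d : G) : MZ)
    rw [Matrix.SpecialLinearGroup.coe_mul, hg, hg, hg]
    have h0 : Matrix.vecMulVec xv yv * Matrix.vecMulVec xv yv = 0 := by
      rw [Matrix.vecMulVec_mul_vecMulVec]
      have : yv ⬝ᵥ xv = 0 := by rw [dotProduct_comm]; exact hxy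
      rw [this]
      simp
    rw [mul_add, mul_one, add_mul, one_mul, smul_mul_assoc, mul_smul_comm, h0, smul_zero,
      smul_zero, add_zero, add_smul, add_assoc]
  have hzero : gg 0 = 1 := by
    have h := hadd 0 0
    rw [add_zero] at h
    exact (mul_eq_left.1 h.symm)
  have hpow : ∀ n : ℕ, gg n = gg 1 ^ n := by
    intro n
    induction n with
    | zero => rw [Nat.cast_zero, pow_zero, hzero]
    | succ n ih => rw [Nat.cast_succ, hadd, ih, pow_succ]
  obtain ⟨M, hM0, -, hMH⟩ := Subgroup.exists_pow_mem_of_index_ne_zero hfin.index_ne_zero (gg 1)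
  rw [← hpow] at hMH
  have hneg : gg (-(M : ℤ)) ∈ H := by
    have h := hadd (M : ℤ) (-(M : ℤ))
    rw [add_neg_cancel, hzero] at h
    rw [← inv_eq_of_mul_eq_one_right h.symm]
    exact H.inv_mem hMH
  have hmem : ∀ c : ℤ, gg ((M : ℤ) * c) ∈ H := by
    intro c
    induction c using Int.induction_on with
    | zero => rw [mul_zero, hzero]; exact H.one_mem
    | succ i ih => rw [mul_add, mul_one, hadd]; exact H.mul_mem ih hMH
    | pred i ih =>
      rw [mul_sub, mul_one, sub_eq_add_neg, hadd]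
      exact H.mul_mem ih hneg
  -- the words
  let P : ℕ → List (Fin m) × G → Prop := fun n p => p.1.length = n ∧
    ∀ (c : ℤ) (u : List (Fin m)), ρ (gg ((M : ℤ) * c)) (p.1 ++ u) =
      p.1 ++ ρ (p.2 * gg (r ^ n * ((M : ℤ) * c)) * p.2⁻¹) u
  have base : P 0 ([], 1) := by
    refine ⟨rfl, fun c u => ?_⟩
    change ρ (gg ((M : ℤ) * c)) u = ρ (1 * gg (r ^ 0 * ((M : ℤ) * c)) * 1⁻¹) u
    rw [pow_zero, one_mul, one_mul, inv_one, mul_one]
  have step : ∀ (n : ℕ) (p : {p : List (Fin m) × G // P n p}),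
      ∃ p' : {p : List (Fin m) × G // P (n + 1) p}, p.1.1 <+: p'.1.1 := by
    rintro n ⟨⟨w, q⟩, hlen, hw⟩
    obtain ⟨s, y, hs⟩ := hss q x
    refine ⟨⟨(w ++ [y], s * k⁻¹), ?_, ?_⟩, List.prefix_append w [y]⟩
    · change (w ++ [y]).length = n + 1
      rw [List.length_append, List.length_singleton]
      exact congrArg (· + 1) hlen
    · intro c u
      change ρ (gg ((M : ℤ) * c)) ((w ++ [y]) ++ u) =
        (w ++ [y]) ++ ρ (s * k⁻¹ * gg (r ^ (n + 1) * ((M : ℤ) * c)) * (s * k⁻¹)⁻¹) u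
      rw [List.append_assoc, List.append_assoc, List.singleton_append, List.singleton_append]
      have h1 := hw c (y :: u)
      change ρ (gg ((M : ℤ) * c)) (w ++ y :: u) =
        w ++ ρ (q * gg (r ^ n * ((M : ℤ) * c)) * q⁻¹) (y :: u) at h1
      rw [h1]
      congr 1
      set g' := gg (r ^ n * ((M : ℤ) * c)) with hg'
      have hg'H : g' ∈ H := by
        have h2 : r ^ n * ((M : ℤ) * c) = (M : ℤ) * (r ^ n * c) := by ring
        rw [hg', h2]
        exact hmem _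
      have h3 : φ ⟨g', hg'H⟩ = k⁻¹ * gg (r ^ (n + 1) * ((M : ℤ) * c)) * k := by
        have h4 := hφ (r ^ n * ((M : ℤ) * c)) hg'H
        have h5 : r * (r ^ n * ((M : ℤ) * c)) = r ^ (n + 1) * ((M : ℤ) * c) := by ring
        rw [h5] at h4
        exact h4
      have h6 : ρ q⁻¹ (y :: u) = x :: ρ s⁻¹ u := by
        have h7 : ρ q (x :: ρ s⁻¹ u) = y :: u := by
          rw [hs, ← Equiv.Perm.mul_apply, ← map_mul, mul_inv_cancel, map_one,
            Equiv.Perm.one_apply]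
        rw [← h7, ← Equiv.Perm.mul_apply, ← map_mul, inv_mul_cancel, map_one,
          Equiv.Perm.one_apply]
      have h8 : ρ g' (x :: ρ s⁻¹ u) = x :: ρ (φ ⟨g', hg'H⟩) (ρ s⁻¹ u) := hsec ⟨g', hg'H⟩ _
      rw [map_mul, map_mul, Equiv.Perm.mul_apply, Equiv.Perm.mul_apply, h6, h8, hs, h3]
      congr 1
      rw [← Equiv.Perm.mul_apply, ← Equiv.Perm.mul_apply, ← map_mul, ← map_mul]
      congr 2
      group
  choose nx hnx using step
  let seq : ∀ n, {p : List (Fin m) × G // P n p} := fun n =>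
    Nat.rec (motive := fun n => {p : List (Fin m) × G // P n p}) ⟨([], 1), base⟩
      (fun n p => nx n p) n
  have hM : (M : ℤ) ≠ 0 := by exact_mod_cast hM0.ne'
  have hr0 : r ≠ 0 := by
    rintro rfl
    simp at hr
  refine ⟨gg ((M : ℤ) * 1), fun n => (seq n).1.1,
    fun n => (seq n).1.2 * gg (r ^ n * ((M : ℤ) * 1)) * ((seq n).1.2)⁻¹,
    fun n => ⟨(seq n).2.1, hnx n (seq n)⟩, fun n u => (seq n).2.2 1 u, ?_⟩
  have key : ∀ n n' : ℕ, n < n' →
      ¬ IsConj ((seq n).1.2 * gg (r ^ n * ((M : ℤ) * 1)) * ((seq n).1.2)⁻¹)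
        ((seq n').1.2 * gg (r ^ n' * ((M : ℤ) * 1)) * ((seq n').1.2)⁻¹) := by
    intro n n' hnn h
    have h1 : IsConj (gg (r ^ n * ((M : ℤ) * 1)))
        ((seq n).1.2 * gg (r ^ n * ((M : ℤ) * 1)) * ((seq n).1.2)⁻¹) :=
      isConj_iff.2 ⟨_, rfl⟩
    have h2 : IsConj (gg (r ^ n' * ((M : ℤ) * 1)))
        ((seq n').1.2 * gg (r ^ n' * ((M : ℤ) * 1)) * ((seq n').1.2)⁻¹) :=
      isConj_iff.2 ⟨_, rfl⟩
    have h3 := (h1.trans h).trans h2.symm
    have h4 : r ^ n' * ((M : ℤ) * 1) = r ^ n * ((M : ℤ) * 1) * r ^ (n' - n) := by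
      have h5 : n' = n + (n' - n) := by omega
      conv_lhs => rw [h5, pow_add]
      ring
    rw [h4] at h3
    exact not_conj gg xv yv r hr hxp hyp hg _ (mul_ne_zero (pow_ne_zero _ hr0) (by simpa using hM))
      (n' - n) (by omega) h3
  intro n n' hnn h
  rcases lt_or_gt_of_ne hnn with h1 | h1
  · exact key n n' h1 h
  · exact key n' n h1 h.symm

end Pool.Agent.Lib.MP8519b0
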