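import Pool.Agent.Lib.MP_8519b0_al.Defs

/-!
# MP_8519b0_al: self-similar actions of `SL_3(Z)` (specifications of the modules)

THEOREM A. `SL_3(Z)` has a faithful self-similar action over an alphabet with `m` letters iff
`m ≥ 7`.

THEOREM B. (1) If a faithful self-similar action of `SL_3(Z)` is transitive on the letters, then for
every letter `x` there is an integral matrix `A`, `det A ≠ 0`, not a multiple of a unimodular one,
such that the section at `x` of every `g` fixing `x` is `A g A⁻¹`, or such that it is always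
`A (g⁻¹)ᵀ A⁻¹`. (2) Every such `A` occurs, in both forms. (3) No faithful self-similar action of
`SL_3(Z)`, over any alphabet, is transitive on the words of length `2`.

All modules are independent: file `Pool/Agent/Lib/MP_8519b0_al/XXX.lean`, import
`Pool.Agent.Lib.MP_8519b0_al.Spec`, namespace `Pool.Agent.Lib.MP8519b0`, theorem
`specXXX (hYYY : SpecYYY) .. : SpecXXX` with the hypotheses in the order of USES, own lemmas in a
namespace `XXXM`.
-/

set_option autoImplicit false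

open scoped commutatorElement

namespace Pool.Agent.Lib.MP8519b0

/-- The elementary matrix `x_ij(c) = 1 + c E_ij` (and `1` if `i = j`). -/
def el (i j : Fin 3) (c : ℤ) : G :=
  if h : i ≠ j then Matrix.SpecialLinearGroup.transvection h c else 1

/-- The subgroup generated by the elementary matrices `x_ij(N)`, `i ≠ j`. -/
def EN (N : ℤ) : Subgroup G :=
  Subgroup.closure {g : G | ∃ i j : Fin 3, i ≠ j ∧ g = el i j N}

/-- `EX A = 1 + A + A²/2`, the exponential of `A` if `A³ = 0`. -/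
noncomputable def EX (A : MQ) : MQ := 1 + A + (1 / 2 : ℚ) • (A * A)

/-- The rational matrix of an element of `SL_3(Z)`. -/
def toQ (g : G) : MQ := (g : MZ).map (Int.cast : ℤ → ℚ)

/-- The only normal subgroup `K` of `SL_3(Z)` with `K ≤ H` and `φ(K) ⊆ K` is the trivial one. -/
def CoreFree (H : Subgroup G) (φ : H →* G) : Prop :=
  ∀ (K : Subgroup G), K.Normal → ∀ hK : K ≤ H, (∀ (k : G) (hk : k ∈ K), φ ⟨k, hK hk⟩ ∈ K) → K = ⊥

/-- `φ(h) = A h A⁻¹` for all `h` in `H`, or `φ(h) = A (h⁻¹)ᵀ A⁻¹` for all `h` in `H`. -/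
def IsConj3 (H : Subgroup G) (φ : H →* G) (A : MZ) : Prop :=
  (∀ h : H, (φ h : MZ) * A = A * ((h : G) : MZ)) ∨
    (∀ h : H, (φ h : MZ) * A = A * (((h : G)⁻¹ : G) : MZ).transpose)

/-! ## Part A: the alphabets -/

/-- GEN (120 lines). USES nothing. `SL_3(Z)` is generated by the elementary matrices `x_ij(1)`.
PROOF. Let `S` be the subgroup. It contains all `x_ij(c)` (powers of `x_ij(1)`). (1) For a vector
`v` in `Z^3` whose coordinates have no common prime divisor there is `s` in `S` with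
`s v = (1,0,0)`: induction on `|v_0| + |v_1| + |v_2|`. If two coordinates `v_i, v_j` are not zero
and `|v_i| ≤ |v_j|`, then `x_ji(±1)` replaces `v_j` by `v_j ± v_i`, smaller for one sign. If only
one coordinate is not zero then it is `±1`; if it is `v_j`, `j ≠ 0`, then `x_0j(±1)` makes
`v_0 = 1` and `x_j0(-v_j)` gives `(1,0,0)`; if it is `v_0 = -1` apply first `x_10(1)`. (2) Let
`g` be in `SL_3(Z)`; its first column has no common prime divisor, so we may assume it is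
`(1,0,0)ᵀ`, and after right multiplication by `x_01(-g_01) x_02(-g_02)` that the first row is
`(1,0,0)`. The second column is `(0, a, b)` with `a, b` coprime; (1) with `x_12, x_21` only (same
induction for two coordinates) makes it `(0,1,0)`; then the determinant gives `g_22 = 1`, and
`x_12(-g_12)` on the right (or left) gives `1`. (Any other proof is welcome; one may also argue
by strong induction on the sum of the absolute values of the entries of a column.) -/
def SpecGEN : Prop := Subgroup.closure {g : G | ∃ i j : Fin 3, i ≠ j ∧ g = el i j 1} = ⊤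

/-- SXP (80 lines). USES nothing. A computation in `S_6`.
PROOF. Checked by computer: for `w` one of `1`, `(0 1 2)`, `(0 1 2)(3 4 5)` and all 720 `E`,
the two relations hold only for `E = 1`. General `w` with `w^3 = 1`: cycle type `3^k`, `k ≤ 2`
(`Equiv.Perm.cycleType` of an element of order dividing `3`, see
`Equiv.Perm.cycleType_of_pow_prime_eq_one`), hence conjugate to one of the three by
`Equiv.Perm.isConj_iff_cycleType_eq`; the claim is invariant under simultaneous conjugation. The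
three finite checks by `decide +kernel` (if slow: encode permutations by functions
`Fin 6 → Fin 6`, or split over the value of `E 0`); NO `native_decide`. -/
def SpecSXP : Prop :=
  ∀ w E : Equiv.Perm (Fin 6), w ^ 3 = 1 →
    (E * ⁅E, w * E * w⁻¹⁆ = ⁅E, w * E * w⁻¹⁆ * E) →
    (⁅⁅E, w * E * w⁻¹⁆, ⁅w ^ 2 * E * (w ^ 2)⁻¹, E⁆⁆ = E) → E = 1

/-- SIX (120 lines). USES GEN, SXP. `SL_3(Z)` has no nontrivial action on at most six points.
PROOF. Compose `ρ` with an injective homomorphism `Perm (Fin m) → Perm (Fin 6)` (for instance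
`Equiv.Perm.viaEmbeddingHom (Fin.castLEEmb h)`), so `m = 6`. Let `w₀` in `SL_3(Z)` be the
permutation matrix with `w₀ e_0 = e_1, w₀ e_1 = e_2, w₀ e_2 = e_0` (determinant `1`,
`w₀^3 = 1`); `w₀ x_ij(c) w₀⁻¹ = x_{i+1,j+1}(c)`. With `E₀ = x_01(1)`: `w₀ E₀ w₀⁻¹ = x_12(1)`,
`w₀² E₀ w₀⁻² = x_20(1)`, `⁅x_01(1), x_12(1)⁆ = x_02(1)`, `⁅x_20(1), x_01(1)⁆ = x_21(1)`,
`x_01(1)` commutes with `x_02(1)`, and `⁅x_02(1), x_21(1)⁆ = x_01(1)`
(`⁅a, b⁆ = a b a⁻¹ b⁻¹`, `⁅x_ij(a), x_jk(b)⁆ = x_ik(ab)` for `i, j, k` distinct). So SXP applies to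
`w = ρ w₀`, `E = ρ E₀` and gives `ρ (x_01(1)) = 1`. Then `ρ = 1` on `x_12(1)`, `x_20(1)`
(conjugates) and on `x_02(1)`, `x_21(1)`, `x_10(1)` (commutators), so `ρ = 1` by GEN. -/
def SpecSIX : Prop :=
  ∀ m : ℕ, m ≤ 6 → ∀ ρ : G →* Equiv.Perm (Fin m), ρ = 1

/-- LET (100 lines). USES nothing. The action on letters and basic facts.
PROOF. `SelfSimilar` gives `h, y` for every `g, x`; `y` is unique (`ρ g [x] = y :: ρ h []` and the
first letter). First, `ρ g [] = []`: let `w` be the preimage of `[]` under `ρ g`; if `w = x :: w'`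
then `ρ g w` is not empty; so `w = []`. The lengths: by induction on the length of `w`,
`(ρ g w).length = w.length` for all `g`. Hence `ρ g [x] = [y]`. Put `α g x = y`; it is
multiplicative because `ρ (g g') [x] = ρ g (ρ g' [x])`, and `α g⁻¹` is the inverse of `α g`. -/
def SpecLET : Prop :=
  ∀ (m : ℕ) (ρ : G →* Equiv.Perm (List (Fin m))), SelfSimilar ρ →
    (∀ (g : G) (w : List (Fin m)), (ρ g w).length = w.length) ∧
    ∃ α : G →* Equiv.Perm (Fin m), (∀ (g : G) (x : Fin m), ρ g [x] = [α g x]) ∧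
      ∀ (g : G) (x : Fin m), ∃ h : G, ∀ w : List (Fin m), ρ g (x :: w) = α g x :: ρ h w

/-- NEG (60 lines). USES SIX, LET. At least seven letters are needed.
PROOF. Suppose `m ≤ 6`. By SIX `α = 1`. By induction on the length of `w`: `ρ g w = w` for all
`g`: `w = []` by the length; `ρ g (x :: w) = x :: ρ h w = x :: w`. So `ρ g = 1` for all `g` and
`ρ` is not injective (`x_01(1) ≠ 1`). -/
def SpecNEG : Prop :=
  ∀ (m : ℕ) (ρ : G →* Equiv.Perm (List (Fin m))), Function.Injective ρ → SelfSimilar ρ → 7 ≤ m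

/-- ACT (180 lines). USES nothing. The self-similar action defined by a virtual endomorphism.
PROOF. Choose `t x` in `G` with `α (t x) x₀ = x` (possible by transitivity), `t x₀ = 1` (modify the
choice at `x₀`). For `g` in `G` and a letter `x`, the element `(t (α g x))⁻¹ g (t x)` fixes `x₀`,
so it is in `H`; put `σ g x = φ ((t (α g x))⁻¹ g (t x))`. Then `σ 1 x = 1` and
`σ (g g') x = σ g (α g' x) * σ g' x`. Define `act g [] = []`, `act g (x :: w) = α g x ::
act (σ g x) w` (recursion on the word, `g` varying). By induction on the word `act 1 w = w` and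
`act (g g') w = act g (act g' w)`, so `act` is an action and gives `ρ`. It is self-similar, and
for `g` in `H`, `σ g x₀ = φ g` since `t x₀ = 1` and `α g x₀ = x₀`. -/
def SpecACT : Prop :=
  ∀ (m : ℕ) (α : G →* Equiv.Perm (Fin m)), (∀ x y : Fin m, ∃ g : G, α g x = y) →
    ∀ (x₀ : Fin m) (H : Subgroup G), (∀ g : G, g ∈ H ↔ α g x₀ = x₀) → ∀ φ : H →* G,
    ∃ ρ : G →* Equiv.Perm (List (Fin m)), SelfSimilar ρ ∧
      (∀ (g : G) (x : Fin m), ρ g [x] = [α g x]) ∧ ∀ h : H, Section ρ x₀ (h : G) (φ h)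

/-- EXT (100 lines). USES LET. One more letter.
PROOF. Let `α` and the section `h = s g x` (chosen; unique because `ρ` is injective) be as in LET;
`s (g g') x = s g (α g' x) * s g' x` and `s 1 x = 1` by injectivity. On `Fin (m+1)` use
`Fin.castSucc x` for the old letters and `Fin.last m` for the new one: `act g [] = []`,
`act g (castSucc x :: w) = castSucc (α g x) :: act (s g x) w`, `act g (last :: w) = last :: w`
(recursion on the word). This is an action, self-similar (section `1` at the new letter), and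
`act g (w.map castSucc) = (ρ g w).map castSucc`, so it is faithful. -/
def SpecEXT : Prop :=
  ∀ m : ℕ, (∃ ρ : G →* Equiv.Perm (List (Fin m)), Function.Injective ρ ∧ SelfSimilar ρ) →
    ∃ ρ : G →* Equiv.Perm (List (Fin (m + 1))), Function.Injective ρ ∧ SelfSimilar ρ

/-- SEV (220 lines). USES ACT. Seven letters suffice.
PROOF. The letters are the `7` nonzero vectors of `(ZMod 2)^3` (an equivalence with `Fin 7`), on
which `SL_3(Z)` acts through reduction mod `2`. It is transitive: `e_0` is sent to `v ≠ 0` by the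
matrix with columns `(v, e_1, e_2)` if `v_0 = 1`, `(v, -e_0, e_2)` if `v = (0,1,c)`, and
`(e_2, e_0, e_1)` if `v = (0,0,1)` (entries `0, 1` lifted to `Z`). Let `x₀` be `e_0`; its
stabiliser is `H = {g : g_10, g_20 even}` (`g e_0` is the first column of `g`; if `g_10`, `g_20`
are even then `g_00` is odd because `det g = 1`). For `g` in `H` let `φ(g) = D g D⁻¹`,
`D = diag(2,1,1)`: entries `φ(g)_00 = g_00`, `φ(g)_0j = 2 g_0j`, `φ(g)_i0 = g_i0 / 2`,
`φ(g)_ij = g_ij` for `i, j ≠ 0`; it is integral, of determinant `1`, multiplicative (`φ(g) D = D g`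
and `D` can be cancelled). ACT gives `ρ`. Let `K` be the kernel of `ρ`. If `k` is in `K` then
`ρ k [x₀] = [x₀]`, so `k` is in `H`, and `x₀ :: ρ (φ k) w = ρ k (x₀ :: w) = x₀ :: w`, so
`φ k` is in `K`. By induction on `n`: `2^n` divides `k_10` and `k_20` for every `k` in `K`
(`k_i0 = 2 (φ k)_i0`). So `k_10 = k_20 = 0`. `K` is normal: for every `u` in `SL_3(Z)` the vector
`k (u e_0)` is a multiple of `u e_0`. With `u e_0 = e_0, e_1, e_2, e_0 + e_1, e_0 + e_2` we get
that `k` is diagonal with equal entries `a`; `a^3 = 1`, so `a = 1` and `k = 1`. So `ρ` is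
injective. -/
def SpecSEV : Prop :=
  ∃ ρ : G →* Equiv.Perm (List (Fin 7)), Function.Injective ρ ∧ SelfSimilar ρ

/-! ## Part B1: superrigidity of finite index subgroups of `SL_3(Z)` -/

/-- QUN (150 lines). USES nothing. Commutators which commute with their factors.
PROOF. Work over `ℂ` (map the matrices to `ℂ`). Let `μ` be an eigenvalue of `C`, `E = ker(C - μ)`,
`1 ≤ dim E ≤ 3`. `P` and `Q` commute with `C`, so they map `E` to `E` (bijectively), and on `E`
we have `P Q = μ Q P`. Taking determinants of the restrictions to `E`: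
`det(P|E) det(Q|E) = μ^dim E det(Q|E) det(P|E)`, so `μ^dim E = 1` and `μ^6 = 1`. Hence all
eigenvalues of `C^6` are `1` (they are `μ^6` for the eigenvalues `μ` of `C`; or: `C^6 - 1` is a
product of the commuting `C - ζ`, `ζ^6 = 1`, ...), so `C^6 - 1` has only the eigenvalue `0`, is
nilpotent, and its third power is `0`. (For the last step one can use that the characteristic
polynomial of `C` over `ℂ` splits, `charpoly C = ∏ (X - μ)`, every root `μ` satisfies `μ^6 = 1`, so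
`charpoly C` divides `(X^6 - 1)^3`, and Cayley-Hamilton.) -/
def SpecQUN : Prop :=
  ∀ P Q C : G, C = P * Q * P⁻¹ * Q⁻¹ → C * P = P * C → C * Q = Q * C →
    ((C ^ 6 : G) - 1 : MZ) ^ 3 = 0

/-- EXL (60 lines). USES nothing. The logarithm of a unipotent matrix.
PROOF. `V = U - 1`, `V^3 = 0`, `L = V - V²/2`. Then `L² = V²`, `L³ = 0`. By induction
`U^a = 1 + a V + (a(a-1)/2) V²` and `EX (a L) = 1 + a V - (a/2) V² + (a²/2) V²`, the same. -/
def SpecEXL : Prop :=
  ∀ U : MQ, (U - 1) ^ 3 = 0 → ∃ L : MQ, L ^ 3 = 0 ∧ ∀ a : ℕ, U ^ a = EX ((a : ℚ) • L)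

/-- LOG (100 lines). USES nothing. From the group relation to the Lie relation.
PROOF. For fixed `b` both sides are polynomials in `a` with matrix coefficients:
LHS `= (1 + aX + a²X²/2) EX(bY)`, RHS `= (1 + aNbZ + a²N²b²Z²/2) EX(bY) (1 + aX + a²X²/2)`.
They agree for all natural `a`, so the coefficients of `a` agree (a polynomial
`c_0 + c_1 a + .. + c_4 a^4` with coefficients in a rational vector space which vanishes for
`a = 0, 1, 2, 3, 4` is zero): `X EX(bY) = N b Z EX(bY) + EX(bY) X` for all natural `b`. Compare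
the coefficients of `b` in the same way: `X Y = N Z + Y X`. -/
def SpecLOG : Prop :=
  ∀ (X Y Z : MQ) (N : ℚ),
    (∀ a b : ℕ, EX ((a : ℚ) • X) * EX ((b : ℚ) • Y) =
      EX ((N * a * b) • Z) * EX ((b : ℚ) • Y) * EX ((a : ℚ) • X)) →
    X * Y - Y * X = N • Z

/-- LIE (300 lines). USES nothing. Representations of the relations of `sl_3` on `ℚ^3`.
PROOF. If one `Y_ij = 0` then all are `0` (`Y_ik = [Y_ij, Y_jk]` and `Y_kj = [Y_ki, Y_ij]`; iterate).
Assume that all are not `0`.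
(1) `Y_ij² = 0`: let `Z = Y_ik = [Y_ij, Y_jk]`, `i, j, k` distinct. `Z` is nilpotent and commutes
with `Y_ij` and `Y_jk`. If `Z² ≠ 0` then `Z` is a regular nilpotent `3 x 3` matrix: there is `v`
with `Z²v ≠ 0`, `v, Zv, Z²v` is a basis, every matrix commuting with `Z` is a polynomial in `Z`
(it is determined by the image of `v`), so `Y_ij` and `Y_jk` commute and `Z = 0`, contradiction.
(2) So every `Y_ij` is nilpotent of rank one: `Y_ij = u_ij v_ijᵀ` (`Matrix.vecMulVec`), `u_ij`,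
`v_ij` not zero, `v_ij · u_ij = 0` (a matrix with square `0` in dimension `3` has rank `≤ 1`).
(3) Say `Y_ij ∥ Y_ik` ... Let `i, j, k` be distinct. `α = v_ij · u_jk`, `β = v_jk · u_ij`:
`Y_ik = α u_ij v_jkᵀ - β u_jk v_ijᵀ`. Not both `α, β` are `0`. If both are not `0`: a sum of two
rank one matrices of rank one has `u_ij ∥ u_jk` or `v_jk ∥ v_ij`; in the first case
`α = v_ij · u_jk` is a multiple of `v_ij · u_ij = 0`, in the second `β = v_jk · u_ij` is a multiple
of `v_ij · u_ij = 0`, contradiction. So exactly one is not zero.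
Type (a): `α ≠ 0, β = 0`: `u_ik ∥ u_ij`, `v_ik ∥ v_jk`. Type (b): `α = 0, β ≠ 0`: `u_ik ∥ u_jk`,
`v_ik ∥ v_ij`.
(4) All six ordered triples have the same type. It is enough to see that `(i,j,k)` and `(i,k,j)`
have the same type and `(i,j,k)` and `(j,i,k)` have the same type. If `(i,j,k)` has type (a):
`u_ik ∥ u_ij`, `v_ik ∥ v_jk`. If `(i,k,j)` (for `Y_ij = [Y_ik, Y_kj]`) had type (b):
`u_ij ∥ u_kj`, `v_ij ∥ v_ik`, so `Y_ij ∥ Y_ik`, and then `[Y_ij, Y_jk] ∥ [Y_ik, Y_jk] = 0`,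
contradiction. If `(j,i,k)` (for `Y_jk = [Y_ji, Y_ik]`) had type (b): `u_jk ∥ u_ik`,
`v_jk ∥ v_ji`, so `Y_jk ∥ Y_ik` (`u_jk ∥ u_ik`, `v_jk ∥ v_ik`), and then `Y_ik = [Y_ij, Y_jk] ∥
[Y_ij, Y_ik] = 0`, contradiction. By symmetry the same for type (b).
(5) Type (a): `u_ij` depends, up to a scalar, only on `i`, `v_ij` only on `j`. So there are vectors
`u_i`, `v_j` and scalars `c_ij ≠ 0` with `Y_ij = c_ij u_i v_jᵀ` (`i ≠ j`), `v_j · u_i = 0` for
`i ≠ j`, `v_j · u_j ≠ 0`; scale `v_j` such that `v_j · u_j = 1`. Then `(u_i)` is a basis with dual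
basis `(v_j)`, and `c_ij c_jk = c_ik` for distinct `i, j, k`. Put `d_0 = 1`, `d_1 = c_10`,
`d_2 = c_20` (so `c_i0 = d_i`): `c_0j c_j0 = 1` (`c_0j c_jk = c_0k`, `c_0k c_kj = c_0j` give
`c_jk c_kj = 1`; all pairs by symmetry), `c_ij = d_i / d_j`. Let `g` be the matrix with columns
`d_i u_i`: `g` is invertible and `Y_ij g e_k = Y_ij d_k u_k = δ_jk d_k c_ij u_i = δ_jk d_i u_i =
g E_ij e_k`.
(6) Type (b): the matrices `- Y_ijᵀ = - v_ij u_ijᵀ` satisfy the same relations
(`[-Aᵀ, -Bᵀ] = -[A,B]ᵀ`) and are of type (a): `-Y_ijᵀ g' = g' E_ij`. Transpose: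
`- g'ᵀ Y_ij = E_ji g'ᵀ`; with `g = (g'ᵀ)⁻¹`: `Y_ij g = - g E_ji`. -/
def SpecLIE : Prop :=
  ∀ Y : Fin 3 → Fin 3 → MQ, (∀ i j, i ≠ j → Y i j ^ 3 = 0) →
    (∀ i j k, i ≠ j → j ≠ k → i ≠ k → Y i j * Y j k - Y j k * Y i j = Y i k) →
    (∀ i j k, i ≠ j → j ≠ k → i ≠ k → Y i j * Y i k = Y i k * Y i j) →
    (∀ i j k, i ≠ j → j ≠ k → i ≠ k → Y i k * Y j k = Y j k * Y i k) →
    (∀ i j, i ≠ j → Y i j = 0) ∨
    ∃ g : MQ, g.det ≠ 0 ∧ ((∀ i j, i ≠ j → Y i j * g = g * Matrix.single i j 1) ∨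
      (∀ i j, i ≠ j → Y i j * g = -(g * Matrix.single j i 1)))

/-- CNJ (180 lines). USES GEN. Conjugates of `E(M)`.
PROOF. Note `x_ij(N c)` is in `EN N` for every integer `c` (power of `x_ij(N)`), so
`EN (N c) ≤ EN N`. Claim: `x_kl(s) EN(N²) x_kl(s)⁻¹ ≤ EN N` for all `k ≠ l` and every integer `s`.
It is enough to conjugate the generators `x_ij(N²)`. If `(i,j) ≠ (l,k)` then
`x_kl(s) x_ij(a) x_kl(s)⁻¹` is `x_ij(a)` times `1` or one of `x_kj(s a)` (if `l = i`, `k ≠ j`),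
`x_il(-s a)` (if `j = k`, `i ≠ l`), which is in `EN N` for `a` a multiple of `N`. If
`(i,j) = (l,k)`, let `r` be the third index; `x_lk(N²) = ⁅x_lr(N), x_rk(N)⁆`, and the conjugates
of `x_lr(N)` and `x_rk(N)` by `x_kl(s)` are in `EN N` by the first case. Now let `P h` be the
statement: for every `N ≥ 1` there is `M ≥ 1` with `h k h⁻¹ ∈ EN N` for all `k ∈ EN M`. It holds
for `h = x_kl(±1)` by the claim, and if it holds for `h` and `h'` then for `h h'`. By GEN (
`Subgroup.closure_induction`, inverses of the generators are `x_kl(-1)`) it holds for all `h`. -/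
def SpecCNJ : Prop :=
  ∀ (h : G) (N : ℕ), 1 ≤ N → ∃ M : ℕ, 1 ≤ M ∧ ∀ k ∈ EN (M : ℤ), h * k * h⁻¹ ∈ EN (N : ℤ)

/-- FIX (60 lines). USES nothing. A finite index subgroup contains some `E(N)`, `N` any multiple
of a suitable number.
PROOF. For each pair some positive power of `x_ij(1)` is in `H`
(`Subgroup.exists_pow_mem_of_index_ne_zero` or the finiteness of `G / H`); take the product of the
six exponents. -/
def SpecFIX : Prop :=
  ∀ H : Subgroup G, H.FiniteIndex → ∃ N : ℕ, 1 ≤ N ∧ EN (N : ℤ) ≤ H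

/-- RIG (350 lines). USES QUN, EXL, LOG, LIE, CNJ, FIX. Superrigidity for homomorphisms of finite
index subgroups `H` of `SL_3(Z)` to `SL_3(Z)`.
PROOF. Let `EN N₀ ≤ H` (FIX). Write `f c i j = φ(x_ij(c))` for `N₀ ∣ c`. For distinct `i, j, k`
the element `C = φ(x_ik(N₀²))` is the commutator of `P = φ(x_ij(N₀))` and `Q = φ(x_jk(N₀))` and
commutes with both, so by QUN `φ(x_ik(6 N₀²)) = C^6` is unipotent. Put `N = 6 N₀²`,
`U_ij = φ(x_ij(N))` (a rational matrix): `(U_ij - 1)^3 = 0`. By EXL let `U_ij^a = EX(a X_ij)`,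
`X_ij^3 = 0`. For distinct `i, j, k` and natural `a, b`:
`x_ij(N a) x_jk(N b) = x_ik(N² a b) x_jk(N b) x_ij(N a)` gives
`EX(a X_ij) EX(b X_jk) = EX(N a b X_ik) EX(b X_jk) EX(a X_ij)`, so by LOG
`[X_ij, X_jk] = N X_ik`; in the same way `x_ij(Na)` commutes with `x_ik(Nb)` and `x_ik(Na)` with
`x_jk(Nb)`, and LOG with `N = 0` gives that `X_ij, X_ik` commute and `X_ik, X_jk` commute.
`Y_ij = X_ij / N` satisfies the hypotheses of LIE.
First case, `Y = 0`: then `U_ij = EX 0 = 1`, so `φ(x_ij(N)) = 1` and `φ = 1` on `EN N` (closure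
induction).
Second case: `Y_ij g = g E_ij`, so `X_ij g = N g E_ij`, and since `E_ij² = 0`,
`U_ij g = EX(X_ij) g = g (1 + N E_ij) = g x_ij(N)`. Hence `φ(k) g = g k` for all `k` in `EN N`
(closure induction, inverses too: `φ(k) g = g k` implies `φ(k)⁻¹ g = g k⁻¹`). Let `h` be in `H`. By
CNJ there is `M` with `h k h⁻¹ ∈ EN N` for `k ∈ EN M`; let `M' = M N`, `EN M' ≤ EN M ⊓ EN N`. For
`k ∈ EN M'`: `φ(h) g k = φ(h) φ(k) g = φ(h k h⁻¹) φ(h) g = g h k h⁻¹ g⁻¹ φ(h) g`, so
`T = h⁻¹ g⁻¹ φ(h) g` commutes with `k`, hence with `E_ij` for all `i ≠ j` (`k = 1 + M' E_ij`).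
So `T` is a scalar `λ` in `ℚ`, `λ^3 = det T = 1`, `λ = 1`, `φ(h) g = g h`.
Third case: `Y_ij g = - g E_ji`: `U_ij g = g (1 - N E_ji) = g (x_ij(N)⁻¹)ᵀ`. As before
`φ(k) g = g (k⁻¹)ᵀ` on `EN N`, and with `h* = (h⁻¹)ᵀ` (multiplicative in `h`):
`φ(h) g k* = g h* k* (h*)⁻¹ g⁻¹ φ(h) g`, `T = (h*)⁻¹ g⁻¹ φ(h) g` commutes with `k* = 1 - M' E_ji`,
so `T = 1`. -/
def SpecRIG : Prop :=
  ∀ (H : Subgroup G), H.FiniteIndex → ∀ φ : H →* G,
    (∃ M : ℕ, 1 ≤ M ∧ ∃ hM : EN (M : ℤ) ≤ H, ∀ (k : G) (hk : k ∈ EN (M : ℤ)), φ ⟨k, hM hk⟩ = 1) ∨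
    ∃ g : MQ, g.det ≠ 0 ∧ ((∀ h : H, toQ (φ h) * g = g * toQ (h : G)) ∨
      (∀ h : H, toQ (φ h) * g = g * (toQ ((h : G)⁻¹)).transpose))

/-! ## Part B2: which virtual endomorphisms give faithful actions -/

/-- NCT (150 lines). USES CNJ. The case `φ = 1` on some `E(M)` is not faithful.
PROOF. Let `L` be the image in `G` of the kernel of `φ` (a subgroup `L ≤ H` normalised by `H`) and
`K` its normal core in `G`. `K` is normal, `K ≤ L ≤ H` and `φ(K) = 1`. If `CoreFree` then `K = 1`.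
But `g L g⁻¹` depends only on the coset `g H`, and `H` has finite index, so `K` is the intersection
of the `t L t⁻¹` for `t` in a finite set `T` of representatives. By CNJ for `t⁻¹` there is `M_t`
with `t⁻¹ k t ∈ EN M ≤ L`, so `k ∈ t L t⁻¹`, for all `k ∈ EN M_t`. With `M' = ∏ M_t`
(`EN M' ≤ EN M_t`) we get `EN M' ≤ K`, and `x_01(M') ≠ 1`. Contradiction. -/
def SpecNCT : Prop :=
  ∀ (H : Subgroup G), H.FiniteIndex → ∀ φ : H →* G,
    (∃ M : ℕ, 1 ≤ M ∧ ∃ hM : EN (M : ℤ) ≤ H, ∀ (k : G) (hk : k ∈ EN (M : ℤ)), φ ⟨k, hM hk⟩ = 1) →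
    ¬ CoreFree H φ

/-- NCU (120 lines). USES nothing. Conjugation by a unimodular matrix is not faithful.
PROOF. Replace `B` by `-B` if `det B = -1` (`n = 3` is odd): `B = b` is in `SL_3(Z)` and
`φ(h) = b h b⁻¹` or `φ(h) = b (h⁻¹)ᵀ b⁻¹`. Let `N₁` be the normal core of `H` in `G`,
`θ(h) = (h⁻¹)ᵀ` (an automorphism of `G`), `K = N₁ ⊓ θ(N₁)`: normal, of finite index,
`θ(K) = K`, `K ≤ H`, and `φ(K) ⊆ K` in both cases. `K ≠ 1` since `G` is infinite. -/
def SpecNCU : Prop :=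
  ∀ (H : Subgroup G), H.FiniteIndex → ∀ (φ : H →* G) (B : MZ), IsUnit B.det →
    IsConj3 H φ B → ¬ CoreFree H φ

/-- PRZ (60 lines). USES nothing. Content of an integral matrix.
PROOF. Divide by the gcd `c` of the entries. -/
def SpecPRZ : Prop :=
  ∀ A : MZ, A ≠ 0 → ∃ (c : ℤ) (A' : MZ), c ≠ 0 ∧ A = c • A' ∧
    ∀ p : ℕ, p.Prime → ∃ i j, ¬ ((p : ℤ) ∣ A' i j)

/-- PAR (100 lines). USES PRZ. A good matrix and its adjugate.
PROOF. By PRZ `A = a A'`, `adj A = c C'`, both `A'`, `C'` primitive. `C' A' = A' C' = γ 1` with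
`γ = det A / (a c)` (compare an entry: `a c C' A' = det A 1`, so `a c` divides `det A` because the
entries of `C' A'` are integers). If `γ = ±1` then `A'` is unimodular and `A = a A'` is not good.
So there is a prime `p ∣ γ` (`γ ≠ 0` as `det A ≠ 0`). If `p ∤ det A'`, then from
`det(A') C' = C' A' adj(A') = γ adj(A')` every entry of `C'` is divisible by `p`, contradiction. So
`p ∣ det A'`, and in the same way `p ∣ det C'`. -/
def SpecPAR : Prop :=
  ∀ A : MZ, Good A → ∃ (a c γ : ℤ) (A' C' : MZ) (p : ℕ), a ≠ 0 ∧ c ≠ 0 ∧ γ ≠ 0 ∧ p.Prime ∧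
    A = a • A' ∧ A.adjugate = c • C' ∧ C' * A' = γ • (1 : MZ) ∧ A' * C' = γ • (1 : MZ) ∧
    (p : ℤ) ∣ A'.det ∧ (p : ℤ) ∣ C'.det ∧ (∃ i j, ¬ ((p : ℤ) ∣ A' i j)) ∧
    ∃ i j, ¬ ((p : ℤ) ∣ C' i j)

/-- TRC (60 lines). USES nothing. Traces.
PROOF. Suppose `p ∣ tr(A t)` for all `t` in `SL_3(Z)`. `t = 1 + E_ij` and `t = 1`, `i ≠ j`:
`p ∣ A_ji`. So `A` is diagonal mod `p`. `t` with `t_ii = 1`, `t_jk = -1`, `t_kj = 1` (other entries
`0`): `tr(A t) ≡ A_ii`, so `p ∣ A_ii`, for all `i`. Contradiction. -/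
def SpecTRC : Prop :=
  ∀ (p : ℕ) (A : MZ), p.Prime → (∃ i j, ¬ ((p : ℤ) ∣ A i j)) →
    ∃ t : G, ¬ ((p : ℤ) ∣ (A * (t : MZ)).trace)

/-- NZM (80 lines). USES nothing. `A t C` is not `0` mod `p` for some `t`.
PROOF. Suppose `p` divides all entries of `A t C` for all `t` in `SL_3(Z)`. `t = 1 + E_ij`
(`i ≠ j`) and `t = 1`: `p` divides all entries of `A E_ij C`, that is
`p ∣ A_ki C_jl` for all `k, l`. Some column `i` of `A` has an entry prime to `p`; so all rows
`j ≠ i` of `C` are `0` mod `p` and row `i` of `C` has an entry prime to `p`; so (with `i' ≠ i`,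
`j = i`) all columns `i' ≠ i` of `A` are `0` mod `p`. Then `(A C)_kl ≡ A_ki C_il` is not `0` mod
`p` for suitable `k, l`, contradiction with `t = 1`. -/
def SpecNZM : Prop :=
  ∀ (p : ℕ) (A C : MZ), p.Prime → (∃ i j, ¬ ((p : ℤ) ∣ A i j)) → (∃ i j, ¬ ((p : ℤ) ∣ C i j)) →
    ∃ t : G, ∃ i j, ¬ ((p : ℤ) ∣ (A * (t : MZ) * C) i j)

/-- CVK (250 lines). USES nothing. The main step of the converse.
PROOF. Suppose `K ≠ 1`. (1) There is an integer `M ≠ 0` such that `M E_ij` is an integral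
combination of elements of `K` for all `i ≠ j`. Let `k` be in `K`, `k ≠ 1`. `k` is not scalar
(`a^3 = 1` gives `a = 1`). Conjugating by an element of `SL_3(Z)` we may assume that some
off-diagonal entry `k_ji` is not `0` (if `k` is diagonal with `k_aa ≠ k_bb` then
`x_ab(1) k x_ab(-1)` has the entry `k_bb - k_aa` at `(a,b)`). With `E = E_ij`,
`(1+E) k (1-E) + (1-E) k (1+E) - 2k = -2 E k E = -2 k_ji E_ij`. So `2 k_ji E_ij` is an integral
combination of elements of `K`, and conjugating by signed permutation matrices of determinant `1`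
so is `M E_i'j'` for all `i' ≠ j'` with `M = 2 k_ji` (and, conjugating by `u` in `SL_3(Z)`, so is
`M u E_ij u⁻¹`).
(2) Let `B = D^n`, `d = det B = (det D)^n`. By induction on `n`, for all `k` in `K` there is `k'`
in `K` with `B k = k' B`, so `B k adj(B) = k' B adj(B) = d k'` is divisible by `d`. By (1)
`M B Y adj(B)` is divisible by `d`, in particular by `p^v`, `v = v_p(d) ≥ n`, for `Y = E_ij`,
`i ≠ j`, and `Y = u E_ij u⁻¹`. (`B Y adj(B)` for `Y = x yᵀ` is `(B x) (yᵀ adj(B))`.)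
(3) `B` is not `0` mod `p`: otherwise `D` mod `p` is nilpotent and its trace is `0`
(`Matrix.isNilpotent_trace_of_isNilpotent`). Let column `i` of `B`, `B e_i`, have an entry prime to
`p`. `Y = E_ij`, `j ≠ i`: `p^v ∣ M (row j of adj B)`. Fix `j ≠ i`. If `B e_j` also has an entry
prime to `p` then `Y = E_ji` gives `p^v ∣ M (row i of adj B)`. Otherwise `B (e_i + e_j) ≡ B e_i`
mod `p` has an entry prime to `p`; with `u = x_ji(1)`, `u e_i = e_i + e_j` and
`e_jᵀ u⁻¹ = e_jᵀ - e_iᵀ`, `Y = u E_ij u⁻¹` gives `p^v ∣ M (row j - row i of adj B)`, so again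
`p^v ∣ M (row i of adj B)`. Hence `p^v` divides all entries of `M adj(B)`.
(4) Then `p^(2v)` divides all entries of `M² adj(adj B) = M² d B`, and `B` has an entry prime to
`p`: `p^(2v) ∣ M² d`, `2 v ≤ 2 v_p(M) + v`, `n ≤ v ≤ 2 v_p(M)` for all `n`: contradiction. -/
def SpecCVK : Prop :=
  ∀ (p : ℕ) (D : MZ) (K : Subgroup G), p.Prime → D.det ≠ 0 → (p : ℤ) ∣ D.det →
    ¬ ((p : ℤ) ∣ D.trace) → K.Normal →
    (∀ k ∈ K, ∃ k' ∈ K, D * (k : MZ) = (k' : MZ) * D) → K = ⊥

/-- CVR (150 lines). USES PAR, TRC, NZM, CVK. Good matrices give faithful actions.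
PROOF. Let `K` be normal, `K ≤ H`, `φ(K) ⊆ K`, and let `a, c, γ, A', C', p` be as in PAR; in
`IsConj3` we can cancel `a`: `φ(h) A' = A' h` for all `h`, or `φ(h) A' = A' (h⁻¹)ᵀ` for all `h`.
First case. By TRC choose `t` with `p ∤ tr(A' t)`, `D = A' t`, `det D = det A'`. For `k` in `K`:
`k₁ = φ(t k t⁻¹) ∈ K`, `D k = A' (t k t⁻¹) t = k₁ A' t = k₁ D`. CVK gives `K = 1`.
Second case. By NZM choose `s` with `A' s C'ᵀ` not `0` mod `p`, and by TRC `t` with
`p ∤ tr(A' s C'ᵀ t)`. `D = A' s C'ᵀ t`, `det D = det A' det C' ≠ 0`. Let `k` be in `K`,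
`k₁ = φ(t k t⁻¹) ∈ K`: `k₁ A' = A' ((t k t⁻¹)⁻¹)ᵀ`. Hence (take inverse transposes, using
`A'⁻¹ = C'/γ`): `(k₁⁻¹)ᵀ C'ᵀ = C'ᵀ (t k t⁻¹)`, that is `(k₁⁻¹)ᵀ C'ᵀ t = C'ᵀ t k`. [Direct proof:
`k₁ A' = A' z`, `z = ((t k t⁻¹)⁻¹)ᵀ`; multiply by `C'` on both sides: `C' k₁ γ = γ z C'`, so
`C' k₁ = z C'`, `z⁻¹ C' = C' k₁⁻¹`, transpose.] Let `s = (q⁻¹)ᵀ` with `q` in `G`, and
`k₂ = φ(q k₁ q⁻¹) ∈ K`: `k₂ A' = A' ((q k₁ q⁻¹)⁻¹)ᵀ = A' s (k₁⁻¹)ᵀ s⁻¹`, so
`k₂ A' s = A' s (k₁⁻¹)ᵀ`. Together `D k = A' s C'ᵀ t k = A' s (k₁⁻¹)ᵀ C'ᵀ t = k₂ D`. CVK gives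
`K = 1`. -/
def SpecCVR : Prop :=
  ∀ (H : Subgroup G) (φ : H →* G) (A : MZ), Good A → IsConj3 H φ A → CoreFree H φ

/-- CLS (100 lines). USES RIG, NCT, NCU. Core-free virtual endomorphisms are conjugations by good
matrices.
PROOF. By RIG either `φ = 1` on some `EN M`, excluded by NCT, or there is a rational `g`,
`det g ≠ 0`. Let `A` be the integral matrix `n g`, `n ≥ 1` a common denominator: `IsConj3 H φ A`,
`det A ≠ 0`. If `A = c B` with `B` unimodular then `c ≠ 0`, `IsConj3 H φ B`, excluded by NCU. -/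
def SpecCLS : Prop :=
  ∀ (H : Subgroup G), H.FiniteIndex → ∀ φ : H →* G, CoreFree H φ →
    ∃ A : MZ, Good A ∧ IsConj3 H φ A

/-! ## Part B3: not transitive on words of length two -/

/-- TRA (100 lines). USES nothing. `SL_3(Z)` acts transitively on the points of the projective
plane over `ZMod p`.
PROOF. It is enough to map `v ≠ 0` to a multiple of `e_0`. If `v_0 = 0` choose `j` with `v_j ≠ 0`
and apply `x_0j(1)`; so `v_0 ≠ 0`. Apply `x_10(c)`, `x_20(d)` with integers `c, d` with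
`c v_0 = -v_1`, `d v_0 = -v_2` in `ZMod p`. The result is `v_0 e_0`. -/
def SpecTRA : Prop :=
  ∀ (p : ℕ) [Fact p.Prime] (v w : Fin 3 → ZMod p), v ≠ 0 → w ≠ 0 →
    ∃ (k : G) (c : ZMod p), c ≠ 0 ∧
      ((k : MZ).map (Int.cast : ℤ → ZMod p)).mulVec v = c • w

/-- RNK (250 lines). USES TRA, NZM. The rank of `A k B` mod `p` depends on `k`.
PROOF. Write bars for reduction mod `p`. Suppose `A k B = q (A B) r`, `q, r` depending on `k`, for
all `k`. (1) If `A k B ≡ 0` for some `k` then `A B ≡ 0`, then `A k B ≡ 0` for all `k`,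
contradiction with NZM. So `A k B` is never `0` mod `p`. (2) `Ā, B̄` are not zero and singular.
If `B̄ = b βᵀ` has rank one (or just: the columns of `B̄` are all multiples of one vector `b ≠ 0`):
choose `c ≠ 0` with `Ā c = 0` and by TRA `k` with `k b` a multiple of `c`; then `A k B ≡ 0`,
contradiction. If `Ā` has rank one, the same for the transposes (`Bᵀ kᵀ Aᵀ`, `kᵀ` in `SL_3(Z)`). (3)
So both have rank two, and `adj Ā`, `adj B̄` are not zero, of rank one (`Ā adj Ā = 0`). Put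
`A₁ = adj B`, `B₁ = adj A`: `A₁ k B₁` for `k` in `SL_3(Z)`: `adj(A k' B) = adj(B) adj(k') adj(A)`,
`adj(k') = k'⁻¹` runs over `SL_3(Z)`; `adj(q A B r) = r⁻¹ adj(B) adj(A) q⁻¹`. So `A₁, B₁` satisfy
the same hypothesis `A₁ k B₁ = q' (A₁ B₁) r'`, are not zero mod `p` and singular mod `p`, and
`B₁` has rank one mod `p`: contradiction by (2). (Rank two for a singular `3 x 3` matrix over a
field means adjugate not `0`; if the adjugate is `0` then all `2 x 2` minors vanish and all columns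
are multiples of one nonzero column.) -/
def SpecRNK : Prop :=
  ∀ (p : ℕ) (A B : MZ), p.Prime → (p : ℤ) ∣ A.det → (p : ℤ) ∣ B.det →
    (∃ i j, ¬ ((p : ℤ) ∣ A i j)) → (∃ i j, ¬ ((p : ℤ) ∣ B i j)) →
    ∃ k : G, ∀ q r : G, A * (k : MZ) * B ≠ (q : MZ) * (A * B) * (r : MZ)

/-- NTR (120 lines). USES PAR, RNK. `φ(H) H` is not all of `SL_3(Z)`.
PROOF. Let `a, c, γ, A', C', p` be as in PAR, cancel `a`: `φ(h) A' = A' h` for all `h` or
`φ(h) A' = A' (h⁻¹)ᵀ` for all `h`. First case: RNK for `C', C'` gives `k`. Suppose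
`k = φ(q) r`, `q, r` in `H`. Then `C' φ(q) = q C'` (multiply `φ(q) A' = A' q` by `C'` on both
sides and cancel `γ`), and `r C' = C' φ(r)`, so `C' k C' = C' φ(q) r C' = q C' C' φ(r)`,
contradiction. Second case: RNK for `C', A'ᵀ` gives `k`. Suppose `k = φ(q) r`. With
`q* = (q⁻¹)ᵀ`: `C' φ(q) = q* C'`; from `φ(r) A' = A' (r⁻¹)ᵀ`, transposing,
`A'ᵀ φ(r)ᵀ = r⁻¹ A'ᵀ`, so `r A'ᵀ = A'ᵀ (φ(r)ᵀ)⁻¹`, and
`C' k A'ᵀ = q* C' A'ᵀ (φ(r)ᵀ)⁻¹`, contradiction. -/
def SpecNTR : Prop :=
  ∀ (H : Subgroup G) (φ : H →* G) (A : MZ), Good A → IsConj3 H φ A →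
    ∃ k : G, ∀ q r : H, k ≠ φ q * (r : G)

/-- SEC (180 lines). USES LET. The virtual endomorphism of a faithful action.
PROOF. Let `α` be as in LET, `H` the stabiliser of `x`: `g ∈ H ↔ α g x = x ↔ ρ g [x] = [x]`; finite
index because `G / H` embeds in `Fin m` (`H` is the preimage under `α` of a point stabiliser in the
finite group `Perm (Fin m)`). For `g` in `H` the section `h` with `ρ g (x :: w) = x :: ρ h w` for
all `w` exists by LET and is unique because `ρ` is injective; `φ g = h` is a homomorphism by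
uniqueness. CoreFree: let `K` be normal, `K ≤ H`, `φ(K) ⊆ K`. Claim: `ρ k w = w` for all
`k` in `K` and all words `w`, by induction on the length of `w`. Let `w = y :: w'`. Choose `t` with
`ρ t [x] = [y]`, and let `s` be the section of `t` at `x`: `ρ t (x :: v) = y :: ρ s v`. Let
`v = ρ s⁻¹ w'` (same length as `w'`) and `k' = t⁻¹ k t ∈ K`. Then `ρ k w = ρ k (y :: ρ s v) =
ρ k (ρ t (x :: v)) = ρ t (ρ k' (x :: v)) = ρ t (x :: ρ (φ k') v) = ρ t (x :: v) = w`, by the
induction hypothesis for `φ k' ∈ K` and `v`. So `K ≤ ker ρ = 1`. -/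
def SpecSEC : Prop :=
  ∀ (m : ℕ) (ρ : G →* Equiv.Perm (List (Fin m))), Function.Injective ρ → SelfSimilar ρ →
    LetterTransitive ρ → ∀ x : Fin m, ∃ (H : Subgroup G) (φ : H →* G), H.FiniteIndex ∧
      (∀ g : G, g ∈ H ↔ ρ g [x] = [x]) ∧ (∀ h : H, Section ρ x (h : G) (φ h)) ∧
      (∀ g h : G, Section ρ x g h → ∃ hg : g ∈ H, φ ⟨g, hg⟩ = h) ∧ CoreFree H φ

/-- FIA (150 lines). USES nothing. The full domains.
PROOF. `H_A = {g : A g adj(A) is divisible by det A}`; if `h A = A g` then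
`A g adj(A) = h A adj(A) = det A h`; conversely if `A g adj(A) = det A h` with `h` integral then
`h A = A g` (multiply by `A` and cancel `det A`) and `det h = 1`. It is a subgroup, and contains
every `g ≡ 1` mod `det A`, the kernel of `SL_3(Z) → SL_3(Z / det A)`, so it has finite index. `h` is
unique and `φ : g ↦ h` is a homomorphism. For the second form compose with the automorphism
`g ↦ (g⁻¹)ᵀ`. The action of `G` on the cosets `G / H ≃ Fin m` is transitive and `H` is the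
stabiliser of the letter `x₀` of the coset `H`. -/
def SpecFIA : Prop :=
  ∀ A : MZ, A.det ≠ 0 →
    (∃ (m : ℕ) (α : G →* Equiv.Perm (Fin m)) (x₀ : Fin m) (H : Subgroup G) (φ : H →* G),
      (∀ x y : Fin m, ∃ g : G, α g x = y) ∧ (∀ g : G, g ∈ H ↔ α g x₀ = x₀) ∧
      (∀ g : G, g ∈ H ↔ ∃ h : G, (h : MZ) * A = A * (g : MZ)) ∧
      ∀ h : H, (φ h : MZ) * A = A * ((h : G) : MZ)) ∧
    (∃ (m : ℕ) (α : G →* Equiv.Perm (Fin m)) (x₀ : Fin m) (H : Subgroup G) (φ : H →* G),
      (∀ x y : Fin m, ∃ g : G, α g x = y) ∧ (∀ g : G, g ∈ H ↔ α g x₀ = x₀) ∧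
      (∀ g : G, g ∈ H ↔ ∃ h : G, (h : MZ) * A = A * ((g⁻¹ : G) : MZ).transpose) ∧
      ∀ h : H, (φ h : MZ) * A = A * (((h : G)⁻¹ : G) : MZ).transpose)

/-! ## The two theorems -/

/-- FNA (30 lines). USES NEG, SEV, EXT. THEOREM A. `m ≥ 7`: induction from `7` by EXT. -/
def SpecFNA : Prop :=
  ∀ m : ℕ, (∃ ρ : G →* Equiv.Perm (List (Fin m)), Function.Injective ρ ∧ SelfSimilar ρ) ↔ 7 ≤ m

/-- FNB (200 lines). USES LET, ACT, CVR, CLS, NTR, SEC, FIA. THEOREM B.
PROOF. (1) SEC and CLS: `A` good with `IsConj3 H φ A`; if `Section ρ x g h` then `g ∈ H` and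
`φ g = h`. (2) FIA, ACT, CVR: `ρ` from ACT for the data of FIA. Injective: let `K` be the kernel;
for `k` in `K`, `[α k x₀] = ρ k [x₀] = [x₀]`, so `K ≤ H`, and `x₀ :: ρ (φ k) w = x₀ :: w`, so
`φ(K) ⊆ K`; `CoreFree` (CVR) gives `K = 1`. Letter-transitive because `α` is. If
`h A = A g` then `g ∈ H` and `h = φ g` (cancel `A`), so `Section ρ x₀ g h`. (3) Suppose that for
all words `u, v` of length two some `g` maps `u` to `v`. `m ≠ 0` because `ρ` is injective and `G`
is not trivial. `ρ` is letter-transitive (use `u = [x,x]`, `v = [y,y]` and LET). Take a letter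
`x`, `H, φ` by SEC, `A` by CLS and `k` by NTR. Let `α` be as in LET. Some `q` maps `[x, x]` to
`[x, α k x]`. Then `q ∈ H` and `ρ (φ q) [x] = [α k x] = ρ k [x]`, so `r = (φ q)⁻¹ k` fixes `x`,
`r ∈ H`, `k = φ q * r`: contradiction. -/
def SpecFNB : Prop :=
  (∀ (m : ℕ) (ρ : G →* Equiv.Perm (List (Fin m))), Function.Injective ρ → SelfSimilar ρ →
    LetterTransitive ρ → ∀ x : Fin m, ∃ A : MZ, Good A ∧
      ((∀ g h : G, Section ρ x g h → (h : MZ) * A = A * (g : MZ)) ∨
        (∀ g h : G, Section ρ x g h → (h : MZ) * A = A * ((g⁻¹ : G) : MZ).transpose))) ∧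
  (∀ A : MZ, Good A →
    (∃ (m : ℕ) (ρ : G →* Equiv.Perm (List (Fin m))) (x : Fin m), Function.Injective ρ ∧
      SelfSimilar ρ ∧ LetterTransitive ρ ∧
      (∀ g : G, ρ g [x] = [x] ↔ ∃ h : G, (h : MZ) * A = A * (g : MZ)) ∧
      ∀ g h : G, (h : MZ) * A = A * (g : MZ) → Section ρ x g h) ∧
    (∃ (m : ℕ) (ρ : G →* Equiv.Perm (List (Fin m))) (x : Fin m), Function.Injective ρ ∧
      SelfSimilar ρ ∧ LetterTransitive ρ ∧
      (∀ g : G, ρ g [x] = [x] ↔ ∃ h : G, (h : MZ) * A = A * ((g⁻¹ : G) : MZ).transpose) ∧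
      ∀ g h : G, (h : MZ) * A = A * ((g⁻¹ : G) : MZ).transpose → Section ρ x g h)) ∧
  (∀ (m : ℕ) (ρ : G →* Equiv.Perm (List (Fin m))), Function.Injective ρ → SelfSimilar ρ →
    ∃ u v : List (Fin m), u.length = 2 ∧ v.length = 2 ∧ ∀ g : G, ρ g u ≠ v)

end Pool.Agent.Lib.MP8519b0
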