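import Pool.Agent.Lib.MP_8519b0_al.Spec

/-!
# MP_8519b0_al: self-similar actions of `SL_3(Z)`, part 2 (specifications of the modules)

THEOREM C. (1) In every faithful self-similar action of `SL_3(Z)` over a finite alphabet there are
an element `g` and an infinite word all of whose prefixes are fixed by `g` such that the sections
of `g` at these prefixes are pairwise not conjugate in `SL_3(Z)`; in particular no such action is
finite-state. (2) `SL_3(Z)` is not an automaton group: if it acts faithfully on the words over a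
finite alphabet then no finite generating set is closed under sections.

THEOREM D. Every faithful self-similar action of `SL_3(Z)` over a finite alphabet has at least
`2^n` orbits on the words of length `n + 1`.

All modules are independent: file `Pool/Agent/Lib/MP_8519b0_al/XXX.lean`, import
`Pool.Agent.Lib.MP_8519b0_al.Spec2`, namespace `Pool.Agent.Lib.MP8519b0`, theorem
`specXXX (hYYY : SpecYYY) .. : SpecXXX` with the hypotheses in the order of USES, own lemmas in a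
namespace `XXXM`.
-/

set_option autoImplicit false

namespace Pool.Agent.Lib.MP8519b0

/-- A vector of integers without a common prime divisor. -/
def PrimV (v : Fin 3 → ℤ) : Prop := ∀ p : ℕ, p.Prime → ∃ i, ¬ ((p : ℤ) ∣ v i)

/-! ## Good letters -/

/-- SPX (120 lines). USES LET. The section homomorphism at any letter (no transitivity).
PROOF. Let `α` be as in LET, `H` the stabiliser of `x`: `g ∈ H ↔ α g x = x ↔ ρ g [x] = [x]`; finite
index because `H` is the preimage under `α` of a point stabiliser in the finite group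
`Perm (Fin m)`. For `g` in `H` the section `h` with `ρ g (x :: w) = x :: ρ h w` for all `w` exists
by LET and is unique because `ρ` is injective; `φ g = h` is a homomorphism by uniqueness.
(Same as the first half of SEC; if helper94 has landed SEC you may copy.) -/
def SpecSPX : Prop :=
  ∀ (m : ℕ) (ρ : G →* Equiv.Perm (List (Fin m))), Function.Injective ρ → SelfSimilar ρ →
    ∀ x : Fin m, ∃ (H : Subgroup G) (φ : H →* G), H.FiniteIndex ∧
      (∀ g : G, g ∈ H ↔ ρ g [x] = [x]) ∧ ∀ h : H, Section ρ x (h : G) (φ h)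

/-- TRI (100 lines). USES RIG. Three kinds of homomorphisms of finite index subgroups.
PROOF. RIG. In the second case let `A = n g`, `n ≥ 1` a common denominator of the entries of `g`:
an integral matrix with `det A ≠ 0` and `IsConj3 H φ A` (multiply by `n`, the cast from `MZ` to `MQ`
is injective). If `A` is good: second alternative. Otherwise `A = c • B` with `det B = ±1`,
`c ≠ 0`; cancel `c`: `IsConj3 H φ B`. Replace `B` by `-B` if `det B = -1` (`3` is odd): the third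
alternative. -/
def SpecTRI : Prop :=
  ∀ (H : Subgroup G), H.FiniteIndex → ∀ φ : H →* G,
    (∃ M : ℕ, 1 ≤ M ∧ ∃ hM : EN (M : ℤ) ≤ H, ∀ (k : G) (hk : k ∈ EN (M : ℤ)), φ ⟨k, hM hk⟩ = 1) ∨
    (∃ A : MZ, Good A ∧ IsConj3 H φ A) ∨ ∃ b : G, IsConj3 H φ (b : MZ)

/-- COR (120 lines). USES CNJ. A uniform form of CNJ.
PROOF. `G / H` is finite. Every `g` is `h s⁻¹` with `h` in `H` and `s` in a finite set `S` of
representatives of the left cosets (write `g⁻¹ = s h⁻¹`). CNJ for `s⁻¹` and `N = M` gives `M_s ≥ 1`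
with `s⁻¹ k s ∈ EN M` for all `k` in `EN M_s`. Let `M' = ∏ M_s`; `EN M' ≤ EN M_s` (`x_ij(M')` is a
power of `x_ij(M_s)`). For `k` in `EN M'` and `g = h s⁻¹`: `g k g⁻¹ = h (s⁻¹ k s) h⁻¹`, and
`s⁻¹ k s ∈ EN M ≤ L`, which is normalised by `H`. -/
def SpecCOR : Prop :=
  ∀ (H L : Subgroup G), H.FiniteIndex → (∀ h ∈ H, ∀ l ∈ L, h * l * h⁻¹ ∈ L) →
    ∀ M : ℕ, 1 ≤ M → EN (M : ℤ) ≤ L →
    ∃ M' : ℕ, 1 ≤ M' ∧ ∀ k ∈ EN (M' : ℤ), ∀ g : G, g * k * g⁻¹ ∈ L

/-- MIX (220 lines). USES LET, SPX, TRI, COR, FIX. A faithful action has a good letter.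
PROOF. SPX gives `H_x, φ_x` for every letter `x`. Suppose that there is no letter as claimed. By
TRI every letter is of kind (T): `φ_x = 1` on `EN M_x ≤ H_x`, or of kind (U): `IsConj3 H_x φ_x b`,
`b` in `G`, that is `φ_x(h) = b h b⁻¹` for all `h`, or `φ_x(h) = b θ(h) b⁻¹` for all `h`, where
`θ(h) = (h⁻¹)ᵀ`, an automorphism of `G` with `θ² = 1`. Let `L_x = {g : g ∈ H_x, φ_x(g) = 1}`
(`(φ_x.ker).map H_x.subtype`) for a letter of kind (T) and `L_x = H_x` for kind (U). In both cases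
`L_x ≤ H_x`, `L_x` is normalised by `H_x`, and `EN M_x ≤ L_x` for some `M_x ≥ 1` (kind (U): FIX).
COR gives `M'_x`; let `M = ∏ M'_x` over all letters; `EN M ≤ EN M'_x`. Let `K` be the set of all `k`
such that `g k g⁻¹ ∈ L_x` and `g θ(k) g⁻¹ ∈ L_x` for all letters `x` and all `g` in `G`. It is a
subgroup, normal (replace `g` by `g u`; `θ(u k u⁻¹) = θ(u) θ(k) θ(u)⁻¹`), `θ(K) ⊆ K`, and
`EN M ≤ K` because `θ(x_ij(M)) = x_ji(-M)`, so `θ(EN M) ⊆ EN M`. For `k` in `K` and every letter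
`x`: `k ∈ L_x ≤ H_x` and `φ_x(k) ∈ K` (it is `1`, `b k b⁻¹` or `b θ(k) b⁻¹`). Claim: `ρ k w = w` for
all `k` in `K` and all words `w`: induction on `w`; `w = []` by the length (LET), and
`ρ k (x :: w) = x :: ρ (φ_x k) w = x :: w`. As `ρ` is injective, `K` is trivial, but
`x_01(M)` is in `K` and not `1`. Contradiction. -/
def SpecMIX : Prop :=
  ∀ (m : ℕ) (ρ : G →* Equiv.Perm (List (Fin m))), Function.Injective ρ → SelfSimilar ρ →
    ∃ (x : Fin m) (H : Subgroup G) (φ : H →* G) (A : MZ), H.FiniteIndex ∧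
      (∀ g : G, g ∈ H ↔ ρ g [x] = [x]) ∧ (∀ h : H, Section ρ x (h : G) (φ h)) ∧
      Good A ∧ IsConj3 H φ A

/-! ## Transvections with growing sections -/

/-- PAQ (90 lines). USES PRZ. Primitive parts of a good matrix and of its adjugate.
PROOF. By PRZ `A = a A'` and `adj A = c C'` with `A'`, `C'` primitive (no prime divides all
entries). `a c C' A' = adj A · A = det A · 1`, so `C' A' = γ 1` where `det A = a c γ` (look at an
entry on the diagonal: `a c` divides `det A`; cancel `a c ≠ 0`), and in the same way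
`A' C' = γ 1`. `γ ≠ 0` because `det A ≠ 0`. If `γ = ±1` then `det C' det A' = ±1`, `A'` is
unimodular and `A = a A'` is not good. So `|γ| ≥ 2`. -/
def SpecPAQ : Prop :=
  ∀ A : MZ, Good A → ∃ (a γ : ℤ) (A' C' : MZ), a ≠ 0 ∧ 2 ≤ |γ| ∧ A = a • A' ∧
    C' * A' = γ • (1 : MZ) ∧ A' * C' = γ • (1 : MZ) ∧
    (∀ p : ℕ, p.Prime → ∃ i j, ¬ ((p : ℤ) ∣ A' i j)) ∧
    ∀ p : ℕ, p.Prime → ∃ i j, ¬ ((p : ℤ) ∣ C' i j)

/-- PVC (180 lines). USES nothing. A choice of two orthogonal vectors.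
PROOF. Let `P` be the (finite) set of primes dividing `γ` and `c_0, c_1, c_2` the columns of `C`.
Write `v ≡ 0` if `p` divides all entries of `v`. For `p` in `P` not all `c_i ≡ 0`. Let `t` be the
product of the `p` in `P` with `c_0 ≢ 0` mod `p`, `s` the product of the `p` in `P` with `c_0 ≢ 0`
or `c_1 ≢ 0` mod `p`, and `z = (1, t, s)`. Then `C z = c_0 + t c_1 + s c_2 ≢ 0` mod `p` for every
`p` in `P`: if `c_0 ≢ 0` then `t ≡ s ≡ 0` and it is `≡ c_0`; if `c_0 ≡ 0` and `c_1 ≢ 0` then `s ≡ 0`,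
`p ∤ t` and it is `≡ t c_1`; if `c_0 ≡ c_1 ≡ 0` then `p ∤ s` and it is `≡ s c_2`. If a prime `p`
does not divide `γ` and `C z ≡ 0` then `γ z = A C z ≡ 0`, so `p` divides `z_0 = 1`, contradiction.
So `C z` is primitive. The vectors `f_1 = (-t, 1, 0)`, `f_2 = (-s, 0, 1)` are orthogonal to `z`. Let
`m_1 = Aᵀ f_1`, `m_2 = Aᵀ f_2`. For `p` in `P` not both are `≡ 0`: otherwise row `1` of `A` is `t`
times row `0` mod `p` and row `2` of `A` is `s` times row `0`, that is `A_ij ≡ z_i A_0j`; as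
`A ≢ 0` some `A_0j ≢ 0`, and `0 ≡ (C A)_ij = Σ_l C_il A_lj ≡ (C z)_i A_0j` for all `i` gives
`C z ≡ 0`, contradiction. Let `t'` be the product of the `p` in `P` with `m_1 ≢ 0` mod `p` and
`w = f_1 + t' f_2 = (-t - t' s, 1, t')`. As before `Aᵀ w = m_1 + t' m_2 ≢ 0` mod `p` for `p` in `P`
(if `m_1 ≢ 0` it is `≡ m_1`; if `m_1 ≡ 0` then `p ∤ t'` and it is `≡ t' m_2`), and for the other
primes `Cᵀ Aᵀ w = (A C)ᵀ w = γ w` and `w_1 = 1`. `z_0 = 1` and `w_1 = 1` show that `z`, `w` are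
primitive. -/
def SpecPVC : Prop :=
  ∀ (A C : MZ) (γ : ℤ), γ ≠ 0 → C * A = γ • (1 : MZ) → A * C = γ • (1 : MZ) →
    (∀ p : ℕ, p.Prime → ∃ i j, ¬ ((p : ℤ) ∣ A i j)) →
    (∀ p : ℕ, p.Prime → ∃ i j, ¬ ((p : ℤ) ∣ C i j)) →
    ∃ z w : Fin 3 → ℤ, z ⬝ᵥ w = 0 ∧ PrimV z ∧ PrimV w ∧ PrimV (C.mulVec z) ∧
      PrimV (A.transpose.mulVec w)

/-- TRP (100 lines). USES nothing. `SL_3(Z)` is transitive on pairs of orthogonal primitive
vectors.
PROOF. Claim: for `x, y` primitive with `x · y = 0` there is `k` in `G` with `k e_0 = x` and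
`kᵀ y = e_1`. By Bezout there are `u, p` with `u · x = 1`, `y · p = 1`. Let `k` have the columns
`x, p, u × y` (cross product). `kᵀ y = (y · x, y · p, y · (u × y)) = (0, 1, 0)` and
`det k = x · (p × (u × y)) = (x · u)(p · y) - (x · y)(p · u) = 1`. For the statement take `k₁` for
`x, y` and `k₂` for `z, w` and `k = k₁ k₂⁻¹`: `k z = k₁ e_0 = x` and
`kᵀ y = (k₂⁻¹)ᵀ k₁ᵀ y = (k₂⁻¹)ᵀ e_1 = w` (because `k₂ᵀ w = e_1`). -/
def SpecTRP : Prop :=
  ∀ x y z w : Fin 3 → ℤ, PrimV x → PrimV y → PrimV z → PrimV w → x ⬝ᵥ y = 0 → z ⬝ᵥ w = 0 →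
    ∃ k : G, (k : MZ).mulVec z = x ∧ (k : MZ).transpose.mulVec y = w

/-- GRW (160 lines). USES PAQ, PVC, TRP. A one-parameter group on which `φ` is multiplication by
`r`, `|r| ≥ 2`, up to conjugation.
PROOF. Let `a, γ, A', C'` be as in PAQ and `z, w` as in PVC for `A', C', γ`; cancel `a` in
`IsConj3`. FIRST FORM, `φ(h) A' = A' h`. Let `x = C' z`, `y = A'ᵀ w`: primitive,
`x · y = wᵀ A' C' z = γ (w · z) = 0`. `1 + c x yᵀ` has determinant `1 + c (y · x) = 1` and defines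
`g c` in `G`. TRP: `k z = x`, `kᵀ y = w`. If `g c` is in `H`:
`A' (1 + c x yᵀ) = A' + c (A' C' z) yᵀ = A' + γ c z yᵀ = (1 + γ c z wᵀ) A'`, so
`φ(g c) A' = (1 + γ c z wᵀ) A'`, and `A'` can be cancelled (multiply by `C'`, cancel `γ`):
`φ(g c) = 1 + γ c z wᵀ`. Finally `k (1 + γ c z wᵀ) = k + γ c x wᵀ = k + γ c x (kᵀ y)ᵀ =
(1 + γ c x yᵀ) k = g(γ c) k`. So `r = γ`. SECOND FORM, `φ(h) A' = A' (h⁻¹)ᵀ`. Let
`x = A'ᵀ w`, `y = C' z`, again primitive and orthogonal, `g c = 1 + c x yᵀ`, TRP: `k z = x`,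
`kᵀ y = w`. `(g c)⁻¹ = g(-c) = 1 - c x yᵀ`, its transpose is `1 - c y xᵀ`, and
`A' (1 - c y xᵀ) = A' - c (A' C' z) xᵀ = A' - γ c z xᵀ = (1 - γ c z wᵀ) A'`. So
`φ(g c) = 1 - γ c z wᵀ`, and `k φ(g c) = g(-γ c) k` as before; `r = -γ`. -/
def SpecGRW : Prop :=
  ∀ (H : Subgroup G) (φ : H →* G) (A : MZ), Good A → IsConj3 H φ A →
    ∃ (g : ℤ → G) (x y : Fin 3 → ℤ) (r : ℤ) (k : G), 2 ≤ |r| ∧ PrimV x ∧ PrimV y ∧ x ⬝ᵥ y = 0 ∧
      (∀ c : ℤ, (g c : MZ) = 1 + c • Matrix.vecMulVec x y) ∧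
      ∀ (c : ℤ) (hc : g c ∈ H), φ ⟨g c, hc⟩ = k⁻¹ * g (r * c) * k

/-- RAY (200 lines). USES GRW. A good letter gives an element with pairwise not conjugate sections.
PROOF. Let `g, x', y', r, k` be as in GRW (`x', y'` the vectors). `g (c + d) = g c * g d` because
`y' · x' = 0`, so `g c = (g 1)^c`; some positive power `(g 1)^M` is in `H` (finite index), so
`g (M c) ∈ H` for all `c`. Construct words `w_n` of length `n` and `q_n` in `G` such that for all
integers `c` and all words `u`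
`ρ (g (M c)) (w_n ++ u) = w_n ++ ρ (q_n * g (r^n * (M c)) * q_n⁻¹) u`. (*)
`w_0 = []`, `q_0 = 1`. Step: `SelfSimilar` gives `s` and a letter `y` with
`ρ q_n (x :: u) = y :: ρ s u` for all `u`. Put `w_{n+1} = w_n ++ [y]`, `q_{n+1} = s k⁻¹`. Let
`g' = g (r^n M c) ∈ H` (`r^n M c = M (r^n c)`); then `φ g' = k⁻¹ g(r^{n+1} M c) k` and
`ρ q_n⁻¹ (y :: u) = x :: ρ s⁻¹ u`, `ρ g' (x :: v) = x :: ρ (φ g') v`, so
`ρ (q_n g' q_n⁻¹) (y :: u) = y :: ρ (s (φ g') s⁻¹) u = y :: ρ (q_{n+1} g(r^{n+1} M c) q_{n+1}⁻¹) u`.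
The element of the statement is `g (M)` (`c = 1`), `s n = q_n g(r^n M) q_n⁻¹`. Not conjugate: suppose
`n < n'` and `s n`, `s n'` conjugate; then `g(r^n M) = q g(r^{n'} M) q⁻¹` for some `q` in `G`, that is
`r^n M x' y'ᵀ = r^{n'} M q x' y'ᵀ q⁻¹`; cancel `r^n M ≠ 0`: every entry of `x' y'ᵀ` is divisible by
`r^{n'-n}`, hence by a prime divisor `p` of `r`. But some `x'_i` and some `y'_j` are prime to `p`.
Contradiction. -/
def SpecRAY : Prop :=
  ∀ (m : ℕ) (ρ : G →* Equiv.Perm (List (Fin m))), SelfSimilar ρ →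
    ∀ (x : Fin m) (H : Subgroup G) (φ : H →* G) (A : MZ), H.FiniteIndex →
    (∀ h : H, Section ρ x (h : G) (φ h)) → Good A → IsConj3 H φ A →
    ∃ (g : G) (w : ℕ → List (Fin m)) (s : ℕ → G), (∀ n, (w n).length = n ∧ w n <+: w (n + 1)) ∧
      (∀ (n : ℕ) (u : List (Fin m)), ρ g (w n ++ u) = w n ++ ρ (s n) u) ∧
      ∀ n n' : ℕ, n ≠ n' → ¬ IsConj (s n) (s n')

/-- AUT (150 lines). USES nothing. A finite generating set closed under sections makes the action
self-similar and finite-state.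
PROOF. Call a set `F` closed if for all `s` in `F` and all letters `x` there are `s'` in `F` and a
letter `y` with `ρ s (x :: w) = y :: ρ s' w` for all `w`. Let `B` be the set of all elements of `G`
which lie in a finite closed set. `{1}` is closed. If `F, F'` are closed and finite then so is
`F * F'`: `ρ (s s') (x :: w) = ρ s (y :: ρ s'_1 w) = z :: ρ (s_1 s'_1) w`. If `F` is closed then so
is `F⁻¹`: for `s` in `F` the map `x ↦ y` on letters is injective (if `x` and `x'` have the same `y`,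
with `s', s''`: `ρ s (x :: w) = y :: ρ s' w` and every word is `ρ s' w` for some `w`, so
`ρ s (x' :: []) = ρ s (x :: w)` for some `w`, and `x' = x` as `ρ s` is injective), hence bijective;
so for every letter `y` there is `x` with `ρ s (x :: w) = y :: ρ s' w` for all `w`, and
`ρ s⁻¹ (y :: w) = x :: ρ s'⁻¹ w`. So `B` is a subgroup containing `S`: `B = G`. Hence `ρ` is
self-similar. Let `g` be in a finite closed set `F`; we show that all its sections lie in `F`, by
induction on `w` (for all `g` in `F`): let `ρ g (w ++ u) = v ++ ρ h u` for all `u`,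
`w.length = v.length`. If `w = []` then `v = []`, `ρ g = ρ h`, `h = g ∈ F` (`ρ` injective). If
`w = x :: w'`, let `s' ∈ F`, `y` be as in the definition; then `v = y :: v'` (first letters) and
`ρ s' (w' ++ u) = v' ++ ρ h u` for all `u`, so `h ∈ F` by induction. -/
def SpecAUT : Prop :=
  ∀ (m : ℕ) (ρ : G →* Equiv.Perm (List (Fin m))), Function.Injective ρ → ∀ S : Set G, S.Finite →
    Subgroup.closure S = ⊤ →
    (∀ s ∈ S, ∀ x : Fin m, ∃ s' ∈ S, ∃ y : Fin m, ∀ w : List (Fin m), ρ s (x :: w) = y :: ρ s' w) →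
    SelfSimilar ρ ∧ ∀ g : G, {h : G | ∃ w v : List (Fin m), w.length = v.length ∧
      ∀ u : List (Fin m), ρ g (w ++ u) = v ++ ρ h u}.Finite

/-- ORB (220 lines). USES LET, NTR. A good letter gives many orbits.
PROOF. NTR gives `k` in `G` with `k ≠ φ(q) r` for all `q, r` in `H`. Preliminary: for all `g` in `G`
and all words `v` there is `h` in `G` with `ρ g (v ++ u) = ρ g v ++ ρ h u` for all `u` (induction on
`v`, LET; `(ρ g v).length = v.length`). Let `O` be the set of letters `y` with `ρ t [x] = [y]` for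
some `t` in `G`. Claim: for every word `v' ++ [y]` with `y` in `O` there are `a, b` in `O` such that
no `g` in `G` maps `v' ++ [y, a]` to `v' ++ [y, b]`. Let `ρ t (x :: u) = y :: ρ s u` for all `u`,
`[a] = ρ s [x]`, `[b] = ρ (s k) [x]`. Suppose `ρ g (v' ++ [y, a]) = v' ++ [y, b]`. By the
preliminary, `ρ g v' = v'` (same length) and there is `g'` with `ρ g (v' ++ u) = v' ++ ρ g' u`, so
`ρ g' [y, a] = [y, b]`, and `ρ g' [y] = [y]`. Let `h = t⁻¹ g' t`: `ρ h [x] = [x]`, so `h ∈ H`,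
`ρ h (x :: u) = x :: ρ (φ h) u`, and `g' = t h t⁻¹` gives
`ρ g' (y :: u) = y :: ρ (s (φ h) s⁻¹) u`. So `ρ (s (φ h) s⁻¹) [a] = [b]`, that is
`ρ (s (φ h)) [x] = ρ (s k) [x]`, `ρ (φ h) [x] = ρ k [x]`, `r = (φ h)⁻¹ k ∈ H`, `k = φ(h) r`:
contradiction. Now by induction on `n` there are `2^n` words of length `n + 1`, pairwise in
different orbits, with last letter in `O`: for `n = 0` the word `[x]`; from the words `f_i` one gets
the words `f_i ++ [a_i]`, `f_i ++ [b_i]`: if `g` maps `f_i ++ [c]` to `f_j ++ [d]` then it maps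
`f_i` to `f_j` (prefixes of the same length), so `i = j`, and then the claim. (Index by
`Fin n → Bool` or by lists, and use `Fintype.card (Fin n → Bool) = 2^n`, or work with
`Fin (2^n)` and `2^(n+1) = 2^n + 2^n`, `Fin.append`.) -/
def SpecORB : Prop :=
  ∀ (m : ℕ) (ρ : G →* Equiv.Perm (List (Fin m))), SelfSimilar ρ →
    ∀ (x : Fin m) (H : Subgroup G) (φ : H →* G) (A : MZ), (∀ g : G, g ∈ H ↔ ρ g [x] = [x]) →
    (∀ h : H, Section ρ x (h : G) (φ h)) → Good A → IsConj3 H φ A →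
    ∀ n : ℕ, ∃ f : Fin (2 ^ n) → List (Fin m), (∀ i, (f i).length = n + 1) ∧
      ∀ i j, i ≠ j → ∀ g : G, ρ g (f i) ≠ f j

/-! ## The theorems -/

/-- FNC (60 lines). USES MIX, RAY, AUT. THEOREM C. (1) MIX and RAY. (2) Suppose `S` is closed under
sections. AUT: `ρ` is self-similar and every element has finitely many sections. By (1) there is
`g` with infinitely many sections `s n` (pairwise not conjugate, so `s` is injective;
`w = v = w n`): contradiction. -/
def SpecFNC : Prop :=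
  (∀ (m : ℕ) (ρ : G →* Equiv.Perm (List (Fin m))), Function.Injective ρ → SelfSimilar ρ →
    ∃ (g : G) (w : ℕ → List (Fin m)) (s : ℕ → G), (∀ n, (w n).length = n ∧ w n <+: w (n + 1)) ∧
      (∀ (n : ℕ) (u : List (Fin m)), ρ g (w n ++ u) = w n ++ ρ (s n) u) ∧
      ∀ n n' : ℕ, n ≠ n' → ¬ IsConj (s n) (s n')) ∧
  ∀ (m : ℕ) (ρ : G →* Equiv.Perm (List (Fin m))), Function.Injective ρ → ∀ S : Set G, S.Finite →
    Subgroup.closure S = ⊤ →
    ∃ s ∈ S, ∃ x : Fin m, ∀ s' ∈ S, ∀ y : Fin m, ∃ w : List (Fin m), ρ s (x :: w) ≠ y :: ρ s' w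

/-- FND (20 lines). USES MIX, ORB. THEOREM D. -/
def SpecFND : Prop :=
  ∀ (m : ℕ) (ρ : G →* Equiv.Perm (List (Fin m))), Function.Injective ρ → SelfSimilar ρ →
    ∀ n : ℕ, ∃ f : Fin (2 ^ n) → List (Fin m), (∀ i, (f i).length = n + 1) ∧
      ∀ i j, i ≠ j → ∀ g : G, ρ g (f i) ≠ f j

end Pool.Agent.Lib.MP8519b0
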