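import Pool.Agent.Lib.MP_8519b0_al.Spec2

/-!
# MP_8519b0_al: self-similar actions of `SL_3(Z)`, part 3 (specifications of the modules)

THEOREM E. Call two actions on words equivalent if an automorphism of the tree of words conjugates
one into the other. (1) If `SL_3(Z)` has a faithful self-similar action, transitive on the letters,
over `m` letters, then `p² + p + 1` divides `m` for some prime `p`. (2) For every `m` there are,
up to equivalence, only finitely many such actions. (3) Up to equivalence there are exactly four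
faithful self-similar actions of `SL_3(Z)` over `7` letters.

All modules are independent: file `Pool/Agent/Lib/MP_8519b0_al/XXX.lean`, import
`Pool.Agent.Lib.MP_8519b0_al.Spec3`, namespace `Pool.Agent.Lib.MP8519b0`, theorem
`specXXX (hYYY : SpecYYY) .. : SpecXXX` with the hypotheses in the order of USES, own lemmas in a
namespace `XXXM`.
-/

set_option autoImplicit false

namespace Pool.Agent.Lib.MP8519b0

/-- `T` is an automorphism of the tree of words: it preserves lengths and prefixes. -/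
def TreeAut {m : ℕ} (T : Equiv.Perm (List (Fin m))) : Prop :=
  ∀ u v : List (Fin m), (T u).length = u.length ∧ T u <+: T (u ++ v)

/-- An automorphism of the tree conjugates `ρ` into `ρ'`. -/
def Equi {m : ℕ} (ρ ρ' : G →* Equiv.Perm (List (Fin m))) : Prop :=
  ∃ T : Equiv.Perm (List (Fin m)), TreeAut T ∧
    ∀ (g : G) (w : List (Fin m)), T (ρ g w) = ρ' g (T w)

/-- `(g⁻¹)ᵀ` -/
def th (g : G) : G := (g⁻¹).transpose

/-- `g` mod `p` -/
def red (p : ℕ) (g : G) : Matrix (Fin 3) (Fin 3) (ZMod p) := (g : MZ).map (Int.cast : ℤ → ZMod p)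

/-- no prime divides all entries -/
def PrimM (A : MZ) : Prop := ∀ p : ℕ, p.Prime → ∃ i j, ¬ ((p : ℤ) ∣ A i j)

/-- the first column of `g` is `(1,0,0)` mod `2` -/
def InP (g : G) : Prop := (2 : ℤ) ∣ g 1 0 ∧ (2 : ℤ) ∣ g 2 0

/-- the first row of `g` is `(1,0,0)` mod `2` -/
def InQ (g : G) : Prop := (2 : ℤ) ∣ g 0 1 ∧ (2 : ℤ) ∣ g 0 2

/-- `diag(2,1,1)` -/
def D1 : MZ := Matrix.diagonal ![2, 1, 1]

/-- `diag(1,2,2)` -/
def D2 : MZ := Matrix.diagonal ![1, 2, 2]

/-- **EQV** (220 lines). USES LET. Equal virtual endomorphisms, up to an inner automorphism, give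
equivalent actions.
PROOF. Let `α, α'` be as in LET for `ρ, ρ'`. For every letter `y` choose `t_y` with
`ρ t_y [x] = [y]` (transitivity), LET gives `s_y`, `s'_y` with `ρ t_y (x :: w) = y :: ρ s_y w` and
`ρ' t_y (x' :: w) = π y :: ρ' s'_y w` for all `w`, where `π y = α' t_y x'`. Put
`r_y = s'_y r s_y⁻¹` and define `T [] = []`, `T (y :: w) = π y :: ρ' r_y (T w)`.
(a) `π (α g y) = α' g (π y)`: let `z = α g y`; `k = t_z⁻¹ g t_y` fixes `[x]`, so `k ∈ H`, so
`α' k x' = x'` and `α' g (π y) = α' (g t_y) x' = α' (t_z k) x' = π z`. `π` is injective: if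
`π y = π z` then `t_z⁻¹ t_y ∈ H` (it fixes `x'`), so `y = z`; hence bijective (`Fin m` is finite).
(b) `T (ρ g w) = ρ' g (T w)` for all `g`, by induction on `w`: let `w = y :: v`, `z = α g y`,
`k` as in (a), `g t_y = t_z k`. For `v = ρ s_y v'`: `ρ g (y :: v) = ρ (g t_y) (x :: v') =
ρ t_z (ρ k (x :: v')) = ρ t_z (x :: ρ (φ k) v') = z :: ρ (s_z (φ k)) v'`, so
`ρ g (y :: v) = z :: ρ (s_z (φ k) s_y⁻¹) v` for all `v`; in the same way
`ρ' g (π y :: v) = π z :: ρ' (s'_z (φ' k) s'_y⁻¹) v`. So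
`T (ρ g (y :: v)) = π z :: ρ' r_z (T (ρ (s_z (φ k) s_y⁻¹) v)) = π z :: ρ' (r_z s_z (φ k) s_y⁻¹) (T v)`
by induction, and `ρ' g (T (y :: v)) = π z :: ρ' (s'_z (φ' k) s'_y⁻¹ r_y) (T v)`, and
`r_z s_z (φ k) s_y⁻¹ = s'_z r (φ k) s_y⁻¹ = s'_z (φ' k) r s_y⁻¹ = s'_z (φ' k) s'_y⁻¹ r_y`.
(c) `T` preserves the length (induction, LET) and is bijective: injective by induction on the
word; surjective: by induction on the length of `z :: u`, take `w` with `T w = ρ' r_y⁻¹ u` where
`π y = z`. (d) Prefixes: `ρ' g u <+: ρ' g (u ++ v)` for all `g` by induction on `u` (LET), and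
`T u <+: T (u ++ v)` by induction on `u`. -/
def SpecEQV : Prop :=
  ∀ (m : ℕ) (ρ ρ' : G →* Equiv.Perm (List (Fin m))), SelfSimilar ρ → SelfSimilar ρ' →
    LetterTransitive ρ → LetterTransitive ρ' →
    ∀ (x x' : Fin m) (H : Subgroup G) (φ φ' : H →* G) (r : G),
    (∀ g : G, g ∈ H ↔ ρ g [x] = [x]) → (∀ g : G, g ∈ H ↔ ρ' g [x'] = [x']) →
    (∀ h : H, Section ρ x (h : G) (φ h)) → (∀ h : H, Section ρ' x' (h : G) (φ' h)) →
    (∀ h : H, φ' h = r * φ h * r⁻¹) → Equi ρ ρ'

/-- **IDX** (150 lines). USES TRA. Stabilisers of lines.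
PROOF. `G` acts on the vectors `(ZMod p)^3` by `red p g` (`red p (g h) = red p g * red p h`), so on
the projectivization `ℙ (ZMod p) (Fin 3 → ZMod p)` (`Projectivization.map` of the linear
equivalence, or the instance of `Mathlib.LinearAlgebra.Projectivization.Action`); it is transitive
by TRA. The stabiliser of `[v]` is `S`. `MulAction.index_stabilizer_of_transitive` and
`Projectivization.card_of_finrank` (`p² + p + 1` points). The second part: `th` is an involutive
automorphism of `G` (`th (g h) = th g * th h`, `th (th g) = g`), `S' = S.comap th`, the same index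
(`Subgroup.index_comap_of_surjective`). -/
def SpecIDX : Prop :=
  ∀ (p : ℕ) [Fact p.Prime] (v : Fin 3 → ZMod p), v ≠ 0 →
    (∃ S : Subgroup G, (∀ g : G, g ∈ S ↔ ∃ c : ZMod p, (red p g).mulVec v = c • v) ∧
      S.index = p ^ 2 + p + 1) ∧
    ∃ S : Subgroup G, (∀ g : G, g ∈ S ↔ ∃ c : ZMod p, (red p (th g)).mulVec v = c • v) ∧
      S.index = p ^ 2 + p + 1

/-- **LIN** (150 lines). USES nothing. A singular matrix mod `p` gives an invariant line.
PROOF. Let `Ā` be `A` mod `p` and `K` its kernel, `0 ≠ K ≠ (ZMod p)^3` since `det Ā = 0`, `Ā ≠ 0`. If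
`h A = A g` then `ḡ` maps `K` to `K` (`Ā ḡ v = h̄ Ā v = 0`). If `K` has dimension `1` it is spanned
by some `v`, first alternative. Otherwise it has dimension `2` (rank one): `Ā = u wᵀ`
(`Matrix.vecMulVec`), `u, w ≠ 0`, `K = w^⊥`; the same argument for `h⁻¹ A = A g⁻¹`:
`Ā ḡ⁻¹ = h̄⁻¹ Ā` gives `u (wᵀ ḡ⁻¹) = (h̄⁻¹ u) wᵀ`; look at a row `i` with `u_i ≠ 0`: `wᵀ ḡ⁻¹` is a
multiple of `wᵀ`, that is `(ḡ⁻¹)ᵀ w = c w`, and `(ḡ⁻¹)ᵀ` is `th g` mod `p`. (Without dimensions:
if all rows of `Ā` are multiples of one row `w ≠ 0` then `Ā = u wᵀ`. Otherwise two rows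
`a, b` are independent, every `v ∈ K` is orthogonal to both, so it is a multiple of the cross product
`a × b ≠ 0`; and `K ≠ 0`, so `K` is the line spanned by `a × b`.) -/
def SpecLIN : Prop :=
  ∀ (A : MZ) (p : ℕ) [Fact p.Prime], (p : ℤ) ∣ A.det → (∃ i j, ¬ ((p : ℤ) ∣ A i j)) →
    ∃ v : Fin 3 → ZMod p, v ≠ 0 ∧
      ((∀ g h : G, (h : MZ) * A = A * (g : MZ) → ∃ c : ZMod p, (red p g).mulVec v = c • v) ∨
        (∀ g h : G, (h : MZ) * A = A * (g : MZ) → ∃ c : ZMod p, (red p (th g)).mulVec v = c • v))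

/-- **CPR** (80 lines). USES PRZ. Primitive representatives of good matrices.
PROOF. PRZ: `A = c A'`, `c ≠ 0`, `A'` primitive, `det A = c³ det A'`. `det A'` is not `0`, and not a
unit because `A` is good. In `IsConj3` the factor `c` can be cancelled. -/
def SpecCPR : Prop :=
  ∀ A : MZ, Good A → ∃ A' : MZ, PrimM A' ∧ A'.det ≠ 0 ∧ ¬ IsUnit A'.det ∧
    ∀ (H : Subgroup G) (φ : H →* G), IsConj3 H φ A → IsConj3 H φ A'

/-- **SUL** (100 lines). USES LIN, IDX. The domain of a good virtual endomorphism stabilises a line.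
PROOF. Some prime `p` divides `det A` (`det A ≠ 0`, not a unit, `Int.exists_prime_and_dvd` or
`Nat.exists_prime_and_dvd` for `natAbs`); LIN gives `v`. First form of `IsConj3`: `φ(h) A = A h`:
for `g` in `H` one of `red p g`, `red p (th g)` (the same for all `g`) maps `v` to a multiple, so
`H ≤ S` for one of the two `S` of IDX. Second form: `φ(h) A = A (h⁻¹)ᵀ`, `(h⁻¹)ᵀ` is the matrix of
`th h`, apply LIN with `g = th h` and `th (th h) = h`. -/
def SpecSUL : Prop :=
  ∀ (H : Subgroup G) (φ : H →* G) (A : MZ), PrimM A → A.det ≠ 0 → ¬ IsUnit A.det →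
    IsConj3 H φ A → ∃ (p : ℕ) (_ : Fact p.Prime) (v : Fin 3 → ZMod p) (S : Subgroup G), v ≠ 0 ∧
      ((∀ g : G, g ∈ S ↔ ∃ c : ZMod p, (red p g).mulVec v = c • v) ∨
        (∀ g : G, g ∈ S ↔ ∃ c : ZMod p, (red p (th g)).mulVec v = c • v)) ∧
      S.index = p ^ 2 + p + 1 ∧ H ≤ S

/-- **LIX** (80 lines). USES LET. The index of the stabiliser of a letter.
PROOF. Let `α` be as in LET; the `MulAction` of `G` on `Fin m` through `α`
(`MulAction.compHom (Fin m) α`). `g ∈ H ↔ α g x = x`, so `H` is the stabiliser of `x` and its index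
is the number of letters in the orbit of `x` (`MulAction.index_stabilizer`), at most `m`. It is not
`0` because the orbit is finite and not empty. If it is `m` then the orbit is everything; if `ρ` is
transitive on the letters it is `m` (`MulAction.index_stabilizer_of_transitive`).
`ρ g [y] = [α g y]`. -/
def SpecLIX : Prop :=
  ∀ (m : ℕ) (ρ : G →* Equiv.Perm (List (Fin m))), SelfSimilar ρ → ∀ (x : Fin m) (H : Subgroup G),
    (∀ g : G, g ∈ H ↔ ρ g [x] = [x]) →
    H.index ≠ 0 ∧ H.index ≤ m ∧ (H.index = m ↔ LetterTransitive ρ)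

/-- **DIV** (60 lines). USES SEC, CLS, CPR, SUL, LIX. THEOREM E (1).
PROOF. `m = 0`: `p = 2`. Otherwise take a letter `x`; SEC gives `H, φ`, CLS `A`, CPR `A'`, SUL
`H ≤ S`, so `S.index ∣ H.index` (`Subgroup.index_dvd_of_le`) and `H.index = m` by LIX. -/
def SpecDIV : Prop :=
  ∀ (m : ℕ) (ρ : G →* Equiv.Perm (List (Fin m))), Function.Injective ρ → SelfSimilar ρ →
    LetterTransitive ρ → ∃ p : ℕ, p.Prime ∧ p ^ 2 + p + 1 ∣ m

/-- **DET** (150 lines). USES nothing. The determinant is bounded.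
PROOF. Let `d = det A`, `C = adj A`, `A C = C A = d 1`. For `i ≠ j`, `B_ij A = A (1 + N E_ij)`;
multiply by `C` on the right: `d B_ij = d 1 + N A E_ij C`. So `d ∣ N A_ai C_jb` for all `a, b` and
`i ≠ j` (`(A E_ij C)_ab = A_ai C_jb`). For `i = j` take `k ≠ i`: by the above
`d ∣ N A_ai C_kb` and `d ∣ N A_ak C_ib'`, in matrix form `N A E_ik C = d X`, `N A E_ki C = d Y`,
so `d² X Y = N² A E_ik C A E_ki C = N² d A E_ii C`, and `d ∣ N² A_ai C_ib`. So
`d ∣ N² A_ai C_jb` for all `a, i, j, b`. Fix `j, b` and let `c = N² C_jb`. The integers `z` with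
`d ∣ c z` form an ideal `(q)` of `ℤ` containing all entries of `A`; if `q` is not a unit then it is
divisible by a prime (or is `0`, but `A ≠ 0`; if `q = 0` all entries are `0`), which divides all
entries of `A`, contradiction. So `d ∣ c`. Hence `N² C = d B`, and the determinants give
`N⁶ d² = N⁶ det C = d³ det B`, `N⁶ = d det B`. -/
def SpecDET : Prop :=
  ∀ (A : MZ) (N : ℤ), PrimM A → A.det ≠ 0 →
    (∀ i j : Fin 3, i ≠ j → ∃ B : MZ, B * A = A * (1 + N • Matrix.single i j 1)) → A.det ∣ N ^ 6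

/-- **ROW** (120 lines). USES nothing. Finitely many matrices up to unimodular factors.
PROOF. `R(A) = {u A : u ∈ ℤ³}`. `D = k det A`, so `D z = (k z adj(A)) A ∈ R(A)` for `z ∈ ℤ³`. Every row
of `A'` is in `R(A')`, its image mod `D` is in the first set, hence in the second one (the sets are
equal): the row is `u A + D z ∈ R(A)`. So `A' = U A` with `U` integral, and in the same way
`A = U' A'`. `U' U A = A`, so `U' U = 1` (cancel `A`, `det A ≠ 0`), and `det U` is a unit. -/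
def SpecROW : Prop :=
  ∀ (A A' : MZ) (D : ℕ), A.det ≠ 0 → A'.det ≠ 0 → A.det ∣ (D : ℤ) → A'.det ∣ (D : ℤ) →
    {z : Fin 3 → ZMod D | ∃ u : Fin 3 → ℤ, ∀ j, z j = (((Matrix.vecMul u A) j : ℤ) : ZMod D)} =
      {z : Fin 3 → ZMod D | ∃ u : Fin 3 → ℤ, ∀ j, z j = (((Matrix.vecMul u A') j : ℤ) : ZMod D)} →
    ∃ U : MZ, IsUnit U.det ∧ A' = U * A

/-- **CJU** (80 lines). USES nothing. Unimodular factors are inner automorphisms.
PROOF. `det U = ±1`; let `r` be `U` or `-U` (`3` is odd), in `G`, so `r φ(h) r⁻¹ = U φ(h) U⁻¹`. First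
form: `φ'(h) U A = U A h = U φ(h) A`, so `φ'(h) U = U φ(h)` (cancel `A`), and
`φ'(h) r = r φ(h)`. The second form is the same with `(h⁻¹)ᵀ` in place of `h`. -/
def SpecCJU : Prop :=
  ∀ (H : Subgroup G) (φ φ' : H →* G) (A U : MZ), A.det ≠ 0 → IsUnit U.det →
    ((∀ h : H, (φ h : MZ) * A = A * ((h : G) : MZ)) ∧
        (∀ h : H, (φ' h : MZ) * (U * A) = U * A * ((h : G) : MZ)) ∨
      (∀ h : H, (φ h : MZ) * A = A * (((h : G)⁻¹ : G) : MZ).transpose) ∧
        (∀ h : H, (φ' h : MZ) * (U * A) = U * A * (((h : G)⁻¹ : G) : MZ).transpose)) →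
    ∃ r : G, ∀ h : H, φ' h = r * φ h * r⁻¹

/-- **REL** (150 lines). USES GEN, LET, SEC, CLS, CPR, DET, ROW, CJU, EQV. Finitely many invariants.
PROOF. `Fin m` is not empty. Let `x = 0`, `N = (m !)`, `D = N ^ 6` (as a natural number). Let
`ι = (generators' images) × Bool × Set (Fin 3 → ZMod D)`: `ι = ((Fin 3 → Fin 3 → Equiv.Perm (Fin m))
× Bool × Set (Fin 3 → ZMod D))`, a finite type. For `ρ` let `α` be as in LET, `H, φ` as in SEC for
`x`, `A` from CLS and CPR (primitive, `IsConj3 H φ A`). `R ρ i` means: `i` is the triple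
`(fun a b => α (el a b 1))`, `true` if the first form of `IsConj3` holds, `false` if the second one
holds, the set of ROW for `A`, for some such `α, H, φ, A`. `(el a b 1) ^ N = el a b N` and
`α (el a b 1) ^ N = 1` (`N` is the order of `Equiv.Perm (Fin m)`, `pow_card_eq_one`), so
`el a b N ∈ H` and `φ (el a b N) A = A (1 + N E_ab)` in the first form, and in the second form
`φ (el b a (-N)) A = A (1 + N E_ab)`: DET gives `det A ∣ D`. If `R ρ i` and `R ρ' i` then
`α = α'` by GEN (`MonoidHom.eqOn_closure`..), so `H = H'` (`g ∈ H ↔ α g x = x`); ROW gives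
`A' = U A`, CJU `r`, EQV the equivalence. -/
def SpecREL : Prop :=
  ∀ m : ℕ, 0 < m → ∃ (ι : Type) (_ : Finite ι) (R : (G →* Equiv.Perm (List (Fin m))) → ι → Prop),
    (∀ ρ : G →* Equiv.Perm (List (Fin m)), Function.Injective ρ → SelfSimilar ρ →
      LetterTransitive ρ → ∃ i, R ρ i) ∧
    ∀ (ρ ρ' : G →* Equiv.Perm (List (Fin m))) (i : ι), SelfSimilar ρ → SelfSimilar ρ' →
      LetterTransitive ρ → LetterTransitive ρ' → R ρ i → R ρ' i → Equi ρ ρ'

/-- **FNT** (60 lines). USES REL. THEOREM E (2).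
PROOF. `m = 0`: there is one permutation of the words over `Fin 0` (a subsingleton), so one `ρ`.
`m > 0`: for every `i` of REL such that `R ρ i` for some faithful self-similar letter-transitive
`ρ` choose one such `ρ_i`; `F` is the set of the chosen ones (finite: the range over a finite type,
use a default value or `Set.Finite.subset`). -/
def SpecFNT : Prop :=
  ∀ m : ℕ, ∃ F : Set (G →* Equiv.Perm (List (Fin m))), F.Finite ∧
    (∀ ρ ∈ F, Function.Injective ρ ∧ SelfSimilar ρ ∧ LetterTransitive ρ) ∧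
    ∀ ρ : G →* Equiv.Perm (List (Fin m)), Function.Injective ρ → SelfSimilar ρ →
      LetterTransitive ρ → ∃ ρ' ∈ F, Equi ρ' ρ

/-! ## Seven letters -/

/-- **NFP** (150 lines). USES nothing. Matrices conjugating `P` into `SL_3(Z)`.
PROOF. `d = det A`, `C = adj A`. For `g = 1 + E_ij` in `P` (`(i,j)` one of `01, 02, 12, 21`) and for
`g = 1 + 2 E_i0`, `i = 1, 2` (also in `P`), as in DET: `d ∣ A_ai C_jb` for `(i,j)` in
`{01, 02, 12, 21}` and `d ∣ 2 A_ai C_0b` for `i = 1, 2`, all `a, b`. From `12, 21` (product of the two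
integral matrices `A E_12 C / d` and `A E_21 C / d`): `d ∣ A_a1 C_1b`, and in the same way
`d ∣ A_a2 C_2b`. So `d ∣ A_ai C_jb` for `j = 1, 2` and all `i`: for `j = 1`: `01`, `11`, `21`; for
`j = 2`: `02`, `12`, `22`. As `A` is primitive (argument of DET) `d ∣ C_1b`, `d ∣ C_2b` for all `b`.
From `A C = d 1`: `Σ_i A_ai C_ib = d δ_ab`, so `d ∣ A_a0 C_0b`, and `d ∣ 2 A_ai C_0b` for all `i`, so
`d ∣ 2 C_0b`. Hence `C = d diag(1/2,1,1) V`, that is `D1 C = d V` with `V` integral. Multiply by `A`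
on the right: `d D1 = d V A`, `D1 = V A`, `2 = det V d`. `d` is not a unit, so `det V` is a unit
(`2` is prime), and `A = U D1` with `U = V⁻¹` (integral, `U V = 1`). -/
def SpecNFP : Prop :=
  ∀ A : MZ, PrimM A → A.det ≠ 0 → ¬ IsUnit A.det →
    (∀ g : G, InP g → ∃ h : G, (h : MZ) * A = A * (g : MZ)) → ∃ U : MZ, IsUnit U.det ∧ A = U * D1

/-- **NFQ** (150 lines). USES nothing. Matrices conjugating `Q` into `SL_3(Z)`.
PROOF. As NFP, with `g = 1 + E_ij`, `(i,j)` one of `10, 20, 12, 21`, and `g = 1 + 2 E_0j`, `j = 1, 2`: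
`d ∣ A_ai C_jb` for `(i,j)` in `{10, 20, 12, 21, 11, 22}`, `d ∣ 2 A_a0 C_jb` for `j = 1, 2`, and
from `A C = d 1` also `d ∣ A_a0 C_0b`. So `d ∣ A_ai C_0b` for all `i` (`00`, `10`, `20`),
hence `d ∣ C_0b`; and `d ∣ 2 A_ai C_jb` for all `i` and `j = 1, 2`, hence `d ∣ 2 C_1b`, `d ∣ 2 C_2b`.
So `D2 C = d V`, `V` integral, `D2 = V A`, `4 = det V d`. For `i, j` in `{1, 2}`: `C_jb = d V_jb / 2`, so
`d ∣ A_ai C_jb` says that `A_ai V_jb` is even. If some `A_ai` with `i` in `{1, 2}` is odd then the rows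
`1, 2` of `V` are even, `4 ∣ det V`, so `d = ±1`, contradiction. So the columns `1, 2` of `A` are even:
`A = B D2` with `B` integral, `V B D2 = V A = D2`, `V B = 1` (cancel `D2`), and `det B` is a unit. -/
def SpecNFQ : Prop :=
  ∀ A : MZ, PrimM A → A.det ≠ 0 → ¬ IsUnit A.det →
    (∀ g : G, InQ g → ∃ h : G, (h : MZ) * A = A * (g : MZ)) → ∃ U : MZ, IsUnit U.det ∧ A = U * D2

/-- **SVA** (200 lines). USES MIX, CPR, SUL, LIX, TRA, LET. Actions over seven letters.
PROOF. MIX: a letter `x`, `H, φ, A`, CPR, SUL: `H ≤ S`, `S.index = p² + p + 1`. LIX: `H.index ≠ 0`,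
`≤ 7`; `S.index ∣ H.index`, so `p = 2`, `H.index = 7 = S.index`, so `H = S`
(`Subgroup.relIndex_mul_index`, `Subgroup.relIndex_eq_one`) and `ρ` is transitive on the letters. By
TRA there is `k` in `G` with `k v = c e_0` mod `2` (`v` of SUL, `w = e_0 = (1,0,0)`), `c ≠ 0`, so
`k v = e_0`. First kind of `S`: let `x₀` be the letter with `ρ k [x] = [x₀]` (LET). `g` fixes `x₀` iff
`k⁻¹ g k ∈ H = S` iff `k⁻¹ g k v` is a multiple of `v` iff `g e_0` is a multiple of `e_0` mod `2` iff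
`g_10`, `g_20` are even. Second kind: `k = th q`, `q = th k`, `ρ q [x] = [x₀]`: `g` fixes `x₀` iff
`th (q⁻¹ g q) v = k⁻¹ (th g) k v` is a multiple of `v` iff the entries `10`, `20` of `th g` are even, iff
the entries `01`, `02` of `g⁻¹` are even, iff those of `g` are even (`g` and `g⁻¹` map
the functional `(1,0,0)` mod `2` to a multiple of itself at the same time; or the formula of the
adjugate). -/
def SpecSVA : Prop :=
  ∀ ρ : G →* Equiv.Perm (List (Fin 7)), Function.Injective ρ → SelfSimilar ρ →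
    LetterTransitive ρ ∧ ∃ x : Fin 7, (∀ g : G, ρ g [x] = [x] ↔ InP g) ∨
      (∀ g : G, ρ g [x] = [x] ↔ InQ g)

/-- **DOM** (100 lines). USES nothing. The domains of the four standard virtual endomorphisms.
PROOF. `D1 g adj(D1)`: `h D1 = D1 g` means `2 h_i0 = g_i0` (`i = 1, 2`), `h_0j = 2 g_0j` (`j = 1, 2`),
`h_00 = g_00`, `h_ij = g_ij` else; such an integral `h` exists iff `g_10, g_20` are even, its
determinant is `1` (`det h det D1 = det D1 det g`). `D2` in the same way: `g_01, g_02` even. For the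
other two: `(g⁻¹)ᵀ` is the matrix of `th g`, and `InP (th g) ↔ InQ g`, `InQ (th g) ↔ InP g`: the
entries of `g⁻¹` are minors of `g`; if `g_01, g_02` are even then `(g⁻¹)_01`, `(g⁻¹)_02` are even
(`(g⁻¹)_01 = g_02 g_21 - g_01 g_22`, ..), and conversely with `g⁻¹` for `g`. The last two claims: for
the `h` of the first form `h_01, h_02` are even; for `D2` `h_10, h_20` are even
(`h_i0 = 2 g_i0`). -/
def SpecDOM : Prop :=
  (∀ g : G, (∃ h : G, (h : MZ) * D1 = D1 * (g : MZ)) ↔ InP g) ∧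
  (∀ g : G, (∃ h : G, (h : MZ) * D2 = D2 * (g : MZ)) ↔ InQ g) ∧
  (∀ g : G, InP (th g) ↔ InQ g) ∧ (∀ g : G, InQ (th g) ↔ InP g) ∧
  (∀ g h : G, (h : MZ) * D1 = D1 * (g : MZ) → InQ h) ∧
  (∀ g h : G, (h : MZ) * D2 = D2 * (g : MZ) → InP h) ∧
  (∀ h : G, InQ h → ∃ g : G, (h : MZ) * D1 = D1 * (g : MZ)) ∧
  (∀ h : G, InP h → ∃ g : G, (h : MZ) * D2 = D2 * (g : MZ))

/-- **STD** (120 lines). USES FNB, DOM, IDX, LIX. The four standard actions.
PROOF. `D1`, `D2` are good: if `D1 = c B`, `det B = ±1` then `2 = ± c³`, impossible; `4 = ± c³` is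
impossible too. FNB (2) for `A = D1`, `D2` in both forms gives `m, ρ, x`. The stabiliser of `x` is
`{g : InP g}` or `{g : InQ g}` by DOM (second form: `((g⁻¹ : G) : MZ).transpose` is the matrix of
`th g`). Its index is `7`: `InP g` iff `red 2 g` maps `e_0` to a multiple of `e_0`, `InQ g` iff
`InP (th g)` iff `red 2 (th g)` maps `e_0` to a multiple of `e_0`: IDX for `p = 2`. LIX: `m = 7`;
substitute. -/
def SpecSTD : Prop :=
  (∃ (ρ : G →* Equiv.Perm (List (Fin 7))) (x : Fin 7), Function.Injective ρ ∧ SelfSimilar ρ ∧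
    LetterTransitive ρ ∧ (∀ g : G, ρ g [x] = [x] ↔ InP g) ∧
    ∀ g h : G, (h : MZ) * D1 = D1 * (g : MZ) → Section ρ x g h) ∧
  (∃ (ρ : G →* Equiv.Perm (List (Fin 7))) (x : Fin 7), Function.Injective ρ ∧ SelfSimilar ρ ∧
    LetterTransitive ρ ∧ (∀ g : G, ρ g [x] = [x] ↔ InP g) ∧
    ∀ g h : G, (h : MZ) * D2 = D2 * (th g : MZ) → Section ρ x g h) ∧
  (∃ (ρ : G →* Equiv.Perm (List (Fin 7))) (x : Fin 7), Function.Injective ρ ∧ SelfSimilar ρ ∧
    LetterTransitive ρ ∧ (∀ g : G, ρ g [x] = [x] ↔ InQ g) ∧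
    ∀ g h : G, (h : MZ) * D2 = D2 * (g : MZ) → Section ρ x g h) ∧
  (∃ (ρ : G →* Equiv.Perm (List (Fin 7))) (x : Fin 7), Function.Injective ρ ∧ SelfSimilar ρ ∧
    LetterTransitive ρ ∧ (∀ g : G, ρ g [x] = [x] ↔ InQ g) ∧
    ∀ g h : G, (h : MZ) * D1 = D1 * (th g : MZ) → Section ρ x g h)

/-- **UNQ** (180 lines). USES SEC, CLS, CPR, NFP, NFQ, DOM, CJU, EQV. Uniqueness.
PROOF. Let `σ` be another faithful, self-similar, letter-transitive action with a letter `y` with the
same stabiliser `P = {g : InP g}` (or `Q`). SEC for `σ, y`: `H, φ`, CLS and CPR: `A` primitive,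
`IsConj3 H φ A`. If the first form holds and `H = P`: every `g` in `P` has `h = φ g` with `h A = A g`,
NFP: `A = U D1`. So `φ(h) U D1 = U D1 h`. Let `ρ, x` be the first action of the hypothesis, `ψ` its
section homomorphism on `H` (SEC for `ρ, x`; the subgroup is the same because its elements are
described by `InP`; `ψ(h) D1 = D1 h` because by DOM there is `h'` with `h' D1 = D1 h`, `Section ρ x h h'`,
and `ψ h = h'` by SEC). CJU: `φ = r ψ r⁻¹`, EQV: `Equi ρ σ`. Second form, `H = P`: for `g` with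
`InQ g`, `InP (th g)`, `φ(th g) A = A (th (th g)) = A g`: NFQ: `A = U D2`, the same conclusion with the
second action. `H = Q`, first form: NFQ, `A = U D2`, third action; second form: NFP, `A = U D1`,
fourth action. -/
def SpecUNQ : Prop :=
  ∀ (ρ₁ ρ₂ ρ₃ ρ₄ σ : G →* Equiv.Perm (List (Fin 7))) (x₁ x₂ x₃ x₄ y : Fin 7),
    (Function.Injective ρ₁ ∧ SelfSimilar ρ₁ ∧ LetterTransitive ρ₁ ∧
      (∀ g : G, ρ₁ g [x₁] = [x₁] ↔ InP g) ∧
      ∀ g h : G, (h : MZ) * D1 = D1 * (g : MZ) → Section ρ₁ x₁ g h) →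
    (Function.Injective ρ₂ ∧ SelfSimilar ρ₂ ∧ LetterTransitive ρ₂ ∧
      (∀ g : G, ρ₂ g [x₂] = [x₂] ↔ InP g) ∧
      ∀ g h : G, (h : MZ) * D2 = D2 * (th g : MZ) → Section ρ₂ x₂ g h) →
    (Function.Injective ρ₃ ∧ SelfSimilar ρ₃ ∧ LetterTransitive ρ₃ ∧
      (∀ g : G, ρ₃ g [x₃] = [x₃] ↔ InQ g) ∧
      ∀ g h : G, (h : MZ) * D2 = D2 * (g : MZ) → Section ρ₃ x₃ g h) →
    (Function.Injective ρ₄ ∧ SelfSimilar ρ₄ ∧ LetterTransitive ρ₄ ∧
      (∀ g : G, ρ₄ g [x₄] = [x₄] ↔ InQ g) ∧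
      ∀ g h : G, (h : MZ) * D1 = D1 * (th g : MZ) → Section ρ₄ x₄ g h) →
    Function.Injective σ → SelfSimilar σ → LetterTransitive σ →
    ((∀ g : G, σ g [y] = [y] ↔ InP g) → Equi ρ₁ σ ∨ Equi ρ₂ σ) ∧
    ((∀ g : G, σ g [y] = [y] ↔ InQ g) → Equi ρ₃ σ ∨ Equi ρ₄ σ)

/-- **IV1** (100 lines). USES nothing. Points and lines are different.
PROOF. `T [x] = [z]` (length one). `σ g [z] = [z] ↔ T (ρ g [x]) = T [x] ↔ InP g`. By transitivity
`σ t [y] = [z]`. So for all `g`: `InP g ↔ σ g [z] = [z] ↔ InQ (t⁻¹ g t)`, that is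
`InQ g ↔ InP (t g t⁻¹)` for all `g`. Let `v = red 2 (t⁻¹) e_0 ≠ 0`. `InP k` iff `k e_0 = e_0` mod `2`
(the entry `k_00` is then odd). So every `g` with `InQ g` has `g v = v` mod `2`. With
`g = 1 + E_12, 1 + E_21, 1 + E_10` (all satisfy `InQ`): `v_2 = 0`, `v_1 = 0`, `v_0 = 0`, contradiction.
For `Equi σ ρ` let `[z] = T⁻¹ [x]` (`T` preserves lengths); again `σ g [z] = [z] ↔ InP g`. -/
def SpecIV1 : Prop :=
  ∀ (m : ℕ) (ρ σ : G →* Equiv.Perm (List (Fin m))) (x y : Fin m), LetterTransitive σ →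
    (∀ g : G, ρ g [x] = [x] ↔ InP g) → (∀ g : G, σ g [y] = [y] ↔ InQ g) → ¬ Equi ρ σ ∧ ¬ Equi σ ρ

/-- **IV2** (120 lines). USES LET, DOM. The second form has a word of length two with the stabiliser of
its first letter, the first form has not.
PROOF. (1) `ρ, x` with `InP` and second form: for `g` with `ρ g [x] = [x]`: `InP g`, `InQ (th g)`, by
DOM some `h` has `h D2 = D2 (th g)`, and `InP h`, so `ρ g [x, x] = x :: ρ h [x] = [x, x]`. With `InQ`:
`InP (th g)`, `h D1 = D1 (th g)`, `InQ h`. (2) `σ, y` with `InP` and first form; suppose that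
`σ g [a] = [a]` implies `σ g [a, b] = [a, b]` for some letters `a, b`. `σ t [y] = [a]`; let
`σ t (y :: w) = a :: σ s w` (LET) and `[z] = σ s⁻¹ [b]`. For `g` with `InP g`: `σ g [y] = [y]`, so
`t g t⁻¹` fixes `[a]`, hence `[a, b]`, hence `g` fixes `[y, z]`. So for every `h` with `h D1 = D1 g`,
`InP g`, `σ h [z] = [z]`; by DOM (last part) this holds for every `h` with `InQ h`. `σ u [y] = [z]` for
some `u`: so `InQ h` implies `InP (u⁻¹ h u)`: impossible as in IV1 (`v = red 2 u e_0`, fixed mod `2` by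
`1 + E_12, 1 + E_21, 1 + E_10`). With `InQ` and the first form (`D2`): every `h` with `InP h` satisfies
`InQ (u⁻¹ h u)`, that is `InP (th (u⁻¹ h u)) `, `InP (th u⁻¹ (th h) th u)`, and `th h` runs over all
elements with `InQ`: the same contradiction. -/
def SpecIV2 : Prop :=
  (∀ (ρ : G →* Equiv.Perm (List (Fin 7))) (x : Fin 7),
    ((∀ g : G, ρ g [x] = [x] ↔ InP g) ∧
      (∀ g h : G, (h : MZ) * D2 = D2 * (th g : MZ) → Section ρ x g h)) ∨
    ((∀ g : G, ρ g [x] = [x] ↔ InQ g) ∧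
      (∀ g h : G, (h : MZ) * D1 = D1 * (th g : MZ) → Section ρ x g h)) →
    ∃ a b : Fin 7, ∀ g : G, ρ g [a] = [a] → ρ g [a, b] = [a, b]) ∧
  (∀ (σ : G →* Equiv.Perm (List (Fin 7))) (y : Fin 7), SelfSimilar σ → LetterTransitive σ →
    ((∀ g : G, σ g [y] = [y] ↔ InP g) ∧
      (∀ g h : G, (h : MZ) * D1 = D1 * (g : MZ) → Section σ y g h)) ∨
    ((∀ g : G, σ g [y] = [y] ↔ InQ g) ∧
      (∀ g h : G, (h : MZ) * D2 = D2 * (g : MZ) → Section σ y g h)) →
    ∀ a b : Fin 7, ∃ g : G, σ g [a] = [a] ∧ σ g [a, b] ≠ [a, b])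

/-- **IV3** (60 lines). USES nothing. The property of IV2 is invariant.
PROOF. `T [a] = [a']` and `T [a, b]` has length two and the prefix `T [a]`, so it is `[a', b']`. If
`σ g [a'] = [a']` then `T (ρ g [a]) = T [a]`, `ρ g [a] = [a]`, `ρ g [a, b] = [a, b]`, and
`σ g [a', b'] = T (ρ g [a, b]) = [a', b']`. For the other direction note that `T⁻¹` preserves lengths
and prefixes too: `T⁻¹ [a'] = [a]` (length one), `T⁻¹ [a', b'] = [c, d]` (length two); `T [c] ` is the
prefix of length one of `T [c, d] = [a', b']`, so `T [c] = [a']`, `c = a`. -/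
def SpecIV3 : Prop :=
  ∀ (m : ℕ) (ρ σ : G →* Equiv.Perm (List (Fin m))), Equi ρ σ →
    ((∃ a b : Fin m, ∀ g : G, ρ g [a] = [a] → ρ g [a, b] = [a, b]) ↔
      ∃ a b : Fin m, ∀ g : G, σ g [a] = [a] → σ g [a, b] = [a, b])

/-- **FNE** (80 lines). USES SVA, STD, UNQ, IV1, IV2, IV3. THEOREM E (3).
PROOF. `F 0, .., F 3` are the four actions of STD. Every faithful self-similar `σ` is transitive on the
letters and has a letter with stabiliser `P` or `Q` (SVA): UNQ. Different ones are not equivalent: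
`{0, 1}` against `{2, 3}` by IV1, `0` against `1` and `2` against `3` by IV2 and IV3. -/
def SpecFNE : Prop :=
  ∃ F : Fin 4 → (G →* Equiv.Perm (List (Fin 7))),
    (∀ i, Function.Injective (F i) ∧ SelfSimilar (F i)) ∧
    (∀ i j, i ≠ j → ¬ Equi (F i) (F j)) ∧
    ∀ σ : G →* Equiv.Perm (List (Fin 7)), Function.Injective σ → SelfSimilar σ →
      ∃ i, Equi (F i) σ

end Pool.Agent.Lib.MP8519b0
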